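import Mathlib.RingTheory.MvPolynomial.Homogeneous
import Mathlib.FieldTheory.AlgebraicClosure
import Mathlib.Analysis.Complex.Exponential
import Mathlib.Analysis.InnerProductSpace.Basic
import Mathlib.Analysis.Calculus.FDeriv.Defs
import Mathlib.Analysis.Analytic.Basic
import Mathlib.Analysis.CStarAlgebra.Classes

/-! Simple abelian varieties over the algebraic numbers, in their theta model:
`exp_A : ℂ^g → A(ℂ) ⊂ ℙ^N(ℂ)`, `z ↦ (Θ_0(z) : … : Θ_N(z))`. -/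

namespace Pool.Agent.CMP

open MvPolynomial

/-- The field of algebraic numbers inside `ℂ`. -/
noncomputable abbrev Qb : IntermediateField ℚ ℂ := algebraicClosure ℚ ℂ

/-- `X ⊂ ℂ^g` is the preimage under `Θ` of a Zariski closed subset of `ℙ^N(ℂ)`. -/
def ZClosed {g N : ℕ} (Θ : Fin (N + 1) → (Fin g → ℂ) → ℂ) (X : Set (Fin g → ℂ)) : Prop :=
  ∃ S : Set (MvPolynomial (Fin (N + 1)) ℂ), (∀ P ∈ S, ∃ n, P.IsHomogeneous n) ∧
    ∀ z, z ∈ X ↔ ∀ P ∈ S, eval (fun i => Θ i z) P = 0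

/-- `Θ` is the exponential map of a simple abelian variety `A ⊂ ℙ^N` over `Qb`, written in a
`Qb`-basis of its Lie algebra, and `Λ` is a lattice of periods. -/
structure IsAbelian {g N : ℕ} (Θ : Fin (N + 1) → (Fin g → ℂ) → ℂ)
    (Λ : AddSubgroup (Fin g → ℂ)) : Prop where
  /-- the `Θ i` are entire -/
  hol : ∀ i z, AnalyticAt ℂ (Θ i) z
  /-- without common zero -/
  ne : ∀ z, ∃ i, Θ i z ≠ 0
  /-- `Λ` is a lattice -/
  lat : ∃ b : Module.Basis (Fin (2 * g)) ℝ (Fin g → ℂ), Λ = AddSubgroup.closure (Set.range b)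
  /-- the `Θ i` are theta functions of one type for `Λ` -/
  theta : ∀ l ∈ Λ, ∃ (L : (Fin g → ℂ) →ₗ[ℂ] ℂ) (c : ℂ),
    ∀ i z, Θ i (z + l) = Complex.exp (L z + c) * Θ i z
  /-- the image `A` is a projective variety defined over `Qb` -/
  alg : ∃ S : Set (MvPolynomial (Fin (N + 1)) Qb), (∀ P ∈ S, ∃ n, P.IsHomogeneous n) ∧
    ∀ x : Fin (N + 1) → ℂ, x ≠ 0 →
      ((∀ P ∈ S, aeval x P = 0) ↔ ∃ (a : ℂ) (z : Fin g → ℂ), ∀ i, x i = a * Θ i z)
  /-- the group law of `A` is given near each point of `A × A` by forms of bidegree `(c, c)`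
  over `Qb` -/
  add : ∃ c : ℕ, ∀ z₀ w₀ : Fin g → ℂ,
    ∃ (A : Fin (N + 1) → MvPolynomial (Fin (N + 1)) (MvPolynomial (Fin (N + 1)) Qb))
      (u : (Fin g → ℂ) → (Fin g → ℂ) → ℂ),
      (∀ i, (A i).IsHomogeneous c ∧ ∀ m, ((A i).coeff m).IsHomogeneous c) ∧ u z₀ w₀ ≠ 0 ∧
      ∀ z w i, eval (fun j => Θ j z) (map (aeval (fun j => Θ j w) :
        MvPolynomial (Fin (N + 1)) Qb →ₐ[Qb] ℂ).toRingHom (A i)) = u z w * Θ i (z + w)
  /-- the origin lies in the chart `X₀ ≠ 0` -/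
  ne0 : Θ 0 0 ≠ 0
  /-- the origin is an algebraic point -/
  rat0 : ∀ i, IsAlgebraic ℚ (Θ i 0 / Θ 0 0)
  /-- the standard basis of `ℂ^g` consists of algebraic tangent vectors at the origin -/
  rat1 : ∀ i k, IsAlgebraic ℚ (fderiv ℂ (fun z => Θ i z / Θ 0 z) 0 (Pi.single k 1))
  /-- the differential at the origin is injective -/
  imm : Function.Injective (fderiv ℂ (fun z i => Θ i z / Θ 0 z) 0)
  /-- `A` is simple: an algebraic subgroup is everything or finite -/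
  simple : ∀ H : AddSubgroup (Fin g → ℂ), ZClosed Θ H →
    H = ⊤ ∨ (H.map (QuotientAddGroup.mk' Λ) : Set ((Fin g → ℂ) ⧸ Λ)).Finite

end Pool.Agent.CMP
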