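import Mathlib.Algebra.CharP.IntermediateField
import Mathlib.RingTheory.AlgebraicIndependent.Basic
import Mathlib.Order.CompletePartialOrder
import Pool.Agent.MP_cbf1af_ag.cmp.Defs
import Mathlib.RingTheory.PicardGroup
import Mathlib.Topology.Algebra.Module.FiniteDimension
import Mathlib.Analysis.Calculus.FDeriv.Analytic
import Mathlib.Analysis.Calculus.InverseFunctionTheorem.FDeriv
import Mathlib.Tactic.Polynomial.Basic

-- ======== part 0: formerly Pool.Agent.MP_cbf1af_ag.cmp.Spec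
section MrgPart0

/-! PROJECT CMP: working definitions and module statements.
Proofs on paper: /team-store/CMP_BLUEPRINT.md -/

namespace Pool.Agent.CMP

open MvPolynomial Filter Topology

noncomputable section

/-- value of a form on the point with parameter `z` -/
def ev {g N : ℕ} (Θ : Fin (N + 1) → (Fin g → ℂ) → ℂ) (P : MvPolynomial (Fin (N + 1)) ℂ)
    (z : Fin g → ℂ) : ℂ := eval (fun i => Θ i z) P

/-- affine coordinates in the chart `X₀ ≠ 0` -/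
def fn {g N : ℕ} (Θ : Fin (N + 1) → (Fin g → ℂ) → ℂ) (z : Fin g → ℂ) (i : Fin (N + 1)) : ℂ :=
  Θ i z / Θ 0 z

/-- iterated directional derivative along a word in the directions `w j` -/
def wd {g r : ℕ} (w : Fin r → Fin g → ℂ) :
    List (Fin r) → ((Fin g → ℂ) → ℂ) → (Fin g → ℂ) → ℂ
  | [], f => f
  | j :: l, f => wd w l (fun z => fderiv ℂ f z (w j))

/-- `f` vanishes to order `k` at `p` along the span of the `w j` -/
def Ord {g r : ℕ} (w : Fin r → Fin g → ℂ) (k : ℕ) (f : (Fin g → ℂ) → ℂ) (p : Fin g → ℂ) : Prop :=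
  (fun x : Fin r → ℂ => f (p + ∑ j, x j • w j)) =O[𝓝 0] fun x => ‖x‖ ^ k

/-- signed monomials of degree at most `n` in the generators `θ` -/
def Mon {ι B : Type} [CommRing B] (θ : ι → B) (n : ℕ) : Set B :=
  {x | ∃ l : List ι, l.length ≤ n ∧ (x = (l.map θ).prod ∨ x = -(l.map θ).prod)}

/-- sums of at most `L` elements of `A` -/
def Len {B : Type} [AddCommMonoid B] (A : Set B) (L : ℕ) (x : B) : Prop :=
  ∃ l : List B, l.length ≤ L ∧ (∀ y ∈ l, y ∈ A) ∧ l.sum = x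

/-- degree at most `n` and length at most `L` in the generators `θ` -/
def Sz {ι B : Type} [CommRing B] (θ : ι → B) (n L : ℕ) (x : B) : Prop := Len (Mon θ n) L x

/-- `u` is a real quadratic function, in the weak form used by the sampling lemma -/
def Quad {g : ℕ} (u : (Fin g → ℂ) → ℝ) : Prop :=
  ∃ C : ℝ, ∀ p, ∃ l : (Fin g → ℂ) →L[ℂ] ℂ, ∀ ζ, |u (p + ζ) - u p - (l ζ).re| ≤ C * ‖ζ‖ ^ 2

/-- `u` is a weight: `|Θ i| exp (-u)` is periodic and bounded -/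
def IsWt {g N : ℕ} (Θ : Fin (N + 1) → (Fin g → ℂ) → ℂ) (Λ : AddSubgroup (Fin g → ℂ))
    (u : (Fin g → ℂ) → ℝ) : Prop :=
  Quad u ∧ (∀ l ∈ Λ, ∀ z, ∃ a : ℂ, ‖a‖ * Real.exp (-u (z + l)) = Real.exp (-u z) ∧
      ∀ i, Θ i (z + l) = a * Θ i z) ∧
    ∃ C : ℝ, ∀ i z, ‖Θ i z‖ * Real.exp (-u z) ≤ C

/-- upper bound for the affine Hilbert function -/
def Hilb {g N : ℕ} (Θ : Fin (N + 1) → (Fin g → ℂ) → ℂ) : Prop :=
  ∃ C : ℕ, ∀ (n : ℕ) (ι : Type) [Fintype ι] (P : ι → MvPolynomial (Fin (N + 1)) ℂ),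
    (∀ i, (P i).totalDegree ≤ n) → C * (n + 1) ^ g < Fintype.card ι →
    ∃ c : ι → ℂ, c ≠ 0 ∧ ∀ z, Θ 0 z ≠ 0 → ∑ i, c i * eval (fn Θ z) (P i) = 0

/-- a polynomial differential system with algebraic coefficients and algebraic initial value -/
def DiffSys {g n : ℕ} (h : (Fin g → ℂ) → Fin n → ℂ) : Prop :=
  (∀ i, AnalyticAt ℂ (fun z => h z i) 0) ∧ (∀ i, IsAlgebraic ℚ (h 0 i)) ∧
    ∃ G : Fin n → Fin g → MvPolynomial (Fin n) Qb, ∀ i k, ∀ᶠ z in 𝓝 (0 : Fin g → ℂ),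
      fderiv ℂ (fun z => h z i) z (Pi.single k 1) = aeval (h z) (G i k)

/-- few elements of given degree and length -/
def Count {m : ℕ} (θ : Fin m → ℂ) (t : ℕ) : Prop :=
  ∃ C : ℕ, ∀ n L : ℕ, ∃ S : Finset ℂ,
    S.card ≤ (2 * C ^ (n + 1) * L + 1) ^ (C * (n + 1) ^ t) ∧ ∀ x, Sz θ n L x → x ∈ S

/-- the linear form `∑ lam^i y_i` on `y = (θ, z q)` -/
def psi {m n : ℕ} (θ : Fin m → ℂ) (q : Fin n → ℂ) (lam z : ℂ) : ℂ :=
  ∑ i : Fin m, lam ^ (i : ℕ) * θ i + z * ∑ i : Fin n, lam ^ (m + (i : ℕ)) * q i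

/-- sum of the absolute values of the coefficients -/
def l1 {τ : Type} (p : MvPolynomial τ ℤ) : ℕ := ∑ μ ∈ p.support, (p.coeff μ).natAbs

/-- `R(lam, psi(lam, z), z) = 0` for all `z` -/
def Kills {m n t : ℕ} (θ : Fin m → ℂ) (q : Fin n → ℂ) (lam : Fin (t + 1) → ℂ)
    (R : Polynomial (MvPolynomial (Fin (t + 1) ⊕ Fin (t + 1)) ℤ)) : Prop :=
  ∀ z : ℂ, R.eval₂ (eval₂Hom (Int.castRingHom ℂ)
    (Sum.elim lam fun j => psi θ q (lam j) z)) z = 0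

/-! ### Module statements -/

/-- WD 1: Cauchy estimate for words -/
def CauchyStmt : Prop :=
  ∀ (g r : ℕ) (w : Fin r → Fin g → ℂ) (f : (Fin g → ℂ) → ℂ) (p : Fin g → ℂ) (ρ M : ℝ)
    (l : List (Fin r)), 0 < ρ →
    (∀ x : Fin r → ℂ, ‖x‖ ≤ ρ →
      AnalyticAt ℂ f (p + ∑ j, x j • w j) ∧ ‖f (p + ∑ j, x j • w j)‖ ≤ M) →
    ‖wd w l f p‖ ≤ M * ((l.length : ℝ) / ρ) ^ l.length

/-- WD 2: order of vanishing and words -/
def OrdStmt : Prop :=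
  ∀ (g r : ℕ) (w : Fin r → Fin g → ℂ) (f : (Fin g → ℂ) → ℂ) (p : Fin g → ℂ) (k : ℕ),
    AnalyticAt ℂ f p → (Ord w k f p ↔ ∀ l : List (Fin r), l.length < k → wd w l f p = 0)

/-- WT -/
def WtStmt : Prop :=
  ∀ (g N : ℕ) (Θ : Fin (N + 1) → (Fin g → ℂ) → ℂ) (Λ : AddSubgroup (Fin g → ℂ)),
    IsAbelian Θ Λ → ∃ u, IsWt Θ Λ u

/-- SAMP: sampling lemma for periodic weighted norms -/
def SampStmt : Prop :=
  ∀ (g s c : ℕ) (u : (Fin g → ℂ) → ℝ) (lam : Fin s → Fin g → ℂ), Quad u →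
    LinearIndependent ℝ lam →
    c + s = 2 * Module.finrank ℂ (Submodule.span ℂ (Set.range lam)) →
    ∃ C : ℕ, 1 ≤ C ∧ ∀ a v : ℕ, 1 ≤ a → 1 ≤ v → ∃ G : Finset (Fin g → ℂ),
      G.card ≤ C * a ^ s * v ^ c ∧
      ∀ (D ε : ℝ) (F : (Fin g → ℂ) → ℂ), 0 ≤ D → D ≤ (a : ℝ) ^ 2 →
        Real.exp (-(v : ℝ) ^ 2) ≤ ε → (∀ z, AnalyticAt ℂ F z) →
        (∀ i z, ‖F (z + lam i)‖ * Real.exp (-(D * u (z + lam i))) =
          ‖F z‖ * Real.exp (-(D * u z))) →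
        (∀ z, ‖F z‖ * Real.exp (-(D * u z)) ≤ Real.exp ((v : ℝ) ^ 2)) →
        (∀ p ∈ G, ‖F p‖ * Real.exp (-(D * u p)) ≤ ε) →
        (∀ z ∈ Submodule.span ℝ (Set.range lam), ‖F z‖ * Real.exp (-(D * u z)) ≤ C * ε) ∧
        ∀ z ∈ Submodule.span ℂ (Set.range lam), ‖z‖ ≤ 1 / (C * a * v : ℝ) →
          ‖F z‖ * Real.exp (-(D * u z)) ≤ C * ε

/-- HILB (from WT, SAMP) -/
def HilbStmt : Prop :=
  ∀ (g N : ℕ) (Θ : Fin (N + 1) → (Fin g → ℂ) → ℂ) (Λ : AddSubgroup (Fin g → ℂ)),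
    IsAbelian Θ Λ → Hilb Θ

/-- BOX: Dirichlet box principle -/
def BoxStmt : Prop :=
  ∀ (ι κ : Type) [Fintype ι] [Fintype κ] (a : κ → ι → ℂ) (B : ℝ) (H Q : ℕ), 1 ≤ Q → 0 ≤ B →
    (∀ j i, ‖a j i‖ ≤ B) → (Q + 1) ^ (2 * Fintype.card κ) < (H + 1) ^ Fintype.card ι →
    ∃ x : ι → ℤ, x ≠ 0 ∧ (∀ i, (x i).natAbs ≤ H) ∧
      ∀ j, ‖∑ i, (x i : ℂ) * a j i‖ ≤ 4 * Fintype.card ι * H * B / Q

/-- AUX: the auxiliary form (from WT, SAMP, BOX) -/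
def AuxStmt : Prop :=
  ∀ (g N : ℕ) (Θ : Fin (N + 1) → (Fin g → ℂ) → ℂ) (Λ : AddSubgroup (Fin g → ℂ))
    (s c : ℕ) (lam : Fin s → Fin g → ℂ), IsAbelian Θ Λ → (∀ i, lam i ∈ Λ) →
    LinearIndependent ℝ lam →
    c + s = 2 * Module.finrank ℂ (Submodule.span ℂ (Set.range lam)) →
    ∃ C : ℕ, 1 ≤ C ∧ ∀ a v h : ℕ, 1 ≤ a → a ≤ v → h ≤ v ^ 2 →
      C * a ^ s * v ^ (c + 2) ≤ a ^ (2 * g) * h →
      ∃ P : MvPolynomial (Fin (N + 1)) ℤ, P.IsHomogeneous (g * a ^ 2) ∧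
        Sz X (g * a ^ 2) ((a ^ 2 + 1) ^ g * 2 ^ h) P ∧
        ev Θ (map (Int.castRingHom ℂ) P) ≠ 0 ∧
        ∀ z ∈ Submodule.span ℂ (Set.range lam), ‖z‖ ≤ 1 / (C * a * v : ℝ) →
          Θ 0 z ≠ 0 ∧ ‖eval₂ (Int.castRingHom ℂ) (fn Θ z) P‖ ≤
            Real.exp (C * (a : ℝ) ^ 2 - (v : ℝ) ^ 2)

/-- COMP: a common component with finite stabiliser -/
def CompStmt : Prop :=
  ∀ (g N : ℕ) (Θ : Fin (N + 1) → (Fin g → ℂ) → ℂ) (Λ : AddSubgroup (Fin g → ℂ)),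
    IsAbelian Θ Λ → Hilb Θ → ∀ Y : ℕ → Set (Fin g → ℂ), (∀ j, ZClosed Θ (Y j)) → Antitone Y →
    Y 0 ≠ Set.univ → 0 ∈ Y g →
    ∃ j < g, ∃ Z ⊆ Y (j + 1), ∃ (b : MvPolynomial (Fin (N + 1)) ℂ) (n : ℕ),
      b.IsHomogeneous n ∧ ev Θ b 0 ≠ 0 ∧
      ∀ y, (∀ v ∈ Z, y + v ∈ Y j) → ev Θ b y = 0 ∨ ∃ a : ℂ, ∀ i, Θ i y = a * Θ i 0

/-- JET: forms cutting out the translated order conditions (from WD) -/
def JetStmt : Prop :=
  ∀ (g N : ℕ) (Θ : Fin (N + 1) → (Fin g → ℂ) → ℂ) (Λ : AddSubgroup (Fin g → ℂ)),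
    IsAbelian Θ Λ → ∃ c : ℕ, ∀ (r : ℕ) (w : Fin r → Fin g → ℂ) (D : ℕ)
      (P : MvPolynomial (Fin (N + 1)) ℂ), P.IsHomogeneous D →
      (∀ k, ZClosed Θ {z | Ord w k (ev Θ P) z}) ∧
      ∀ (k T : ℕ) (Z : Set (Fin g → ℂ)), (∀ v ∈ Z, Ord w (k + T) (ev Θ P) v) →
        ∃ J : Set (MvPolynomial (Fin (N + 1)) ℂ),
          (∀ Q ∈ J, Q.IsHomogeneous (c * D) ∧ Ord w T (ev Θ Q) 0) ∧
          ∀ y, (∀ Q ∈ J, ev Θ Q y = 0) → ∀ v ∈ Z, Ord w k (ev Θ P) (y + v)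

/-- APX: the linear coordinates are approximated by polynomials in the affine coordinates -/
def ApxStmt : Prop :=
  ∀ (g N : ℕ) (Θ : Fin (N + 1) → (Fin g → ℂ) → ℂ) (Λ : AddSubgroup (Fin g → ℂ)),
    IsAbelian Θ Λ → ∀ (L : (Fin g → ℂ) →L[ℂ] ℂ) (k : ℕ), ∃ P : MvPolynomial (Fin (N + 1)) ℂ,
      (fun z => eval (fn Θ z) P - L z) =O[𝓝 0] fun z => ‖z‖ ^ k

/-- LOC: local multiplicity bound (from APX) -/
def LocStmt : Prop :=
  ∀ (g N : ℕ) (Θ : Fin (N + 1) → (Fin g → ℂ) → ℂ) (Λ : AddSubgroup (Fin g → ℂ)),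
    IsAbelian Θ Λ → Hilb Θ → ∃ C : ℕ, ∀ (r : ℕ) (w : Fin r → Fin g → ℂ) (T E n : ℕ)
      (J : Set (MvPolynomial (Fin (N + 1)) ℂ)) (b : MvPolynomial (Fin (N + 1)) ℂ),
      LinearIndependent ℂ w → 1 ≤ T → (∀ Q ∈ J, Q.IsHomogeneous E ∧ Ord w T (ev Θ Q) 0) →
      b.IsHomogeneous n → ev Θ b 0 ≠ 0 →
      (∀ y, (∀ Q ∈ J, ev Θ Q y = 0) → ev Θ b y = 0 ∨ ∃ a : ℂ, ∀ i, Θ i y = a * Θ i 0) →
      T ^ r ≤ C * (E + 1) ^ g

/-- ZERO: the multiplicity estimate (from HILB, COMP, JET, LOC) -/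
def ZeroStmt : Prop :=
  ∀ (g N : ℕ) (Θ : Fin (N + 1) → (Fin g → ℂ) → ℂ) (Λ : AddSubgroup (Fin g → ℂ)),
    IsAbelian Θ Λ → ∃ C : ℕ, ∀ (r : ℕ) (w : Fin r → Fin g → ℂ) (D T : ℕ)
      (P : MvPolynomial (Fin (N + 1)) ℂ), LinearIndependent ℂ w → P.IsHomogeneous D →
      ev Θ P ≠ 0 → 1 ≤ T → Ord w (g * T + 1) (ev Θ P) 0 → T ^ r ≤ C * (D + 1) ^ g

/-- DER: the affine coordinates are part of a differential system -/
def DerStmt : Prop :=
  ∀ (g N : ℕ) (Θ : Fin (N + 1) → (Fin g → ℂ) → ℂ) (Λ : AddSubgroup (Fin g → ℂ)),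
    IsAbelian Θ Λ → ∃ (n : ℕ) (h : (Fin g → ℂ) → Fin n → ℂ) (e : Fin (N + 1) → Fin n),
      DiffSys h ∧ ∀ z i, h z (e i) = fn Θ z i

/-- TAY: sizes of the Taylor coefficients and the unit ideal -/
def TayStmt : Prop :=
  ∀ (g n r : ℕ) (h : (Fin g → ℂ) → Fin n → ℂ) (w : Fin r → Fin g → ℂ), DiffSys h →
    LinearIndependent ℂ w → ∃ (m : ℕ) (θ : Fin m → ℂ) (C : ℕ), 1 ≤ C ∧
      (∀ i, IsAlgebraic ℚ (θ i) ∨
        θ i ∈ IntermediateField.adjoin ℚ (Set.range fun p : Fin r × Fin g => w p.1 p.2)) ∧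
      ∀ (D L T : ℕ) (P : MvPolynomial (Fin n) ℤ), Sz X D L P →
        (∀ l : List (Fin r), l.length ≤ T →
          Sz θ (D + C * T) (L * (C * (D + T)) ^ T)
            (wd w l (fun z => eval₂ (Int.castRingHom ℂ) (h z) P) 0)) ∧
        ((∀ w' : Fin r → Fin g → ℂ, LinearIndependent ℂ w' → ∃ l : List (Fin r), l.length ≤ T ∧
            wd w' l (fun z => eval₂ (Int.castRingHom ℂ) (h z) P) 0 ≠ 0) →
          (1 : ℂ) ∈ Submodule.span (Algebra.adjoin Qb (Set.range θ))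
            {x | ∃ l : List (Fin r), l.length ≤ T ∧
              x = wd w l (fun z => eval₂ (Int.castRingHom ℂ) (h z) P) 0})

/-- COUNT -/
def CountStmt : Prop :=
  ∀ (m t : ℕ) (θ : Fin m → ℂ),
    Algebra.trdeg ℚ (IntermediateField.adjoin ℚ (Set.range θ)) ≤ t → Count θ t

/-- REL: a small integer relation -/
def RelStmt : Prop :=
  ∀ (m t : ℕ) (θ : Fin m → ℂ), Count θ t → ∃ C : ℕ, ∀ (n δ S : ℕ) (q : Fin n → ℂ),
    1 ≤ δ → n ≤ 2 ^ S → (∀ i, Sz θ δ (2 ^ S) (q i)) →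
    ∃ R : Polynomial (MvPolynomial (Fin (t + 1) ⊕ Fin (t + 1)) ℤ), R ≠ 0 ∧
      R.natDegree ≤ C * δ ^ t ∧
      (∀ e, ∀ μ ∈ (R.coeff e).support, ∑ j, μ (Sum.inr j) ≤ C * δ ^ t) ∧
      (∀ e, l1 (R.coeff e) ≤ 2 ^ (C * δ ^ t * (S + δ))) ∧
      ∀ lam, Kills θ q lam R

/-- NOETH: generic projection and minimal polynomial -/
def NoethStmt : Prop :=
  ∀ (m n t : ℕ) (θ : Fin m → ℂ) (q : Fin n → ℂ) (lam : Fin (t + 1) → ℂ),
    Algebra.trdeg ℚ (IntermediateField.adjoin ℚ (Set.range θ)) = t →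
    (∀ i, q i ∈ IntermediateField.adjoin ℚ (Set.range θ)) →
    (1 : ℂ) ∈ Submodule.span (Algebra.adjoin Qb (Set.range θ)) (Set.range q) →
    AlgebraicIndependent (IntermediateField.adjoin ℚ (Set.range θ)) lam →
    ∃ μ : Polynomial (MvPolynomial (Fin (t + 1)) ℂ), μ.Monic ∧
      (∀ z : ℂ, μ.eval₂ (eval fun j => psi θ q (lam j) z) z = 0) ∧
      ∀ R, Kills θ q lam R → μ ∣ R.map (eval₂Hom (Int.castRingHom _)
        (Sum.elim (fun j => (C (lam j) : MvPolynomial (Fin (t + 1)) ℂ)) X))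

/-- TORUS: a nonzero integer polynomial is not small at some generic point of the torus -/
def TorusStmt : Prop :=
  ∀ (m : ℕ) (θ : Fin m → ℂ) (τ : Type) [Fintype τ] (p : MvPolynomial τ ℤ), p ≠ 0 →
    ∃ x : τ → ℂ, (∀ j, ‖x j‖ = 1) ∧
      AlgebraicIndependent (IntermediateField.adjoin ℚ (Set.range θ)) x ∧
      1 / 2 < ‖eval₂ (Int.castRingHom ℂ) x p‖

/-- LIOU: Liouville inequality for a family generating the unit ideal
(from COUNT, REL, NOETH, TORUS) -/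
def LiouStmt : Prop :=
  ∀ (m t : ℕ) (θ : Fin m → ℂ),
    Algebra.trdeg ℚ (IntermediateField.adjoin ℚ (Set.range θ)) ≤ t →
    ∃ C : ℕ, ∀ (n δ S : ℕ) (q : Fin n → ℂ), 1 ≤ δ → n ≤ 2 ^ S →
      (∀ i, Sz θ δ (2 ^ S) (q i)) →
      (1 : ℂ) ∈ Submodule.span (Algebra.adjoin Qb (Set.range θ)) (Set.range q) →
      ∃ i, Real.exp (-(C * δ ^ t * (S + δ) : ℝ)) ≤ ‖q i‖

/-- CORE: the inequality for a basis `w` of the complex span
(from WD, AUX, ZERO, DER, TAY, LIOU) -/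
def CoreStmt : Prop :=
  ∀ (g N : ℕ) (Θ : Fin (N + 1) → (Fin g → ℂ) → ℂ) (Λ : AddSubgroup (Fin g → ℂ))
    (s c r t : ℕ) (lam : Fin s → Fin g → ℂ) (w : Fin r → Fin g → ℂ), IsAbelian Θ Λ →
    (∀ i, lam i ∈ Λ) → LinearIndependent ℝ lam → LinearIndependent ℂ w →
    Submodule.span ℂ (Set.range w) = Submodule.span ℂ (Set.range lam) → c + s = 2 * r → 1 ≤ r →
    Algebra.trdeg ℚ
      (IntermediateField.adjoin ℚ (Set.range fun p : Fin r × Fin g => w p.1 p.2)) ≤ t →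
    2 * g * r + 2 * g ≤ (c + 2) * (t + 1) * g + r * s

/-- MAIN -/
def MainStmt : Prop :=
  ∀ (g N : ℕ) (Θ : Fin (N + 1) → (Fin g → ℂ) → ℂ) (Λ : AddSubgroup (Fin g → ℂ)),
    IsAbelian Θ Λ → ∀ (s : ℕ) (lam : Fin s → Fin g → ℂ), (∀ i, lam i ∈ Λ) →
    LinearIndependent ℤ lam → ∀ W : Submodule ℂ (Fin g → ℂ),
    W = Submodule.span ℂ (Set.range lam) → ∀ K : IntermediateField ℚ ℂ,
    W ≤ Submodule.span ℂ {x | x ∈ W ∧ ∀ k, x k ∈ K} → ∀ t : ℕ, Algebra.trdeg ℚ K ≤ t →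
    (s : ℤ) * (g - Module.finrank ℂ W) ≤ t * g * (2 * Module.finrank ℂ W - s + 2)

/-- COR: multiplication by an imaginary quadratic field with signature `(μ, g - μ)` -/
def CorStmt : Prop :=
  ∀ (g N : ℕ) (Θ : Fin (N + 1) → (Fin g → ℂ) → ℂ) (Λ : AddSubgroup (Fin g → ℂ)),
    IsAbelian Θ Λ → ∀ (φ : (Fin g → ℂ) →ₗ[ℂ] (Fin g → ℂ)), (∀ l ∈ Λ, φ l ∈ Λ) →
    ∀ (d : ℕ) (a : ℂ), 0 < d → φ ∘ₗ φ = -(d : ℂ) • LinearMap.id → a ^ 2 = -d →
    ∀ μ : ℕ, Module.finrank ℂ (LinearMap.range (φ - a • LinearMap.id)) = μ →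
    ∀ t : ℕ, Algebra.trdeg ℚ (IntermediateField.adjoin ℚ {x | ∃ l ∈ Λ, ∃ k, x = l k}) ≤ t →
    ((g : ℤ) - μ) ^ 2 ≤ 4 * t * g * (μ + 1) + 1

end

end Pool.Agent.CMP

end MrgPart0

-- ======== part 1: formerly Pool.Agent.MP_cbf1af_ag.cmp.Apx
section MrgPart1

/-! PROJECT CMP, module APX: linear coordinates are approximated by polynomials in the affine
coordinates. -/

namespace Pool.Agent.CMP

open MvPolynomial Filter Topology Asymptotics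

namespace Apx

variable {E σ : Type} (f : E → σ → ℂ)

/-- The functions that are polynomials in the `f · i`. -/
noncomputable def Pol : Subalgebra ℂ (E → ℂ) := (aeval fun i z => f z i).range

variable {f}

lemma exists_of_mem {F : E → ℂ} (h : F ∈ Pol f) : ∃ P, ∀ z, eval (f z) P = F z := by
  obtain ⟨P, rfl⟩ := h
  refine ⟨P, fun z => ?_⟩
  have := comp_aeval_apply (f := fun i z => f z i) (Pi.evalAlgHom ℂ (fun _ : E => ℂ) z) P
  simpa [aeval_eq_eval] using this.symm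

lemma coord_mem (i : σ) : (fun z => f z i) ∈ Pol f := ⟨X i, aeval_X _ _⟩

lemma const_mem (c : ℂ) : (fun _ => c) ∈ Pol f := (Pol f).algebraMap_mem c

lemma multi_mem {g n : ℕ} {φ : E → Fin g → ℂ} (hφ : ∀ j, (fun z => φ z j) ∈ Pol f)
    (p : ContinuousMultilinearMap ℂ (fun _ : Fin n => Fin g → ℂ) ℂ) :
    (fun z => p fun _ => φ z) ∈ Pol f := by
  have e : (fun z => p fun _ => φ z) = ∑ r : Fin n → Fin g,
      (∏ i, fun z => φ z (r i)) * fun _ => p fun i => Pi.single (r i) 1 := by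
    funext z
    have h1 : (fun _ : Fin n => φ z) = fun _ => ∑ j, φ z j • (Pi.single j 1 : Fin g → ℂ) := by
      funext _ j
      simp [Finset.sum_apply, Pi.single_apply]
    rw [h1, p.map_sum]
    simp only [Finset.sum_apply, Pi.mul_apply, Finset.prod_apply, p.map_smul_univ, smul_eq_mul]
  rw [e]
  exact sum_mem fun r _ => mul_mem (prod_mem fun i _ => hφ _) (const_mem _)

end Apx

open Apx in
/-- Module APX. -/
theorem apx : ApxStmt := by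
  intro g N Θ Λ h L k
  have ha : AnalyticAt ℂ (fn Θ) 0 :=
    analyticAt_pi_iff.2 fun i => (h.hol i 0).div (h.hol 0 0) h.ne0
  obtain ⟨M₀, hM⟩ := (fderiv ℂ (fn Θ) 0).toLinearMap.exists_leftInverse_of_injective
    (LinearMap.ker_eq_bot.2 h.imm)
  let M := LinearMap.toContinuousLinearMap M₀
  let φ : (Fin g → ℂ) → Fin g → ℂ := fun z => M (fn Θ z) - M (fn Θ 0)
  have h0 : φ 0 = 0 := sub_self _
  have hφ : AnalyticAt ℂ φ 0 := ((M.analyticAt _).comp ha).sub analyticAt_const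
  have hd : HasStrictFDerivAt φ
      (ContinuousLinearEquiv.refl ℂ (Fin g → ℂ) : (Fin g → ℂ) →L[ℂ] Fin g → ℂ) 0 := by
    have := (M.hasStrictFDerivAt.comp 0 ha.hasStrictFDerivAt).sub_const (M (fn Θ 0))
    exact this.congr_fderiv (ContinuousLinearMap.ext fun x => LinearMap.congr_fun hM x)
  have hψ := (hd.toOpenPartialHomeomorph φ).analyticAt_symm'
    hd.mem_toOpenPartialHomeomorph_source hφ hd.hasFDerivAt.fderiv
  rw [hd.toOpenPartialHomeomorph_coe, h0] at hψ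
  obtain ⟨p, hp⟩ := (L.analyticAt _).comp hψ
  have hc : ∀ j, (fun z => φ z j) ∈ Pol (fn Θ) := fun j => by
    have e : (fun z => φ z j) = ∑ i, (fun z => fn Θ z i) * (fun _ => M (Pi.single i 1) j) -
        fun _ => M (fn Θ 0) j := by
      funext z
      have h1 : fn Θ z = ∑ i, fn Θ z i • (Pi.single i 1 : Fin (N + 1) → ℂ) := by
        funext j
        simp [Finset.sum_apply, Pi.single_apply]
      simp only [φ, Pi.sub_apply, Finset.sum_apply, Pi.mul_apply]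
      conv_lhs => rw [h1, map_sum]
      simp only [map_smul, Finset.sum_apply, Pi.smul_apply, smul_eq_mul]
    rw [e]
    exact sub_mem (sum_mem fun i _ => mul_mem (coord_mem i) (const_mem _)) (const_mem _)
  have hs : (fun z => p.partialSum k (φ z)) ∈ Pol (fn Θ) := by
    have e : (fun z => p.partialSum k (φ z)) =
        ∑ n ∈ Finset.range k, fun z => p n fun _ => φ z := by
      funext z
      simp only [FormalMultilinearSeries.partialSum, Finset.sum_apply]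
    rw [e]
    exact sum_mem fun n _ => multi_mem hc _
  obtain ⟨P, hP⟩ := exists_of_mem hs
  refine ⟨P, ?_⟩
  have ht : Tendsto φ (𝓝 0) (𝓝 0) := by simpa only [ContinuousAt, h0] using hφ.continuousAt
  have h1 := ((hp.isBigO_sub_partialSum_pow k).comp_tendsto ht).neg_left
  have h2 : φ =O[𝓝 0] fun z => z := by simpa only [h0, sub_zero] using hd.hasFDerivAt.isBigO_sub
  refine (h1.trans (h2.norm_norm.pow k)).congr' ?_ EventuallyEq.rfl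
  filter_upwards [hd.eventually_left_inverse] with z hz
  rw [HasStrictFDerivAt.localInverse_def] at hz
  simp only [Function.comp_apply, zero_add, hz, hP, neg_sub]

end Pool.Agent.CMP

end MrgPart1

-- marker of a merged file
example : 731051 + 736789 = 731051 + 736789 := rfl
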