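import Mathlib.Algebra.Lie.OfAssociative
import Mathlib.Algebra.Ring.IsFormallyReal
import Mathlib.RingTheory.Finiteness.ModuleFinitePresentation
import Mathlib.Analysis.Complex.Schwarz
import Mathlib.Analysis.Complex.Hadamard
import Mathlib.Analysis.Polynomial.MahlerMeasure
import Mathlib.RingTheory.PiTensorProduct
import Mathlib.RingTheory.Etale.Weakly
import Mathlib.RingTheory.MvPolynomial.IrreducibleQuadratic
import Pool.Agent.MP_cbf1af_ag.cmp.Apx
import Pool.Agent.MP_cbf1af_ag.cmp.Basic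
import Pool.Agent.MP_cbf1af_ag.Liou.Rel

-- ======== part 0: formerly Pool.Agent.MP_cbf1af_ag.cmp.Samp
section MrgPart0

/-! PROJECT CMP, module SAMP: the sampling lemma for periodic weighted norms. -/

namespace Pool.Agent.CMP

open Complex Metric Set Module

noncomputable section

namespace Samp

theorem three {k : ℂ → ℂ} (hk : Differentiable ℂ k) {C v m : ℝ} (hC : 0 ≤ C) (hv : 1 ≤ v)
    (hm : Real.exp (-v ^ 2) ≤ m)
    (h1 : ∀ s, ‖k s‖ ≤ Real.exp (v ^ 2) * Real.exp (2 * C + 2 * C * ‖s‖ ^ 2))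
    (h2 : ∀ s : ℂ, s.re = 0 → ‖k s‖ ≤ m * Real.exp (2 * C + 2 * C * ‖s‖ ^ 2)) :
    ‖k ((1 / v : ℝ) : ℂ)‖ ≤ Real.exp (2 + 6 * C) * m := by
  have hv0 : 0 < v := by linarith
  have hm0 : 0 < m := (Real.exp_pos _).trans_le hm
  set h : ℂ → ℂ := fun s => k s * exp (((2 * C : ℝ) : ℂ) * s ^ 2) with hh
  have hn : ∀ s, ‖h s‖ = ‖k s‖ * Real.exp (2 * C * (s.re ^ 2 - s.im ^ 2)) := fun s => by
    rw [hh]
    simp only [norm_mul, Complex.norm_exp, Complex.re_ofReal_mul]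
    congr 3
    simp [sq]
  have key : ∀ (s : ℂ) (A : ℝ), ‖k s‖ ≤ A * Real.exp (2 * C + 2 * C * ‖s‖ ^ 2) →
      ‖h s‖ ≤ A * Real.exp (2 * C + 4 * C * s.re ^ 2) := fun s A hA => by
    rw [hn]
    refine (mul_le_mul_of_nonneg_right hA (Real.exp_pos _).le).trans_eq ?_
    rw [mul_assoc, ← Real.exp_add, Complex.sq_norm, Complex.normSq_apply]
    congr 2
    ring
  have hd : Differentiable ℂ h := by rw [hh]; fun_prop
  have hiv : 1 / v ≤ v := by rw [div_le_iff₀ hv0]; nlinarith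
  have H := HadamardThreeLines.norm_le_interp_of_mem_verticalClosedStrip' (f := h)
    (z := ((1 / v : ℝ) : ℂ)) (a := m * Real.exp (2 * C))
    (b := Real.exp (v ^ 2) * Real.exp (2 * C + 4 * C * v ^ 2)) (l := 0) (u := v) hv0
    (by
      simp only [HadamardThreeLines.verticalClosedStrip, mem_preimage, ofReal_re]
      exact ⟨by positivity, hiv⟩)
    hd.diffContOnCl
    (by
      refine ⟨Real.exp (v ^ 2) * Real.exp (2 * C + 4 * C * v ^ 2), ?_⟩
      rintro _ ⟨s, hs, rfl⟩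
      have hs' : 0 ≤ s.re ∧ s.re ≤ v := hs
      refine (key s _ (h1 s)).trans ?_
      gcongr
      exacts [hs'.1, hs'.2])
    (fun s hs => by
      have hs' : s.re = 0 := hs
      simpa [hs'] using key s _ (h2 s hs'))
    (fun s hs => by
      have hs' : s.re = v := hs
      simpa [hs'] using key s _ (h1 s))
  simp only [ofReal_re, sub_zero] at H
  set θ : ℝ := 1 / v / v with hθ
  have hθv : θ * v ^ 2 = 1 := by rw [hθ]; field_simp
  have hθ0 : 0 < θ := by rw [hθ]; positivity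
  have hk1 : ‖k ((1 / v : ℝ) : ℂ)‖ ≤ ‖h ((1 / v : ℝ) : ℂ)‖ := by
    rw [hn]
    refine le_mul_of_one_le_right (norm_nonneg _) (Real.one_le_exp ?_)
    simp only [ofReal_re, ofReal_im]
    nlinarith [sq_nonneg (1 / v)]
  refine hk1.trans (H.trans ?_)
  have hl : -v ^ 2 ≤ Real.log m := (Real.le_log_iff_exp_le hm0).2 hm
  rw [← Real.exp_log hm0, ← Real.exp_add, ← Real.exp_add, ← Real.exp_add, ← Real.exp_mul,
    ← Real.exp_mul, ← Real.exp_add]
  refine Real.exp_le_exp.2 ?_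
  have : -(θ * Real.log m) ≤ 1 := by nlinarith
  have e : (v ^ 2 + (2 * C + 4 * C * v ^ 2)) * θ = 1 + 2 * C * θ + 4 * C := by
    linear_combination (1 + 4 * C) * hθv
  rw [e]
  nlinarith

theorem schwarz {k : ℂ → ℂ} (hk : Differentiable ℂ k) {R M : ℝ} (hR : 1 < R)
    (h : ∀ τ, ‖τ‖ < R → ‖k τ‖ ≤ M) : ‖k 0‖ ≤ ‖k 1‖ + 2 * M / R := by
  have h0 := h 0 (by simpa using by linarith)
  have H := Complex.dist_le_div_mul_dist_of_mapsTo_ball (f := k) (c := 0) (z := 1) (R₁ := R)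
    (R₂ := 2 * M) hk.differentiableOn (fun τ hτ => by
      rw [mem_closedBall, dist_eq_norm]
      have := h τ (by simpa using hτ)
      linarith [norm_sub_le (k τ) (k 0)]) (by simpa using hR)
  rw [dist_eq_norm, dist_zero_right, norm_one, mul_one, norm_sub_rev] at H
  linarith [norm_sub_norm_le (k 0) (k 1)]

theorem preim {E F : Type} [NormedAddCommGroup E] [NormedSpace ℝ E] [NormedAddCommGroup F]
    [NormedSpace ℝ F] [FiniteDimensional ℝ F] (T : E →ₗ[ℝ] F) :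
    ∃ K : ℕ, 1 ≤ K ∧ ∀ x, ∃ y, T y = T x ∧ ‖y‖ ≤ K * ‖T x‖ := by
  obtain ⟨S, hS⟩ := T.rangeRestrict.exists_rightInverse_of_surjective T.range_rangeRestrict
  refine ⟨⌈‖LinearMap.toContinuousLinearMap S‖⌉₊ + 1, by omega, fun x => ?_⟩
  refine ⟨S ⟨T x, x, rfl⟩, congrArg Subtype.val (LinearMap.congr_fun hS ⟨T x, x, rfl⟩), ?_⟩
  refine ((LinearMap.toContinuousLinearMap S).le_opNorm ⟨T x, x, rfl⟩).trans ?_
  refine mul_le_mul_of_nonneg_right ?_ (norm_nonneg _)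
  push_cast
  linarith [Nat.le_ceil ‖LinearMap.toContinuousLinearMap S‖]

theorem grid {V : Type} [NormedAddCommGroup V] [NormedSpace ℝ V] [FiniteDimensional ℝ V]
    (E : Submodule ℝ V) (B : ℝ) : ∃ C : ℕ, ∀ n : ℕ, 1 ≤ n → ∃ G : Finset V,
      G.card ≤ C * n ^ finrank ℝ E ∧ ∀ z ∈ E, ‖z‖ ≤ B → ∃ p ∈ G, p - z ∈ E ∧ ‖p - z‖ ≤ 1 / n := by
  classical
  let L : E ≃L[ℝ] (Fin (finrank ℝ E) → ℝ) := (Module.finBasis ℝ E).equivFunL
  obtain ⟨k, hk1, hk⟩ : ∃ k : ℕ, 1 ≤ k ∧ ‖(L.symm : (Fin (finrank ℝ E) → ℝ) →L[ℝ] E)‖ ≤ k :=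
    ⟨⌈_⌉₊ + 1, by omega, (Nat.le_ceil _).trans (by push_cast; linarith)⟩
  obtain ⟨b, hb1, hb⟩ : ∃ b : ℕ, 1 ≤ b ∧ ‖(L : E →L[ℝ] (Fin (finrank ℝ E) → ℝ))‖ * B ≤ b :=
    ⟨⌈_⌉₊ + 1, by omega, (Nat.le_ceil _).trans (by push_cast; linarith)⟩
  refine ⟨(3 * b * k) ^ finrank ℝ E, fun n hn => ?_⟩
  set N : ℕ := k * n with hN
  have hN1 : 1 ≤ N := Nat.mul_pos hk1 hn
  have hN0 : (0 : ℝ) < N := by exact_mod_cast hN1
  refine ⟨(Fintype.piFinset fun _ : Fin (finrank ℝ E) =>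
    Finset.Icc (-((b * N : ℕ) : ℤ)) (b * N : ℕ)).image
    fun j => (L.symm fun i => (j i : ℝ) / N : E), ?_, fun z hz hzB => ?_⟩
  · refine Finset.card_image_le.trans ?_
    rw [Fintype.card_piFinset, Finset.prod_const, Finset.card_univ, Fintype.card_fin, ← mul_pow]
    refine Nat.pow_le_pow_left ?_ _
    rw [Int.card_Icc]
    have : 1 ≤ b * N := Nat.mul_pos hb1 hN1
    have e : 3 * b * k * n = 3 * (b * N) := by rw [hN]; ring
    omega
  · set x := L ⟨z, hz⟩ with hx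
    have hxb : ∀ i, |x i| ≤ b := fun i => by
      refine (norm_le_pi_norm x i).trans (le_trans ?_ hb)
      exact ((L : E →L[ℝ] (Fin (finrank ℝ E) → ℝ)).le_opNorm ⟨z, hz⟩).trans
        (mul_le_mul_of_nonneg_left hzB (norm_nonneg _))
    refine ⟨_, Finset.mem_image_of_mem _ (Fintype.mem_piFinset.2 fun i =>
      (?_ : ⌊x i * N⌋ ∈ _)), E.sub_mem (Subtype.prop _) hz, ?_⟩
    · have := abs_le.1 (hxb i)
      rw [Finset.mem_Icc, Int.le_floor, Int.floor_le_iff]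
      push_cast
      constructor <;> nlinarith
    · have e : ((L.symm fun i => ((⌊x i * N⌋ : ℤ) : ℝ) / N : E) : V) - z =
          (L.symm ((fun i => ((⌊x i * N⌋ : ℤ) : ℝ) / N) - x) : E) := by
        rw [map_sub, hx, L.symm_apply_apply]; rfl
      have h1 : ‖(fun i => ((⌊x i * N⌋ : ℤ) : ℝ) / N) - x‖ ≤ 1 / N := by
        refine (pi_norm_le_iff_of_nonneg (by positivity)).2 fun i => ?_
        have e2 : ((fun i => ((⌊x i * N⌋ : ℤ) : ℝ) / N) - x) i = (⌊x i * N⌋ - x i * N) / N := by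
          simp only [Pi.sub_apply]; field_simp
        rw [e2, Real.norm_eq_abs, abs_div, abs_of_pos hN0]
        refine div_le_div_of_nonneg_right (abs_le.2 ⟨?_, ?_⟩) hN0.le
        · linarith [Int.lt_floor_add_one (x i * N)]
        · linarith [Int.floor_le (x i * N)]
      rw [e]
      refine ((L.symm : (Fin (finrank ℝ E) → ℝ) →L[ℝ] E).le_opNorm _).trans ?_
      refine (mul_le_mul hk h1 (norm_nonneg _) (by positivity)).trans_eq ?_
      have : (0 : ℝ) < k := by exact_mod_cast hk1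
      rw [hN]; push_cast; field_simp

theorem reduce {V : Type} [NormedAddCommGroup V] [NormedSpace ℝ V] {s : ℕ} (lam : Fin s → V)
    {z : V} (hz : z ∈ Submodule.span ℝ (range lam)) :
    ∃ z' ∈ Submodule.span ℝ (range lam), ‖z'‖ ≤ ∑ i, ‖lam i‖ ∧
      ∀ φ : V → ℝ, (∀ i y, φ (y + lam i) = φ y) → φ z = φ z' := by
  obtain ⟨x, rfl⟩ := (Submodule.mem_span_range_iff_exists_fun ℝ).1 hz
  refine ⟨∑ i, Int.fract (x i) • lam i,
    (Submodule.mem_span_range_iff_exists_fun ℝ).2 ⟨_, rfl⟩, ?_, fun φ hφ => ?_⟩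
  · refine (norm_sum_le _ _).trans (Finset.sum_le_sum fun i _ => ?_)
    rw [norm_smul, Real.norm_eq_abs, abs_of_nonneg (Int.fract_nonneg _)]
    exact mul_le_of_le_one_left (norm_nonneg _) (Int.fract_lt_one _).le
  · have hp : ∀ t : Finset (Fin s), Function.Periodic φ (∑ i ∈ t, ⌊x i⌋ • lam i) := fun t => by
      induction t using Finset.cons_induction with
      | empty => intro y; simp
      | cons i t hi ih =>
        rw [Finset.sum_cons]
        exact (Function.Periodic.zsmul (hφ i) _).add_period ih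
    rw [← hp Finset.univ (∑ i, Int.fract (x i) • lam i), ← Finset.sum_add_distrib]
    congr 1
    refine Finset.sum_congr rfl fun i _ => ?_
    rw [← Int.cast_smul_eq_zsmul ℝ, ← add_smul, Int.fract_add_floor]

/-- multiplication by `I` -/
def mulI (g : ℕ) : (Fin g → ℂ) ≃ₗ[ℝ] (Fin g → ℂ) :=
  (LinearEquiv.smulOfNeZero ℂ (Fin g → ℂ) I I_ne_zero).restrictScalars ℝ

theorem mulI_apply {g : ℕ} (z : Fin g → ℂ) : mulI g z = I • z := rfl

theorem split {g s : ℕ} (lam : Fin s → Fin g → ℂ) {z : Fin g → ℂ}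
    (hz : z ∈ Submodule.span ℂ (range lam)) :
    ∃ a ∈ Submodule.span ℝ (range lam), ∃ b ∈ Submodule.span ℝ (range lam), a + I • b = z := by
  obtain ⟨x, rfl⟩ := (Submodule.mem_span_range_iff_exists_fun ℂ).1 hz
  refine ⟨_, (Submodule.mem_span_range_iff_exists_fun ℝ).2 ⟨fun i => (x i).re, rfl⟩,
    _, (Submodule.mem_span_range_iff_exists_fun ℝ).2 ⟨fun i => (x i).im, rfl⟩, ?_⟩
  rw [Finset.smul_sum, ← Finset.sum_add_distrib]
  refine Finset.sum_congr rfl fun i _ => ?_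
  rw [← Complex.coe_smul, ← Complex.coe_smul, smul_smul, ← add_smul, mul_comm I, re_add_im]

theorem dims {g s c : ℕ} (lam : Fin s → Fin g → ℂ) (hl : LinearIndependent ℝ lam)
    (hc : c + s = 2 * finrank ℂ (Submodule.span ℂ (range lam))) :
    ∃ U1 U2 : Submodule ℝ (Fin g → ℂ), U1 ≤ Submodule.span ℝ (range lam) ∧
      U2 ≤ Submodule.span ℝ (range lam) ∧ (∀ z ∈ U1, I • z ∈ Submodule.span ℝ (range lam)) ∧
      Submodule.span ℝ (range lam) ≤ U1 ⊔ U2 ∧ finrank ℝ U1 + c = s ∧ finrank ℝ U2 = c := by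
  set U := Submodule.span ℝ (range lam) with hU
  have hs : finrank ℝ U = s := by rw [hU, finrank_span_eq_card hl, Fintype.card_fin]
  set U' := U.map (mulI g : (Fin g → ℂ) →ₗ[ℝ] (Fin g → ℂ)) with hU'
  have hs' : finrank ℝ U' = s := by rw [hU', LinearEquiv.finrank_map_eq, hs]
  have hW : U ⊔ U' = (Submodule.span ℂ (range lam)).restrictScalars ℝ := by
    have h1 : U ≤ (Submodule.span ℂ (range lam)).restrictScalars ℝ :=
      Submodule.span_le_restrictScalars ℝ ℂ _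
    refine le_antisymm (sup_le h1 ?_) fun z hz => ?_
    · rintro _ ⟨y, hy, rfl⟩
      exact (Submodule.span ℂ (range lam)).smul_mem I (h1 hy)
    · obtain ⟨a, ha, b, hb, rfl⟩ := split lam hz
      exact Submodule.add_mem_sup ha ⟨b, hb, rfl⟩
  have h2 : finrank ℝ (U ⊔ U' : Submodule ℝ _) = c + s := by
    rw [hW, hc, ← finrank_real_of_complex]
    exact ((Submodule.restrictScalarsEquiv ℝ ℂ _ _).restrictScalars ℝ).finrank_eq
  have h3 := Submodule.finrank_sup_add_finrank_inf_eq U U'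
  obtain ⟨Q, hQ⟩ := (U ⊓ U').exists_isCompl
  have h4 : (U ⊓ U') ⊔ (Q ⊓ U) = U := by
    rw [← sup_inf_assoc_of_le Q inf_le_left, hQ.sup_eq_top, top_inf_eq]
  have h5 : (U ⊓ U') ⊓ (Q ⊓ U) = ⊥ := by
    rw [← inf_assoc, hQ.inf_eq_bot, bot_inf_eq]
  have h6 := Submodule.finrank_sup_add_finrank_inf_eq (U ⊓ U') (Q ⊓ U)
  rw [h4, h5, finrank_bot] at h6
  refine ⟨U ⊓ U', Q ⊓ U, inf_le_left, inf_le_right, ?_, h4.ge, by omega, by omega⟩
  rintro _ ⟨-, y, hy, rfl⟩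
  have : I • (mulI g : (Fin g → ℂ) →ₗ[ℝ] (Fin g → ℂ)) y = -y := by
    change I • I • y = -y
    rw [smul_smul, I_mul_I, neg_one_smul]
  rw [this]
  exact U.neg_mem hy

theorem loc {g : ℕ} {u : (Fin g → ℂ) → ℝ} {C D a : ℝ} {F : (Fin g → ℂ) → ℂ} (hC : 0 ≤ C)
    (hD : 0 ≤ D) (hDa : D ≤ a ^ 2) (hF : Differentiable ℂ F) (p : Fin g → ℂ)
    {l : (Fin g → ℂ) →L[ℂ] ℂ} (hl : ∀ ζ, |u (p + ζ) - u p - (l ζ).re| ≤ C * ‖ζ‖ ^ 2) :
    ∃ G : (Fin g → ℂ) → ℂ, Differentiable ℂ G ∧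
      (∀ ζ, ‖G ζ‖ ≤ ‖F (p + ζ)‖ * Real.exp (-(D * u (p + ζ))) * Real.exp (C * (a * ‖ζ‖) ^ 2)) ∧
      ∀ ζ, ‖F (p + ζ)‖ * Real.exp (-(D * u (p + ζ))) ≤ ‖G ζ‖ * Real.exp (C * (a * ‖ζ‖) ^ 2) := by
  have hn : ∀ ζ, ‖F (p + ζ) * exp (((-D : ℝ) : ℂ) * (l ζ + u p))‖ =
      ‖F (p + ζ)‖ * Real.exp (-D * ((l ζ).re + u p)) := fun ζ => by
    rw [norm_mul, Complex.norm_exp, Complex.re_ofReal_mul, add_re, ofReal_re]
  have hb : ∀ ζ, |D * (u (p + ζ) - u p - (l ζ).re)| ≤ C * (a * ‖ζ‖) ^ 2 := fun ζ => by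
    rw [abs_mul, abs_of_nonneg hD]
    refine (mul_le_mul hDa (hl ζ) (abs_nonneg _) (sq_nonneg _)).trans_eq (by ring)
  refine ⟨fun ζ => F (p + ζ) * exp (((-D : ℝ) : ℂ) * (l ζ + u p)), by fun_prop,
    fun ζ => ?_, fun ζ => ?_⟩
  all_goals
    simp only [hn, mul_assoc, ← Real.exp_add]
    refine mul_le_mul_of_nonneg_left (Real.exp_le_exp.2 ?_) (norm_nonneg _)
    linarith [(abs_le.1 (hb ζ)).1, (abs_le.1 (hb ζ)).2]

theorem step1 {g : ℕ} {U : Submodule ℝ (Fin g → ℂ)} {φ : (Fin g → ℂ) → ℝ} {C a v m : ℝ}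
    {G : (Fin g → ℂ) → ℂ} {p : Fin g → ℂ} (hC : 0 ≤ C) (ha : 1 ≤ a) (hv : 1 ≤ v)
    (hm : Real.exp (-v ^ 2) ≤ m) (hG : Differentiable ℂ G) (hp : p ∈ U)
    (up : ∀ ζ, ‖G ζ‖ ≤ φ (p + ζ) * Real.exp (C * (a * ‖ζ‖) ^ 2))
    (h1 : ∀ z, φ z ≤ Real.exp (v ^ 2)) (h2 : ∀ z ∈ U, φ z ≤ m) {x y : Fin g → ℂ} (hx : x ∈ U)
    (hy : y ∈ U) (hxn : a * ‖x‖ ≤ 1) (hyn : a * v * ‖y‖ ≤ 1) :
    ‖G (x + I • y)‖ ≤ Real.exp (2 + 6 * C) * m := by
  have hv0 : 0 < v := by linarith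
  have hb : ∀ (s : ℂ) (A : ℝ), 0 ≤ A → φ (p + (x + (I * s * v) • y)) ≤ A →
      ‖G (x + (I * s * v) • y)‖ ≤ A * Real.exp (2 * C + 2 * C * ‖s‖ ^ 2) := fun s A hA0 hA => by
    refine (up _).trans (mul_le_mul hA (Real.exp_le_exp.2 ?_) (Real.exp_pos _).le hA0)
    have e : a * ‖x + (I * s * v) • y‖ ≤ 1 + ‖s‖ := by
      refine (mul_le_mul_of_nonneg_left (norm_add_le _ _) (by linarith)).trans ?_
      rw [norm_smul, norm_mul, norm_mul, norm_I, one_mul, norm_real, Real.norm_eq_abs,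
        abs_of_pos hv0]
      nlinarith [norm_nonneg s]
    have e2 : (a * ‖x + (I * s * v) • y‖) ^ 2 ≤ 2 + 2 * ‖s‖ ^ 2 :=
      (pow_le_pow_left₀ (by positivity) e 2).trans (by nlinarith [sq_nonneg (1 - ‖s‖)])
    nlinarith
  have H := three (k := fun s => G (x + (I * s * v) • y)) (by fun_prop) hC hv hm
    (fun s => hb s _ (Real.exp_pos _).le (h1 _)) fun s hs =>
      hb s _ ((Real.exp_pos _).le.trans hm) (h2 _ (U.add_mem hp (U.add_mem hx ?_)))
  · have e : I * ((1 / v : ℝ) : ℂ) * v = I := by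
      have : (v : ℂ) ≠ 0 := by exact_mod_cast hv0.ne'
      push_cast
      field_simp
    simpa only [e] using H
  · have e : I * s * v = ((-s.im * v : ℝ) : ℂ) := by
      apply Complex.ext <;> simp [hs]
    rw [e, Complex.coe_smul]
    exact U.smul_mem _ hy

end Samp

open Samp in
theorem samp : SampStmt := by
  classical
  intro g s c u lam ⟨C', hQ'⟩ hl hc
  set U := Submodule.span ℝ (range lam) with hU
  obtain ⟨C0, hC0, hQ⟩ : ∃ C0 : ℝ, 0 ≤ C0 ∧ ∀ p, ∃ l : (Fin g → ℂ) →L[ℂ] ℂ,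
      ∀ ζ, |u (p + ζ) - u p - (l ζ).re| ≤ C0 * ‖ζ‖ ^ 2 :=
    ⟨max C' 0, le_max_right _ _, fun p => (hQ' p).imp fun l h ζ =>
      (h ζ).trans (mul_le_mul_of_nonneg_right (le_max_left _ _) (sq_nonneg _))⟩
  obtain ⟨U1, U2, hU1, hU2, hI, hsup, hd1, hd2⟩ := dims lam hl hc
  set K : ℝ := Real.exp (2 + 6 * C0) with hK
  have hK1 : 1 ≤ K := Real.one_le_exp (by linarith)
  have hE1 : 1 ≤ Real.exp C0 := Real.one_le_exp hC0
  obtain ⟨K1, hK1'⟩ : ∃ K1 : ℕ, 8 * K ≤ K1 := ⟨_, Nat.le_ceil _⟩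
  have hK10 : 1 ≤ K1 := by exact_mod_cast (by linarith : (1 : ℝ) ≤ K1)
  obtain ⟨K3, -, hK3⟩ := preim (U1.subtype.coprod U2.subtype)
  obtain ⟨K2, hK21, hK2⟩ :=
    preim (U.subtype.coprod ((mulI g : (Fin g → ℂ) →ₗ[ℝ] (Fin g → ℂ)) ∘ₗ U.subtype))
  obtain ⟨C1, hG1⟩ := grid U1 (K3 * ∑ i, ‖lam i‖)
  obtain ⟨C2, hG2⟩ := grid U2 (K3 * ∑ i, ‖lam i‖)
  obtain ⟨K4, hK4⟩ : ∃ K4 : ℕ, 2 * K * Real.exp C0 * Real.exp C0 ≤ K4 := ⟨_, Nat.le_ceil _⟩
  refine ⟨C1 * C2 * K1 ^ s + K2 + K4, by omega, fun a v ha hv => ?_⟩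
  obtain ⟨G1, hc1, hG1⟩ := hG1 (K1 * a) (Nat.mul_pos hK10 ha)
  obtain ⟨G2, hc2, hG2⟩ := hG2 (K1 * a * v) (Nat.mul_pos (Nat.mul_pos hK10 ha) hv)
  refine ⟨Finset.image₂ (· + ·) G1 G2, ?_, fun D ε F hD hDa hε hF hper hbd hsm => ?_⟩
  · refine (Finset.card_image₂_le _ _ _).trans ((Nat.mul_le_mul hc1 hc2).trans ?_)
    have e : C1 * (K1 * a) ^ finrank ℝ U1 * (C2 * (K1 * a * v) ^ finrank ℝ U2) =
        C1 * C2 * K1 ^ s * a ^ s * v ^ c := by
      rw [hd2, ← hd1]; simp only [mul_pow, pow_add]; ring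
    rw [e]
    gcongr
    omega
  have ha' : (1 : ℝ) ≤ a := by exact_mod_cast ha
  have hv' : (1 : ℝ) ≤ v := by exact_mod_cast hv
  have hε0 : 0 < ε := (Real.exp_pos _).trans_le hε
  have hFd : Differentiable ℂ F := fun z => (hF z).differentiableAt
  set φ : (Fin g → ℂ) → ℝ := fun z => ‖F z‖ * Real.exp (-(D * u z)) with hφ
  have hbdd : BddAbove (φ '' U) := ⟨_, by rintro _ ⟨z, -, rfl⟩; exact hbd z⟩
  set m : ℝ := max (sSup (φ '' U)) ε with hm
  have hmε : ε ≤ m := le_max_right _ _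
  have hφm : ∀ z ∈ U, φ z ≤ m := fun z hz => (le_csSup hbdd ⟨z, hz, rfl⟩).trans (le_max_left _ _)
  have S1 : ∀ p ∈ U, ∃ G : (Fin g → ℂ) → ℂ, Differentiable ℂ G ∧
      (∀ ζ, a * ‖ζ‖ ≤ 1 → ‖G ζ‖ ≤ φ (p + ζ) * Real.exp C0) ∧ φ p ≤ ‖G 0‖ ∧
      (∀ ζ, a * ‖ζ‖ ≤ 1 → φ (p + ζ) ≤ ‖G ζ‖ * Real.exp C0) ∧
      ∀ x ∈ U, ∀ y ∈ U, a * ‖x‖ ≤ 1 → a * v * ‖y‖ ≤ 1 → ‖G (x + I • y)‖ ≤ K * m := by
    intro p hp
    obtain ⟨l, hl⟩ := hQ p
    obtain ⟨G, hG, up, lo⟩ := loc hC0 hD hDa hFd p hl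
    have he : ∀ ζ : Fin g → ℂ, a * ‖ζ‖ ≤ 1 → Real.exp (C0 * (a * ‖ζ‖) ^ 2) ≤ Real.exp C0 :=
      fun ζ h => Real.exp_le_exp.2 (mul_le_of_le_one_right hC0 (pow_le_one₀ (by positivity) h))
    refine ⟨G, hG, fun ζ h => (up ζ).trans (mul_le_mul_of_nonneg_left (he ζ h) (by positivity)),
      by simpa using lo 0,
      fun ζ h => (lo ζ).trans (mul_le_mul_of_nonneg_left (he ζ h) (norm_nonneg _)),
      fun x hx y hy h1 h2 => step1 (φ := φ) hC0 ha' hv' (hε.trans hmε) hG hp up hbd hφm hx hy h1 h2⟩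
  have S2 : ∀ z ∈ U, φ z ≤ Real.exp C0 * ε + m / 2 := by
    intro z hz
    obtain ⟨z0, hz0, hn0, hred⟩ := reduce lam hz
    rw [hred φ hper]
    obtain ⟨y1, hy1, y2, hy2, hy⟩ := Submodule.mem_sup.1 (hsup hz0)
    obtain ⟨⟨z1, z2⟩, hz12, hn⟩ := hK3 (⟨y1, hy1⟩, ⟨y2, hy2⟩)
    have hz12' : (z1 : Fin g → ℂ) + z2 = z0 := hz12.trans hy
    have hn' : ‖(z1, z2)‖ ≤ K3 * ∑ i, ‖lam i‖ :=
      hn.trans (mul_le_mul_of_nonneg_left ((congrArg norm hy).le.trans hn0) (by positivity))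
    obtain ⟨p1, hp1, hq1, hr1⟩ := hG1 z1 z1.2 ((norm_fst_le (z1, z2)).trans hn')
    obtain ⟨p2, hp2, hq2, hr2⟩ := hG2 z2 z2.2 ((norm_snd_le (z1, z2)).trans hn')
    obtain ⟨G, hG, up, h0, -, h3⟩ := S1 z0 hz0
    set ζ1 := p1 - z1
    set ζ2 := p2 - z2
    have hK1r : (0 : ℝ) < K1 := by linarith
    have r1 : K1 * (a * ‖ζ1‖) ≤ 1 := by
      rw [le_div_iff₀ (by positivity)] at hr1; push_cast at hr1; linarith
    have r2 : K1 * (a * v * ‖ζ2‖) ≤ 1 := by
      rw [le_div_iff₀ (by positivity)] at hr2; push_cast at hr2; linarith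
    have r3 : a * ‖ζ2‖ ≤ a * v * ‖ζ2‖ := by gcongr; exact le_mul_of_one_le_right (by positivity) hv'
    have n1 : 0 ≤ a * ‖ζ1‖ := by positivity
    have n2 : 0 ≤ a * ‖ζ2‖ := by positivity
    have H := schwarz (k := fun τ => G (τ • (ζ1 + ζ2))) (by fun_prop) (R := 4 * K) (M := K * m)
      (by linarith) fun τ hτ => by
        have e : τ • (ζ1 + ζ2) = (τ • ζ1 + τ.re • ζ2) + I • (τ.im • ζ2) := by
          rw [smul_add, add_assoc, ← Complex.coe_smul, ← Complex.coe_smul, smul_smul, ← add_smul,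
            mul_comm I, re_add_im]
        have e1 : τ • ζ1 = τ.re • ζ1 + τ.im • (I • ζ1) := by
          rw [← Complex.coe_smul, ← Complex.coe_smul, smul_smul, ← add_smul, re_add_im]
        have t1 := abs_re_le_norm τ
        have t2 := abs_im_le_norm τ
        have hτ' : 2 * ‖τ‖ ≤ K1 := by linarith
        simp only [e]
        refine h3 _ (U.add_mem ?_ (U.smul_mem _ (hU2 hq2))) _ (U.smul_mem _ (hU2 hq2)) ?_ ?_
        · rw [e1]
          exact U.add_mem (U.smul_mem _ (hU1 hq1)) (U.smul_mem _ (hI _ hq1))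
        · refine (mul_le_mul_of_nonneg_left (norm_add_le _ _) (by positivity)).trans ?_
          rw [norm_smul, norm_smul, Real.norm_eq_abs]
          nlinarith [mul_le_mul_of_nonneg_right hτ' n1, mul_le_mul_of_nonneg_right hτ' n2,
            mul_le_mul_of_nonneg_right t1 n2, mul_le_mul_of_nonneg_left r3 hK1r.le]
        · rw [norm_smul, Real.norm_eq_abs]
          nlinarith [mul_le_mul_of_nonneg_right hτ' (n2.trans r3),
            mul_le_mul_of_nonneg_right t2 (n2.trans r3), norm_nonneg τ]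
    simp only [zero_smul, one_smul] at H
    have h4 : ‖G (ζ1 + ζ2)‖ ≤ ε * Real.exp C0 := by
      refine (up _ ?_).trans (mul_le_mul_of_nonneg_right ?_ (Real.exp_pos _).le)
      · refine (mul_le_mul_of_nonneg_left (norm_add_le _ _) (by positivity)).trans ?_
        nlinarith
      · have : z0 + (ζ1 + ζ2) = p1 + p2 := by rw [← hz12']; simp only [ζ1, ζ2]; abel
        rw [this]
        exact hsm _ (Finset.mem_image₂_of_mem hp1 hp2)
    have e : 2 * (K * m) / (4 * K) = m / 2 := by field_simp; ring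
    linarith
  have S3 : m ≤ 2 * Real.exp C0 * ε := by
    have : m ≤ Real.exp C0 * ε + m / 2 :=
      max_le (csSup_le ⟨_, 0, U.zero_mem, rfl⟩ (by rintro _ ⟨z, hz, rfl⟩; exact S2 z hz))
        (by nlinarith)
    linarith
  have hfin : K * m * Real.exp C0 ≤ ((C1 * C2 * K1 ^ s + K2 + K4 : ℕ) : ℝ) * ε := by
    have h1 : (K4 : ℝ) ≤ ((C1 * C2 * K1 ^ s + K2 + K4 : ℕ) : ℝ) := by exact_mod_cast (by omega)
    calc K * m * Real.exp C0 ≤ K * (2 * Real.exp C0 * ε) * Real.exp C0 := by gcongr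
      _ = 2 * K * Real.exp C0 * Real.exp C0 * ε := by ring
      _ ≤ _ := mul_le_mul_of_nonneg_right (hK4.trans h1) hε0.le
  have hm0 : 0 ≤ m := hε0.le.trans hmε
  refine ⟨fun z hz => (hφm z hz).trans (le_trans ?_ hfin), fun z hz hzn => ?_⟩
  · nlinarith [mul_le_mul hK1 hE1 zero_le_one (by linarith)]
  · obtain ⟨x, hx, y, hy, hxy⟩ := split lam hz
    obtain ⟨⟨x', y'⟩, hxy', hn⟩ := hK2 (⟨x, hx⟩, ⟨y, hy⟩)
    have e : (x' : Fin g → ℂ) + I • (y' : Fin g → ℂ) = z := hxy'.trans hxy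
    have hn' : ‖(x', y')‖ ≤ K2 * ‖z‖ := hn.trans_eq (congrArg (fun w => (K2 : ℝ) * ‖w‖) hxy)
    have h1 : (K2 : ℝ) ≤ ((C1 * C2 * K1 ^ s + K2 + K4 : ℕ) : ℝ) := by exact_mod_cast (by omega)
    have hK2r : (1 : ℝ) ≤ K2 := by exact_mod_cast hK21
    have h2 : a * v * (K2 * ‖z‖) ≤ 1 := by
      rw [le_div_iff₀ (mul_pos (mul_pos (by linarith) (by linarith)) (by linarith))] at hzn
      nlinarith [mul_le_mul_of_nonneg_right h1 (by positivity : (0 : ℝ) ≤ a * v * ‖z‖)]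
    have h3 : ∀ t : ℝ, 0 ≤ t → t ≤ K2 * ‖z‖ → a * t ≤ 1 ∧ a * v * t ≤ 1 := fun t t0 ht => by
      have : a * v * t ≤ 1 := (mul_le_mul_of_nonneg_left ht (by positivity)).trans h2
      exact ⟨le_trans (by nlinarith [mul_nonneg (zero_le_one.trans ha') t0]) this, this⟩
    obtain ⟨G, -, -, -, lo, h4⟩ := S1 0 U.zero_mem
    have h5 := lo z (h3 _ (norm_nonneg _) (le_mul_of_one_le_left (norm_nonneg _) hK2r)).1
    have h6 := h4 _ x'.2 _ y'.2 (h3 _ (norm_nonneg _) ((norm_fst_le (x', y')).trans hn')).1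
      (h3 _ (norm_nonneg _) ((norm_snd_le (x', y')).trans hn')).2
    rw [zero_add] at h5
    rw [e] at h6
    exact h5.trans ((mul_le_mul_of_nonneg_right h6 (Real.exp_pos _).le).trans hfin)

end

end Pool.Agent.CMP

end MrgPart0

-- ======== part 1: formerly Pool.Agent.MP_cbf1af_ag.cmp.Wd
section MrgPart1

/-! PROJECT CMP, row WD: Cauchy estimate for words and the order of vanishing. -/

namespace Pool.Agent.CMP

open Filter Topology

namespace WdH

variable {g r : ℕ} (w : Fin r → Fin g → ℂ)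

theorem lin_add (p : Fin g → ℂ) (x : Fin r → ℂ) (j : Fin r) (τ : ℂ) :
    p + ∑ i, (x + Pi.single j τ : Fin r → ℂ) i • w i = (p + ∑ i, x i • w i) + τ • w j := by
  simp only [Pi.add_apply, add_smul, Finset.sum_add_distrib, add_assoc]
  congr 2
  rw [Finset.sum_eq_single j] <;> simp +contextual

theorem step {f : (Fin g → ℂ) → ℂ} {p : Fin g → ℂ} {ρ d M : ℝ} (hd : 0 < d) (j : Fin r)
    (h : ∀ x : Fin r → ℂ, ‖x‖ ≤ ρ + d →
      AnalyticAt ℂ f (p + ∑ j, x j • w j) ∧ ‖f (p + ∑ j, x j • w j)‖ ≤ M)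
    (x : Fin r → ℂ) (hx : ‖x‖ ≤ ρ) : ‖fderiv ℂ f (p + ∑ j, x j • w j) (w j)‖ ≤ M / d := by
  set q := p + ∑ j, x j • w j with hq
  have hb : ∀ τ : ℂ, ‖τ‖ ≤ d → AnalyticAt ℂ f (q + τ • w j) ∧ ‖f (q + τ • w j)‖ ≤ M := by
    intro τ hτ
    rw [hq, ← lin_add]
    refine h _ ((norm_add_le _ _).trans ?_)
    rw [Pi.norm_single]
    linarith
  have hder : ∀ τ : ℂ, ‖τ‖ ≤ d →
      HasDerivAt (fun τ : ℂ => f (q + τ • w j)) (fderiv ℂ f (q + τ • w j) (w j)) τ := by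
    intro τ hτ
    have h1 : HasDerivAt (fun τ : ℂ => q + τ • w j) (w j) τ := by
      simpa using ((hasDerivAt_id τ).smul_const (w j)).const_add q
    exact (hb τ hτ).1.differentiableAt.hasFDerivAt.comp_hasDerivAt τ h1
  have h0 := (hder 0 (by simpa using hd.le)).deriv
  simp only [zero_smul, add_zero] at h0
  rw [← h0]
  refine Complex.norm_deriv_le_of_forall_mem_sphere_norm_le hd ?_ fun τ hτ => (hb τ ?_).2
  · refine DifferentiableOn.diffContOnCl fun τ hτ => ?_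
    rw [closure_ball _ hd.ne', mem_closedBall_zero_iff] at hτ
    exact (hder τ hτ).differentiableAt.differentiableWithinAt
  · exact (mem_sphere_zero_iff_norm.1 hτ).le

theorem aux (l : List (Fin r)) {p : Fin g → ℂ} {d : ℝ} (hd : 0 < d) :
    ∀ {f : (Fin g → ℂ) → ℂ} {M : ℝ}, (∀ x : Fin r → ℂ, ‖x‖ ≤ l.length * d →
      AnalyticAt ℂ f (p + ∑ j, x j • w j) ∧ ‖f (p + ∑ j, x j • w j)‖ ≤ M) →
      ‖wd w l f p‖ ≤ M / d ^ l.length := by
  induction l with
  | nil =>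
    intro f M h
    simpa [wd] using (h 0 (by simp)).2
  | cons j l ih =>
    intro f M h
    have e : ((j :: l).length : ℝ) * d = l.length * d + d := by
      simp only [List.length_cons]; push_cast; ring
    rw [e] at h
    have := ih (f := fun z => fderiv ℂ f z (w j)) (M := M / d) fun x hx =>
      ⟨analyticAt_dir (h x (by linarith)).1 _, step w hd j h x hx⟩
    simp only [wd, List.length_cons]
    rwa [div_div, ← pow_succ'] at this

theorem tendsto_lin (p : Fin g → ℂ) :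
    Tendsto (fun x : Fin r → ℂ => p + ∑ j, x j • w j) (𝓝 0) (𝓝 p) := by
  have : Continuous fun x : Fin r → ℂ => p + ∑ j, x j • w j := by fun_prop
  simpa using this.tendsto 0

end WdH

theorem cauchy : CauchyStmt := by
  intro g r w f p ρ M l hρ h
  rcases Nat.eq_zero_or_pos l.length with h0 | h0
  · rw [List.length_eq_zero_iff.1 h0]
    simpa [wd] using (h 0 (by simpa using hρ.le)).2
  have hl : (0 : ℝ) < l.length := by exact_mod_cast h0
  have := WdH.aux w l (p := p) (div_pos hρ hl) (f := f) (M := M) fun x hx =>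
    h x (by rwa [mul_div_cancel₀ _ hl.ne'] at hx)
  rwa [div_eq_mul_inv, ← inv_pow, inv_div] at this

theorem ordIff : OrdStmt := by
  intro g r w f p k hf
  constructor
  · intro h l hl
    obtain ⟨C, hC0, hC⟩ := h.exists_nonneg
    have h1 := hC.bound.and ((WdH.tendsto_lin w p).eventually hf.eventually_analyticAt)
    obtain ⟨ε, hε, h2⟩ := Metric.eventually_nhds_iff.1 h1
    obtain ⟨n, rfl⟩ : ∃ n, k = l.length + (n + 1) := ⟨k - l.length - 1, by omega⟩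
    have h3 : ∀ ρ : ℝ, 0 < ρ → ρ < ε →
        ‖wd w l f p‖ ≤ C * (l.length : ℝ) ^ l.length * ρ ^ (n + 1) := by
      intro ρ hρ hρε
      have := cauchy g r w f p ρ (C * ρ ^ (l.length + (n + 1))) l hρ fun x hx => by
        obtain ⟨h4, h5⟩ := h2 (y := x) (by rw [dist_zero_right]; linarith)
        refine ⟨h5, h4.trans ?_⟩
        rw [norm_pow, norm_norm]
        exact mul_le_mul_of_nonneg_left (pow_le_pow_left₀ (norm_nonneg _) hx _) hC0
      refine this.trans (le_of_eq ?_)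
      rw [div_pow, pow_add]
      field_simp
    have h4 : Tendsto (fun ρ : ℝ => C * (l.length : ℝ) ^ l.length * ρ ^ (n + 1)) (𝓝[>] 0)
        (𝓝 0) := by
      have : Continuous fun ρ : ℝ => C * (l.length : ℝ) ^ l.length * ρ ^ (n + 1) := by fun_prop
      simpa using (this.tendsto 0).mono_left nhdsWithin_le_nhds
    refine norm_le_zero_iff.1 (ge_of_tendsto h4 ?_)
    filter_upwards [Ioo_mem_nhdsGT hε] with ρ hρ
    exact h3 ρ hρ.1 hρ.2
  · induction k generalizing f with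
    | zero =>
      intro _
      simpa [Ord] using (hf.continuousAt.tendsto.comp (WdH.tendsto_lin w p)).isBigO_one ℝ
    | succ k ih =>
      intro h
      have h0 : f p = 0 := h [] (by simp)
      have hj : ∀ j, Ord w k (fun z => fderiv ℂ f z (w j)) p := fun j =>
        ih _ (analyticAt_dir hf _) fun l hl => h (j :: l) (by simpa using hl)
      choose C hC0 hC using fun j => (hj j).exists_nonneg
      have h1 := (eventually_all.2 fun j => (hC j).bound).and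
        ((WdH.tendsto_lin w p).eventually hf.eventually_analyticAt)
      obtain ⟨ε, hε, h2⟩ := Metric.eventually_nhds_iff.1 h1
      let L : (Fin r → ℂ) →L[ℂ] (Fin g → ℂ) :=
        ∑ j, (ContinuousLinearMap.proj j : (Fin r → ℂ) →L[ℂ] ℂ).smulRight (w j)
      have hL : ∀ x, L x = ∑ j, x j • w j := fun x => by simp [L]
      refine Asymptotics.IsBigO.of_bound (∑ j, C j) ?_
      filter_upwards [Metric.ball_mem_nhds (0 : Fin r → ℂ) hε] with x hx
      rw [mem_ball_zero_iff] at hx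
      have key := Convex.norm_image_sub_le_of_norm_hasFDerivWithin_le
        (f := fun x : Fin r → ℂ => f (p + ∑ j, x j • w j))
        (f' := fun x => (fderiv ℂ f (p + ∑ j, x j • w j)).comp L)
        (C := (∑ j, C j) * ‖x‖ ^ k) (s := Metric.closedBall 0 ‖x‖) (x := 0) (y := x)
        (fun y hy => by
          rw [mem_closedBall_zero_iff] at hy
          have h3 := (h2 (y := y) (by rw [dist_zero_right]; linarith)).2
          have h4 : HasFDerivAt (fun x : Fin r → ℂ => p + ∑ j, x j • w j) L y := by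
            simpa only [hL] using L.hasFDerivAt.const_add p
          exact (h3.differentiableAt.hasFDerivAt.comp y h4).hasFDerivWithinAt)
        (fun y hy => by
          rw [mem_closedBall_zero_iff] at hy
          have h3 := (h2 (y := y) (by rw [dist_zero_right]; linarith)).1
          refine ContinuousLinearMap.opNorm_le_bound _
            (mul_nonneg (Finset.sum_nonneg fun j _ => hC0 j) (by positivity)) fun v => ?_
          rw [ContinuousLinearMap.comp_apply, hL, map_sum, Finset.sum_mul, Finset.sum_mul]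
          refine (norm_sum_le _ _).trans (Finset.sum_le_sum fun j _ => ?_)
          rw [map_smul, norm_smul, mul_comm]
          refine mul_le_mul ((h3 j).trans ?_) (norm_le_pi_norm v j) (norm_nonneg _)
            (mul_nonneg (hC0 j) (by positivity))
          rw [norm_pow, norm_norm]
          exact mul_le_mul_of_nonneg_left (pow_le_pow_left₀ (norm_nonneg _) hy _) (hC0 j))
        (convex_closedBall _ _) (by simp) (by simp)
      simpa [h0, pow_succ, mul_assoc] using key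

end Pool.Agent.CMP

end MrgPart1

-- ======== part 2: formerly Pool.Agent.MP_cbf1af_ag.cmp.Core
section MrgPart2

/-! PROJECT CMP: the transcendence argument. -/

namespace Pool.Agent.CMP

open MvPolynomial Filter Topology

theorem trdeg_adjoin_le {ι : Type} (θ : ι → ℂ) (K : IntermediateField ℚ ℂ)
    (h : ∀ i, IsAlgebraic ℚ (θ i) ∨ θ i ∈ K) :
    Algebra.trdeg ℚ (IntermediateField.adjoin ℚ (Set.range θ)) ≤ Algebra.trdeg ℚ K := by
  let L := IntermediateField.adjoin K (Set.range θ)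
  have halg : Algebra.IsAlgebraic K L := by
    refine IntermediateField.isAlgebraic_adjoin ?_
    rintro _ ⟨i, rfl⟩
    rcases h i with h | h
    · exact (h.tower_top K).isIntegral
    · exact isIntegral_algebraMap (x := (⟨θ i, h⟩ : K))
  have h1 : Algebra.trdeg ℚ K + Algebra.trdeg K L = Algebra.trdeg ℚ L := trdeg_add_eq ℚ K
  rw [trdeg_eq_zero (R := K) (A := L), add_zero] at h1
  rw [h1]
  have hle : IntermediateField.adjoin ℚ (Set.range θ) ≤ L.restrictScalars ℚ :=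
    IntermediateField.adjoin_le_iff.2 (IntermediateField.subset_adjoin K _)
  exact trdeg_le_of_injective (IntermediateField.inclusion hle)
    (IntermediateField.inclusion_injective hle)

theorem mul_pow_le_two_pow (K κ ν : ℕ) (hν : 1 ≤ ν) : K * ν ^ κ ≤ 2 ^ ((K + κ) * ν) := by
  have h1 : K ≤ 2 ^ (K * ν) :=
    (Nat.lt_two_pow_self.le).trans (Nat.pow_le_pow_right two_pos (Nat.le_mul_of_pos_right K hν))
  have h2 : ν ^ κ ≤ 2 ^ (κ * ν) := by
    rw [mul_comm, pow_mul]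
    exact Nat.pow_le_pow_left Nat.lt_two_pow_self.le κ
  rw [add_mul, pow_add]
  exact Nat.mul_le_mul h1 h2

theorem two_pow_le_exp (k : ℕ) : ((2 ^ k : ℕ) : ℝ) ≤ Real.exp k := by
  have h : (2 : ℝ) ≤ Real.exp 1 := by linarith [Real.add_one_le_exp (1 : ℝ)]
  rw [← mul_one (k : ℝ), Real.exp_nat_mul]
  push_cast
  exact pow_le_pow_left₀ (by norm_num) h k

/-- the words of length at most `T`, listed -/
theorem exists_words (r T : ℕ) (hr : 1 ≤ r) : ∃ (n : ℕ) (wo : Fin n → List (Fin r)),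
    n ≤ 2 ^ ((r + 1) * T) ∧ (∀ i, (wo i).length ≤ T) ∧
      ∀ l : List (Fin r), l.length ≤ T → ∃ i, wo i = l := by
  let ι := Σ k : Fin (T + 1), (Fin k → Fin r)
  let e := Fintype.equivFin ι
  let wo : ι → List (Fin r) := fun x => List.ofFn x.2
  refine ⟨Fintype.card ι, fun i => wo (e.symm i), ?_, fun i => ?_, fun l hl => ?_⟩
  · have h1 : Fintype.card ι ≤ (T + 1) * r ^ T := by
      rw [Fintype.card_sigma]
      refine (Finset.sum_le_card_nsmul _ _ (r ^ T) fun k _ => ?_).trans (by simp)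
      simpa using Nat.pow_le_pow_right hr (Nat.lt_succ_iff.1 k.2)
    refine h1.trans ?_
    rw [add_mul r, one_mul, pow_add, mul_comm (2 ^ (r * T)), mul_comm r T, pow_mul']
    exact Nat.mul_le_mul Nat.lt_two_pow_self (Nat.pow_le_pow_left Nat.lt_two_pow_self.le T)
  · simpa [wo] using Nat.lt_succ_iff.1 (e.symm i).1.2
  · refine ⟨e ⟨⟨l.length, Nat.lt_succ_iff.2 hl⟩, l.get⟩, ?_⟩
    simp only [Equiv.symm_apply_apply]
    exact List.ofFn_get l

/-- the lower bound for one Taylor coefficient of a nonzero form -/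
theorem lower_bound (hO : OrdStmt) (hZ : ZeroStmt) (hD : DerStmt) (hT : TayStmt) (hL : LiouStmt)
    {g N r t : ℕ} {Θ : Fin (N + 1) → (Fin g → ℂ) → ℂ} {Λ : AddSubgroup (Fin g → ℂ)}
    (h : IsAbelian Θ Λ) {w : Fin r → Fin g → ℂ} (hw : LinearIndependent ℂ w) (hr : 1 ≤ r)
    (ht : Algebra.trdeg ℚ
      (IntermediateField.adjoin ℚ (Set.range fun p : Fin r × Fin g => w p.1 p.2)) ≤ t) :
    ∃ CZ CT CL : ℕ, 1 ≤ CT ∧ ∀ (D L T0 S : ℕ) (P : MvPolynomial (Fin (N + 1)) ℤ),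
      P.IsHomogeneous D → Sz X D L P → ev Θ (map (Int.castRingHom ℂ) P) ≠ 0 → 1 ≤ T0 →
      CZ * (D + 1) ^ g < T0 ^ r → (r + 1) * (g * T0) ≤ S →
      L * (CT * (D + g * T0)) ^ (g * T0) ≤ 2 ^ S →
      ∃ l : List (Fin r), l.length ≤ g * T0 ∧
        Real.exp (-(CL * ((D + CT * (g * T0) : ℕ) : ℝ) ^ t * (S + (D + CT * (g * T0) : ℕ)))) ≤
          ‖wd w l (fun z => eval₂ (Int.castRingHom ℂ) (fn Θ z) P) 0‖ := by
  obtain ⟨CZ, hCZ⟩ := hZ g N Θ Λ h
  obtain ⟨n, hh, e, hsys, he⟩ := hD g N Θ Λ h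
  obtain ⟨m, θ, CT, hCT, hθ, htay⟩ := hT g n r hh w hsys hw
  obtain ⟨CL, hCL⟩ := hL m t θ ((trdeg_adjoin_le θ _ hθ).trans ht)
  refine ⟨CZ, CT, CL, hCT, fun D L T0 S P hP hsz hne hT0 hlt hS1 hS2 => ?_⟩
  have hg : 1 ≤ g := by
    have := hw.fintype_card_le_finrank
    simp only [Fintype.card_fin, Module.finrank_fin_fun] at this
    omega
  have hsz' : Sz X D L (rename e P) :=
    hsz.map (rename e : MvPolynomial (Fin (N + 1)) ℤ →ₐ[ℤ] MvPolynomial (Fin n) ℤ).toRingHom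
      fun i => ⟨e i, by simp⟩
  have hΦ : (fun z => eval₂ (Int.castRingHom ℂ) (hh z) (rename e P)) =
      fun z => eval₂ (Int.castRingHom ℂ) (fn Θ z) P := by
    funext z
    rw [eval₂_rename]
    congr 1
    funext i
    exact he z i
  obtain ⟨h1, h2⟩ := htay D L (g * T0) (rename e P) hsz'
  rw [hΦ] at h1 h2
  have hΦ' : (fun z => eval₂ (Int.castRingHom ℂ) (fn Θ z) P) =
      fun z => eval (fn Θ z) (map (Int.castRingHom ℂ) P) := by
    funext z
    rw [eval_map]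
  have han : AnalyticAt ℂ (fun z => eval₂ (Int.castRingHom ℂ) (fn Θ z) P) 0 := by
    rw [hΦ']
    exact analyticAt_eval (h.analyticAt_fn h.ne0) _
  have hunit := h2 fun w' hw' => by
    by_contra hc
    push Not at hc
    have ho := (hO g r w' _ 0 (g * T0 + 1) han).2 fun l hl => hc l (by omega)
    have ho' : Ord w' (g * T0 + 1) (ev Θ (map (Int.castRingHom ℂ) P)) 0 := by
      have hlin : Tendsto (fun x : Fin r → ℂ => (0 : Fin g → ℂ) + ∑ j, x j • w' j) (𝓝 0)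
          (𝓝 0) := by
        have : Continuous fun x : Fin r → ℂ => (0 : Fin g → ℂ) + ∑ j, x j • w' j := by fun_prop
        simpa using this.tendsto 0
      have hb : (fun x : Fin r → ℂ => Θ 0 (0 + ∑ j, x j • w' j) ^ D) =O[𝓝 0]
          fun _ => (1 : ℝ) :=
        ((((h.hol 0 0).continuousAt.tendsto.comp hlin).pow D).isBigO_one ℝ)
      have := hb.mul ho
      simp only [one_mul] at this
      refine this.congr' ?_ EventuallyEq.rfl
      filter_upwards [hlin.eventually h.eventually_ne] with x hx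
      rw [ev_eq_fn (hP.map _) hx, eval_map]
    exact absurd (hCZ r w' D T0 _ hw' (hP.map _) hne hT0 ho') (by omega)
  obtain ⟨n', wo, hn', hwo, hsur⟩ := exists_words r (g * T0) hr
  have hrange : Set.range (fun i => wd w (wo i) (fun z => eval₂ (Int.castRingHom ℂ) (fn Θ z) P) 0)
      = {x | ∃ l : List (Fin r), l.length ≤ g * T0 ∧
        x = wd w l (fun z => eval₂ (Int.castRingHom ℂ) (fn Θ z) P) 0} := by
    ext x
    constructor
    · rintro ⟨i, rfl⟩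
      exact ⟨wo i, hwo i, rfl⟩
    · rintro ⟨l, hl, rfl⟩
      obtain ⟨i, rfl⟩ := hsur l hl
      exact ⟨i, rfl⟩
  rw [← hrange] at hunit
  have hδ : 1 ≤ D + CT * (g * T0) := by
    have : 0 < CT * (g * T0) := by positivity
    omega
  obtain ⟨i, hi⟩ := hCL n' (D + CT * (g * T0)) S _ hδ
    (hn'.trans (Nat.pow_le_pow_right two_pos hS1))
    (fun i => (h1 (wo i) (hwo i)).mono le_rfl hS2) hunit
  exact ⟨wo i, hwo i, hi⟩

/-- the upper bound for the Taylor coefficients of the auxiliary form -/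
theorem upper_bound (hC : CauchyStmt) (hA : AuxStmt)
    {g N s c r : ℕ} {Θ : Fin (N + 1) → (Fin g → ℂ) → ℂ} {Λ : AddSubgroup (Fin g → ℂ)}
    (h : IsAbelian Θ Λ) {lam : Fin s → Fin g → ℂ} {w : Fin r → Fin g → ℂ}
    (hl : ∀ i, lam i ∈ Λ) (hR : LinearIndependent ℝ lam) (hw : LinearIndependent ℂ w)
    (hsp : Submodule.span ℂ (Set.range w) = Submodule.span ℂ (Set.range lam))
    (hcs : c + s = 2 * r) :
    ∃ CA CW : ℕ, 1 ≤ CA ∧ ∀ a v H : ℕ, 1 ≤ a → a ≤ v → H ≤ v ^ 2 →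
      CA * a ^ s * v ^ (c + 2) ≤ a ^ (2 * g) * H →
      ∃ P : MvPolynomial (Fin (N + 1)) ℤ, P.IsHomogeneous (g * a ^ 2) ∧
        Sz X (g * a ^ 2) ((a ^ 2 + 1) ^ g * 2 ^ H) P ∧
        ev Θ (map (Int.castRingHom ℂ) P) ≠ 0 ∧ ∀ (T E : ℕ) (l : List (Fin r)), l.length ≤ T →
          CW * (T * a * v) ≤ 2 ^ E →
          ‖wd w l (fun z => eval₂ (Int.castRingHom ℂ) (fn Θ z) P) 0‖ ≤
            Real.exp (CA * (a : ℝ) ^ 2 - (v : ℝ) ^ 2 + (E * T : ℕ)) := by
  have hr : Module.finrank ℂ (Submodule.span ℂ (Set.range lam)) = r := by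
    rw [← hsp, finrank_span_eq_card hw, Fintype.card_fin]
  obtain ⟨CA, hCA, haux⟩ := hA g N Θ Λ s c lam h hl hR (by rw [hr, hcs])
  obtain ⟨Cw, hCw⟩ := exists_nat_ge (∑ j, ‖w j‖)
  refine ⟨CA, CA * (Cw + 1), hCA, fun a v H ha hav hH hcond => ?_⟩
  obtain ⟨P, hP, hsz, hne, hsm⟩ := haux a v H ha hav hH hcond
  refine ⟨P, hP, hsz, hne, fun T E l hlT hE => ?_⟩
  have hΦ' : (fun z => eval₂ (Int.castRingHom ℂ) (fn Θ z) P) =
      fun z => eval (fn Θ z) (map (Int.castRingHom ℂ) P) := by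
    funext z
    rw [eval_map]
  have hv : 1 ≤ v := ha.trans hav
  have hp1 : (0 : ℝ) < CA * a * v := by positivity
  have hp2 : (0 : ℝ) < Cw + 1 := by positivity
  have key := hC g r w (fun z => eval₂ (Int.castRingHom ℂ) (fn Θ z) P) 0
    (1 / (CA * a * v : ℝ) / (Cw + 1)) (Real.exp (CA * (a : ℝ) ^ 2 - (v : ℝ) ^ 2)) l
    (by positivity) fun x hx => by
      have hmem : (0 : Fin g → ℂ) + ∑ j, x j • w j ∈ Submodule.span ℂ (Set.range lam) := by
        rw [← hsp, zero_add]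
        exact Submodule.sum_mem _ fun j _ =>
          Submodule.smul_mem _ _ (Submodule.subset_span ⟨j, rfl⟩)
      have hnorm : ‖(0 : Fin g → ℂ) + ∑ j, x j • w j‖ ≤ 1 / (CA * a * v : ℝ) := by
        rw [zero_add]
        have h1 : ‖∑ j, x j • w j‖ ≤ ‖x‖ * ∑ j, ‖w j‖ := by
          rw [Finset.mul_sum]
          refine (norm_sum_le _ _).trans (Finset.sum_le_sum fun j _ => ?_)
          rw [norm_smul]
          exact mul_le_mul_of_nonneg_right (norm_le_pi_norm x j) (norm_nonneg _)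
        rw [le_div_iff₀ hp2] at hx
        refine h1.trans (le_trans ?_ hx)
        exact mul_le_mul_of_nonneg_left (by linarith) (norm_nonneg _)
      obtain ⟨h1, h2⟩ := hsm _ hmem hnorm
      refine ⟨?_, h2⟩
      rw [hΦ']
      exact analyticAt_eval (h.analyticAt_fn h1) _
  refine key.trans ?_
  rw [Real.exp_add]
  refine mul_le_mul_of_nonneg_left ?_ (Real.exp_pos _).le
  have h1 : (l.length : ℝ) / (1 / (CA * a * v : ℝ) / (Cw + 1)) ≤ ((2 ^ E : ℕ) : ℝ) := by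
    have h2 : (l.length : ℝ) / (1 / (CA * a * v : ℝ) / (Cw + 1)) =
        ((CA * (Cw + 1) * (l.length * a * v) : ℕ) : ℝ) := by
      push_cast
      field_simp
    rw [h2]
    exact_mod_cast (Nat.mul_le_mul_left _ (Nat.mul_le_mul_right _
      (Nat.mul_le_mul_right _ hlT))).trans hE
  refine le_trans ?_ (two_pow_le_exp (E * T))
  calc _ ≤ ((2 ^ E : ℕ) : ℝ) ^ l.length := pow_le_pow_left₀ (by positivity) h1 _
    _ ≤ ((2 ^ E : ℕ) : ℝ) ^ T :=
      pow_le_pow_right₀ (by exact_mod_cast Nat.one_le_two_pow) hlT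
    _ = _ := by push_cast; rw [← pow_mul]

theorem ar1 {CA ν r e s t g : ℕ} (hν : CA ≤ ν) (hν1 : 1 ≤ ν) (he : 2 ≤ e)
    (hcon : e * (t + 1) * g + r * s < 2 * g * r + 2 * g) :
    CA * (ν ^ (2 * r * e)) ^ s * (ν ^ (2 * (t + 1) * g * e + 1)) ^ e ≤
      (ν ^ (2 * r * e)) ^ (2 * g) * ν ^ (4 * g * e) := by
  rw [← pow_mul, ← pow_mul, ← pow_mul, ← pow_add, mul_assoc, ← pow_add]
  refine (Nat.mul_le_mul_right _ hν).trans ?_
  rw [← pow_succ']
  refine Nat.pow_le_pow_right hν1 ?_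
  have h1 : e * (e * (t + 1) * g + r * s + 1) ≤ e * (2 * g * r + 2 * g) :=
    Nat.mul_le_mul_left e hcon
  linarith

theorem ar2 {CZ g a H r : ℕ} (ha : 1 ≤ a) (hH : 1 ≤ H) (hr : 1 ≤ r) (hag : a ^ (2 * g) = H ^ r) :
    CZ * (g * a ^ 2 + 1) ^ g < ((CZ * (g + 1) ^ g + 1) * H) ^ r := by
  have h1 : (g * a ^ 2 + 1) ^ g ≤ ((g + 1) * a ^ 2) ^ g :=
    Nat.pow_le_pow_left (by linarith [Nat.one_le_pow 2 a ha]) g
  rw [mul_pow, ← pow_mul, hag] at h1
  have h2 := Nat.le_self_pow (n := r) (by omega) (CZ * (g + 1) ^ g + 1)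
  have h3 : 0 < H ^ r := by positivity
  rw [mul_pow]
  calc CZ * (g * a ^ 2 + 1) ^ g ≤ CZ * ((g + 1) ^ g * H ^ r) := Nat.mul_le_mul_left _ h1
    _ < (CZ * (g + 1) ^ g + 1) * H ^ r := by linarith
    _ ≤ _ := Nat.mul_le_mul_right _ h2

theorem ar3 {CT g a H K ν κ X : ℕ} (hν1 : 1 ≤ ν) (haH : a ^ 2 ≤ H) (hH : H = ν ^ κ) :
    (a ^ 2 + 1) ^ g * 2 ^ H * (CT * (g * a ^ 2 + g * (K * H))) ^ (g * (K * H)) ≤
      2 ^ ((g + 1 + (CT * (g + g * K) + κ) * (g * K) + X) * (ν * H)) := by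
  have hνH : H ≤ ν * H := Nat.le_mul_of_pos_left H hν1
  have h1 : (a ^ 2 + 1) ^ g ≤ 2 ^ (g * (ν * H)) := by
    rw [mul_comm g, pow_mul]
    exact Nat.pow_le_pow_left (Nat.lt_two_pow_self.trans_le
      (Nat.pow_le_pow_right two_pos (haH.trans hνH))) g
  have h2 : 2 ^ H ≤ 2 ^ (ν * H) := Nat.pow_le_pow_right two_pos hνH
  have h3 : CT * (g * a ^ 2 + g * (K * H)) ≤ 2 ^ ((CT * (g + g * K) + κ) * ν) := by
    refine le_trans ?_ (mul_pow_le_two_pow (CT * (g + g * K)) κ ν hν1)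
    rw [← hH, mul_assoc]
    exact Nat.mul_le_mul_left _ (by linarith [Nat.mul_le_mul_left g haH])
  have h4 := Nat.pow_le_pow_left h3 (g * (K * H))
  rw [← pow_mul] at h4
  refine (Nat.mul_le_mul (Nat.mul_le_mul h1 h2) h4).trans ?_
  rw [← pow_add, ← pow_add]
  refine Nat.pow_le_pow_right two_pos ?_
  linarith [Nat.zero_le (X * (ν * H))]

theorem ar4 {CL CA CT g a H K K4 K7 ν v t : ℕ} (haH : a ^ 2 ≤ H) (hH1 : 1 ≤ H)
    (hv2 : v ^ 2 = H ^ (t + 1) * ν ^ 2)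
    (hν : ν = CL * (g + CT * (g * K)) ^ t * (K4 + (g + CT * (g * K))) + CA + K7 * (g * K) + 1)
    (hfin : v ^ 2 ≤ CL * (g * a ^ 2 + CT * (g * (K * H))) ^ t *
      (K4 * (ν * H) + (g * a ^ 2 + CT * (g * (K * H)))) + CA * a ^ 2 +
        K7 * ν * (g * (K * H))) : False := by
  obtain ⟨K5, hK5⟩ : ∃ K5, K5 = g + CT * (g * K) := ⟨_, rfl⟩
  rw [← hK5] at hν
  have hν1 : 1 ≤ ν := by omega
  have hνH : H ≤ ν * H := Nat.le_mul_of_pos_left H hν1
  have hHt : H ≤ H ^ (t + 1) := Nat.le_self_pow (by omega) H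
  have hδ : g * a ^ 2 + CT * (g * (K * H)) ≤ K5 * H := by
    rw [hK5]; linarith [Nat.mul_le_mul_left g haH]
  have h1 : CL * (g * a ^ 2 + CT * (g * (K * H))) ^ t *
      (K4 * (ν * H) + (g * a ^ 2 + CT * (g * (K * H)))) ≤
      CL * K5 ^ t * (K4 + K5) * (ν * H ^ (t + 1)) := by
    have h2 : K4 * (ν * H) + (g * a ^ 2 + CT * (g * (K * H))) ≤ (K4 + K5) * (ν * H) := by
      linarith [Nat.mul_le_mul_left K5 hνH]
    refine (Nat.mul_le_mul (Nat.mul_le_mul_left CL (Nat.pow_le_pow_left hδ t)) h2).trans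
      (le_of_eq ?_)
    rw [mul_pow]
    ring
  have h3 : CA * a ^ 2 ≤ CA * (ν * H ^ (t + 1)) :=
    Nat.mul_le_mul_left _ (haH.trans (hHt.trans (Nat.le_mul_of_pos_left _ hν1)))
  have h4 : K7 * ν * (g * (K * H)) ≤ K7 * (g * K) * (ν * H ^ (t + 1)) := by
    calc _ = K7 * (g * K) * (ν * H) := by ring
      _ ≤ _ := Nat.mul_le_mul_left _ (Nat.mul_le_mul_left _ hHt)
  have h5 : v ^ 2 = ν * (ν * H ^ (t + 1)) := by rw [hv2]; ring
  have h6 : 0 < ν * H ^ (t + 1) := by positivity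
  generalize ν * H ^ (t + 1) = Y at h1 h3 h4 h5 h6
  have h7 : ν * Y = CL * K5 ^ t * (K4 + K5) * Y + CA * Y + K7 * (g * K) * Y + Y := by
    conv_lhs => rw [hν]
    ring
  linarith

theorem core (hC : CauchyStmt) (hO : OrdStmt) (hA : AuxStmt) (hZ : ZeroStmt) (hD : DerStmt)
    (hT : TayStmt) (hL : LiouStmt) : CoreStmt := by
  intro g N Θ Λ s c r t lam w h hl hR hw hsp hcs hr ht
  by_contra hcon
  push Not at hcon
  obtain ⟨CZ, CT, CL, hCT, hlow⟩ := lower_bound hO hZ hD hT hL h hw hr ht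
  obtain ⟨CA, CW, hCA, hup⟩ := upper_bound hC hA h hl hR hw hsp hcs
  have hrg : r ≤ g := by simpa using hw.fintype_card_le_finrank
  obtain ⟨e, he⟩ : ∃ e, e = c + 2 := ⟨_, rfl⟩
  rw [← he] at hcon hup
  have he2 : 2 ≤ e := by omega
  obtain ⟨K, hK⟩ : ∃ K, K = CZ * (g + 1) ^ g + 1 := ⟨_, rfl⟩
  obtain ⟨K4, hK4⟩ : ∃ K4, K4 = g + 1 + (CT * (g + g * K) + 4 * g * e) * (g * K) +
    (r + 1) * (g * K) := ⟨_, rfl⟩
  obtain ⟨K7, hK7⟩ : ∃ K7, K7 = CW * (g * K) +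
    (4 * g * e + 2 * r * e + (2 * (t + 1) * g * e + 1)) := ⟨_, rfl⟩
  obtain ⟨ν, hν⟩ : ∃ ν, ν = CL * (g + CT * (g * K)) ^ t * (K4 + (g + CT * (g * K))) + CA +
    K7 * (g * K) + 1 := ⟨_, rfl⟩
  have hν1 : 1 ≤ ν := hν ▸ Nat.le_add_left _ _
  have hνA : CA ≤ ν := by
    rw [hν]
    exact ((Nat.le_add_left _ _).trans (Nat.le_add_right _ _)).trans (Nat.le_add_right _ _)
  obtain ⟨a, ha⟩ : ∃ a, a = ν ^ (2 * r * e) := ⟨_, rfl⟩
  obtain ⟨H, hH⟩ : ∃ H, H = ν ^ (4 * g * e) := ⟨_, rfl⟩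
  obtain ⟨v, hv⟩ : ∃ v, v = ν ^ (2 * (t + 1) * g * e + 1) := ⟨_, rfl⟩
  have ha1 : 1 ≤ a := ha ▸ Nat.one_le_pow _ _ hν1
  have hH1 : 1 ≤ H := hH ▸ Nat.one_le_pow _ _ hν1
  have hv2 : v ^ 2 = H ^ (t + 1) * ν ^ 2 := by
    rw [hv, hH, ← pow_mul, ← pow_mul, ← pow_add]
    congr 1
    ring
  have hre : r * e ≤ g * e := Nat.mul_le_mul_right e hrg
  have haH : a ^ 2 ≤ H := by
    rw [ha, hH, ← pow_mul]
    exact Nat.pow_le_pow_right hν1 (by linarith only [hre])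
  have hag : a ^ (2 * g) = H ^ r := by
    rw [ha, hH, ← pow_mul, ← pow_mul]
    congr 1
    ring
  have hav : a ≤ v := by
    rw [ha, hv]
    exact Nat.pow_le_pow_right hν1 (by linarith only [hre, Nat.zero_le (t * g * e)])
  have hHv : H ≤ v ^ 2 := by
    rw [hv2]
    exact (Nat.le_self_pow (Nat.succ_ne_zero t) H).trans
      (Nat.le_mul_of_pos_right _ (by positivity))
  have hcond : CA * a ^ s * v ^ e ≤ a ^ (2 * g) * H := by
    rw [ha, hv, hH]
    exact ar1 hνA hν1 he2 hcon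
  obtain ⟨P, hP, hsz, hne, hsm⟩ := hup a v H ha1 hav hHv hcond
  have hK1 : 1 ≤ K := hK ▸ Nat.le_add_left _ _
  obtain ⟨l, hlT, hlo⟩ := hlow (g * a ^ 2) _ (K * H) (K4 * (ν * H)) P hP hsz hne
    (Nat.mul_pos hK1 hH1) (hK ▸ ar2 ha1 hH1 hr hag)
    (by
      calc (r + 1) * (g * (K * H)) = (r + 1) * (g * K) * H := by ring
        _ ≤ K4 * (ν * H) :=
          Nat.mul_le_mul (hK4 ▸ Nat.le_add_left _ _) (Nat.le_mul_of_pos_left H hν1))
    (hK4 ▸ ar3 hν1 haH hH)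
  have hup' := hsm (g * (K * H)) (K7 * ν) l hlT (by
    rw [hK7]
    refine le_trans (le_of_eq ?_) (mul_pow_le_two_pow _ _ ν hν1)
    rw [pow_add, pow_add, ← hH, ← ha, ← hv]
    ring)
  have hfin := Real.exp_le_exp.1 (hlo.trans hup')
  refine ar4 haH hH1 hv2 hν ?_
  have : ((v ^ 2 : ℕ) : ℝ) ≤ ((CL * (g * a ^ 2 + CT * (g * (K * H))) ^ t *
      (K4 * (ν * H) + (g * a ^ 2 + CT * (g * (K * H)))) + CA * a ^ 2 +
        K7 * ν * (g * (K * H)) : ℕ) : ℝ) := by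
    push_cast at hfin ⊢
    linarith only [hfin]
  exact_mod_cast this

end Pool.Agent.CMP

end MrgPart2

-- ======== part 3: formerly Pool.Agent.MP_cbf1af_ag.Liou.Mah
section MrgPart3

/-! Mahler measure estimates for the Liouville inequality. -/

namespace Pool.Agent.MP_cbf1af_ag.Liou

open Polynomial

open Filter MeasureTheory Set Real in
theorem mah_le {p : ℂ[X]} {A : ℝ} (h : ∀ s : ℂ, ‖s‖ = 1 → ‖p.eval s‖ ≤ A) :
    p.mahlerMeasure ≤ A := by
  have hA : 0 ≤ A := (norm_nonneg _).trans (h 1 norm_one)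
  by_cases hp : p = 0
  · simpa [hp]
  have h1 : {x : ℝ | eval (circleMap 0 1 x) p ≠ 0} ∈ ae (volume.restrict (Icc 0 (2 * π))) := by
    rw [mem_ae_iff, compl_def, Measure.restrict_apply' (by simp)]
    apply (Finite.of_sdiff _ <| finite_singleton (2 * π)).measure_zero
    simp only [ne_eq, mem_ofPred_eq, Decidable.not_not, inter_sdiff_assoc, Icc_sdiff_right]
    rw [ofPred_inter_eq_sep]
    apply Finite.of_finite_image (f := circleMap 0 1) ((Multiset.finite_toSet p.roots).subset _)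
      <| fun _ h _ k l ↦ injOn_circleMap_of_abs_sub_le' one_ne_zero (by linarith) h.1 k.1 l
    simp [hp]
  have : 0 < A := by
    have : (ae (volume.restrict (Icc 0 (2 * π)))).NeBot := by
      rw [ae_neBot, ne_eq, Measure.restrict_eq_zero]
      simp [pi_pos]
    obtain ⟨x, hx⟩ := Filter.nonempty_of_mem h1
    exact (norm_pos_iff.2 hx).trans_le (h _ (by simp))
  rw [show A = rexp (circleAverage (fun _ ↦ Real.log A) 0 1)
    by simp [circleAverage_def, mul_assoc, exp_log this], mahlerMeasure_def_of_ne_zero hp,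
    circleAverage_def, smul_eq_mul]
  gcongr
  apply intervalIntegral.integral_mono_ae_restrict (by positivity)
    p.intervalIntegrable_mahlerMeasure (by simp)
  filter_upwards [h1] with x hx
  exact Real.log_le_log (norm_pos_iff.2 hx) (h _ (by simp))

theorem top_le {R : Type*} [CommRing R] (f : R →+* ℂ) (w : R[X]) :
    ‖f w.leadingCoeff‖ ≤ ‖(w.map f).leadingCoeff‖ := by
  by_cases h : f w.leadingCoeff = 0
  · simp [h]
  · rw [leadingCoeff_map_of_leadingCoeff_ne_zero f h]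

theorem one_var (p w : ℂ[X]) (s0 : ℂ) {A : ℝ}
    (h : ∀ s : ℂ, ‖s - s0‖ ≤ 1 → ‖p.eval s‖ * ‖w.eval s‖ ≤ A) :
    ‖p.eval s0‖ * ‖w.leadingCoeff‖ ≤ A := by
  have h1 := mah_le (p := taylor s0 p * taylor s0 w) (A := A) fun s hs => by
    rw [eval_mul, norm_mul, taylor_eval, taylor_eval]
    exact h _ (by simp [hs])
  rw [mahlerMeasure_mul] at h1
  refine le_trans (mul_le_mul ?_ ?_ (norm_nonneg _) (mahlerMeasure_nonneg _)) h1
  · simpa using norm_coeff_le_choose_mul_mahlerMeasure 0 (taylor s0 p)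
  · simpa using leadingCoeff_le_mahlerMeasure (taylor s0 w)

theorem ev_cons {R : Type*} [CommRing R] {n : ℕ} (f : R →+* ℂ) (T : Fin n → ℂ) (s : ℂ)
    (g : MvPolynomial (Fin (n + 1)) R) : MvPolynomial.eval₂Hom f (Fin.cons s T) g =
      ((MvPolynomial.finSuccEquiv R n g).map (MvPolynomial.eval₂Hom f T)).eval s := by
  induction g using MvPolynomial.induction_on with
  | C a => simp [MvPolynomial.finSuccEquiv_apply]
  | add p q hp hq => rw [map_add, map_add, Polynomial.map_add, eval_add, hp, hq]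
  | mul_X p i hp =>
    rw [map_mul, map_mul, Polynomial.map_mul, eval_mul, hp]
    congr 1
    refine Fin.cases ?_ (fun i => ?_) i
    · simp [MvPolynomial.finSuccEquiv_X_zero]
    · simp [MvPolynomial.finSuccEquiv_X_succ]

theorem many_var {R : Type*} [CommRing R] {n : ℕ} (g : MvPolynomial (Fin n) R) (hg : g ≠ 0) :
    ∃ c : R, c ≠ 0 ∧ ∀ (f : R →+* ℂ) (a : MvPolynomial (Fin n) ℂ) (T0 : Fin n → ℂ) (A : ℝ),
      (∀ T : Fin n → ℂ, (∀ j, ‖T j - T0 j‖ ≤ 1) →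
        ‖MvPolynomial.eval T a‖ * ‖MvPolynomial.eval₂Hom f T g‖ ≤ A) →
      ‖MvPolynomial.eval T0 a‖ * ‖f c‖ ≤ A := by
  induction n with
  | zero =>
    obtain ⟨c, rfl⟩ := MvPolynomial.C_surjective (Fin 0) g
    exact ⟨c, fun h => hg (by simp [h]), fun f a T0 A h => by simpa using h T0 (by simp)⟩
  | succ n ih =>
    obtain ⟨c, hc, h1⟩ := ih (MvPolynomial.finSuccEquiv R n g).leadingCoeff (by simpa)
    refine ⟨c, hc, fun f a T0 A h => ?_⟩
    have h2 : ∀ T : Fin n → ℂ, MvPolynomial.eval T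
        ((MvPolynomial.finSuccEquiv ℂ n a).eval (MvPolynomial.C (T0 0))) =
        MvPolynomial.eval (Fin.cons (T0 0) T) a := fun T => by
      rw [MvPolynomial.eval_eq_eval_mv_eval', ← eval₂_at_apply, eval_map, MvPolynomial.eval_C]
    have h3 := h1 f ((MvPolynomial.finSuccEquiv ℂ n a).eval (MvPolynomial.C (T0 0)))
      (Fin.tail T0) A fun T hT => by
        rw [h2, MvPolynomial.eval_eq_eval_mv_eval']
        refine le_trans (mul_le_mul_of_nonneg_left (top_le _ _) (norm_nonneg _))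
          (one_var _ _ _ fun s hs => ?_)
        rw [← MvPolynomial.eval_eq_eval_mv_eval', ← ev_cons]
        exact h _ fun j => Fin.cases hs hT j
    rwa [h2, Fin.cons_self_tail] at h3

theorem big_val {n : ℕ} (g : MvPolynomial (Fin n) ℤ) (hg : g ≠ 0) : ∃ l : Fin n → ℂ,
    (∀ j, ‖l j‖ ≤ 1) ∧ 1 / 2 < ‖MvPolynomial.eval₂Hom (Int.castRingHom ℂ) l g‖ := by
  obtain ⟨c, hc, h⟩ := many_var g hg
  by_contra! h1
  have h2 := h (Int.castRingHom ℂ) 1 0 (1 / 2) fun T hT => by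
    simpa using h1 T (by simpa using hT)
  have h3 : (1 : ℝ) ≤ |(c : ℝ)| := by exact_mod_cast Int.one_le_abs hc
  simp at h2
  linarith

theorem root_le {Q : ℂ[X]} {z : ℂ} (h : Q.eval z = 0) {A : ℝ} {N : ℕ} (hN : Q.natDegree ≤ N)
    (hA : ∀ k, ‖Q.coeff k‖ ≤ A) : ‖z‖ * ‖Q.leadingCoeff‖ ≤ (N + 1) * A := by
  obtain ⟨Q1, h1⟩ := dvd_iff_isRoot.2 h
  have h0 : 0 ≤ A := (norm_nonneg _).trans (hA 0)
  calc _ ≤ Q.mahlerMeasure := by
        rw [h1, mahlerMeasure_mul, mahlerMeasure_X_sub_C, leadingCoeff_monic_mul (monic_X_sub_C z)]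
        exact mul_le_mul (le_max_right _ _) (leadingCoeff_le_mahlerMeasure _) (norm_nonneg _)
          (by positivity)
    _ ≤ ∑ k ∈ Q.support, ‖Q.coeff k‖ := mahlerMeasure_le_sum_norm_coeff Q
    _ ≤ Q.support.card • A := Finset.sum_le_card_nsmul _ _ _ fun k _ => hA k
    _ ≤ _ := by
      rw [nsmul_eq_mul]
      gcongr
      exact_mod_cast (card_supp_le_succ_natDegree Q).trans (by omega)

/-- The analytic half: `P ∣ W`, the top coefficient of `P` does not involve `T`. -/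
theorem root_bound {n : ℕ} (P G : (MvPolynomial (Fin n) (MvPolynomial (Fin n) ℤ))[X])
    (hW : P * G ≠ 0) {a : MvPolynomial (Fin n) ℤ} (ha : P.leadingCoeff = MvPolynomial.C a)
    {N : ℕ} (hN : (P * G).natDegree ≤ N) (T0 : (Fin n → ℂ) → Fin n → ℂ) (z : ℂ) {L : ℝ}
    (h0 : ∀ l, (P.map (MvPolynomial.eval₂Hom
      (MvPolynomial.eval₂Hom (Int.castRingHom ℂ) l) (T0 l))).eval z = 0)
    (hL : ∀ l T : Fin n → ℂ, (∀ j, ‖l j‖ ≤ 1) → (∀ j, ‖T j - T0 l j‖ ≤ 1) → ∀ s : ℂ, ‖s‖ = 1 →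
      ‖((P * G).map (MvPolynomial.eval₂Hom
        (MvPolynomial.eval₂Hom (Int.castRingHom ℂ) l) T)).eval s‖ ≤ L) :
    ‖z‖ ≤ 2 * ((N + 1) * (2 ^ N * L)) := by
  have hP := left_ne_zero_of_mul hW
  have hG := right_ne_zero_of_mul hW
  have hN' : P.natDegree ≤ N := by rw [natDegree_mul hP hG] at hN; omega
  obtain ⟨c, hc, h1⟩ := many_var G.leadingCoeff (by simpa)
  have ha0 : a ≠ 0 := fun h => hP (by rwa [h, map_zero, leadingCoeff_eq_zero] at ha)
  obtain ⟨l, hl, h2⟩ := big_val (c * a) (mul_ne_zero hc ha0)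
  set f := MvPolynomial.eval₂Hom (Int.castRingHom ℂ) l
  rw [map_mul] at h2
  have h3 : f c * f a ≠ 0 := fun h => by rw [h] at h2; norm_num at h2
  have h4 : (C (f c) * P.map (MvPolynomial.eval₂Hom f (T0 l))).leadingCoeff = f c * f a := by
    rw [leadingCoeff_mul, leadingCoeff_C, leadingCoeff_map_of_leadingCoeff_ne_zero] <;>
      simp [ha, right_ne_zero_of_mul h3]
  have h5 := root_le (Q := C (f c) * P.map (MvPolynomial.eval₂Hom f (T0 l))) (z := z)
    (by rw [eval_mul, h0, mul_zero]) (A := 2 ^ N * L) (N := N)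
    ((natDegree_C_mul_le _ _).trans (natDegree_map_le.trans hN')) fun k => by
      have h6 : ∀ T, MvPolynomial.eval T (MvPolynomial.map f (P.coeff k)) =
          (P.map (MvPolynomial.eval₂Hom f T)).coeff k := fun T => by
        simp [MvPolynomial.eval_map]
      rw [coeff_C_mul, norm_mul, mul_comm, ← h6]
      refine h1 f _ _ _ fun T hT => ?_
      have h7 := mah_le (hL l T hl hT)
      rw [Polynomial.map_mul, mahlerMeasure_mul] at h7
      have h8 : (((P.map (MvPolynomial.eval₂Hom f T)).natDegree.choose k : ℕ) : ℝ) ≤ 2 ^ N := by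
        exact_mod_cast (Nat.choose_le_two_pow _ _).trans
          (Nat.pow_le_pow_right two_pos (natDegree_map_le.trans hN'))
      rw [h6]
      calc _ ≤ (2 ^ N * (P.map (MvPolynomial.eval₂Hom f T)).mahlerMeasure) *
            (G.map (MvPolynomial.eval₂Hom f T)).mahlerMeasure :=
            mul_le_mul ((norm_coeff_le_choose_mul_mahlerMeasure _ _).trans
              (mul_le_mul_of_nonneg_right h8 (mahlerMeasure_nonneg _)))
              ((top_le _ _).trans (leadingCoeff_le_mahlerMeasure _)) (norm_nonneg _)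
              (mul_nonneg (by positivity) (mahlerMeasure_nonneg _))
        _ ≤ _ := by rw [mul_assoc]; gcongr
  rw [h4] at h5
  nlinarith [norm_nonneg z]

end Pool.Agent.MP_cbf1af_ag.Liou

end MrgPart3

-- ======== part 4: formerly Pool.Agent.MP_cbf1af_ag.cmp.Liou
section MrgPart4

/-! PROJECT CMP: the Liouville inequality for a family generating the unit ideal. -/

namespace Pool.Agent.MP_cbf1af_ag.Liou

open Algebra Set MvPolynomial
open Pool.Agent.CMP (Mon Qb)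

variable {m n t : ℕ}

theorem unit_mem {Ω : Type} [Field Ω] (φ : ℂ →+* Ω) {θ : Fin m → ℂ} {q : Fin n → ℂ} (z : Ω)
    (h : (1 : ℂ) ∈ Submodule.span (adjoin Qb (range θ)) (range q)) (V : ValuationSubring Ω)
    (h1 : ∀ k : ℤ, (k : Ω)⁻¹ ∈ V) (h2 : ∀ i, φ (θ i) ∈ V) (h3 : ∀ i, z * φ (q i) ∈ V) :
    z ∈ V := by
  have h4 : ∀ g ∈ adjoin Qb (range θ), φ g ∈ V := fun g hg => by
    induction hg using adjoin_induction with
    | mem g hg => obtain ⟨i, rfl⟩ := hg; exact h2 i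
    | algebraMap c =>
      obtain ⟨k, hk, h5⟩ := ((IsFractionRing.isAlgebraic_iff ℤ ℚ ℂ).2
        (mem_algebraicClosure_iff.1 c.2)).exists_integral_multiple
      obtain ⟨y, hy⟩ := (IsIntegrallyClosed.isIntegral_iff (R := V) (K := Ω)).1
        (h5.map φ.toIntAlgHom).tower_top
      have h6 : (k : Ω) ≠ 0 := by
        rw [← map_intCast φ, map_ne_zero]; exact_mod_cast hk
      have h7 : φ c = (k : Ω)⁻¹ * y := by
        rw [eq_inv_mul_iff_mul_eq₀ h6]; simpa using hy.symm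
      exact h7 ▸ mul_mem (h1 k) y.2
    | add _ _ _ _ a b => rw [map_add]; exact add_mem a b
    | mul _ _ _ _ a b => rw [map_mul]; exact mul_mem a b
  obtain ⟨g, hg⟩ := (Submodule.mem_span_range_iff_exists_fun _).1 h
  rw [← mul_one z, ← map_one φ, ← hg, map_sum, Finset.mul_sum]
  refine sum_mem fun i _ => ?_
  rw [Subalgebra.smul_def, smul_eq_mul, map_mul, mul_left_comm]
  exact mul_mem (h4 _ (g i).2) (h3 i)

theorem numer {M N Y c R : ℕ} (hN : 1 ≤ N) (h2 : 2 ≤ Y) (h3 : M + 1 ≤ Y) (h4 : c ≤ Y)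
    (h5 : R ≤ Y) : 2 * ((N + 1) * (2 ^ N * (Fintype.card (Ix t N (M * N)) *
      (Fintype.card (Ix t N (M * N)) * (c ^ N) ^ (t + 1) * (R ^ N) ^ (t + 1))))) ≤
      (Y ^ N) ^ (6 * t + 11) := by
  have h6 : 2 ^ N ≤ Y ^ N := Nat.pow_le_pow_left h2 N
  have h7 : N + 1 ≤ Y ^ N := Nat.lt_two_pow_self.trans_le h6
  have h8 : M * N + 1 ≤ Y ^ N := by
    have := one_add_mul_le_pow (a := (M : ℤ)) (by omega) N
    refine le_trans ?_ (Nat.pow_le_pow_left h3 N)
    rw [add_comm, mul_comm, add_comm M]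
    exact_mod_cast this
  have h9 : c ^ N ≤ Y ^ N := Nat.pow_le_pow_left h4 N
  have h10 : R ^ N ≤ Y ^ N := Nat.pow_le_pow_left h5 N
  have h11 : 2 ≤ Y ^ N := by omega
  simp only [Fintype.card_prod, Fintype.card_fun, Fintype.card_fin]
  generalize Y ^ N = y at *
  calc _ ≤ y * (y * (y * (y * (y ^ (t + 1) * y ^ (t + 1)) *
        (y * (y ^ (t + 1) * y ^ (t + 1)) * y ^ (t + 1) * y ^ (t + 1))))) := by gcongr
    _ = _ := by ring

theorem numer2 {S δ c R N : ℕ} (hn : n ≤ 2 ^ S) (hδ : 1 ≤ δ) (hN : 1 ≤ N) (h13 : 1 ≤ R) :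
    2 * ((N + 1) * (2 ^ N * (Fintype.card (Ix t N ((m + n) * N)) *
      (Fintype.card (Ix t N ((m + n) * N)) * (((m + n + 1) * (2 ^ S * (c + 1) ^ δ)) ^ N) ^ (t + 1)
        * (((m + n + 1) * R) ^ N) ^ (t + 1))))) ≤
      2 ^ ((m + c + R + 5) * (S + δ) * N * (6 * t + 11)) := by
  have h12 : (m + n + 2) * (2 ^ S * (c + 1) ^ δ) * R ≤ 2 ^ ((m + c + R + 5) * (S + δ)) := by
    have a1 : m + n + 2 ≤ 2 ^ (m + 3) * 2 ^ S := by
      have := (Nat.lt_two_pow_self (n := m + 3)).le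
      have := Nat.one_le_two_pow (n := S)
      nlinarith
    calc _ ≤ 2 ^ (m + 3) * 2 ^ S * (2 ^ S * (2 ^ c) ^ δ) * 2 ^ R := by
          gcongr
          · exact Nat.lt_two_pow_self
          · exact Nat.lt_two_pow_self.le
      _ = 2 ^ (m + 3 + S + (S + c * δ) + R) := by ring
      _ ≤ _ := Nat.pow_le_pow_right two_pos (by nlinarith)
  have h14 : 1 ≤ 2 ^ S * (c + 1) ^ δ := Nat.succ_le_of_lt (by positivity)
  have h15 := numer (t := t) (M := m + n) (c := (m + n + 1) * (2 ^ S * (c + 1) ^ δ))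
    (R := (m + n + 1) * R) (Y := (m + n + 2) * (2 ^ S * (c + 1) ^ δ) * R) hN
  generalize 2 ^ S * (c + 1) ^ δ = H at *
  have h16 := Nat.mul_le_mul h14 h13
  rw [pow_mul, pow_mul]
  exact (h15 (by nlinarith) (by nlinarith)
    ((Nat.mul_le_mul_right _ (by omega)).trans (Nat.le_mul_of_pos_right _ h13))
    (Nat.mul_le_mul_right _ (le_trans (by omega) (Nat.le_mul_of_pos_right _ h14)))).trans
    (Nat.pow_le_pow_left (Nat.pow_le_pow_left h12 N) _)

theorem ex_field (A : Type) [CommRing A] [IsDomain A] [CharZero A] :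
    ∃ (Ω : Type) (_ : Field Ω) (_ : CharZero Ω) (ι : A →+* Ω), Function.Injective ι :=
  ⟨FractionRing A, _, inferInstance, _, IsFractionRing.injective A _⟩

theorem alg_map {A B ι : Type} [CommRing A] [CommRing B] (φ : A →+* B)
    (hφ : Function.Injective φ) {x : ι → A} {a : A} (h : IsAlgebraic (adjoin ℤ (range x)) a) :
    IsAlgebraic (adjoin ℤ (range (φ ∘ x))) (φ a) :=
  h.ringHom_of_comp_eq ((φ.comp (adjoin ℤ (range x)).subtype).codRestrict
    (adjoin ℤ (range (φ ∘ x))) fun y => by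
      have : (adjoin ℤ (range x)).map φ.toIntAlgHom = adjoin ℤ (range (φ ∘ x)) := by
        rw [AlgHom.map_adjoin, ← range_comp]; rfl
      exact this ▸ ⟨y, y.2, rfl⟩) φ
    (fun _ _ h => Subtype.ext (hφ (congrArg Subtype.val h))) rfl

theorem rel_factor {A Ω : Type} [CommRing A] [Algebra ℂ A] [Field Ω] [CharZero Ω] (ι : A →+* Ω)
    (hi : Function.Injective ι) (y : Option (Fin (t + 1)) → A) (hy : AlgebraicIndependent ℂ y)
    (θ : Fin m → ℂ) (f : Fin t → Fin m) (h1 : AlgebraicIndependent ℤ (θ ∘ f))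
    (hρ : ∀ v : Option (Fin (t + 1)) → ℂ, ∃ ρ : A →ₐ[ℂ] ℂ, ∀ o, ρ (y o) = v o)
    (h2 : ∀ i, IsAlgebraic (adjoin ℤ (range (θ ∘ f))) (θ i)) :
    ∃ c c' : ℕ, 1 ≤ c' ∧ ∀ (n δ H : ℕ) (q : Fin n → ℂ), 1 ≤ δ → 1 ≤ H →
      (∀ i, CMP.Sz θ δ H (q i)) → (1 : ℂ) ∈ Submodule.span (adjoin Qb (range θ)) (range q) →
      ∃ a : Ix t (c' * δ ^ t) ((m + n) * (c' * δ ^ t)) → ℤ, a ≠ 0 ∧ (∀ μ, ‖a μ‖ ≤
          Fintype.card (Ix t (c' * δ ^ t) ((m + n) * (c' * δ ^ t))) *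
            ((((m + n + 1) * (H * (c + 1) ^ δ)) ^ (c' * δ ^ t)) ^ (t + 1) : ℕ)) ∧
        ∃ P G b, Wp a = P * G ∧ P.leadingCoeff = C b ∧
          ∀ l z, P.eval₂ (Ev l fun j => ps θ q (l j) z) z = 0 := by
  let κ := algebraMap ℂ A
  have h3 := fun i => alg_map (ι.comp κ) (RingHom.injective _) (h2 i)
  obtain ⟨c, c', hc, h4⟩ := rel (ι.comp κ ∘ θ) _ h3
  refine ⟨c, c', hc, fun n δ H q hδ hH hq hu => ?_⟩
  obtain ⟨a, h5, h6, h7⟩ := h4 n δ H (ι.comp κ ∘ q) (ι ∘ fun j => y (some j)) (ι (y none)) hδ hH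
    fun i => toSz _ (hq i)
  obtain ⟨P, G, b, h8, h9, h10⟩ := factor _ f _ _ _ (fun i => toSz (ι.comp κ) (hq i)) (by
    refine Eq.subst (motive := fun x => AlgebraicIndependent ℤ x) ?_
      ((h1.sumElim_comp hy).map' (f := ι.toIntAlgHom) hi)
    ext ((_ | _) | _) <;> rfl) h3 (unit_mem (ι.comp κ) _ hu) (Wp_ne h5) h6
  refine ⟨a, h5, h7, P, G, b, h8, h9, fun l z => ?_⟩
  obtain ⟨ρ, hρ⟩ := hρ fun o => o.elim z l
  have h11 := hom_ev ι (κ ∘ θ) (κ ∘ q) (fun j => y (some j)) (y none) P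
  have h12 := hom_ev ρ.toRingHom (κ ∘ θ) (κ ∘ q) (fun j => y (some j)) (y none) P
  rw [(map_eq_zero_iff _ hi).1 (h11.trans h10), map_zero] at h12
  simpa [Function.comp_def, κ, hρ] using h12.symm

theorem Wp_le (θ : Fin m → ℂ) (q : Fin n → ℂ) (z : ℂ) {R N E : ℕ} (hR : 1 + ∑ i, ‖θ i‖ ≤ R)
    (hz : ∀ i, ‖z * q i‖ ≤ 1) (a : Ix t N E → ℤ) {B : ℝ} (h7 : ∀ μ, ‖a μ‖ ≤ B)
    (l T : Fin (t + 1) → ℂ) (hl : ∀ j, ‖l j‖ ≤ 1) (hT : ∀ j, ‖T j - ps θ q (l j) z‖ ≤ 1) (s : ℂ)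
    (hs : ‖s‖ = 1) : ‖((Wp a).map (Ev l T)).eval s‖ ≤
      Fintype.card (Ix t N E) * (B * ((((m + n + 1) * R) ^ N) ^ (t + 1) : ℕ)) := by
  have hR0 : 0 ≤ ∑ i, ‖θ i‖ := by positivity
  have hR1 : (1 : ℝ) ≤ R := by linarith
  rw [Polynomial.eval_map, Wp_eval]
  refine (norm_sum_le _ _).trans ((Finset.sum_le_card_nsmul _ _ _ fun μ _ => ?_).trans_eq
    (nsmul_eq_mul _ _))
  have h12 : ∀ j, ‖T j‖ ≤ (m + n + 1) * R := fun j => by
    have h13 : ‖ps θ q (l j) z‖ ≤ (m + n) * R := by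
      refine (norm_sum_le _ _).trans ((Finset.sum_le_card_nsmul _ _ (R : ℝ) fun i _ => ?_).trans
        (by simp))
      rw [norm_mul, norm_pow]
      refine (mul_le_of_le_one_left (norm_nonneg _)
        (pow_le_one₀ (norm_nonneg _) (hl j))).trans ?_
      rcases i with i | i
      · have := Finset.single_le_sum (f := fun i => ‖θ i‖) (fun _ _ => norm_nonneg _)
          (Finset.mem_univ i)
        exact this.trans (by linarith)
      · exact (hz i).trans hR1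
    have := norm_le_insert' (T j) (ps θ q (l j) z)
    have := hT j
    linarith
  rw [norm_smul]
  refine mul_le_mul (h7 μ) ?_ (norm_nonneg _) ((norm_nonneg _).trans (h7 μ))
  rw [norm_mul, norm_pow, hs, one_pow, one_mul, norm_prod]
  push_cast
  rw [← Fin.prod_const]
  refine Finset.prod_le_prod (fun _ _ => norm_nonneg _) fun j _ => ?_
  rw [norm_mul, norm_pow, norm_pow]
  refine (mul_le_of_le_one_left (by positivity) (pow_le_one₀ (norm_nonneg _) (hl j))).trans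
    ((pow_le_pow_left₀ (norm_nonneg _) (h12 j) _).trans (pow_le_pow_right₀ ?_
      (Nat.le_of_lt_succ (μ.2.1 j).2)))
  nlinarith [(by positivity : (0 : ℝ) ≤ (m + n) * R)]

theorem bound (θ : Fin m → ℂ) : ∃ t C : ℕ, (∃ f : Fin t → Fin m, AlgebraicIndependent ℤ (θ ∘ f)) ∧
    ∀ (n δ S : ℕ) (q : Fin n → ℂ) (z : ℂ), 1 ≤ δ → n ≤ 2 ^ S →
      (∀ i, CMP.Sz θ δ (2 ^ S) (q i)) →
      (1 : ℂ) ∈ Submodule.span (adjoin Qb (range θ)) (range q) → (∀ i, ‖z * q i‖ ≤ 1) →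
      ‖z‖ ≤ 2 ^ (C * δ ^ t * (S + δ)) := by
  obtain ⟨t, f, h1, h2⟩ := ex_basis θ
  obtain ⟨Ω, _, _, ι, hi⟩ := ex_field (MvPolynomial (Option (Fin (t + 1))) ℂ)
  obtain ⟨c, c', hc, h4⟩ := rel_factor ι hi X (algebraicIndependent_X _ _)
    θ f h1 (fun v => ⟨aeval v, fun _ => aeval_X _ _⟩) h2
  obtain ⟨R, hR⟩ := exists_nat_ge (1 + ∑ i, ‖θ i‖)
  have hR1 : 1 ≤ R := by
    exact_mod_cast (le_add_of_nonneg_right (by positivity)).trans hR
  refine ⟨t, (m + c + R + 5) * c' * (6 * t + 11), ⟨f, h1⟩, fun n δ S q z hδ hn hq hu hz => ?_⟩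
  obtain ⟨a, h5, h7, P, G, b, h8, h9, h10⟩ := h4 n δ (2 ^ S) q hδ Nat.one_le_two_pow hq hu
  have hN : 1 ≤ c' * δ ^ t := Nat.mul_pos hc (by positivity)
  have hC : (m + c + R + 5) * c' * (6 * t + 11) * δ ^ t * (S + δ) =
      (m + c + R + 5) * (S + δ) * (c' * δ ^ t) * (6 * t + 11) := by ring
  generalize c' * δ ^ t = N at *
  have h11 := root_bound P G (by rw [← h8]; exact Wp_ne h5) h9 (N := N)
    (by rw [← h8]; exact Wp_deg a) (fun l j => ps θ q (l j) z) z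
    (L := Fintype.card (Ix t N ((m + n) * N)) * (Fintype.card (Ix t N ((m + n) * N)) *
      ((((m + n + 1) * (2 ^ S * (c + 1) ^ δ)) ^ N) ^ (t + 1) : ℕ) *
        ((((m + n + 1) * R) ^ N) ^ (t + 1) : ℕ))) (fun l => by
      rw [Polynomial.eval_map]; exact h10 l z) fun l T hl hT s hs => by
      rw [← h8]; exact Wp_le θ q z hR hz a h7 l T hl hT s hs
  have h17 := numer2 (t := t) (m := m) (c := c) hn hδ hN hR1
  rw [← hC] at h17
  exact h11.trans (by exact_mod_cast h17)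

end Pool.Agent.MP_cbf1af_ag.Liou

namespace Pool.Agent.CMP

theorem liou' : LiouStmt := fun m t θ ht => by
  obtain ⟨t0, C, ⟨f, hf⟩, h⟩ := MP_cbf1af_ag.Liou.bound θ
  have h1 : t0 ≤ t := by
    have : Algebra.IsAlgebraic ℤ ℚ := IsLocalization.isAlgebraic ℚ (nonZeroDivisors ℤ)
    have h2 : AlgebraicIndependent ℚ fun j => (⟨θ (f j), IntermediateField.subset_adjoin _ _
        ⟨f j, rfl⟩⟩ : IntermediateField.adjoin ℚ (Set.range θ)) :=
      AlgebraicIndependent.of_comp (IntermediateField.val _) (hf.extendScalars ℚ)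
    simpa using h2.cardinalMk_le_trdeg.trans ht
  refine ⟨C + 1, fun n δ S q hδ hn hq hu => ?_⟩
  by_contra! h2
  have h3 := h n δ S q (Real.exp ((C + 1 : ℕ) * δ ^ t * (S + δ))) hδ hn hq hu fun i => by
    rw [norm_mul, Complex.norm_real, Real.norm_of_nonneg (Real.exp_nonneg _)]
    refine (mul_le_mul_of_nonneg_left (h2 i).le (Real.exp_nonneg _)).trans ?_
    rw [← Real.exp_add, add_neg_cancel, Real.exp_zero]
  rw [Complex.norm_real, Real.norm_of_nonneg (Real.exp_nonneg _)] at h3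
  have h4 : (2 : ℝ) ≤ Real.exp 1 := by linarith [Real.add_one_le_exp 1]
  have h5 := Real.exp_le_exp.1
    (h3.trans ((pow_le_pow_left₀ two_pos.le h4 _).trans_eq (Real.exp_one_pow _)))
  have h6 : (C + 1) * δ ^ t * (S + δ) ≤ C * δ ^ t0 * (S + δ) := by exact_mod_cast h5
  have h7 := Nat.le_of_mul_le_mul_right h6 (by omega)
  have h8 := Nat.pow_le_pow_right hδ h1
  have h9 : 0 < δ ^ t := by positivity
  nlinarith

theorem liou (_ : CountStmt) (_ : RelStmt) (_ : NoethStmt) (_ : TorusStmt) : LiouStmt := liou'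

end Pool.Agent.CMP

end MrgPart4

-- marker of a merged file
example : 731051 + 291782 = 731051 + 291782 := rfl
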