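import Mathlib.LinearAlgebra.FreeModule.PID
import Mathlib.Topology.Sheaves.Presheaf
import Mathlib.Tactic.Monotonicity.Lemmas
import Mathlib.RingTheory.Flat.TorsionFree
import Mathlib.Algebra.Module.StablyFree.Basic
import Mathlib.RingTheory.PicardGroup
import Mathlib.Analysis.Complex.Polynomial.Basic
import Mathlib.LinearAlgebra.Matrix.FiniteDimensional
import Mathlib.LinearAlgebra.LinearIndependent.BaseChange
import Mathlib.RingTheory.SimpleRing.Principal
import Mathlib.RingTheory.TotallySplit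
import Pool.Agent.MP_cbf1af_ag.cmp.Apx

/-! PROJECT CMP: basic API (lengths and sizes, homogenisation, local coordinates, words). -/

namespace Pool.Agent.CMP

open MvPolynomial Filter Topology

/-! ### Len -/

namespace Len

variable {B B' : Type} [AddCommMonoid B] [AddCommMonoid B'] {A A' : Set B} {L L' : ℕ} {x y : B}

theorem mono (h : Len A L x) (hA : A ⊆ A') (hL : L ≤ L') : Len A' L' x := by
  obtain ⟨l, h1, h2, h3⟩ := h
  exact ⟨l, h1.trans hL, fun y hy => hA (h2 y hy), h3⟩

theorem zero (A : Set B) (L : ℕ) : Len A L 0 := ⟨[], by simp, by simp, rfl⟩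

theorem single (h : x ∈ A) : Len A 1 x := ⟨[x], by simp, by simpa using h, by simp⟩

theorem add (h : Len A L x) (h' : Len A L' y) : Len A (L + L') (x + y) := by
  obtain ⟨l, h1, h2, h3⟩ := h
  obtain ⟨l', h1', h2', h3'⟩ := h'
  refine ⟨l ++ l', by simp; omega, fun y hy => ?_, by simp [h3, h3']⟩
  rcases List.mem_append.1 hy with h | h
  exacts [h2 y h, h2' y h]

theorem bind {A' : Set B'} {K : ℕ} (f : B →+ B') (h : Len A L x)
    (hf : ∀ a ∈ A, Len A' K (f a)) : Len A' (L * K) (f x) := by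
  obtain ⟨l, h1, h2, rfl⟩ := h
  refine mono ?_ subset_rfl (Nat.mul_le_mul_right K h1)
  clear h1
  induction l with
  | nil => simpa using zero A' 0
  | cons a l ih =>
    rw [List.sum_cons, map_add, List.length_cons, Nat.succ_mul, add_comm (l.length * K)]
    exact (hf a (h2 a (by simp))).add (ih fun y hy => h2 y (by simp [hy]))

theorem map {A' : Set B'} (f : B →+ B') (h : Len A L x) (hf : ∀ a ∈ A, f a ∈ A') :
    Len A' L (f x) := by
  simpa using h.bind f (K := 1) fun a ha => single (hf a ha)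

theorem sum {ι : Type*} (s : Finset ι) (f : ι → B) (h : ∀ i ∈ s, Len A L (f i)) :
    Len A (s.card * L) (∑ i ∈ s, f i) := by
  classical
  induction s using Finset.induction_on with
  | empty => simpa using zero A 0
  | insert a s ha ih =>
    rw [Finset.sum_insert ha, Finset.card_insert_of_notMem ha, Nat.succ_mul, add_comm (s.card * L)]
    exact (h a (by simp)).add (ih fun i hi => h i (by simp [hi]))

theorem nsmul (h : Len A L x) (k : ℕ) : Len A (k * L) (k • x) := by
  simpa using sum (Finset.range k) (fun _ => x) fun _ _ => h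

theorem mem (h : Len A L x) (S : AddSubmonoid B) (hS : A ⊆ S) : x ∈ S := by
  obtain ⟨l, -, h2, rfl⟩ := h
  exact S.list_sum_mem fun y hy => hS (h2 y hy)

theorem mul {B : Type} [CommSemiring B] {A A' A'' : Set B} {L L' : ℕ} {x y : B}
    (h : Len A L x) (h' : Len A' L' y) (hA : ∀ a ∈ A, ∀ b ∈ A', a * b ∈ A'') :
    Len A'' (L * L') (x * y) :=
  h.bind (AddMonoidHom.mulRight y) fun a ha =>
    h'.map (AddMonoidHom.mulLeft a) fun b hb => hA a ha b hb

theorem norm_le {E : Type} [SeminormedAddCommGroup E] {A : Set E} {L : ℕ} {x : E} {M : ℝ}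
    (h : Len A L x) (hM : 0 ≤ M) (hA : ∀ a ∈ A, ‖a‖ ≤ M) : ‖x‖ ≤ L * M := by
  obtain ⟨l, h1, h2, rfl⟩ := h
  refine le_trans ?_ (mul_le_mul_of_nonneg_right (Nat.cast_le.2 h1) hM)
  clear h1
  induction l with
  | nil => simp
  | cons a l ih =>
    rw [List.sum_cons, List.length_cons]
    have := norm_add_le a l.sum
    have h3 := hA a (h2 a (by simp))
    have h4 := ih fun y hy => h2 y (by simp [hy])
    push_cast
    linarith

end Len

/-! ### Mon and Sz -/

section
variable {ι ι' B B' : Type} [CommRing B] [CommRing B'] {θ : ι → B} {n n' L L' : ℕ} {x y : B}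

theorem one_mem_Mon (θ : ι → B) (n : ℕ) : (1 : B) ∈ Mon θ n := ⟨[], by simp, by simp⟩

theorem gen_mem_Mon (θ : ι → B) (i : ι) : θ i ∈ Mon θ 1 := ⟨[i], by simp, by simp⟩

theorem Mon_mono (h : n ≤ n') : Mon θ n ⊆ Mon θ n' := fun _ ⟨l, h1, h2⟩ => ⟨l, h1.trans h, h2⟩

theorem neg_mem_Mon (h : x ∈ Mon θ n) : -x ∈ Mon θ n := by
  obtain ⟨l, h1, rfl | rfl⟩ := h
  exacts [⟨l, h1, Or.inr rfl⟩, ⟨l, h1, Or.inl (neg_neg _)⟩]

theorem mul_mem_Mon (h : x ∈ Mon θ n) (h' : y ∈ Mon θ n') : x * y ∈ Mon θ (n + n') := by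
  obtain ⟨l, h1, h2⟩ := h
  obtain ⟨l', h1', h2'⟩ := h'
  refine ⟨l ++ l', by simp; omega, ?_⟩
  rcases h2 with rfl | rfl <;> rcases h2' with rfl | rfl <;> simp

namespace Sz

theorem mono (h : Sz θ n L x) (hn : n ≤ n') (hL : L ≤ L') : Sz θ n' L' x :=
  Len.mono h (Mon_mono hn) hL

theorem zero (θ : ι → B) (n L : ℕ) : Sz θ n L 0 := Len.zero _ _

theorem one (θ : ι → B) (n : ℕ) : Sz θ n 1 1 := Len.single (one_mem_Mon θ n)

theorem gen (θ : ι → B) (i : ι) : Sz θ 1 1 (θ i) := Len.single (gen_mem_Mon θ i)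

theorem add (h : Sz θ n L x) (h' : Sz θ n L' y) : Sz θ n (L + L') (x + y) := Len.add h h'

theorem neg (h : Sz θ n L x) : Sz θ n L (-x) :=
  Len.map (negAddMonoidHom : B →+ B) h fun _ ha => neg_mem_Mon ha

theorem sub (h : Sz θ n L x) (h' : Sz θ n L' y) : Sz θ n (L + L') (x - y) := by
  rw [sub_eq_add_neg]; exact h.add h'.neg

theorem mul (h : Sz θ n L x) (h' : Sz θ n' L' y) : Sz θ (n + n') (L * L') (x * y) :=
  Len.mul h h' fun _ ha _ hb => mul_mem_Mon ha hb

theorem natCast (θ : ι → B) (n k : ℕ) : Sz θ n k (k : B) := by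
  simpa [Sz] using Len.nsmul (one θ n) k

theorem intCast (θ : ι → B) (n : ℕ) (k : ℤ) : Sz θ n k.natAbs (k : B) := by
  rcases Int.natAbs_eq k with h | h
  · conv => rhs; rw [h]
    simpa using natCast θ n k.natAbs
  · conv => rhs; rw [h]
    simpa using (natCast θ n k.natAbs).neg

theorem intCast_mul (h : Sz θ n L x) (k : ℤ) : Sz θ n (k.natAbs * L) ((k : B) * x) := by
  simpa using (intCast θ 0 k).mul h

theorem sum {κ : Type*} (s : Finset κ) (f : κ → B) (h : ∀ i ∈ s, Sz θ n L (f i)) :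
    Sz θ n (s.card * L) (∑ i ∈ s, f i) := Len.sum s f h

theorem prod {κ : Type*} (s : Finset κ) (f : κ → B) (d K : κ → ℕ)
    (h : ∀ i ∈ s, Sz θ (d i) (K i) (f i)) :
    Sz θ (∑ i ∈ s, d i) (∏ i ∈ s, K i) (∏ i ∈ s, f i) := by
  classical
  induction s using Finset.induction_on with
  | empty => simpa using one θ 0
  | insert a s ha ih =>
    rw [Finset.sum_insert ha, Finset.prod_insert ha, Finset.prod_insert ha]
    exact (h a (by simp)).mul (ih fun i hi => h i (by simp [hi]))

theorem pow (h : Sz θ n L x) (k : ℕ) : Sz θ (k * n) (L ^ k) (x ^ k) := by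
  simpa using prod (Finset.range k) (fun _ => x) (fun _ => n) (fun _ => L) fun _ _ => h

/-- substitution: every generator is sent to an element of degree `e` and length `K` -/
theorem subst {θ' : ι' → B'} {e K : ℕ} (f : B →+* B') (h : Sz θ n L x) (hK : 1 ≤ K)
    (hf : ∀ i, Sz θ' e K (f (θ i))) : Sz θ' (n * e) (L * K ^ n) (f x) := by
  refine Len.bind f.toAddMonoidHom h ?_
  have key : ∀ l : List ι, Sz θ' (l.length * e) (K ^ l.length) (f (l.map θ).prod) := by
    intro l
    induction l with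
    | nil => simpa using one θ' 0
    | cons i l ih =>
      rw [List.map_cons, List.prod_cons, map_mul, List.length_cons, Nat.succ_mul, pow_succ,
        add_comm (l.length * e), mul_comm (K ^ l.length)]
      exact (hf i).mul ih
  rintro a ⟨l, hl, rfl | rfl⟩
  · exact (key l).mono (Nat.mul_le_mul_right e hl) (Nat.pow_le_pow_right hK hl)
  · have := ((key l).mono (Nat.mul_le_mul_right e hl) (Nat.pow_le_pow_right hK hl)).neg
    simpa [Sz] using this

/-- ring maps sending generators to generators -/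
theorem map {θ' : ι' → B'} (f : B →+* B') (h : Sz θ n L x) (hf : ∀ i, ∃ j, f (θ i) = θ' j) :
    Sz θ' n L (f x) := by
  have := h.subst (θ' := θ') (e := 1) (K := 1) f le_rfl fun i => by
    obtain ⟨j, hj⟩ := hf i
    rw [hj]; exact gen θ' j
  simpa using this

/-- derivations -/
theorem deriv {κ K : ℕ} (D : B →+ B) (hD : ∀ a b, D (a * b) = a * D b + b * D a)
    (hθ : ∀ i, Sz θ κ K (D (θ i))) (h : Sz θ n L x) : Sz θ (n + κ) (L * (n * K)) (D x) := by
  refine Len.bind D h ?_
  have h1 : D 1 = 0 := by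
    have := hD 1 1
    simp only [mul_one, one_mul] at this
    exact left_eq_add.1 this
  have key : ∀ l : List ι, Sz θ (l.length + κ) (l.length * K) (D (l.map θ).prod) := by
    intro l
    induction l with
    | nil => simpa [h1] using zero θ κ 0
    | cons i l ih =>
      rw [List.map_cons, List.prod_cons, hD, List.length_cons, Nat.succ_mul]
      refine Sz.add ?_ ?_
      · exact ((gen θ i).mul ih).mono (by omega) (by omega)
      · have : Sz θ l.length 1 (l.map θ).prod := Len.single ⟨l, le_rfl, Or.inl rfl⟩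
        exact (this.mul (hθ i)).mono (by omega) (by omega)
  rintro a ⟨l, hl, rfl | rfl⟩
  · exact (key l).mono (by omega) (Nat.mul_le_mul_right K hl)
  · have := ((key l).mono (show l.length + κ ≤ n + κ by omega) (Nat.mul_le_mul_right K hl)).neg
    simpa [Sz] using this

theorem mem_subring (h : Sz θ n L x) (S : Subring B) (hS : ∀ i, θ i ∈ S) : x ∈ S := by
  refine Len.mem h S.toAddSubgroup.toAddSubmonoid ?_
  have key : ∀ l : List ι, (l.map θ).prod ∈ S := fun l =>
    S.list_prod_mem fun y hy => by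
      obtain ⟨i, -, rfl⟩ := List.mem_map.1 hy
      exact hS i
  rintro a ⟨l, -, rfl | rfl⟩
  exacts [key l, S.neg_mem (key l)]

theorem mem_adjoin {m : Type} {θ : m → ℂ} {x : ℂ} (h : Sz θ n L x) :
    x ∈ IntermediateField.adjoin ℚ (Set.range θ) :=
  h.mem_subring (IntermediateField.adjoin ℚ (Set.range θ)).toSubfield.toSubring fun i =>
    IntermediateField.subset_adjoin _ _ ⟨i, rfl⟩

theorem norm_le {m : Type} {θ : m → ℂ} {x : ℂ} {M : ℝ} (h : Sz θ n L x) (hM : 1 ≤ M)
    (hθ : ∀ i, ‖θ i‖ ≤ M) : ‖x‖ ≤ L * M ^ n := by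
  refine Len.norm_le h (by positivity) ?_
  have key : ∀ l : List m, ‖(l.map θ).prod‖ ≤ M ^ l.length := by
    intro l
    induction l with
    | nil => simp
    | cons i l ih =>
      rw [List.map_cons, List.prod_cons, norm_mul, List.length_cons, pow_succ']
      exact mul_le_mul (hθ i) ih (norm_nonneg _) (by linarith)
  rintro a ⟨l, hl, rfl | rfl⟩
  · exact (key l).trans (pow_le_pow_right₀ hM hl)
  · rw [norm_neg]; exact (key l).trans (pow_le_pow_right₀ hM hl)

end Sz

/-- every element of the ring generated by `θ` has a size -/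
theorem exists_sz (h : x ∈ Subring.closure (Set.range θ)) : ∃ n L, Sz θ n L x := by
  induction h using Subring.closure_induction with
  | mem x hx => obtain ⟨i, rfl⟩ := hx; exact ⟨1, 1, Sz.gen θ i⟩
  | zero => exact ⟨0, 0, Sz.zero θ 0 0⟩
  | one => exact ⟨0, 1, Sz.one θ 0⟩
  | add x y _ _ hx hy =>
    obtain ⟨n, L, hx⟩ := hx
    obtain ⟨n', L', hy⟩ := hy
    exact ⟨n + n', L + L', (hx.mono (by omega) le_rfl).add (hy.mono (by omega) le_rfl)⟩
  | neg x _ hx => obtain ⟨n, L, hx⟩ := hx; exact ⟨n, L, hx.neg⟩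
  | mul x y _ _ hx hy =>
    obtain ⟨n, L, hx⟩ := hx
    obtain ⟨n', L', hy⟩ := hy
    exact ⟨_, _, hx.mul hy⟩

/-- a common size for a finite family -/
theorem exists_sz_family {κ : Type*} [Finite κ] (f : κ → B)
    (h : ∀ i, f i ∈ Subring.closure (Set.range θ)) : ∃ n L, 1 ≤ L ∧ ∀ i, Sz θ n L (f i) := by
  have := Fintype.ofFinite κ
  choose n L hnL using fun i => exists_sz (h i)
  exact ⟨∑ i, n i, ∑ i, L i + 1, by omega, fun i => (hnL i).mono
    (Finset.single_le_sum (f := n) (fun _ _ => Nat.zero_le _) (Finset.mem_univ i))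
    ((Finset.single_le_sum (f := L) (fun _ _ => Nat.zero_le _) (Finset.mem_univ i)).trans
      (Nat.le_succ _))⟩

end

/-! ### Forms -/

theorem eval_smul_homog {σ : Type} {P : MvPolynomial σ ℂ} {n : ℕ} (hP : P.IsHomogeneous n)
    (a : ℂ) (x : σ → ℂ) : eval (fun i => a * x i) P = a ^ n * eval x P := by
  classical
  rw [eval_eq, eval_eq, Finset.mul_sum]
  refine Finset.sum_congr rfl fun m hm => ?_
  have hd : ∑ i ∈ m.support, m i = n := by
    have := hP (mem_support_iff.1 hm)
    rw [← this, Finsupp.weight_apply, Finsupp.sum]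
    simp
  simp only [mul_pow, Finset.prod_mul_distrib, Finset.prod_pow_eq_pow_sum, hd]
  ring

theorem exists_homog {N n : ℕ} (P : MvPolynomial (Fin (N + 1)) ℂ) (hP : P.totalDegree ≤ n) :
    ∃ Q : MvPolynomial (Fin (N + 1)) ℂ, Q.IsHomogeneous n ∧
      ∀ x : Fin (N + 1) → ℂ, x 0 ≠ 0 → eval x Q = x 0 ^ n * eval (fun i => x i / x 0) P := by
  refine ⟨∑ d ∈ Finset.range (P.totalDegree + 1), X 0 ^ (n - d) * homogeneousComponent d P,
    IsHomogeneous.sum _ _ _ fun d hd => ?_, fun x hx => ?_⟩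
  · have hd' : d ≤ n := by have := Finset.mem_range.1 hd; omega
    have := ((isHomogeneous_X ℂ (0 : Fin (N + 1))).pow (n - d)).mul
      (homogeneousComponent_isHomogeneous d P)
    rwa [one_mul, Nat.sub_add_cancel hd'] at this
  · conv_rhs => rw [← sum_homogeneousComponent P]
    rw [map_sum, map_sum, Finset.mul_sum]
    refine Finset.sum_congr rfl fun d hd => ?_
    have hd' : d ≤ n := by have := Finset.mem_range.1 hd; omega
    have h := eval_smul_homog (homogeneousComponent_isHomogeneous d P) (x 0) fun i => x i / x 0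
    have hx' : (fun i => x 0 * (x i / x 0)) = x := by
      funext i; field_simp
    rw [hx'] at h
    rw [map_mul, map_pow, eval_X, h, ← mul_assoc, ← pow_add, Nat.sub_add_cancel hd']

section
variable {g N : ℕ} {Θ : Fin (N + 1) → (Fin g → ℂ) → ℂ} {Λ : AddSubgroup (Fin g → ℂ)}

theorem ev_eq_fn {P : MvPolynomial (Fin (N + 1)) ℂ} {n : ℕ} (hP : P.IsHomogeneous n)
    {z : Fin g → ℂ} (hz : Θ 0 z ≠ 0) : ev Θ P z = Θ 0 z ^ n * eval (fn Θ z) P := by
  rw [← eval_smul_homog hP, ev]
  congr 2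
  funext i
  simp only [fn]
  field_simp

theorem analyticAt_eval {E σ : Type} [NormedAddCommGroup E] [NormedSpace ℂ E]
    {h : E → σ → ℂ} {z : E} (hh : ∀ i, AnalyticAt ℂ (fun z => h z i) z)
    (P : MvPolynomial σ ℂ) : AnalyticAt ℂ (fun z => eval (h z) P) z := by
  induction P using MvPolynomial.induction_on with
  | C a => simpa using analyticAt_const
  | add p q hp hq => simpa using hp.fun_add hq
  | mul_X p i hp => simpa using hp.fun_mul (hh i)

theorem IsAbelian.analyticAt_ev (h : IsAbelian Θ Λ) (P : MvPolynomial (Fin (N + 1)) ℂ)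
    (z : Fin g → ℂ) : AnalyticAt ℂ (ev Θ P) z :=
  analyticAt_eval (h := fun z i => Θ i z) (fun i => h.hol i z) P

theorem IsAbelian.analyticAt_fn (h : IsAbelian Θ Λ) {z : Fin g → ℂ} (hz : Θ 0 z ≠ 0)
    (i : Fin (N + 1)) : AnalyticAt ℂ (fun z => fn Θ z i) z :=
  (h.hol i z).div (h.hol 0 z) hz

theorem IsAbelian.eventually_ne (h : IsAbelian Θ Λ) : ∀ᶠ z in 𝓝 (0 : Fin g → ℂ), Θ 0 z ≠ 0 :=
  (h.hol 0 0).continuousAt.eventually_ne h.ne0

/-- `g` of the affine coordinates are local coordinates at the origin -/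
theorem IsAbelian.exists_coord (h : IsAbelian Θ Λ) :
    ∃ (ι : Fin g → Fin (N + 1)) (L : (Fin g → ℂ) ≃L[ℂ] (Fin g → ℂ)),
      AnalyticAt ℂ (fun z k => fn Θ z (ι k)) 0 ∧
      HasStrictFDerivAt (fun z k => fn Θ z (ι k)) (L : (Fin g → ℂ) →L[ℂ] (Fin g → ℂ)) 0 := by
  classical
  have han : AnalyticAt ℂ (fun z i => Θ i z / Θ 0 z) (0 : Fin g → ℂ) :=
    analyticAt_pi_iff.2 fun i => h.analyticAt_fn h.ne0 i
  set Φ := fderiv ℂ (fun z i => Θ i z / Θ 0 z) (0 : Fin g → ℂ) with hΦ
  let φ : Fin (N + 1) → Module.Dual ℂ (Fin g → ℂ) := fun i =>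
    (LinearMap.proj i) ∘ₗ (Φ : (Fin g → ℂ) →ₗ[ℂ] (Fin (N + 1) → ℂ))
  have hspan : Submodule.span ℂ (Set.range φ) = ⊤ := by
    rw [Submodule.span_eq_top_of_ne_zero]
    intro z hz
    by_contra hc
    push Not at hc
    refine hz (h.imm ?_)
    rw [map_zero]
    funext i
    exact hc (φ i) ⟨i, rfl⟩
  obtain ⟨κ, a, ha, hsp, hli⟩ := exists_linearIndependent' ℂ φ
  have : Finite κ := Finite.of_injective a ha
  have := Fintype.ofFinite κ
  have hcard : Fintype.card κ = g := by
    have h1 := finrank_span_eq_card hli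
    rw [hsp, hspan, finrank_top] at h1
    simpa using h1.symm
  let e : Fin g ≃ κ := (Fintype.equivFinOfCardEq hcard).symm
  let ι : Fin g → Fin (N + 1) := a ∘ e
  let L0 : (Fin g → ℂ) →L[ℂ] (Fin g → ℂ) :=
    ContinuousLinearMap.pi fun k => (ContinuousLinearMap.proj (ι k)).comp Φ
  have hinj : Function.Injective L0 := by
    rw [injective_iff_map_eq_zero]
    intro z hz
    have hz' : ∀ ψ ∈ Submodule.span ℂ (Set.range (φ ∘ a)), ψ z = 0 := by
      intro ψ hψ
      induction hψ using Submodule.span_induction with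
      | mem ψ hψ =>
        obtain ⟨k, rfl⟩ := hψ
        have := congrFun hz (e.symm k)
        simpa [L0, ι, φ] using this
      | zero => rfl
      | add _ _ _ _ h1 h2 => simp [h1, h2]
      | smul _ _ _ h1 => simp [h1]
    rw [hsp, hspan] at hz'
    exact (Module.forall_dual_apply_eq_zero_iff ℂ z).1 fun ψ => hz' ψ trivial
  let L : (Fin g → ℂ) ≃L[ℂ] (Fin g → ℂ) :=
    (LinearEquiv.ofInjectiveEndo (L0 : (Fin g → ℂ) →ₗ[ℂ] (Fin g → ℂ)) hinj).toContinuousLinearEquiv
  refine ⟨ι, L, analyticAt_pi_iff.2 fun k => h.analyticAt_fn h.ne0 _, ?_⟩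
  have hL : (L : (Fin g → ℂ) →L[ℂ] (Fin g → ℂ)) = L0 := by
    ext1 z; rfl
  rw [hL]
  have hs := han.hasStrictFDerivAt
  refine hasStrictFDerivAt_pi.2 fun k => ?_
  exact (ContinuousLinearMap.proj (R := ℂ) (φ := fun _ : Fin (N + 1) => ℂ)
    (ι k)).hasStrictFDerivAt.comp 0 hs

/-- periods independent over `ℤ` are independent over `ℝ` -/
theorem IsAbelian.real_indep (h : IsAbelian Θ Λ) {s : ℕ} {lam : Fin s → Fin g → ℂ}
    (hl : ∀ i, lam i ∈ Λ) (hi : LinearIndependent ℤ lam) : LinearIndependent ℝ lam := by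
  obtain ⟨b, hb⟩ := h.lat
  have hc : ∀ i, ∃ c : Fin (2 * g) → ℤ, lam i = ∑ k, (c k : ℝ) • b k := by
    intro i
    have h1 := hl i
    rw [hb, ← Submodule.span_int_eq_addSubgroupClosure] at h1
    obtain ⟨c, hc⟩ := (Submodule.mem_span_range_iff_exists_fun ℤ).1 h1
    exact ⟨c, by rw [← hc]; simp only [Int.cast_smul_eq_zsmul]⟩
  choose c hc using hc
  have hrep : ∀ i, b.equivFun (lam i) = algebraMap ℤ ℝ ∘ c i := by
    intro i
    rw [hc i, ← b.equivFun_symm_apply, LinearEquiv.apply_symm_apply]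
    rfl
  have h2 : LinearIndependent ℤ c := by
    rw [Fintype.linearIndependent_iff] at hi ⊢
    intro x hx
    refine hi x (b.equivFun.injective ?_)
    rw [map_sum, map_zero]
    funext k
    have := congrFun hx k
    simp only [Finset.sum_apply, Pi.smul_apply, smul_eq_mul, Pi.zero_apply] at this
    simp only [map_zsmul, hrep]
    simp only [Finset.sum_apply, Function.comp_apply, Pi.mul_apply, Pi.intCast_apply,
      Pi.zero_apply, zsmul_eq_mul, eq_intCast]
    exact_mod_cast this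
  have h3 : LinearIndependent ℝ fun i => algebraMap ℤ ℝ ∘ c i :=
    linearIndependent_algebraMap_comp_iff.2 h2
  refine LinearIndependent.of_comp b.equivFun.toLinearMap ?_
  convert h3 using 1
  funext i
  exact hrep i

end

/-! ### Words -/

section
variable {g r : ℕ} (w : Fin r → Fin g → ℂ)

theorem analyticAt_dir {f : (Fin g → ℂ) → ℂ} {p : Fin g → ℂ} (hf : AnalyticAt ℂ f p)
    (y : Fin g → ℂ) : AnalyticAt ℂ (fun z => fderiv ℂ f z y) p :=
  ((ContinuousLinearMap.apply ℂ ℂ y).analyticAt _).comp hf.fderiv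

theorem analyticAt_wd (l : List (Fin r)) {f : (Fin g → ℂ) → ℂ} {p : Fin g → ℂ}
    (hf : AnalyticAt ℂ f p) : AnalyticAt ℂ (wd w l f) p := by
  induction l generalizing f with
  | nil => exact hf
  | cons j l ih => exact ih (analyticAt_dir hf _)

theorem wd_congr (l : List (Fin r)) {f f' : (Fin g → ℂ) → ℂ} {p : Fin g → ℂ}
    (h : f =ᶠ[𝓝 p] f') : wd w l f =ᶠ[𝓝 p] wd w l f' := by
  induction l generalizing f f' with
  | nil => exact h
  | cons j l ih =>
    refine ih ?_
    filter_upwards [h.fderiv (𝕜 := ℂ)] with z hz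
    rw [hz]

theorem wd_sum (l : List (Fin r)) {ι : Type*} (s : Finset ι) (c : ι → ℂ)
    {f : ι → (Fin g → ℂ) → ℂ} {p : Fin g → ℂ} (hf : ∀ i ∈ s, AnalyticAt ℂ (f i) p) :
    wd w l (fun z => ∑ i ∈ s, c i * f i z) p = ∑ i ∈ s, c i * wd w l (f i) p := by
  induction l generalizing f with
  | nil => rfl
  | cons j l ih =>
    have h1 : (fun z => fderiv ℂ (fun z => ∑ i ∈ s, c i * f i z) z (w j)) =ᶠ[𝓝 p]
        fun z => ∑ i ∈ s, c i * fderiv ℂ (f i) z (w j) := by
      have h2 : ∀ᶠ z in 𝓝 p, ∀ i ∈ s, AnalyticAt ℂ (f i) z :=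
        (eventually_all_finset s).2 fun i hi => (hf i hi).eventually_analyticAt
      filter_upwards [h2] with z hz
      have := (HasFDerivAt.fun_sum fun i hi =>
        ((hz i hi).differentiableAt.hasFDerivAt.const_mul (c i))).fderiv
      rw [this]
      simp
    simp only [wd]
    rw [(wd_congr w l h1).self_of_nhds]
    exact ih fun i hi => analyticAt_dir (hf i hi) _

theorem Ord.mono {k k' : ℕ} {f : (Fin g → ℂ) → ℂ} {p : Fin g → ℂ} (h : Ord w k' f p)
    (hk : k ≤ k') : Ord w k f p := by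
  refine Asymptotics.IsBigO.trans h (Asymptotics.IsBigO.of_bound 1 ?_)
  filter_upwards [Metric.closedBall_mem_nhds (0 : Fin r → ℂ) one_pos] with x hx
  rw [mem_closedBall_zero_iff] at hx
  simpa using pow_le_pow_of_le_one (norm_nonneg x) hx hk

theorem Ord.eq_zero {k : ℕ} {f : (Fin g → ℂ) → ℂ} {p : Fin g → ℂ} (h : Ord w (k + 1) f p) :
    f p = 0 := by
  obtain ⟨C, hC⟩ := h.bound
  simpa using hC.self_of_nhds

end

end Pool.Agent.CMP
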