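import Mathlib.Data.Int.Star
import Mathlib.Algebra.Order.Ring.Star
import Mathlib.Algebra.MvPolynomial.Funext
import Mathlib.Algebra.Order.Star.Real
import Mathlib.AlgebraicTopology.FundamentalGroupoid.SimplyConnected
import Mathlib.Analysis.Convex.Contractible
import Mathlib.Analysis.Calculus.InverseFunctionTheorem.FDeriv
import Mathlib.Analysis.Complex.ExponentialBounds
import Pool.Agent.MP_cbf1af_ag.cmp.Apx
import Pool.Agent.MP_cbf1af_ag.cmp.Basic

/-! PROJECT CMP, module BOX + AUX: the box principle and the auxiliary form. -/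

namespace Pool.Agent.CMP

open MvPolynomial Filter Topology

noncomputable section

namespace AuxX

/-- index of the cell of `t` -/
def cell (R : ℝ) (Q : ℕ) (t : ℝ) : ℕ := ⌊(t + R) * Q / (2 * R)⌋₊

lemma cell_le {R t : ℝ} (Q : ℕ) (h : |t| ≤ R) : cell R Q t ≤ Q := by
  have hR : 0 ≤ R := (abs_nonneg t).trans h
  rcases hR.eq_or_lt with h0 | h0
  · simp [cell, ← h0]
  · apply Nat.floor_le_of_le
    rw [div_le_iff₀ (by positivity)]
    have := (abs_le.1 h).2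
    have hQ : (0 : ℝ) ≤ Q := Nat.cast_nonneg Q
    nlinarith

lemma cell_close {R t t' : ℝ} {Q : ℕ} (hQ : 1 ≤ Q) (h : |t| ≤ R) (h' : |t'| ≤ R)
    (e : cell R Q t = cell R Q t') : |t - t'| ≤ 2 * R / Q := by
  have hR : 0 ≤ R := (abs_nonneg t).trans h
  have hQ' : (0 : ℝ) < Q := by exact_mod_cast hQ
  rcases hR.eq_or_lt with h0 | h0
  · rw [← h0] at h h' ⊢
    rw [abs_nonpos_iff] at h h'
    simp [h, h']
  · have p1 : 0 ≤ (t + R) * Q / (2 * R) := by
      have := (abs_le.1 h).1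
      apply div_nonneg (mul_nonneg (by linarith) hQ'.le) (by positivity)
    have p2 : 0 ≤ (t' + R) * Q / (2 * R) := by
      have := (abs_le.1 h').1
      apply div_nonneg (mul_nonneg (by linarith) hQ'.le) (by positivity)
    have a1 := Nat.floor_le p1
    have a2 := Nat.lt_floor_add_one ((t + R) * Q / (2 * R))
    have b1 := Nat.floor_le p2
    have b2 := Nat.lt_floor_add_one ((t' + R) * Q / (2 * R))
    unfold cell at e
    rw [e] at a1 a2
    have key : |(t + R) * Q / (2 * R) - (t' + R) * Q / (2 * R)| ≤ 1 := by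
      rw [abs_le]; constructor <;> linarith
    have : (t + R) * Q / (2 * R) - (t' + R) * Q / (2 * R) = (t - t') * (Q / (2 * R)) := by
      field_simp; ring
    rw [this, abs_mul, abs_of_pos (by positivity : (0 : ℝ) < Q / (2 * R))] at key
    rw [le_div_iff₀ hQ']
    have h2 : |t - t'| * (Q / (2 * R)) * (2 * R) ≤ 1 * (2 * R) :=
      mul_le_mul_of_nonneg_right key (by positivity)
    have h3 : |t - t'| * (Q / (2 * R)) * (2 * R) = |t - t'| * Q := by field_simp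
    linarith

variable {g N : ℕ}

/-- the monomials used for the auxiliary form -/
def mon (ι : Fin g → Fin (N + 1)) (A : ℕ) (α : Fin g → Fin (A + 1)) :
    MvPolynomial (Fin (N + 1)) ℤ :=
  X 0 ^ (g * A - ∑ k, (α k : ℕ)) * ∏ k, X (ι k) ^ (α k : ℕ)

lemma sum_le {A : ℕ} (α : Fin g → Fin (A + 1)) : ∑ k, (α k : ℕ) ≤ g * A := by
  calc ∑ k, (α k : ℕ) ≤ ∑ _k : Fin g, A :=
        Finset.sum_le_sum fun k _ => Nat.lt_succ_iff.1 (α k).2
    _ = g * A := by simp

lemma mon_hom (ι : Fin g → Fin (N + 1)) (A : ℕ) (α : Fin g → Fin (A + 1)) :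
    (mon ι A α).IsHomogeneous (g * A) := by
  have h1 := (isHomogeneous_X ℤ (0 : Fin (N + 1))).pow (g * A - ∑ k, (α k : ℕ))
  have h2 := IsHomogeneous.prod Finset.univ
    (fun k => (X (ι k) : MvPolynomial (Fin (N + 1)) ℤ) ^ (α k : ℕ)) (fun k => (α k : ℕ))
    (fun k _ => by simpa using (isHomogeneous_X ℤ (ι k)).pow (α k : ℕ))
  have h := h1.mul h2
  rwa [one_mul, Nat.sub_add_cancel (sum_le α)] at h

lemma mon_sz (ι : Fin g → Fin (N + 1)) (A : ℕ) (α : Fin g → Fin (A + 1)) :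
    Sz X (g * A) 1 (mon ι A α) := by
  have h1 := (Sz.gen (X : Fin (N + 1) → MvPolynomial (Fin (N + 1)) ℤ) 0).pow
    (g * A - ∑ k, (α k : ℕ))
  have h2 := Sz.prod Finset.univ
    (fun k => (X (ι k) : MvPolynomial (Fin (N + 1)) ℤ) ^ (α k : ℕ)) (fun k => (α k : ℕ))
    (fun _ => 1) (fun k _ => by
      simpa using (Sz.gen (X : Fin (N + 1) → MvPolynomial (Fin (N + 1)) ℤ) (ι k)).pow (α k : ℕ))
  have h := h1.mul h2
  simp only [mul_one, one_pow, Finset.prod_const_one] at h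
  rwa [Nat.sub_add_cancel (sum_le α)] at h

lemma mon_eval (ι : Fin g → Fin (N + 1)) (A : ℕ) (α : Fin g → Fin (A + 1))
    (x : Fin (N + 1) → ℂ) : eval x (map (Int.castRingHom ℂ) (mon ι A α)) =
      x 0 ^ (g * A - ∑ k, (α k : ℕ)) * ∏ k, x (ι k) ^ (α k : ℕ) := by
  simp [mon]

lemma mon_norm (ι : Fin g → Fin (N + 1)) (A : ℕ) (α : Fin g → Fin (A + 1))
    (x : Fin (N + 1) → ℂ) {e B : ℝ} (he : 0 ≤ e) (h : ∀ i, ‖x i‖ * e ≤ B) :
    ‖eval x (map (Int.castRingHom ℂ) (mon ι A α))‖ * e ^ (g * A) ≤ B ^ (g * A) := by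
  have hB : 0 ≤ B := le_trans (by positivity) (h 0)
  have e1 : ∀ t : ℝ, t ^ (g * A) = t ^ (g * A - ∑ k, (α k : ℕ)) * ∏ k, t ^ (α k : ℕ) := fun t => by
    rw [Finset.prod_pow_eq_pow_sum, ← pow_add, Nat.sub_add_cancel (sum_le α)]
  rw [mon_eval, e1 e, e1 B, norm_mul, norm_prod, norm_pow, mul_mul_mul_comm, ← mul_pow,
    ← Finset.prod_mul_distrib]
  refine mul_le_mul (pow_le_pow_left₀ (by positivity) (h 0) _) ?_ (by positivity) (by positivity)
  refine Finset.prod_le_prod (fun k _ => by positivity) fun k _ => ?_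
  rw [norm_pow, ← mul_pow]
  exact pow_le_pow_left₀ (by positivity) (h _) _

lemma poly_zero (p : MvPolynomial (Fin g) ℂ) (y0 : Fin g → ℂ)
    (h : ∀ᶠ y in 𝓝 y0, eval y p = 0) : p = 0 := by
  have ha : AnalyticOnNhd ℂ (fun y : Fin g → ℂ => eval y p) Set.univ := fun y _ =>
    analyticAt_eval (h := fun y : Fin g → ℂ => y)
      (fun i => (ContinuousLinearMap.proj (R := ℂ) (φ := fun _ : Fin g => ℂ) i).analyticAt y) p
  have h0 := ha.eqOn_zero_of_preconnected_of_eventuallyEq_zero isPreconnected_univ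
    (Set.mem_univ y0) h
  exact MvPolynomial.funext fun y => by simpa using h0 (Set.mem_univ y)

lemma indep {A : ℕ} (x : (Fin g → Fin (A + 1)) → ℂ) (y0 : Fin g → ℂ)
    (h : ∀ᶠ y in 𝓝 y0, ∑ α, x α * ∏ k, y k ^ (α k : ℕ) = 0) : x = 0 := by
  classical
  let d : (Fin g → Fin (A + 1)) → (Fin g →₀ ℕ) := fun α =>
    Finsupp.equivFunOnFinite.symm fun k => (α k : ℕ)
  have hd : Function.Injective d := fun α β e => by
    funext k
    have := congrArg (fun f : Fin g →₀ ℕ => f k) e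
    exact Fin.ext (by simpa [d] using this)
  have hp := poly_zero (∑ α, monomial (d α) (x α)) y0 (h.mono fun y hy => by
    rw [map_sum, ← hy]
    refine Finset.sum_congr rfl fun α _ => ?_
    rw [eval_monomial, Finsupp.prod_fintype _ _ (by simp)]
    simp [d])
  funext α
  have := congrArg (coeff (d α)) hp
  rw [coeff_sum, Finset.sum_eq_single α] at this
  · simpa using this
  · intro β _ hβ
    rw [coeff_monomial, if_neg (hd.ne hβ)]
  · simp

lemma near_zero {Θ : Fin (N + 1) → (Fin g → ℂ) → ℂ} {Λ : AddSubgroup (Fin g → ℂ)}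
    (hA : IsAbelian Θ Λ) {u : (Fin g → ℂ) → ℝ} (hq : Quad u) :
    ∃ M : ℕ, 1 ≤ M ∧ ∀ z : Fin g → ℂ, ‖z‖ ≤ 1 / (M : ℝ) →
      Θ 0 z ≠ 0 ∧ Real.exp (-(M : ℝ)) ≤ ‖Θ 0 z‖ * Real.exp (-u z) := by
  obtain ⟨C, hC⟩ := hq
  obtain ⟨l, hl⟩ := hC 0
  have hpos : 0 < ‖Θ 0 0‖ := norm_pos_iff.2 hA.ne0
  have hc : ContinuousAt (fun z => ‖Θ 0 z‖) 0 := (hA.hol 0 0).continuousAt.norm
  have hev : ∀ᶠ z in 𝓝 (0 : Fin g → ℂ), ‖Θ 0 0‖ / 2 < ‖Θ 0 z‖ :=
    hc.eventually (lt_mem_nhds (by linarith))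
  obtain ⟨δ, hδ, hb⟩ := Metric.eventually_nhds_iff.1 hev
  obtain ⟨M1, hM1⟩ := exists_nat_one_div_lt hδ
  obtain ⟨M2, hM2⟩ := exists_nat_ge (u 0 + ‖l‖ + |C| - Real.log (‖Θ 0 0‖ / 2))
  refine ⟨M1 + 1 + M2, by omega, fun z hz => ?_⟩
  have h1 : (0 : ℝ) ≤ M1 := Nat.cast_nonneg _
  have h2 : (0 : ℝ) ≤ M2 := Nat.cast_nonneg _
  have hz1 : ‖z‖ ≤ 1 / ((M1 : ℝ) + 1) := by
    refine hz.trans (one_div_le_one_div_of_le (by positivity) ?_)
    push_cast; linarith
  have hz2 : ‖z‖ ≤ 1 := hz1.trans (by rw [div_le_one (by positivity)]; linarith)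
  have hb' := hb (y := z) (by simpa using hz1.trans_lt hM1)
  refine ⟨norm_pos_iff.1 (by linarith), ?_⟩
  have hu : u z ≤ u 0 + ‖l‖ + |C| := by
    have a1 := (abs_le.1 (hl z)).2
    rw [zero_add] at a1
    have a2 : (l z).re ≤ ‖l‖ :=
      (Complex.re_le_norm _).trans ((l.le_opNorm z).trans
        (mul_le_of_le_one_right (norm_nonneg _) hz2))
    have a3 : C * ‖z‖ ^ 2 ≤ |C| := by
      have : ‖z‖ ^ 2 ≤ 1 := pow_le_one₀ (norm_nonneg _) hz2
      calc C * ‖z‖ ^ 2 ≤ |C| * ‖z‖ ^ 2 :=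
            mul_le_mul_of_nonneg_right (le_abs_self C) (by positivity)
        _ ≤ |C| := mul_le_of_le_one_right (abs_nonneg C) this
    linarith
  calc Real.exp (-((M1 + 1 + M2 : ℕ) : ℝ)) ≤ Real.exp (Real.log (‖Θ 0 0‖ / 2) + -u z) := by
        apply Real.exp_le_exp.2
        push_cast; linarith
    _ = ‖Θ 0 0‖ / 2 * Real.exp (-u z) := by rw [Real.exp_add, Real.exp_log (by linarith)]
    _ ≤ ‖Θ 0 z‖ * Real.exp (-u z) := mul_le_mul_of_nonneg_right hb'.le (Real.exp_pos _).le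

lemma exp_neg_pow (n : ℕ) (t : ℝ) : Real.exp (-(n * t)) = Real.exp (-t) ^ n := by
  rw [← Real.exp_nat_mul]; congr 1; ring

/-- size of the trivial bound -/
lemma triv_le {a v h B : ℕ} (hav : a ≤ v) (hh : h ≤ v ^ 2) :
    (((a ^ 2 + 1) ^ g : ℕ) : ℝ) * ((2 ^ h : ℕ) : ℝ) * (B : ℝ) ^ (g * a ^ 2) ≤
      Real.exp (((g + 1 + B * g : ℕ) : ℝ) * (v : ℝ) ^ 2) := by
  have hav' : (a : ℝ) ^ 2 ≤ (v : ℝ) ^ 2 := by
    exact_mod_cast Nat.pow_le_pow_left hav 2
  have h1 : (((a ^ 2 + 1) ^ g : ℕ) : ℝ) ≤ Real.exp (g * (v : ℝ) ^ 2) := by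
    rw [Real.exp_nat_mul]
    push_cast
    refine pow_le_pow_left₀ (by positivity) ?_ _
    have := Real.add_one_le_exp ((v : ℝ) ^ 2)
    linarith
  have h2 : ((2 ^ h : ℕ) : ℝ) ≤ Real.exp ((v : ℝ) ^ 2) := by
    have e2 : (2 : ℝ) ≤ Real.exp 1 := by
      have := Real.add_one_le_exp (1 : ℝ); linarith
    calc ((2 ^ h : ℕ) : ℝ) = 2 ^ h := by push_cast; ring
      _ ≤ Real.exp 1 ^ h := pow_le_pow_left₀ (by norm_num) e2 _
      _ = Real.exp h := by rw [← Real.exp_nat_mul, mul_one]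
      _ ≤ Real.exp ((v : ℝ) ^ 2) := Real.exp_le_exp.2 (by exact_mod_cast hh)
  have h3 : (B : ℝ) ^ (g * a ^ 2) ≤ Real.exp (B * g * (v : ℝ) ^ 2) := by
    have eB : (B : ℝ) ≤ Real.exp B := by
      have := Real.add_one_le_exp (B : ℝ); linarith
    calc (B : ℝ) ^ (g * a ^ 2) ≤ Real.exp B ^ (g * a ^ 2) :=
          pow_le_pow_left₀ (Nat.cast_nonneg _) eB _
      _ = Real.exp (((g * a ^ 2 : ℕ) : ℝ) * B) := by rw [Real.exp_nat_mul]
      _ ≤ Real.exp (B * g * (v : ℝ) ^ 2) := by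
          apply Real.exp_le_exp.2
          push_cast
          have : (0 : ℝ) ≤ (B : ℝ) * g := by positivity
          nlinarith
  calc _ ≤ Real.exp (g * (v : ℝ) ^ 2) * Real.exp ((v : ℝ) ^ 2) *
        Real.exp (B * g * (v : ℝ) ^ 2) := by gcongr
    _ = _ := by rw [← Real.exp_add, ← Real.exp_add]; congr 1; push_cast; ring

lemma quot_le {K v : ℕ} (hv : 1 ≤ v) {T : ℝ} (hT : T ≤ Real.exp ((K : ℝ) * (v : ℝ) ^ 2)) :
    4 * T / ((4 ^ ((K + 2) * v ^ 2) : ℕ) : ℝ) ≤ Real.exp (-(v : ℝ) ^ 2) := by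
  have e4 : Real.exp 1 ≤ 4 := (Real.exp_one_lt_d9.le).trans (by norm_num)
  rw [div_le_iff₀ (by positivity), Real.exp_neg, le_inv_mul_iff₀ (Real.exp_pos _)]
  have h1 : Real.exp ((v : ℝ) ^ 2) * Real.exp ((K : ℝ) * (v : ℝ) ^ 2) ≤
      4 ^ ((K + 1) * v ^ 2) := by
    calc Real.exp ((v : ℝ) ^ 2) * Real.exp ((K : ℝ) * (v : ℝ) ^ 2)
        = Real.exp 1 ^ ((K + 1) * v ^ 2) := by
          rw [← Real.exp_add, ← Real.exp_nat_mul]; congr 1; push_cast; ring
      _ ≤ 4 ^ ((K + 1) * v ^ 2) := pow_le_pow_left₀ (Real.exp_pos _).le e4 _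
  have h2 : (4 : ℝ) ≤ 4 ^ (v ^ 2) :=
    le_self_pow₀ (by norm_num) (by positivity)
  calc Real.exp ((v : ℝ) ^ 2) * (4 * T)
      ≤ Real.exp ((v : ℝ) ^ 2) * (4 * Real.exp ((K : ℝ) * (v : ℝ) ^ 2)) := by gcongr
    _ = 4 * (Real.exp ((v : ℝ) ^ 2) * Real.exp ((K : ℝ) * (v : ℝ) ^ 2)) := by ring
    _ ≤ 4 ^ (v ^ 2) * 4 ^ ((K + 1) * v ^ 2) := by gcongr
    _ = ((4 ^ ((K + 2) * v ^ 2) : ℕ) : ℝ) := by
        push_cast; rw [← pow_add]; congr 1; ring

lemma card_lt {K v n E L h : ℕ} (hv : 1 ≤ v) (hL : 1 ≤ L)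
    (hn : (2 * K + 5) * v ^ 2 * (2 * n) ≤ E * h) (hE : E ≤ L) :
    (4 ^ ((K + 2) * v ^ 2) + 1) ^ (2 * n) < (2 ^ h + 1) ^ L := by
  have h1 : 4 ^ ((K + 2) * v ^ 2) + 1 ≤ 2 ^ ((2 * K + 5) * v ^ 2) := by
    have a1 : 1 ≤ 4 ^ ((K + 2) * v ^ 2) := Nat.one_le_pow _ _ (by norm_num)
    have a2 : 2 ≤ 2 ^ (v ^ 2) := Nat.le_self_pow (by positivity) 2
    calc 4 ^ ((K + 2) * v ^ 2) + 1 ≤ 2 * 4 ^ ((K + 2) * v ^ 2) := by omega
      _ ≤ 2 ^ (v ^ 2) * 4 ^ ((K + 2) * v ^ 2) := Nat.mul_le_mul_right _ a2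
      _ = 2 ^ ((2 * K + 5) * v ^ 2) := by
          rw [show (4 : ℕ) = 2 ^ 2 by norm_num, ← pow_mul, ← pow_add]; congr 1; ring
  calc (4 ^ ((K + 2) * v ^ 2) + 1) ^ (2 * n) ≤ (2 ^ ((2 * K + 5) * v ^ 2)) ^ (2 * n) :=
        Nat.pow_le_pow_left h1 _
    _ ≤ (2 ^ h) ^ L := by
        rw [← pow_mul, ← pow_mul]
        refine Nat.pow_le_pow_right (by norm_num) (hn.trans ?_)
        rw [mul_comm]; exact Nat.mul_le_mul_left _ hE
    _ < (2 ^ h + 1) ^ L := Nat.pow_lt_pow_left (Nat.lt_succ_self _) (by omega)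

end AuxX

open AuxX

theorem box : BoxStmt := by
  intro ι κ _ _ a B H Q hQ hB ha hcard
  classical
  set R : ℝ := Fintype.card ι * H * B with hRdef
  let S : (ι → Fin (H + 1)) → κ → ℂ := fun y j => ∑ i, ((y i : ℕ) : ℂ) * a j i
  have hS : ∀ y j, ‖S y j‖ ≤ R := by
    intro y j
    calc ‖S y j‖ ≤ ∑ i, ‖((y i : ℕ) : ℂ) * a j i‖ := norm_sum_le _ _
      _ ≤ ∑ _i : ι, (H : ℝ) * B := by
          refine Finset.sum_le_sum fun i _ => ?_
          rw [norm_mul, Complex.norm_natCast]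
          have : ((y i : ℕ) : ℝ) ≤ H := by exact_mod_cast Nat.lt_succ_iff.1 (y i).2
          exact mul_le_mul this (ha j i) (norm_nonneg _) (Nat.cast_nonneg _)
      _ = R := by simp [hRdef, mul_assoc]
  have hre : ∀ y j, |(S y j).re| ≤ R := fun y j => (Complex.abs_re_le_norm _).trans (hS y j)
  have him : ∀ y j, |(S y j).im| ≤ R := fun y j => (Complex.abs_im_le_norm _).trans (hS y j)
  let Φ : (ι → Fin (H + 1)) → κ → Fin (Q + 1) × Fin (Q + 1) := fun y j =>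
    (⟨cell R Q (S y j).re, Nat.lt_succ_of_le (cell_le Q (hre y j))⟩,
     ⟨cell R Q (S y j).im, Nat.lt_succ_of_le (cell_le Q (him y j))⟩)
  obtain ⟨y, y', hne, he⟩ := Fintype.exists_ne_map_eq_of_card_lt Φ (by
    simp only [Fintype.card_pi, Fintype.card_prod, Fintype.card_fin, Finset.prod_const,
      Finset.card_univ]
    rwa [← sq, ← pow_mul])
  refine ⟨fun i => ((y i : ℕ) : ℤ) - ((y' i : ℕ) : ℤ), ?_, ?_, ?_⟩
  · intro h0
    apply hne
    funext i
    have := congrFun h0 i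
    simp only [Pi.zero_apply, sub_eq_zero, Nat.cast_inj] at this
    exact Fin.ext this
  · intro i
    have h1 := (y i).2
    have h2 := (y' i).2
    show (((y i : ℕ) : ℤ) - ((y' i : ℕ) : ℤ)).natAbs ≤ H
    omega
  · intro j
    have e := congrFun he j
    simp only [Φ, Prod.mk.injEq, Fin.mk.injEq] at e
    have c1 := cell_close hQ (hre y j) (hre y' j) e.1
    have c2 := cell_close hQ (him y j) (him y' j) e.2
    have hs : ∑ i, ((((y i : ℕ) : ℤ) - ((y' i : ℕ) : ℤ) : ℤ) : ℂ) * a j i = S y j - S y' j := by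
      simp only [S, ← Finset.sum_sub_distrib]
      refine Finset.sum_congr rfl fun i _ => ?_
      push_cast; ring
    rw [hs]
    calc ‖S y j - S y' j‖ ≤ |(S y j - S y' j).re| + |(S y j - S y' j).im| :=
          Complex.norm_le_abs_re_add_abs_im _
      _ ≤ 2 * R / Q + 2 * R / Q := by
          rw [Complex.sub_re, Complex.sub_im]; exact add_le_add c1 c2
      _ = 4 * Fintype.card ι * H * B / Q := by rw [hRdef]; ring

theorem aux (hW : WtStmt) (hS : SampStmt) : AuxStmt := by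
  classical
  intro g N Θ Λ s c lam hA hl hi hc
  obtain ⟨u, hq, hper, C1, hC1⟩ := hW g N Θ Λ hA
  obtain ⟨C0, hC0, hs⟩ := hS g s c u lam hq hi hc
  obtain ⟨ι, Lc, -, hder⟩ := hA.exists_coord
  obtain ⟨M, hM, hnear⟩ := near_zero hA hq
  obtain ⟨B, hB⟩ := exists_nat_ge C1
  set K := g + 1 + B * g with hK
  have hK1 : 1 ≤ K := by omega
  refine ⟨2 * (2 * K + 5) * C0 * (g + 1) ^ s * K ^ c + C0 * (g + 1) * K + (C0 + g * M) + M,
    by omega, fun a v h ha hav hh hcount => ?_⟩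
  set C := 2 * (2 * K + 5) * C0 * (g + 1) ^ s * K ^ c + C0 * (g + 1) * K + (C0 + g * M) + M
    with hC
  have hv : 1 ≤ v := ha.trans hav
  obtain ⟨G, hG, hs⟩ := hs ((g + 1) * a) (K * v) (Nat.mul_pos (by omega) ha) (Nat.mul_pos hK1 hv)
  set D := g * a ^ 2 with hD
  let m : (Fin g → Fin (a ^ 2 + 1)) → (Fin g → ℂ) → ℂ := fun α z =>
    ev Θ (map (Int.castRingHom ℂ) (mon ι (a ^ 2) α)) z
  have hm : ∀ α z, ‖m α z‖ * Real.exp (-(D * u z)) ≤ (B : ℝ) ^ D := fun α z => by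
    rw [exp_neg_pow]
    exact mon_norm ι (a ^ 2) α _ (Real.exp_pos _).le fun i => (hC1 i z).trans hB
  have hcard : Fintype.card (Fin g → Fin (a ^ 2 + 1)) = (a ^ 2 + 1) ^ g := by simp
  obtain ⟨x, hx0, hxH, hxs⟩ := box (Fin g → Fin (a ^ 2 + 1)) G
    (fun p α => m α p * (Real.exp (-(D * u p)) : ℝ)) ((B : ℝ) ^ D) (2 ^ h)
    (4 ^ ((K + 2) * v ^ 2)) (Nat.one_le_pow _ _ (by norm_num)) (by positivity)
    (fun p α => by
      rw [norm_mul, Complex.norm_real, Real.norm_of_nonneg (Real.exp_pos _).le]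
      exact hm α p)
    (by
      rw [hcard, Fintype.card_coe]
      refine card_lt (E := a ^ (2 * g)) hv (Nat.one_le_pow _ _ (by omega)) ?_ ?_
      · refine le_trans ?_ hcount
        calc (2 * K + 5) * v ^ 2 * (2 * G.card)
            ≤ (2 * K + 5) * v ^ 2 * (2 * (C0 * ((g + 1) * a) ^ s * (K * v) ^ c)) := by gcongr
          _ = 2 * (2 * K + 5) * C0 * (g + 1) ^ s * K ^ c * a ^ s * v ^ (c + 2) := by
              rw [mul_pow, mul_pow]; ring
          _ ≤ C * a ^ s * v ^ (c + 2) := by gcongr; omega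
      · rw [pow_mul]; exact Nat.pow_le_pow_left (by omega) _)
  set P : MvPolynomial (Fin (N + 1)) ℤ := ∑ α, (x α : MvPolynomial (Fin (N + 1)) ℤ) *
    mon ι (a ^ 2) α with hP
  have hPh : P.IsHomogeneous D := IsHomogeneous.sum _ _ _ fun α _ => by
    have := (isHomogeneous_C (Fin (N + 1)) (x α)).mul (mon_hom ι (a ^ 2) α)
    simpa using this
  have hPh' : (map (Int.castRingHom ℂ) P).IsHomogeneous D := hPh.map _
  set F := ev Θ (map (Int.castRingHom ℂ) P) with hF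
  have hFs : ∀ z, F z = ∑ α, (x α : ℂ) * m α z := fun z => by
    simp [hF, hP, m, ev]
  have htriv := triv_le (g := g) (B := B) hav hh
  rw [← hK, ← hD] at htriv
  have key := (hs D (Real.exp (-(v : ℝ) ^ 2)) F (Nat.cast_nonneg _) ?_ ?_
    (hA.analyticAt_ev _) (fun i z => ?_) (fun z => ?_) (fun p hp => ?_)).2
  · refine ⟨P, hPh, ?_, ?_, fun z hz hzn => ?_⟩
    · have := Sz.sum Finset.univ
        (fun α => (x α : MvPolynomial (Fin (N + 1)) ℤ) * mon ι (a ^ 2) α)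
        (fun α _ => ((mon_sz ι (a ^ 2) α).intCast_mul (x α)).mono le_rfl
          (by simpa using hxH α : (x α).natAbs * 1 ≤ 2 ^ h))
      rwa [Finset.card_univ, hcard] at this
    · intro h0
      apply hx0
      have h1 : ∀ᶠ z in 𝓝 (0 : Fin g → ℂ),
          ∑ α, (x α : ℂ) * ∏ k, fn Θ z (ι k) ^ (α k : ℕ) = 0 := by
        filter_upwards [hA.eventually_ne] with z hz
        have a1 : F z = 0 := congrFun h0 z
        rw [hF, ev_eq_fn hPh' hz] at a1
        have a2 := (mul_eq_zero.1 a1).resolve_left (pow_ne_zero _ hz)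
        rw [← a2, hP, map_sum, map_sum]
        refine Finset.sum_congr rfl fun α _ => ?_
        rw [map_mul, map_mul, mon_eval]
        simp [fn, hz]
      have h2 : ∀ᶠ y in 𝓝 (fun k => fn Θ 0 (ι k)),
          ∑ α, (x α : ℂ) * ∏ k, y k ^ (α k : ℕ) = 0 := by
        rw [← hder.map_nhds_eq_of_equiv]
        exact h1
      have h3 := indep (fun α => (x α : ℂ)) _ h2
      funext α
      simpa using congrFun h3 α
    · have hav1 : (1 : ℝ) ≤ a * v := by exact_mod_cast Nat.mul_pos ha hv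
      have ha1 : (1 : ℝ) ≤ (a : ℝ) ^ 2 := by exact_mod_cast Nat.pow_pos (n := 2) ha
      have hz1 : ‖z‖ ≤ 1 / (M : ℝ) := by
        refine hzn.trans (one_div_le_one_div_of_le (by exact_mod_cast hM) ?_)
        have b1 : (M : ℝ) ≤ C := by exact_mod_cast (by omega : M ≤ C)
        have b2 : (0 : ℝ) ≤ M := Nat.cast_nonneg _
        nlinarith
      have hz2 : ‖z‖ ≤ 1 / ((C0 : ℝ) * ((g + 1) * a : ℕ) * (K * v : ℕ)) := by
        refine hzn.trans (one_div_le_one_div_of_le ?_ ?_)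
        · have := Nat.mul_pos (Nat.mul_pos hC0 (Nat.mul_pos (Nat.succ_pos g) ha))
            (Nat.mul_pos hK1 hv)
          exact_mod_cast this
        · have b1 : C0 * ((g + 1) * a) * (K * v) ≤ C * a * v := by
            calc C0 * ((g + 1) * a) * (K * v) = C0 * (g + 1) * K * a * v := by ring
              _ ≤ C * a * v := by gcongr; omega
          exact_mod_cast b1
      obtain ⟨hne, hlow⟩ := hnear z hz1
      refine ⟨hne, ?_⟩
      have k1 := key z hz hz2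
      rw [hF, ev_eq_fn hPh' hne, eval_map, norm_mul, norm_pow, exp_neg_pow, mul_right_comm,
        ← mul_pow] at k1
      have k2 : Real.exp (-(M : ℝ)) ^ D * ‖eval₂ (Int.castRingHom ℂ) (fn Θ z) P‖ ≤
          C0 * Real.exp (-(v : ℝ) ^ 2) :=
        le_trans (mul_le_mul_of_nonneg_right
          (pow_le_pow_left₀ (Real.exp_pos _).le hlow _) (norm_nonneg _)) k1
      rw [← exp_neg_pow, Real.exp_neg, inv_mul_le_iff₀ (Real.exp_pos _)] at k2
      have k3 : (C0 : ℝ) ≤ Real.exp C0 := by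
        have := Real.add_one_le_exp (C0 : ℝ); linarith
      calc _ ≤ Real.exp (D * M) * (C0 * Real.exp (-(v : ℝ) ^ 2)) := k2
        _ ≤ Real.exp (D * M) * (Real.exp C0 * Real.exp (-(v : ℝ) ^ 2)) := by gcongr
        _ ≤ Real.exp (C * (a : ℝ) ^ 2 - (v : ℝ) ^ 2) := by
            rw [← Real.exp_add, ← Real.exp_add]
            apply Real.exp_le_exp.2
            have b1 : ((C0 + g * M : ℕ) : ℝ) ≤ C := by exact_mod_cast (by omega : C0 + g * M ≤ C)
            have b2 : (0 : ℝ) ≤ C0 := Nat.cast_nonneg _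
            have b3 : (D : ℝ) = g * (a : ℝ) ^ 2 := by rw [hD]; push_cast; ring
            push_cast at b1
            rw [b3]
            nlinarith
  · have b1 : D ≤ ((g + 1) * a) ^ 2 := by
      rw [hD, mul_pow]; exact Nat.mul_le_mul_right _ (by nlinarith)
    exact_mod_cast b1
  · apply Real.exp_le_exp.2
    have b1 : v ^ 2 ≤ (K * v) ^ 2 := Nat.pow_le_pow_left (Nat.le_mul_of_pos_left _ hK1) 2
    have b2 : (v : ℝ) ^ 2 ≤ ((K * v : ℕ) : ℝ) ^ 2 := by exact_mod_cast b1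
    linarith
  · obtain ⟨b, hb, hb'⟩ := hper (lam i) (hl i) z
    have e : F (z + lam i) = b ^ D * F z := by
      simp only [hF, ev, hb']
      exact eval_smul_homog hPh' b _
    rw [e, norm_mul, norm_pow, exp_neg_pow, exp_neg_pow, ← hb, mul_pow]
    ring
  · have b1 : ‖F z‖ * Real.exp (-(D * u z)) ≤
        (((a ^ 2 + 1) ^ g : ℕ) : ℝ) * ((2 ^ h : ℕ) : ℝ) * (B : ℝ) ^ D := by
      calc ‖F z‖ * Real.exp (-(D * u z))
          ≤ (∑ α, ‖(x α : ℂ) * m α z‖) * Real.exp (-(D * u z)) := by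
            rw [hFs]
            exact mul_le_mul_of_nonneg_right (norm_sum_le _ _) (Real.exp_pos _).le
        _ ≤ ∑ _α : Fin g → Fin (a ^ 2 + 1), ((2 ^ h : ℕ) : ℝ) * (B : ℝ) ^ D := by
            rw [Finset.sum_mul]
            refine Finset.sum_le_sum fun α _ => ?_
            rw [norm_mul, mul_assoc]
            refine mul_le_mul ?_ (hm α z) (by positivity) (by positivity)
            rw [Complex.norm_intCast, ← Int.cast_abs, Int.abs_eq_natAbs, Int.cast_natCast]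
            exact_mod_cast hxH α
        _ = _ := by rw [Finset.sum_const, Finset.card_univ, hcard, nsmul_eq_mul, mul_assoc]
    refine (b1.trans htriv).trans (Real.exp_le_exp.2 ?_)
    have b2 : K * v ^ 2 ≤ (K * v) ^ 2 := by
      rw [mul_pow]; exact Nat.mul_le_mul_right _ (by nlinarith)
    exact_mod_cast b2
  · have b1 := hxs ⟨p, hp⟩
    have b2 : ∑ α, (x α : ℂ) * (m α p * (Real.exp (-(D * u p)) : ℝ)) =
        F p * (Real.exp (-(D * u p)) : ℝ) := by
      rw [hFs, Finset.sum_mul]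
      exact Finset.sum_congr rfl fun α _ => (mul_assoc _ _ _).symm
    simp only [] at b1
    rw [b2, norm_mul, Complex.norm_real, Real.norm_of_nonneg (Real.exp_pos _).le, hcard] at b1
    refine b1.trans (le_trans (le_of_eq ?_) (quot_le hv htriv))
    ring

end

end Pool.Agent.CMP
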