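import Mathlib
import Pool.Agent.MP_cbf1af_ag.cmp.Spec

/-! PROJECT CMP, row COMP: a common component with finite stabiliser. -/

namespace Pool.Agent.CMP

open MvPolynomial Filter Topology

namespace Cp

variable {g N : ℕ} {Θ : Fin (N + 1) → (Fin g → ℂ) → ℂ} {Λ : AddSubgroup (Fin g → ℂ)}

theorem eval_mul_hom {σ : Type} {n : ℕ} {P : MvPolynomial σ ℂ} (h : P.IsHomogeneous n) (a : ℂ)
    (x : σ → ℂ) : eval (fun i => a * x i) P = a ^ n * eval x P := by
  rw [eval_eq, eval_eq, Finset.mul_sum]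
  refine Finset.sum_congr rfl fun d hd => ?_
  rw [h.degree_eq_sum_deg_support hd]
  simp only [mul_pow, Finset.prod_mul_distrib, Finset.prod_pow_eq_pow_sum]
  ring

theorem ev_fn {n : ℕ} {P : MvPolynomial (Fin (N + 1)) ℂ} (h : P.IsHomogeneous n)
    {z : Fin g → ℂ} (hz : Θ 0 z ≠ 0) : ev Θ P z = Θ 0 z ^ n * eval (fn Θ z) P := by
  rw [← eval_mul_hom h]
  unfold ev fn
  congr 2
  funext i
  field_simp

theorem ev_mul (P Q : MvPolynomial (Fin (N + 1)) ℂ) (z : Fin g → ℂ) :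
    ev Θ (P * Q) z = ev Θ P z * ev Θ Q z := by
  unfold ev
  rw [map_mul]

theorem ev_analytic (hA : IsAbelian Θ Λ) (P : MvPolynomial (Fin (N + 1)) ℂ) (z : Fin g → ℂ) :
    AnalyticAt ℂ (ev Θ P) z := by
  induction P using MvPolynomial.induction_on with
  | C a =>
    have : ev Θ (C a) = fun _ => a := by funext z; simp [ev]
    rw [this]; exact analyticAt_const
  | add p q hp hq =>
    have : ev Θ (p + q) = fun z => ev Θ p z + ev Θ q z := by funext z; simp [ev]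
    rw [this]; exact hp.add hq
  | mul_X p i hp =>
    have : ev Θ (p * X i) = fun z => ev Θ p z * Θ i z := by funext z; simp [ev]
    rw [this]; exact hp.mul (hA.hol i z)

theorem exists_hom (Q : MvPolynomial (Fin (N + 1)) ℂ) :
    ∃ (P : MvPolynomial (Fin (N + 1)) ℂ) (n : ℕ), P.IsHomogeneous n ∧
      ∀ x : Fin (N + 1) → ℂ, x 0 = 1 → eval x P = eval x Q := by
  induction Q using MvPolynomial.induction_on with
  | C a => exact ⟨C a, 0, isHomogeneous_C _ a, fun _ _ => rfl⟩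
  | add p q hp hq =>
    obtain ⟨P, n, hP, eP⟩ := hp
    obtain ⟨Q, m, hQ, eQ⟩ := hq
    refine ⟨P * X 0 ^ m + X 0 ^ n * Q, n + m, (hP.mul (isHomogeneous_X_pow 0 m)).add
      ((isHomogeneous_X_pow 0 n).mul hQ), fun x hx => ?_⟩
    simp [hx, eP x hx, eQ x hx]
  | mul_X p i hp =>
    obtain ⟨P, n, hP, eP⟩ := hp
    refine ⟨P * X i, n + 1, hP.mul (isHomogeneous_X _ i), fun x hx => ?_⟩
    simp [eP x hx]

/-! ### closed sets -/

theorem cl_form {n : ℕ} {P : MvPolynomial (Fin (N + 1)) ℂ} (h : P.IsHomogeneous n) :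
    ZClosed Θ {z | ev Θ P z = 0} :=
  ⟨{P}, fun Q hQ => ⟨n, by rw [Set.mem_singleton_iff.1 hQ]; exact h⟩, fun z => by simp [ev]⟩

theorem cl_univ : ZClosed Θ Set.univ := ⟨∅, by simp, by simp⟩

theorem cl_iInter {ι : Type} {X : ι → Set (Fin g → ℂ)} (h : ∀ i, ZClosed Θ (X i)) :
    ZClosed Θ (⋂ i, X i) := by
  choose S hS hX using h
  refine ⟨⋃ i, S i, fun P hP => ?_, fun z => ?_⟩
  · obtain ⟨i, hi⟩ := Set.mem_iUnion.1 hP
    exact hS i P hi
  · simp only [Set.mem_iInter, Set.mem_iUnion, hX]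
    exact ⟨fun h P ⟨i, hi⟩ => h i P hi, fun h i P hi => h P ⟨i, hi⟩⟩

theorem cl_inter {A B : Set (Fin g → ℂ)} (hA : ZClosed Θ A) (hB : ZClosed Θ B) :
    ZClosed Θ (A ∩ B) := by
  obtain ⟨S, hS, eS⟩ := hA
  obtain ⟨T, hT, eT⟩ := hB
  refine ⟨S ∪ T, fun P hP => hP.elim (hS P) (hT P), fun z => ?_⟩
  rw [Set.mem_inter_iff, eS, eT]
  exact ⟨fun h P hP => hP.elim (h.1 P) (h.2 P),
    fun h => ⟨fun P hP => h P (Or.inl hP), fun P hP => h P (Or.inr hP)⟩⟩

theorem cl_aff (Q : MvPolynomial (Fin (N + 1)) ℂ) :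
    ZClosed Θ {z | Θ 0 z ≠ 0 → eval (fn Θ z) Q = 0} := by
  obtain ⟨P, n, hP, eP⟩ := exists_hom Q
  have h := cl_form (Θ := Θ) ((isHomogeneous_X ℂ 0).mul hP)
  have : {z | Θ 0 z ≠ 0 → eval (fn Θ z) Q = 0} = {z | ev Θ (X 0 * P) z = 0} := by
    ext z
    simp only [Set.mem_ofPred_eq, ev_mul]
    have h0 : ev Θ (X 0) z = Θ 0 z := by simp [ev]
    rw [h0]
    by_cases hz : Θ 0 z = 0
    · simp [hz]
    · rw [ev_fn hP hz, eP _ (by simp [fn, hz])]
      simp [hz]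
  rw [this]
  exact h

theorem cl_trans (hA : IsAbelian Θ Λ) {X : Set (Fin g → ℂ)} (hX : ZClosed Θ X) (v : Fin g → ℂ) :
    ZClosed Θ {y | y + v ∈ X} := by
  obtain ⟨S, hS, eS⟩ := hX
  obtain ⟨c, hc⟩ := hA.add
  choose A u hAh hu hlaw using hc
  let B : (Fin g → ℂ) → Fin (N + 1) → MvPolynomial (Fin (N + 1)) ℂ := fun y i =>
    map (aeval (fun j => Θ j v) : MvPolynomial (Fin (N + 1)) Qb →ₐ[Qb] ℂ).toRingHom (A y v i)
  have key : ∀ y z (P : MvPolynomial (Fin (N + 1)) ℂ) (n : ℕ), P.IsHomogeneous n →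
      eval (fun i => Θ i z) (aeval (B y) P) = u y v z v ^ n * eval (fun i => Θ i (z + v)) P := by
    intro y z P n hP
    rw [← eval_mul_hom hP]
    have h1 : (eval (fun i => Θ i z)).comp (aeval (B y) :
        MvPolynomial (Fin (N + 1)) ℂ →ₐ[ℂ] MvPolynomial (Fin (N + 1)) ℂ).toRingHom =
        eval fun i => u y v z v * Θ i (z + v) := by
      refine MvPolynomial.ringHom_ext (fun r => by simp) (fun i => ?_)
      have := hlaw y v z v i
      simpa [B] using this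
    exact RingHom.congr_fun h1 P
  refine ⟨{Q | ∃ y, ∃ P ∈ S, Q = aeval (B y) P}, ?_, fun z => ?_⟩
  · rintro Q ⟨y, P, hP, rfl⟩
    obtain ⟨n, hn⟩ := hS P hP
    exact ⟨c * n, hn.aeval _ fun i => (hAh y v i).1.map _⟩
  · rw [Set.mem_ofPred_eq, eS]
    constructor
    · rintro h Q ⟨y, P, hP, rfl⟩
      obtain ⟨n, hn⟩ := hS P hP
      rw [key y z P n hn, h P hP, mul_zero]
    · intro h P hP
      obtain ⟨n, hn⟩ := hS P hP
      have := h _ ⟨z, P, hP, rfl⟩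
      rw [key z z P n hn] at this
      exact (mul_eq_zero.1 this).resolve_left (pow_ne_zero _ (hu z v))

/-- the polynomials vanishing at all `Θ z`, `z ∈ X` -/
noncomputable def van (Θ : Fin (N + 1) → (Fin g → ℂ) → ℂ) (X : Set (Fin g → ℂ)) :
    Ideal (MvPolynomial (Fin (N + 1)) ℂ) :=
  ⨅ z : X, RingHom.ker (eval fun i => Θ i z)

theorem mem_van {X : Set (Fin g → ℂ)} {P : MvPolynomial (Fin (N + 1)) ℂ} :
    P ∈ van Θ X ↔ ∀ z ∈ X, eval (fun i => Θ i z) P = 0 := by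
  simp [van, RingHom.mem_ker]

theorem van_lt {A B : Set (Fin g → ℂ)} (hA : ZClosed Θ A) (h : A ⊆ B) (h' : ¬ B ⊆ A) :
    van Θ B < van Θ A := by
  refine lt_of_le_of_ne (fun P hP => mem_van.2 fun z hz => mem_van.1 hP z (h hz)) fun e => h' ?_
  obtain ⟨S, -, eS⟩ := hA
  intro z hz
  refine (eS z).2 fun P hP => mem_van.1 ?_ z hz
  rw [e]
  exact mem_van.2 fun y hy => (eS y).1 hy P hP

theorem exists_min {F : Set (Set (Fin g → ℂ))} (hF : ∀ X ∈ F, ZClosed Θ X) (hne : F.Nonempty) :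
    ∃ X ∈ F, ∀ X' ∈ F, X' ⊆ X → X ⊆ X' := by
  obtain ⟨I, ⟨X, hX, rfl⟩, hmax⟩ := (wellFounded_gt (α := Ideal (MvPolynomial (Fin (N + 1)) ℂ))).has_min
    (van Θ '' F) (hne.image _)
  refine ⟨X, hX, fun X' hX' h => ?_⟩
  by_contra h'
  exact hmax _ ⟨X', hX', rfl⟩ (van_lt (hF X' hX') h h')

/-- irreducible for the topology of `ZClosed` sets (the empty set is allowed) -/
def Irr (Θ : Fin (N + 1) → (Fin g → ℂ) → ℂ) (X : Set (Fin g → ℂ)) : Prop :=
  ∀ A B, ZClosed Θ A → ZClosed Θ B → X ⊆ A ∪ B → X ⊆ A ∨ X ⊆ B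

theorem cl_union {A B : Set (Fin g → ℂ)} (hA : ZClosed Θ A) (hB : ZClosed Θ B) :
    ZClosed Θ (A ∪ B) := by
  obtain ⟨S, hS, eS⟩ := hA
  obtain ⟨T, hT, eT⟩ := hB
  refine ⟨{R | ∃ P ∈ S, ∃ Q ∈ T, R = P * Q}, ?_, fun z => ?_⟩
  · rintro R ⟨P, hP, Q, hQ, rfl⟩
    obtain ⟨n, hn⟩ := hS P hP
    obtain ⟨m, hm⟩ := hT Q hQ
    exact ⟨n + m, hn.mul hm⟩
  · rw [Set.mem_union, eS, eT]
    constructor
    · rintro h R ⟨P, hP, Q, hQ, rfl⟩
      rw [map_mul]
      rcases h with h | h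
      · rw [h P hP, zero_mul]
      · rw [h Q hQ, mul_zero]
    · intro h
      by_contra hc
      rw [not_or] at hc
      obtain ⟨h1, h2⟩ := hc
      push Not at h1 h2
      obtain ⟨P, hP, eP⟩ := h1
      obtain ⟨Q, hQ, eQ⟩ := h2
      have := h _ ⟨P, hP, Q, hQ, rfl⟩
      rw [map_mul] at this
      exact mul_ne_zero eP eQ this

theorem cl_empty : ZClosed Θ ∅ :=
  ⟨{1}, fun Q hQ => ⟨0, by rw [Set.mem_singleton_iff.1 hQ]; exact isHomogeneous_one _ _⟩,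
    fun z => by simp⟩

theorem cl_sUnion {S : Set (Set (Fin g → ℂ))} (hS : S.Finite) (h : ∀ t ∈ S, ZClosed Θ t) :
    ZClosed Θ (⋃₀ S) := by
  induction S, hS using Set.Finite.induction_on with
  | empty => simpa using cl_empty
  | insert _ _ ih =>
    rw [Set.sUnion_insert]
    exact cl_union (h _ (Set.mem_insert _ _)) (ih fun t ht => h t (Set.mem_insert_of_mem _ ht))

theorem Irr.sUnion {X : Set (Fin g → ℂ)} (hX : Irr Θ X) (hne : X.Nonempty)
    {S : Set (Set (Fin g → ℂ))} (hS : S.Finite) (h : ∀ t ∈ S, ZClosed Θ t) (hs : X ⊆ ⋃₀ S) :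
    ∃ t ∈ S, X ⊆ t := by
  induction S, hS using Set.Finite.induction_on with
  | empty =>
    obtain ⟨x, hx⟩ := hne
    simpa using hs hx
  | insert _ hf ih =>
    rw [Set.sUnion_insert] at hs
    have h' := fun t ht => h t (Set.mem_insert_of_mem _ ht)
    rcases hX _ _ (h _ (Set.mem_insert _ _)) (cl_sUnion hf h') hs with h1 | h1
    · exact ⟨_, Set.mem_insert _ _, h1⟩
    · obtain ⟨t, ht, h2⟩ := ih h' h1
      exact ⟨t, Set.mem_insert_of_mem _ ht, h2⟩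

theorem decomp {X : Set (Fin g → ℂ)} (hX : ZClosed Θ X) :
    ∃ S : Set (Set (Fin g → ℂ)), S.Finite ∧ (∀ t ∈ S, ZClosed Θ t ∧ Irr Θ t) ∧ X = ⋃₀ S := by
  by_contra hc
  obtain ⟨W, ⟨hW, hn⟩, hmin⟩ := exists_min (Θ := Θ)
    (F := {X | ZClosed Θ X ∧ ¬ ∃ S : Set (Set (Fin g → ℂ)), S.Finite ∧
      (∀ t ∈ S, ZClosed Θ t ∧ Irr Θ t) ∧ X = ⋃₀ S}) (fun X h => h.1) ⟨X, hX, hc⟩
  apply hn
  by_cases hi : Irr Θ W
  · exact ⟨{W}, Set.finite_singleton _, by simpa using ⟨hW, hi⟩, by simp⟩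
  · unfold Irr at hi
    push Not at hi
    obtain ⟨A, B, hA, hB, hAB, h1, h2⟩ := hi
    have k : ∀ A, ZClosed Θ A → ¬ W ⊆ A → ∃ S : Set (Set (Fin g → ℂ)), S.Finite ∧
        (∀ t ∈ S, ZClosed Θ t ∧ Irr Θ t) ∧ W ∩ A = ⋃₀ S := by
      intro A hA h1
      by_contra hc
      exact h1 fun z hz => (hmin _ ⟨cl_inter hW hA, hc⟩ Set.inter_subset_left hz).2
    obtain ⟨S, hS, cS, eS⟩ := k A hA h1
    obtain ⟨T, hT, cT, eT⟩ := k B hB h2
    refine ⟨S ∪ T, hS.union hT, fun t ht => ht.elim (cS t) (cT t), ?_⟩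
    rw [Set.sUnion_union, ← eS, ← eT, ← Set.inter_union_distrib_left]
    exact (Set.inter_eq_left.2 hAB).symm

theorem irr_univ (hA : IsAbelian Θ Λ) : Irr Θ Set.univ := by
  rintro A B ⟨S, -, eS⟩ ⟨T, -, eT⟩ h
  by_cases h1 : Set.univ ⊆ A
  · exact Or.inl h1
  right
  rw [Set.not_subset] at h1
  obtain ⟨z, -, hz⟩ := h1
  rw [eS] at hz
  push Not at hz
  obtain ⟨P, hP, eP⟩ := hz
  intro y _
  refine (eT y).2 fun Q hQ => ?_
  have h2 : ∀ᶠ x in 𝓝 z, ev Θ P x ≠ 0 := (ev_analytic hA P z).continuousAt.eventually_ne eP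
  have h3 : ev Θ Q =ᶠ[𝓝 z] 0 := by
    filter_upwards [h2] with x hx
    rcases h (Set.mem_univ x) with h4 | h4
    · exact absurd ((eS x).1 h4 P hP) hx
    · exact (eT x).1 h4 Q hQ
  have h4 : AnalyticOnNhd ℂ (ev Θ Q) Set.univ := fun x _ => ev_analytic hA Q x
  exact h4.eqOn_zero_of_preconnected_of_eventuallyEq_zero isPreconnected_univ
    (Set.mem_univ z) h3 (Set.mem_univ y)

/-! ### chains -/

/-- the affine polynomials `P i` are linearly independent on `W` -/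
def Ind (Θ : Fin (N + 1) → (Fin g → ℂ) → ℂ) (W : Set (Fin g → ℂ)) {ι : Type} [Fintype ι]
    (P : ι → MvPolynomial (Fin (N + 1)) ℂ) : Prop :=
  ∀ c : ι → ℂ, (∀ z ∈ W, Θ 0 z ≠ 0 → ∑ i, c i * eval (fn Θ z) (P i) = 0) → c = 0

theorem ind_step {W' W : Set (Fin g → ℂ)} (hs : W' ⊆ W) (hW : Irr Θ W)
    {x : MvPolynomial (Fin (N + 1)) ℂ} (h0 : ∀ z ∈ W', Θ 0 z ≠ 0 → eval (fn Θ z) x = 0)
    (h1 : ¬ W ⊆ {z | Θ 0 z ≠ 0 → eval (fn Θ z) x = 0}) {ι : Type} [Fintype ι]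
    {P : ι → MvPolynomial (Fin (N + 1)) ℂ} (hP : Ind Θ W' P) (m : ℕ) :
    Ind Θ W (fun p : Fin m × ι => x ^ (p.1 : ℕ) * P p.2) := by
  induction m with
  | zero => intro c _; funext p; exact p.1.elim0
  | succ m ih =>
    intro c hc
    have e : ∀ z, ∑ p : Fin (m + 1) × ι, c p * eval (fn Θ z) (x ^ (p.1 : ℕ) * P p.2) =
        ∑ i, c (0, i) * eval (fn Θ z) (P i) + eval (fn Θ z) x *
          ∑ p : Fin m × ι, c (p.1.succ, p.2) * eval (fn Θ z) (x ^ (p.1 : ℕ) * P p.2) := by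
      intro z
      rw [Fintype.sum_prod_type, Fin.sum_univ_succ, Fintype.sum_prod_type, Finset.mul_sum]
      congr 1
      · simp
      · refine Finset.sum_congr rfl fun a _ => ?_
        rw [Finset.mul_sum]
        refine Finset.sum_congr rfl fun i _ => ?_
        simp only [Fin.val_succ, map_mul, map_pow, pow_succ]
        ring
    have c0 : (fun i => c (0, i)) = 0 := by
      refine hP _ fun z hz hz0 => ?_
      have := hc z (hs hz) hz0
      rw [e, h0 z hz hz0, zero_mul, add_zero] at this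
      exact this
    have c0' : ∀ i, c (0, i) = 0 := fun i => congrFun c0 i
    let R : MvPolynomial (Fin (N + 1)) ℂ :=
      ∑ p : Fin m × ι, C (c (p.1.succ, p.2)) * (x ^ (p.1 : ℕ) * P p.2)
    have eR : ∀ z, eval (fn Θ z) R =
        ∑ p : Fin m × ι, c (p.1.succ, p.2) * eval (fn Θ z) (x ^ (p.1 : ℕ) * P p.2) := by
      intro z
      simp only [R, map_sum, map_mul, eval_C]
    have h2 : W ⊆ {z | Θ 0 z ≠ 0 → eval (fn Θ z) R = 0} := by
      refine (hW _ _ (cl_aff x) (cl_aff R) fun z hz => ?_).resolve_left h1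
      by_cases hz0 : Θ 0 z = 0
      · exact Or.inl fun h => absurd hz0 h
      · have := hc z hz hz0
        rw [e, ← eR] at this
        simp only [c0', zero_mul, Finset.sum_const_zero, zero_add] at this
        rcases mul_eq_zero.1 this with h | h
        · exact Or.inl fun _ => h
        · exact Or.inr fun _ => h
    have c1 := ih (fun p => c (p.1.succ, p.2)) fun z hz hz0 => by
      rw [← eR]; exact h2 hz hz0
    funext ⟨a, i⟩
    refine Fin.cases (c0' i) (fun a => ?_) a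
    exact congrFun c1 (a, i)

/-- `W` carries `m ^ k` independent polynomials of degree `O(m)` -/
def Big (Θ : Fin (N + 1) → (Fin g → ℂ) → ℂ) (W : Set (Fin g → ℂ)) (k : ℕ) : Prop :=
  ∃ e : ℕ, ∀ m : ℕ, ∃ (ι : Type) (_ : Fintype ι) (P : ι → MvPolynomial (Fin (N + 1)) ℂ),
    Fintype.card ι = m ^ k ∧ (∀ i, (P i).totalDegree ≤ e * m) ∧ Ind Θ W P

theorem big_zero (hA : IsAbelian Θ Λ) {W : Set (Fin g → ℂ)} (h0 : 0 ∈ W) : Big Θ W 0 := by
  refine ⟨0, fun m => ⟨Unit, inferInstance, fun _ => 1, by simp, by simp, fun c hc => ?_⟩⟩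
  funext i
  simpa using hc 0 h0 hA.ne0

theorem big_succ (hA : IsAbelian Θ Λ) {W' W : Set (Fin g → ℂ)} (hc : ZClosed Θ W') (h0 : 0 ∈ W')
    (hs : W' ⊆ W) (hn : ¬ W ⊆ W') (hW : Irr Θ W) {k : ℕ} (h : Big Θ W' k) : Big Θ W (k + 1) := by
  obtain ⟨e, he⟩ := h
  have hU : ZClosed Θ {z | ev Θ (X 0) z = 0} := cl_form (isHomogeneous_X ℂ 0)
  have h1 : ¬ W ⊆ W' ∪ {z | ev Θ (X 0) z = 0} := by
    intro h
    rcases hW _ _ hc hU h with h | h
    · exact hn h
    · exact hA.ne0 (by simpa [ev] using h (hs h0))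
  rw [Set.not_subset] at h1
  obtain ⟨z, hz, hz'⟩ := h1
  rw [Set.mem_union, not_or] at hz'
  obtain ⟨hz1, hz0⟩ := hz'
  have hz0 : Θ 0 z ≠ 0 := by simpa [ev] using hz0
  obtain ⟨S, hS, eS⟩ := hc
  rw [eS] at hz1
  push Not at hz1
  obtain ⟨x, hx, ex⟩ := hz1
  obtain ⟨n, hn⟩ := hS x hx
  refine ⟨e + n, fun m => ?_⟩
  obtain ⟨ι, _, P, hcard, hdeg, hP⟩ := he m
  refine ⟨Fin m × ι, inferInstance, fun p => x ^ (p.1 : ℕ) * P p.2, ?_, fun p => ?_, ?_⟩
  · rw [Fintype.card_prod, Fintype.card_fin, hcard, pow_succ, mul_comm]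
  · refine (totalDegree_mul _ _).trans ?_
    have h2 := (totalDegree_pow x p.1).trans
      (Nat.mul_le_mul p.1.2.le hn.totalDegree_le)
    have h3 := hdeg p.2
    rw [add_mul, mul_comm n m]
    omega
  · refine ind_step hs hW (fun y hy hy0 => ?_) (fun h => ex ?_) hP m
    · have h2 : ev Θ x y = 0 := (eS y).1 hy x hx
      rw [ev_fn hn hy0] at h2
      exact (mul_eq_zero.1 h2).resolve_left (pow_ne_zero _ hy0)
    · have h2 := ev_fn (Θ := Θ) hn hz0
      rw [h hz hz0, mul_zero] at h2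
      exact h2

theorem not_big (hH : Hilb Θ) {W : Set (Fin g → ℂ)} : ¬ Big Θ W (g + 1) := by
  rintro ⟨e, he⟩
  obtain ⟨C, hC⟩ := hH
  obtain ⟨ι, _, P, hcard, hdeg, hP⟩ := he (C * (e + 1) ^ g + 1)
  set m := C * (e + 1) ^ g + 1 with hm
  have hm1 : 1 ≤ m := by omega
  obtain ⟨c, hc, hz⟩ := hC (e * m) ι P hdeg (by
    rw [hcard]
    have h1 : e * m + 1 ≤ (e + 1) * m := by rw [add_mul, one_mul]; omega
    calc C * (e * m + 1) ^ g ≤ C * ((e + 1) * m) ^ g :=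
          Nat.mul_le_mul_left _ (Nat.pow_le_pow_left h1 g)
      _ = C * (e + 1) ^ g * m ^ g := by rw [mul_pow, mul_assoc]
      _ < m * m ^ g := Nat.mul_lt_mul_of_pos_right (by omega) (Nat.pow_pos hm1)
      _ = m ^ (g + 1) := by rw [pow_succ, mul_comm])
  exact hc (hP c fun z _ hz0 => hz z hz0)

/-! ### the separating form -/

/-- a form, not zero at the origin, vanishes at all points of `T` other than the origin of `A` -/
def Good (Θ : Fin (N + 1) → (Fin g → ℂ) → ℂ) (T : Set (Fin g → ℂ)) : Prop :=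
  ∃ (b : MvPolynomial (Fin (N + 1)) ℂ) (n : ℕ), b.IsHomogeneous n ∧ ev Θ b 0 ≠ 0 ∧
    ∀ y ∈ T, ev Θ b y = 0 ∨ ∃ a : ℂ, ∀ i, Θ i y = a * Θ i 0

theorem Good.mono {T T' : Set (Fin g → ℂ)} (h : Good Θ T) (hs : T' ⊆ T) : Good Θ T' := by
  obtain ⟨b, n, h1, h2, h3⟩ := h
  exact ⟨b, n, h1, h2, fun y hy => h3 y (hs hy)⟩

theorem good_biUnion {ι : Type} {S : Set ι} (hS : S.Finite) {T : ι → Set (Fin g → ℂ)}
    (h : ∀ i ∈ S, Good Θ (T i)) : Good Θ (⋃ i ∈ S, T i) := by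
  induction S, hS using Set.Finite.induction_on with
  | empty => exact ⟨1, 0, isHomogeneous_one _ _, by simp [ev], by simp⟩
  | insert _ _ ih =>
    rw [Set.biUnion_insert]
    obtain ⟨b, n, h1, h2, h3⟩ := h _ (Set.mem_insert _ _)
    obtain ⟨b', n', h1', h2', h3'⟩ := ih fun i hi => h i (Set.mem_insert_of_mem _ hi)
    refine ⟨b * b', n + n', h1.mul h1', by rw [ev_mul]; exact mul_ne_zero h2 h2', ?_⟩
    rintro y (hy | hy)
    · exact (h3 y hy).imp_left fun e => by rw [ev_mul, e, zero_mul]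
    · exact (h3' y hy).imp_left fun e => by rw [ev_mul, e, mul_zero]

theorem good_closed {T : Set (Fin g → ℂ)} (hT : ZClosed Θ T) (h0 : 0 ∉ T) : Good Θ T := by
  obtain ⟨S, hS, eS⟩ := hT
  rw [eS] at h0
  push Not at h0
  obtain ⟨b, hb, eb⟩ := h0
  obtain ⟨n, hn⟩ := hS b hb
  exact ⟨b, n, hn, eb, fun y hy => Or.inl ((eS y).1 hy b hb)⟩

theorem good_class (hA : IsAbelian Θ Λ) (q : (Fin g → ℂ) ⧸ Λ) :
    Good Θ {y | QuotientAddGroup.mk' Λ y = q} := by
  obtain ⟨x, rfl⟩ := QuotientAddGroup.mk'_surjective Λ q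
  have key : ∀ y, QuotientAddGroup.mk' Λ y = QuotientAddGroup.mk' Λ x →
      ∃ a : ℂ, ∀ i, Θ i y = a * Θ i x := by
    intro y hy
    obtain ⟨l, hl, e⟩ := (QuotientAddGroup.mk'_eq_mk' Λ).1 hy.symm
    obtain ⟨L, c, h⟩ := hA.theta l hl
    exact ⟨_, fun i => by rw [← e]; exact h i x⟩
  by_cases hx : ∀ i, Θ 0 x * Θ i 0 - Θ i x * Θ 0 0 = 0
  · refine ⟨1, 0, isHomogeneous_one _ _, by simp [ev], fun y hy => Or.inr ?_⟩
    obtain ⟨a, ha⟩ := key y hy
    refine ⟨a * (Θ 0 x / Θ 0 0), fun i => ?_⟩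
    have h0 := hA.ne0
    rw [ha i]
    field_simp
    linear_combination (-a) * hx i
  · push Not at hx
    obtain ⟨i, hi⟩ := hx
    refine ⟨C (Θ 0 x) * X i - C (Θ i x) * X 0, 1,
      (isHomogeneous_C_mul_X _ _).sub (isHomogeneous_C_mul_X _ _), by simpa [ev] using hi,
      fun y hy => Or.inl ?_⟩
    obtain ⟨a, ha⟩ := key y hy
    simp only [ev, map_sub, map_mul, eval_C, eval_X, ha]
    ring

theorem cl_into (hA : IsAbelian Θ Λ) (Z : Set (Fin g → ℂ)) {T : Set (Fin g → ℂ)}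
    (hT : ZClosed Θ T) : ZClosed Θ {y | ∀ v ∈ Z, y + v ∈ T} := by
  have : {y | ∀ v ∈ Z, y + v ∈ T} = ⋂ v : Z, {y | y + v.1 ∈ T} := by
    ext y
    simp
  rw [this]
  exact cl_iInter fun v => cl_trans hA hT v.1

theorem good_stab (hA : IsAbelian Θ Λ) {Z : Set (Fin g → ℂ)} (hZ : ZClosed Θ Z) (h0 : 0 ∈ Z)
    (hne : Z ≠ Set.univ) : Good Θ {y | ∀ v ∈ Z, y + v ∈ Z} := by
  let H : AddSubgroup (Fin g → ℂ) :=
    { carrier := {y | ∀ v ∈ Z, y + v ∈ Z}
      zero_mem' := fun v hv => by simpa using hv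
      add_mem' := fun {a b} ha hb v hv => by
        rw [add_assoc]; exact ha _ (hb v hv)
      neg_mem' := fun {y} hy v hv => by
        obtain ⟨_, ⟨n, rfl⟩, hmin⟩ := exists_min (Θ := Θ)
          (F := Set.range fun n : ℕ => {z | z + -(n • y) ∈ Z})
          (by rintro _ ⟨n, rfl⟩; exact cl_trans hA hZ _) (Set.range_nonempty _)
        have h1 := hmin _ ⟨n + 1, rfl⟩ fun z hz => by
          have h2 := hy _ hz
          have e : y + (z + -((n + 1) • y)) = z + -(n • y) := by rw [succ_nsmul]; abel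
          rw [e] at h2
          exact h2
        have h2 : v + n • y + -((n + 1) • y) ∈ Z := h1 (by simpa using hv)
        have e : v + n • y + -((n + 1) • y) = -y + v := by rw [succ_nsmul]; abel
        rw [e] at h2
        exact h2 }
  rcases hA.simple H (cl_into hA Z hZ) with h | h
  · refine absurd (Set.eq_univ_of_forall fun y => ?_) hne
    have h1 : y ∈ H := by rw [h]; trivial
    simpa using h1 0 h0
  · refine (good_biUnion h fun q _ => good_class hA q).mono fun y hy => ?_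
    simp only [Set.mem_iUnion]
    exact ⟨_, AddSubgroup.mem_map_of_mem _ (show y ∈ H from hy), rfl⟩

theorem irr_trans (hA : IsAbelian Θ Λ) {Z : Set (Fin g → ℂ)} (hZ : Irr Θ Z) (y : Fin g → ℂ) :
    Irr Θ ((fun v => v + y) '' Z) := by
  intro A B cA cB h
  simp only [Set.image_subset_iff] at h ⊢
  exact hZ _ _ (cl_trans hA cA y) (cl_trans hA cB y) h

end Cp

open Cp in
theorem comp : CompStmt := by
  intro g N Θ Λ hA hH Y hY anti hne h0
  by_contra hcon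
  choose S hSf hS eS using fun j => decomp (hY j)
  -- a component of `Y j` through a given irreducible subset
  have comp_ex : ∀ j (W : Set (Fin g → ℂ)), Irr Θ W → 0 ∈ W → W ⊆ Y j →
      ∃ Z ∈ S j, W ⊆ Z ∧ ∀ Z' ∈ S j, Z ⊆ Z' → Z' ⊆ Z := by
    intro j W hW w0 hs
    obtain ⟨t, ht, hWt⟩ := hW.sUnion ⟨0, w0⟩ (hSf j) (fun t ht => (hS j t ht).1) (eS j ▸ hs)
    obtain ⟨Z, hZ, hmax⟩ := (hSf j).exists_le_maximal ht
    exact ⟨Z, hmax.1, hWt.trans hZ, fun Z' hZ' h => hmax.2 hZ' h⟩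
  have sub : ∀ j, ∀ Z ∈ S j, Z ⊆ Y j := fun j Z hZ => by
    rw [eS j]; exact Set.subset_sUnion_of_mem hZ
  have main : ∀ k, k ≤ g → ∃ Z, ZClosed Θ Z ∧ Irr Θ Z ∧ 0 ∈ Z ∧ Z ⊆ Y (g - k) ∧ Big Θ Z k := by
    intro k
    induction k with
    | zero =>
      intro _
      have h1 : 0 ∈ ⋃₀ S g := eS g ▸ h0
      obtain ⟨t, ht, h2⟩ := h1
      exact ⟨t, (hS g t ht).1, (hS g t ht).2, h2, sub g t ht, big_zero hA h2⟩
    | succ k ih =>
      intro hk
      obtain ⟨W, cW, iW, w0, sW, bW⟩ := ih (by omega)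
      have e : g - k = g - (k + 1) + 1 := by omega
      rw [e] at sW
      set j := g - (k + 1) with hj
      obtain ⟨Z, hZ, sZ, hmax⟩ := comp_ex j W iW w0 (sW.trans (anti (Nat.le_succ j)))
      obtain ⟨cZ, iZ⟩ := hS j Z hZ
      have z0 := sZ w0
      by_cases hZW : Z ⊆ W
      · exfalso
        apply hcon
        have hg : Good Θ (⋃ Z' ∈ S j, {y | ∀ v ∈ Z, y + v ∈ Z'}) := by
          refine good_biUnion (hSf j) fun Z' hZ' => ?_
          by_cases h : Z ⊆ Z'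
          · have e' : Z' = Z := (hmax Z' hZ' h).antisymm h
            rw [e']
            refine good_stab hA cZ z0 fun e => hne ?_
            exact Set.eq_univ_of_univ_subset
              (e ▸ (sub j Z hZ).trans (anti (Nat.zero_le j)))
          · exact good_closed (cl_into hA Z (hS j Z' hZ').1) fun h' => h fun v hv => by
              simpa using h' v hv
        obtain ⟨b, n, h1, h2, h3⟩ := hg
        refine ⟨j, by omega, Z, hZW.trans sW, b, n, h1, h2, fun y hy => h3 y ?_⟩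
        obtain ⟨t, ht, h4⟩ := (irr_trans hA iZ y).sUnion ⟨_, 0, z0, rfl⟩ (hSf j)
          (fun t ht => (hS j t ht).1) (by
            rw [← eS j]
            rintro _ ⟨v, hv, rfl⟩
            have := hy v hv
            rwa [add_comm] at this)
        simp only [Set.mem_iUnion]
        refine ⟨t, ht, fun v hv => ?_⟩
        rw [add_comm]
        exact h4 ⟨v, hv, rfl⟩
      · exact ⟨Z, cZ, iZ, z0, sub j Z hZ, big_succ hA cW w0 sZ hZW iZ bW⟩
  obtain ⟨Z, cZ, -, z0, sZ, bZ⟩ := main g le_rfl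
  rw [Nat.sub_self] at sZ
  exact not_big hH (big_succ hA cZ z0 (Set.subset_univ Z)
    (fun h => hne (Set.eq_univ_of_univ_subset (h.trans sZ))) (irr_univ hA) bZ)

end Pool.Agent.CMP
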