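import Mathlib
import Pool.Agent.MP_cbf1af_ag.cmp.Spec

/-! PROJECT CMP, row COR: multiplication by an imaginary quadratic field. -/

namespace Pool.Agent.CMP

namespace Cor

theorem exists_pairs {g : ℕ} (b : Module.Basis (Fin (2 * g)) ℝ (Fin g → ℂ))
    (φ : (Fin g → ℂ) →ₗ[ℝ] (Fin g → ℂ)) (d : ℝ) (hd : 0 < d) (hφ : ∀ x, φ (φ x) = -d • x) :
    ∀ j ≤ g, ∃ l : Fin j → Fin g → ℂ, (∀ i, l i ∈ Set.range b) ∧
      ∀ x y : Fin j → ℝ, ∑ i, x i • l i + ∑ i, y i • φ (l i) = 0 → x = 0 ∧ y = 0 := by
  intro j
  induction j with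
  | zero => exact fun _ => ⟨Fin.elim0, fun i => i.elim0, fun x y _ =>
      ⟨Subsingleton.elim _ _, Subsingleton.elim _ _⟩⟩
  | succ j ih =>
    intro hj
    obtain ⟨l, hl, hind⟩ := ih (by omega)
    let T : ((Fin j → ℝ) × (Fin j → ℝ)) →ₗ[ℝ] (Fin g → ℂ) :=
      (Fintype.linearCombination ℝ l).coprod (Fintype.linearCombination ℝ fun i => φ (l i))
    have hT : ∀ x y, T (x, y) = ∑ i, x i • l i + ∑ i, y i • φ (l i) := fun x y => by
      simp [T, Fintype.linearCombination_apply]
    have hst : ∀ v ∈ LinearMap.range T, φ v ∈ LinearMap.range T := by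
      rintro _ ⟨⟨x, y⟩, rfl⟩
      refine ⟨(fun i => -d * y i, x), ?_⟩
      rw [hT, hT, map_add, map_sum, map_sum, add_comm]
      congr 1
      · exact Finset.sum_congr rfl fun i _ => by rw [map_smul]
      · exact Finset.sum_congr rfl fun i _ => by rw [map_smul, hφ, smul_smul, mul_comm]
    have hne : ∃ k, b k ∉ LinearMap.range T := by
      by_contra hc
      push Not at hc
      have htop : LinearMap.range T = ⊤ := by
        rw [eq_top_iff, ← b.span_eq, Submodule.span_le]
        rintro _ ⟨k, rfl⟩
        exact hc k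
      have h1 := LinearMap.finrank_range_le T
      rw [htop, finrank_top, Module.finrank_eq_card_basis b] at h1
      simp at h1
      omega
    obtain ⟨k, hk⟩ := hne
    refine ⟨Fin.cons (b k) l, fun i => ?_, fun x y hxy => ?_⟩
    · refine Fin.cases ?_ (fun i => ?_) i
      · exact ⟨k, rfl⟩
      · exact hl i
    · rw [Fin.sum_univ_succ, Fin.sum_univ_succ] at hxy
      simp only [Fin.cons_zero, Fin.cons_succ] at hxy
      have h1 : x 0 • b k + y 0 • φ (b k) ∈ LinearMap.range T := by
        refine ⟨-(fun i => x i.succ, fun i => y i.succ), ?_⟩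
        rw [map_neg, hT, neg_eq_iff_add_eq_zero, ← hxy]
        abel
      have h2 := hst _ h1
      rw [map_add, map_smul, map_smul, hφ] at h2
      have h3 : (x 0 ^ 2 + d * y 0 ^ 2) • b k ∈ LinearMap.range T := by
        have := Submodule.sub_mem _ (Submodule.smul_mem _ (x 0) h1) (Submodule.smul_mem _ (y 0) h2)
        convert this using 1
        module
      have h4 : x 0 ^ 2 + d * y 0 ^ 2 = 0 := by
        by_contra hc
        exact hk ((Submodule.smul_mem_iff _ hc).1 h3)
      have hx : x 0 = 0 := by nlinarith [sq_nonneg (x 0), mul_nonneg hd.le (sq_nonneg (y 0))]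
      have hy : y 0 = 0 := by
        rw [hx] at h4
        simpa [hd.ne'] using h4
      rw [hx, hy, zero_smul, zero_smul, zero_add, zero_add] at hxy
      obtain ⟨e1, e2⟩ := hind _ _ hxy
      constructor
      · funext i
        exact Fin.cases hx (fun i => congrFun e1 i) i
      · funext i
        exact Fin.cases hy (fun i => congrFun e2 i) i

end Cor

theorem cor : MainStmt → CorStmt := by
  intro hM g N Θ Λ hA φ hφΛ d a hd hφ _ μ hμ t ht
  obtain ⟨b, hb⟩ := hA.lat
  have hμg : μ ≤ g := by
    rw [← hμ]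
    exact (Submodule.finrank_le _).trans (Module.finrank_fin_fun ℂ).le
  obtain ⟨j, hj⟩ : ∃ j, j = (g - μ) / 2 := ⟨_, rfl⟩
  obtain ⟨l, hl, hind⟩ := Cor.exists_pairs b (φ.restrictScalars ℝ) d (by exact_mod_cast hd)
    (fun x => by
      have := LinearMap.congr_fun hφ x
      simp only [LinearMap.comp_apply, LinearMap.smul_apply, LinearMap.id_apply] at this
      simp only [LinearMap.restrictScalars_apply, this]
      ext k
      simp) j (by omega)
  have hlΛ : ∀ i, l i ∈ Λ := fun i => hb ▸ AddSubgroup.subset_closure (hl i)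
  let lam : Fin (j + j) → Fin g → ℂ := Sum.elim l (fun i => φ (l i)) ∘ finSumFinEquiv.symm
  have hlam : ∀ i, lam i ∈ Λ := fun i => by
    simp only [lam, Function.comp_apply]
    rcases finSumFinEquiv.symm i with i | i
    · exact hlΛ i
    · exact hφΛ _ (hlΛ i)
  have hli : LinearIndependent ℤ lam := by
    refine LinearIndependent.comp ?_ _ finSumFinEquiv.symm.injective
    rw [Fintype.linearIndependent_iff]
    intro c hc
    rw [Fintype.sum_sum_type] at hc
    obtain ⟨e1, e2⟩ := hind (fun i => c (Sum.inl i)) (fun i => c (Sum.inr i)) (by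
      simpa only [Int.cast_smul_eq_zsmul, Sum.elim_inl, Sum.elim_inr,
        LinearMap.restrictScalars_apply] using hc)
    rintro (i | i)
    · simpa using congrFun e1 i
    · simpa using congrFun e2 i
  have key := hM g N Θ Λ hA (j + j) lam hlam hli _ rfl _ (Submodule.span_mono (by
    rintro _ ⟨i, rfl⟩
    exact ⟨Submodule.subset_span ⟨i, rfl⟩, fun k =>
      IntermediateField.subset_adjoin _ _ ⟨lam i, hlam i, k, rfl⟩⟩)) t ht
  have hr : Module.finrank ℂ (Submodule.span ℂ (Set.range lam)) ≤ j + μ := by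
    have hle : Submodule.span ℂ (Set.range lam) ≤
        Submodule.span ℂ (Set.range l) ⊔ LinearMap.range (φ - a • LinearMap.id) := by
      rw [Submodule.span_le]
      rintro _ ⟨i, rfl⟩
      simp only [lam, Function.comp_apply]
      rcases finSumFinEquiv.symm i with i | i
      · exact Submodule.mem_sup_left (Submodule.subset_span ⟨i, rfl⟩)
      · have : φ (l i) = a • l i +
            (φ - a • LinearMap.id : (Fin g → ℂ) →ₗ[ℂ] (Fin g → ℂ)) (l i) := by simp
        simp only [Sum.elim_inr]
        rw [this]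
        exact Submodule.add_mem _
          (Submodule.mem_sup_left (Submodule.smul_mem _ _ (Submodule.subset_span ⟨i, rfl⟩)))
          (Submodule.mem_sup_right ⟨_, rfl⟩)
    refine (Submodule.finrank_mono hle).trans
      ((Submodule.finrank_add_le_finrank_add_finrank _ _).trans ?_)
    rw [hμ]
    have := finrank_range_le_card (R := ℂ) l
    simp only [Set.finrank, Fintype.card_fin] at this
    omega
  set r := Module.finrank ℂ (Submodule.span ℂ (Set.range lam))
  have hrz : (r : ℤ) ≤ j + μ := by exact_mod_cast hr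
  have hj0 : (0 : ℤ) ≤ j := by positivity
  have htg : (0 : ℤ) ≤ t * g := by positivity
  have h1 : (2 * j : ℤ) * (g - j - μ) ≤ t * g * (2 * μ + 2) := by
    push_cast at key
    have a1 := mul_le_mul_of_nonneg_left hrz hj0
    have a2 := mul_le_mul_of_nonneg_left hrz htg
    nlinarith
  have h2 : (g : ℤ) - μ = 2 * j ∨ (g : ℤ) - μ = 2 * j + 1 := by omega
  rcases h2 with h2 | h2
  · have : (g : ℤ) - j - μ = j := by omega
    rw [this] at h1
    rw [h2]
    nlinarith
  · have : (g : ℤ) - j - μ = j + 1 := by omega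
    rw [this] at h1
    rw [h2]
    nlinarith

end Pool.Agent.CMP
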