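import Mathlib
import Pool.Agent.MP_cbf1af_ag.cmp.Basic

/-! PROJECT CMP, row COUNT: few elements of given degree and length. -/

namespace Pool.Agent.CMP

noncomputable section

namespace CountH

section Box

variable {B ι : Type} [CommRing B] [Fintype ι] [DecidableEq ι]

theorem prod_map_eq (ξ : ι → B) (l : List ι) : (l.map ξ).prod = ∏ i, ξ i ^ l.count i := by
  induction l with
  | nil => simp
  | cons a l ih =>
    rw [List.map_cons, List.prod_cons, ih]
    have h : ∀ i, ξ i ^ (a :: l).count i = ξ i ^ l.count i * (if a = i then ξ i else 1) := by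
      intro i
      rw [List.count_cons]
      by_cases h : a = i <;> simp [h, pow_succ]
    simp only [h, Finset.prod_mul_distrib, Finset.prod_ite_eq, Finset.mem_univ, if_true]
    ring

/-- the monomial with exponent vector in the box -/
def mono (ξ : ι → B) {n : ℕ} (α : ι → Fin (n + 1)) : B := ∏ i, ξ i ^ (α i : ℕ)

theorem mon_box (ξ : ι → B) {n : ℕ} {y : B} (h : y ∈ Mon ξ n) :
    ∃ (α : ι → Fin (n + 1)) (s : ℤ), |s| ≤ 1 ∧ y = s * mono ξ α := by
  obtain ⟨l, h1, h2⟩ := h
  have hc : ∀ i, l.count i < n + 1 := fun i =>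
    Nat.lt_succ_of_le (List.count_le_length.trans h1)
  refine ⟨fun i => ⟨l.count i, hc i⟩, ?_⟩
  rcases h2 with rfl | rfl
  · exact ⟨1, by simp, by simp [mono, prod_map_eq]⟩
  · exact ⟨-1, by simp, by simp [mono, prod_map_eq]⟩

theorem sz_box (ξ : ι → B) {n L : ℕ} {y : B} (h : Sz ξ n L y) :
    ∃ c : (ι → Fin (n + 1)) → ℤ, (∀ α, |c α| ≤ L) ∧ y = ∑ α, c α * mono ξ α := by
  obtain ⟨l, h1, h2, rfl⟩ := h
  suffices H : ∃ c : (ι → Fin (n + 1)) → ℤ, (∀ α, |c α| ≤ l.length) ∧
      l.sum = ∑ α, c α * mono ξ α by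
    obtain ⟨c, hc, he⟩ := H
    exact ⟨c, fun α => (hc α).trans (by exact_mod_cast h1), he⟩
  clear h1
  induction l with
  | nil => exact ⟨0, by simp, by simp⟩
  | cons a l ih =>
    obtain ⟨c, hc, he⟩ := ih fun y hy => h2 y (List.mem_cons_of_mem _ hy)
    obtain ⟨α, s, hs, ha⟩ := mon_box ξ (h2 a List.mem_cons_self)
    refine ⟨fun β => c β + if α = β then s else 0, fun β => ?_, ?_⟩
    · have h1 := hc β
      have h3 : |if α = β then s else 0| ≤ 1 := by split_ifs <;> simp [hs]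
      have h4 := abs_add_le (c β) (if α = β then s else 0)
      simp only [List.length_cons, Nat.cast_add, Nat.cast_one]
      linarith
    · have h5 : ∀ β, (((c β + if α = β then s else 0 : ℤ)) : B) * mono ξ β =
          c β * mono ξ β + if α = β then (s : B) * mono ξ β else 0 := by
        intro β
        split_ifs <;> simp [add_mul]
      simp only [h5, Finset.sum_add_distrib, Finset.sum_ite_eq, Finset.mem_univ, if_true,
        List.sum_cons, he, ha]
      ring

theorem exists_box (ξ : ι → B) (n L : ℕ) : ∃ T : Finset B,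
    T.card ≤ (2 * L + 1) ^ ((n + 1) ^ Fintype.card ι) ∧ ∀ y, Sz ξ n L y → y ∈ T := by
  classical
  refine ⟨(Fintype.piFinset fun _ : ι → Fin (n + 1) => Finset.Icc (-(L : ℤ)) L).image
    fun c => ∑ α, c α * mono ξ α, Finset.card_image_le.trans ?_, fun y hy => ?_⟩
  · have h : ((L : ℤ) + 1 + (L : ℤ)).toNat = 2 * L + 1 := by omega
    simp [Fintype.card_piFinset, h]
  · obtain ⟨c, hc, he⟩ := sz_box ξ hy
    refine Finset.mem_image.2 ⟨c, Fintype.mem_piFinset.2 fun α => ?_, he.symm⟩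
    exact Finset.mem_Icc.2 (abs_le.1 (hc α))

end Box

section Rep

variable {B ι : Type} [CommRing B] {p : ℕ}

/-- coordinates of bounded size in the generators `e` -/
def Rep (ξ : ι → B) (e : Fin p → B) (n L : ℕ) (y : B) : Prop :=
  ∃ c : Fin p → B, (∀ k, Sz ξ n L (c k)) ∧ y = ∑ k, c k * e k

variable {ξ : ι → B} {e : Fin p → B} {n n' L L' κ K : ℕ} {x y : B}

theorem Rep.mono (h : Rep ξ e n L y) (hn : n ≤ n') (hL : L ≤ L') : Rep ξ e n' L' y := by
  obtain ⟨c, hc, he⟩ := h
  exact ⟨c, fun k => (hc k).mono hn hL, he⟩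

theorem Rep.zero (n L : ℕ) : Rep ξ e n L 0 := ⟨0, fun _ => Sz.zero _ _ _, by simp⟩

theorem Rep.add (h : Rep ξ e n L x) (h' : Rep ξ e n L' y) : Rep ξ e n (L + L') (x + y) := by
  obtain ⟨c, hc, rfl⟩ := h
  obtain ⟨c', hc', rfl⟩ := h'
  exact ⟨fun k => c k + c' k, fun k => (hc k).add (hc' k), by
    simp [add_mul, Finset.sum_add_distrib]⟩

theorem Rep.neg (h : Rep ξ e n L x) : Rep ξ e n L (-x) := by
  obtain ⟨c, hc, rfl⟩ := h
  exact ⟨fun k => -c k, fun k => (hc k).neg, by simp⟩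

theorem Rep.mul (h : Rep ξ e n L y) (hx : ∀ j, Rep ξ e κ K (x * e j)) :
    Rep ξ e (n + κ) (p * (L * K)) (x * y) := by
  obtain ⟨c, hc, rfl⟩ := h
  choose a ha hx using hx
  refine ⟨fun k => ∑ j, c j * a j k, fun k => ?_, ?_⟩
  · simpa using Sz.sum Finset.univ (fun j => c j * a j k) fun j _ => (hc j).mul (ha j k)
  · calc x * ∑ j, c j * e j = ∑ j, c j * (x * e j) := by
          rw [Finset.mul_sum]; exact Finset.sum_congr rfl fun j _ => by ring
      _ = ∑ j, ∑ k, c j * a j k * e k := by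
          refine Finset.sum_congr rfl fun j _ => ?_
          rw [hx j, Finset.mul_sum]; exact Finset.sum_congr rfl fun k _ => by ring
      _ = _ := by
          rw [Finset.sum_comm]; exact Finset.sum_congr rfl fun k _ => by rw [Finset.sum_mul]

theorem Rep.step {D : ℕ} (hD : p * K ≤ D) (h : Rep ξ e (κ * (n + 1)) (D ^ (n + 1)) y)
    (hx : ∀ j, Rep ξ e κ K (x * e j)) : Rep ξ e (κ * (n + 1 + 1)) (D ^ (n + 1 + 1)) (x * y) := by
  refine (h.mul hx).mono (le_of_eq (by ring)) ?_
  calc p * (D ^ (n + 1) * K) = D ^ (n + 1) * (p * K) := by ring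
    _ ≤ D ^ (n + 1) * D := Nat.mul_le_mul_left _ hD
    _ = _ := by ring

theorem rep_mon {m : Type} {θ : m → B} {d : B} {D : ℕ} (hD : p * K ≤ D) (hK : K ≤ D)
    (h1 : Rep ξ e κ K 1) (hd : ∀ j, Rep ξ e κ K (d * e j))
    (hθ : ∀ i j, Rep ξ e κ K (d * θ i * e j)) (hy : y ∈ Mon θ n) :
    Rep ξ e (κ * (n + 1)) (D ^ (n + 1)) (d ^ n * y) := by
  have key : ∀ l : List m, Rep ξ e (κ * (l.length + 1)) (D ^ (l.length + 1))
      (d ^ l.length * (l.map θ).prod) := by
    intro l
    induction l with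
    | nil => simpa using h1.mono le_rfl hK
    | cons a l ih =>
      have h := ih.step hD (hθ a)
      have he : d * θ a * (d ^ l.length * (l.map θ).prod) =
          d ^ (a :: l).length * ((a :: l).map θ).prod := by
        simp only [List.length_cons, List.map_cons, List.prod_cons]; ring
      rw [he] at h
      exact h
  have pad : ∀ (k r : ℕ) (z : B), Rep ξ e (κ * (k + 1)) (D ^ (k + 1)) (d ^ k * z) →
      Rep ξ e (κ * (k + r + 1)) (D ^ (k + r + 1)) (d ^ (k + r) * z) := by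
    intro k r z hz
    induction r with
    | zero => exact hz
    | succ r ih =>
      have h := ih.step hD hd
      have he : d * (d ^ (k + r) * z) = d ^ (k + (r + 1)) * z := by ring
      rw [he] at h
      exact h
  obtain ⟨l, hl, h2⟩ := hy
  obtain ⟨r, rfl⟩ := Nat.exists_eq_add_of_le hl
  rcases h2 with rfl | rfl
  · exact pad _ r _ (key l)
  · rw [mul_neg]; exact (pad _ r _ (key l)).neg

theorem rep_sz {m : Type} {θ : m → B} {d : B} {D : ℕ} (hD : p * K ≤ D) (hK : K ≤ D)
    (h1 : Rep ξ e κ K 1) (hd : ∀ j, Rep ξ e κ K (d * e j))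
    (hθ : ∀ i j, Rep ξ e κ K (d * θ i * e j)) (hy : Sz θ n L y) :
    Rep ξ e (κ * (n + 1)) (D ^ (n + 1) * L) (d ^ n * y) := by
  obtain ⟨l, hl, h2, rfl⟩ := hy
  refine Rep.mono (L := D ^ (n + 1) * l.length) ?_ le_rfl (Nat.mul_le_mul_left _ hl)
  clear hl
  induction l with
  | nil => simpa using Rep.zero _ _
  | cons a l ih =>
    have h := (rep_mon hD hK h1 hd hθ (h2 a List.mem_cons_self)).add
      (ih fun y hy => h2 y (List.mem_cons_of_mem _ hy))
    rw [List.sum_cons, mul_add (d ^ n)]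
    exact Rep.mono h le_rfl (le_of_eq (by rw [List.length_cons]; ring))

theorem exists_rep [Fintype ι] [DecidableEq ι] (ξ : ι → B) (e : Fin p → B) (n L : ℕ) :
    ∃ U : Finset B, U.card ≤ (2 * L + 1) ^ (p * (n + 1) ^ Fintype.card ι) ∧
      ∀ y, Rep ξ e n L y → y ∈ U := by
  classical
  obtain ⟨T, hT, hmem⟩ := exists_box ξ n L
  refine ⟨(Fintype.piFinset fun _ : Fin p => T).image fun c => ∑ k, c k * e k,
    Finset.card_image_le.trans ?_, ?_⟩
  · rw [Fintype.card_piFinset, Finset.prod_const, Finset.card_univ, Fintype.card_fin, mul_comm p,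
      pow_mul]
    exact Nat.pow_le_pow_left hT p
  · rintro y ⟨c, hc, rfl⟩
    exact Finset.mem_image.2 ⟨c, Fintype.mem_piFinset.2 fun k => hmem _ (hc k), rfl⟩

end Rep

theorem count_field {F ι m : Type} [Field F] [Fintype ι] [DecidableEq ι] [Fintype m] (ξ : ι → F)
    (θ : m → F) [Algebra.IsAlgebraic (Algebra.adjoin ℤ (Set.range ξ)) F] {t : ℕ}
    (ht : Fintype.card ι ≤ t) : ∃ C : ℕ, ∀ n L : ℕ, ∃ S : Finset F,
      S.card ≤ (2 * C ^ (n + 1) * L + 1) ^ (C * (n + 1) ^ t) ∧ ∀ x, Sz θ n L x → x ∈ S := by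
  classical
  set A := Algebra.adjoin ℤ (Set.range ξ) with hA
  obtain ⟨d, hd0, hd⟩ := Algebra.IsAlgebraic.exists_integral_multiples A
    (Finset.univ.image θ)
  have hfg := fg_adjoin_of_finite (R := A) (s := Set.range fun i => (d : F) * θ i)
    (Set.finite_range _) (by
      rintro _ ⟨i, rfl⟩
      exact hd (θ i) (Finset.mem_image_of_mem _ (Finset.mem_univ i)))
  obtain ⟨p, e, he⟩ := Submodule.fg_iff_exists_fin_generating_family.1 hfg
  set M := Algebra.adjoin A (Set.range fun i => (d : F) * θ i) with hM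
  have hco : ∀ y ∈ M, ∃ c : Fin p → A, y = ∑ k, (c k : F) * e k := by
    intro y hy
    have h : y ∈ Submodule.span A (Set.range e) := by rw [he]; exact hy
    obtain ⟨c, hc⟩ := (Submodule.mem_span_range_iff_exists_fun A).1 h
    exact ⟨c, hc.symm⟩
  have heM : ∀ j, e j ∈ M := fun j => by
    have h : e j ∈ Submodule.span A (Set.range e) := Submodule.subset_span ⟨j, rfl⟩
    rw [he] at h; exact h
  let g : Option (Option m × Fin p) → F := fun o =>
    match o with
    | none => 1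
    | some (none, j) => d * e j
    | some (some i, j) => d * θ i * e j
  have hg : ∀ o, g o ∈ M := by
    rintro (_ | ⟨_ | i, j⟩)
    · exact M.one_mem
    · exact M.mul_mem (M.algebraMap_mem d) (heM j)
    · exact M.mul_mem (Algebra.subset_adjoin ⟨i, rfl⟩) (heM j)
  choose a ha using fun o => hco _ (hg o)
  obtain ⟨κ, K, hK, hsz⟩ := exists_sz_family (θ := ξ)
    (fun q : Option (Option m × Fin p) × Fin p => (a q.1 q.2 : F)) fun q => by
      have h := (a q.1 q.2).2
      have h2 : (A : Set F) = Subring.closure (Set.range ξ) := by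
        rw [hA, Algebra.adjoin_int]; rfl
      have h3 : ((a q.1 q.2 : A) : F) ∈ (A : Set F) := h
      rw [h2] at h3
      exact h3
  have hrep : ∀ o, Rep ξ e κ K (g o) := fun o => ⟨fun k => a o k, fun k => hsz (o, k), ha o⟩
  refine ⟨(p + 1) * K + p * (κ + 1) ^ t, fun n L => ?_⟩
  set D := (p + 1) * K + p * (κ + 1) ^ t with hD
  obtain ⟨U, hU, hmem⟩ := exists_rep ξ e (κ * (n + 1)) (D ^ (n + 1) * L)
  have hdF : (d : F) ≠ 0 := fun h => hd0 (Subtype.ext h)
  refine ⟨U.image fun y => y / (d : F) ^ n, Finset.card_image_le.trans (hU.trans ?_),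
    fun x hx => ?_⟩
  · rw [← mul_assoc]
    refine Nat.pow_le_pow_right (by omega) ?_
    calc p * (κ * (n + 1) + 1) ^ Fintype.card ι ≤ p * ((κ + 1) * (n + 1)) ^ t := by
          refine Nat.mul_le_mul_left _ ((Nat.pow_le_pow_left ?_ _).trans
            (Nat.pow_le_pow_right (by positivity) ht))
          nlinarith
      _ = p * (κ + 1) ^ t * (n + 1) ^ t := by rw [mul_pow, mul_assoc]
      _ ≤ D * (n + 1) ^ t := Nat.mul_le_mul_right _ (by omega)
  · have h := rep_sz (D := D) (by rw [hD]; nlinarith [Nat.zero_le (p * (κ + 1) ^ t)])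
      (by rw [hD]; nlinarith [Nat.zero_le (p * (κ + 1) ^ t), Nat.zero_le (p * K)])
      (hrep none) (fun j => hrep (some (none, j))) (fun i j => hrep (some (some i, j))) hx
    refine Finset.mem_image.2 ⟨_, hmem _ h, ?_⟩
    field_simp

theorem sz_lift {B B' ι : Type} [CommRing B] [CommRing B'] (f : B →+* B') (θ : ι → B) {n L : ℕ}
    {x : B'} (h : Sz (fun i => f (θ i)) n L x) : ∃ y, Sz θ n L y ∧ f y = x := by
  obtain ⟨l, hl, h2, rfl⟩ := h
  suffices H : ∃ y, Sz θ n l.length y ∧ f y = l.sum by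
    obtain ⟨y, hy, he⟩ := H
    exact ⟨y, hy.mono le_rfl hl, he⟩
  clear hl
  induction l with
  | nil => exact ⟨0, Sz.zero _ _ _, by simp⟩
  | cons a l ih =>
    obtain ⟨y, hy, he⟩ := ih fun y hy => h2 y (List.mem_cons_of_mem _ hy)
    obtain ⟨w, hw, h3⟩ := h2 a List.mem_cons_self
    have h4 : f (w.map θ).prod = (w.map fun i => f (θ i)).prod := by
      rw [map_list_prod, List.map_map]; rfl
    have h5 : ∃ b ∈ Mon θ n, f b = a := by
      rcases h3 with rfl | rfl
      · exact ⟨_, ⟨w, hw, Or.inl rfl⟩, h4⟩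
      · exact ⟨_, ⟨w, hw, Or.inr rfl⟩, by rw [map_neg, h4]⟩
    obtain ⟨b, hb, hfb⟩ := h5
    refine ⟨b + y, (Sz.add (Len.single hb) hy).mono le_rfl (by simp [add_comm]), ?_⟩
    rw [map_add, hfb, he, List.sum_cons]

end CountH

theorem count : CountStmt := by
  classical
  intro m t θ ht
  set F := IntermediateField.adjoin ℚ (Set.range θ) with hF
  obtain ⟨s, hs⟩ := exists_isTranscendenceBasis ℤ F
  have h0 : Algebra.trdeg ℤ ℚ = 0 := by
    have := IsLocalization.isAlgebraic ℚ (nonZeroDivisors ℤ)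
    exact trdeg_eq_zero
  have h1 : Cardinal.mk s ≤ t := by
    rw [hs.cardinalMk_eq_trdeg, ← trdeg_add_eq ℤ ℚ (A := F), h0, zero_add]
    exact ht
  have hfin : Finite s := Cardinal.lt_aleph0_iff_finite.1 (h1.trans_lt (Cardinal.natCast_lt_aleph0))
  have := Fintype.ofFinite s
  have h2 : Fintype.card s ≤ t := by
    rw [Cardinal.mk_fintype] at h1
    exact_mod_cast h1
  have := hs.isAlgebraic
  obtain ⟨C, hC⟩ := CountH.count_field (Subtype.val : s → F)
    (fun i => (⟨θ i, IntermediateField.subset_adjoin _ _ ⟨i, rfl⟩⟩ : F)) h2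
  refine ⟨C, fun n L => ?_⟩
  obtain ⟨S, hS, hmem⟩ := hC n L
  refine ⟨S.image (algebraMap F ℂ), Finset.card_image_le.trans hS, fun x hx => ?_⟩
  obtain ⟨y, hy, rfl⟩ := CountH.sz_lift (algebraMap F ℂ)
    (fun i => (⟨θ i, IntermediateField.subset_adjoin _ _ ⟨i, rfl⟩⟩ : F)) (n := n) (L := L) hx
  exact Finset.mem_image_of_mem _ (hmem y hy)

end

end Pool.Agent.CMP
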