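import Mathlib
import Pool.Agent.MP_cbf1af_ag.cmp.Basic

/-! PROJECT CMP, row DER: the affine coordinates are part of a differential system. -/

namespace Pool.Agent.CMP

open MvPolynomial Filter Topology

noncomputable section

namespace DerAux

/-- value of a polynomial in two groups of variables -/
def bi {σ : Type} (A : MvPolynomial σ (MvPolynomial σ Qb)) (x y : σ → ℂ) : ℂ :=
  eval x (map (aeval y : MvPolynomial σ Qb →ₐ[Qb] ℂ).toRingHom A)

theorem aeval_smul {σ : Type} {p : MvPolynomial σ Qb} {c : ℕ} (hp : p.IsHomogeneous c) (b : ℂ)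
    (y : σ → ℂ) : aeval (fun i => b * y i) p = b ^ c * aeval y p := by
  rw [aeval_def, aeval_def, ← eval_map, ← eval_map]
  exact eval_smul_homog (hp.map _) b y

theorem bi_smul {σ : Type} {A : MvPolynomial σ (MvPolynomial σ Qb)} {c : ℕ}
    (h1 : A.IsHomogeneous c) (h2 : ∀ m, (A.coeff m).IsHomogeneous c) (a b : ℂ) (x y : σ → ℂ) :
    bi A (fun i => a * x i) (fun i => b * y i) = a ^ c * b ^ c * bi A x y := by
  unfold bi
  rw [eval_smul_homog (h1.map _)]
  have : map (aeval (fun i => b * y i) : MvPolynomial σ Qb →ₐ[Qb] ℂ).toRingHom A =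
      C (b ^ c) * map (aeval y : MvPolynomial σ Qb →ₐ[Qb] ℂ).toRingHom A := by
    ext m
    rw [coeff_C_mul, coeff_map, coeff_map]
    exact aeval_smul (h2 m) b y
  rw [this, map_mul, eval_C, mul_assoc]

variable {g : ℕ} {σ : Type}

/-- value and first derivatives at `w = 0` are polynomials in `x` over `Qb` -/
def Pv (F : (σ → ℂ) → (Fin g → ℂ) → ℂ) : Prop :=
  ∃ (B : MvPolynomial σ Qb) (B' : Fin g → MvPolynomial σ Qb), ∀ x,
    DifferentiableAt ℂ (F x) 0 ∧ F x 0 = aeval x B ∧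
      ∀ k, fderiv ℂ (F x) 0 (Pi.single k 1) = aeval x (B' k)

theorem Pv.add {F G : (σ → ℂ) → (Fin g → ℂ) → ℂ} (hF : Pv F) (hG : Pv G) :
    Pv fun x w => F x w + G x w := by
  obtain ⟨B, B', h⟩ := hF
  obtain ⟨D, D', h'⟩ := hG
  refine ⟨B + D, fun k => B' k + D' k, fun x => ⟨(h x).1.add (h' x).1, ?_, fun k => ?_⟩⟩
  · simp only [map_add, (h x).2.1, (h' x).2.1]
  · rw [fderiv_fun_add (h x).1 (h' x).1]
    simp only [map_add, add_apply, (h x).2.2 k, (h' x).2.2 k]

theorem Pv.mul {F G : (σ → ℂ) → (Fin g → ℂ) → ℂ} (hF : Pv F) (hG : Pv G) :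
    Pv fun x w => F x w * G x w := by
  obtain ⟨B, B', h⟩ := hF
  obtain ⟨D, D', h'⟩ := hG
  refine ⟨B * D, fun k => B * D' k + D * B' k, fun x => ⟨(h x).1.mul (h' x).1, ?_, fun k => ?_⟩⟩
  · simp only [map_mul, (h x).2.1, (h' x).2.1]
  · rw [fderiv_fun_mul (h x).1 (h' x).1]
    simp only [map_add, map_mul, add_apply, smul_apply,
      smul_eq_mul, (h x).2.2 k, (h' x).2.2 k, (h x).2.1, (h' x).2.1]

theorem Pv.const (B : MvPolynomial σ Qb) : Pv (g := g) fun x _ => aeval x B :=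
  ⟨B, fun _ => 0, fun x => ⟨differentiableAt_const _, rfl, fun k => by simp⟩⟩

theorem Pv.of_alg {φ : (Fin g → ℂ) → ℂ} (h0 : DifferentiableAt ℂ φ 0) (h1 : IsAlgebraic ℚ (φ 0))
    (h2 : ∀ k, IsAlgebraic ℚ (fderiv ℂ φ 0 (Pi.single k 1))) : Pv (σ := σ) fun _ w => φ w :=
  ⟨C ⟨φ 0, (mem_algebraicClosure_iff).2 h1⟩,
    fun k => C ⟨_, (mem_algebraicClosure_iff).2 (h2 k)⟩,
    fun x => ⟨h0, by rw [aeval_C]; rfl, fun k => by rw [aeval_C]; rfl⟩⟩

theorem pv_aeval {f : (Fin g → ℂ) → σ → ℂ} (hf : ∀ j, Pv (σ := σ) fun _ w => f w j)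
    (c : MvPolynomial σ Qb) : Pv (σ := σ) fun _ w => aeval (f w) c := by
  induction c using MvPolynomial.induction_on with
  | C a => simpa using Pv.const (g := g) (σ := σ) (C a)
  | add p q hp hq => simpa only [map_add] using hp.add hq
  | mul_X p j hp => simpa only [map_mul, aeval_X] using hp.mul (hf j)

theorem pv_bi {f : (Fin g → ℂ) → σ → ℂ} (hf : ∀ j, Pv (σ := σ) fun _ w => f w j)
    (A : MvPolynomial σ (MvPolynomial σ Qb)) : Pv fun x w => bi A x (f w) := by
  induction A using MvPolynomial.induction_on with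
  | C a =>
    simp only [bi, map_C, eval_C]
    exact pv_aeval hf a
  | add p q hp hq => simpa only [bi, map_add] using hp.add hq
  | mul_X p j hp =>
    simpa only [bi, map_mul, map_X, eval_X, aeval_X] using hp.mul (Pv.const (g := g) (X j))

theorem alg_aeval {x : σ → ℂ} (hx : ∀ j, IsAlgebraic ℚ (x j)) (B : MvPolynomial σ Qb) :
    IsAlgebraic ℚ (aeval x B) := by
  induction B using MvPolynomial.induction_on with
  | C a => rw [aeval_C]; exact (mem_algebraicClosure_iff).1 a.2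
  | add p q hp hq => rw [map_add]; exact hp.add hq
  | mul_X p j hp => rw [map_mul, aeval_X]; exact hp.mul (hx j)

theorem an_aeval {f : (Fin g → ℂ) → σ → ℂ} {z : Fin g → ℂ}
    (hf : ∀ j, AnalyticAt ℂ (fun z => f z j) z) (B : MvPolynomial σ Qb) :
    AnalyticAt ℂ (fun z => aeval (f z) B) z := by
  simpa only [aeval_def, ← eval_map] using analyticAt_eval hf (map (algebraMap Qb ℂ) B)

theorem chain {τ : Type} {f : (Fin g → ℂ) → σ → ℂ} {h : (Fin g → ℂ) → τ → ℂ} (e : σ → τ)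
    (he : ∀ z j, h z (e j) = f z j) (v : Fin g → ℂ) (G : σ → MvPolynomial τ Qb)
    (B : MvPolynomial σ Qb) : ∃ D : MvPolynomial τ Qb, ∀ z,
      (∀ j, AnalyticAt ℂ (fun z => f z j) z) →
      (∀ j, fderiv ℂ (fun z => f z j) z v = aeval (h z) (G j)) →
      fderiv ℂ (fun z => aeval (f z) B) z v = aeval (h z) D := by
  induction B using MvPolynomial.induction_on with
  | C a => exact ⟨0, fun z _ _ => by simp⟩
  | add p q hp hq =>
    obtain ⟨D, hD⟩ := hp
    obtain ⟨E, hE⟩ := hq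
    refine ⟨D + E, fun z h1 h2 => ?_⟩
    simp only [map_add]
    rw [fderiv_fun_add (an_aeval h1 p).differentiableAt (an_aeval h1 q).differentiableAt,
      add_apply, hD z h1 h2, hE z h1 h2]
  | mul_X p j hp =>
    obtain ⟨D, hD⟩ := hp
    refine ⟨rename e p * G j + X (e j) * D, fun z h1 h2 => ?_⟩
    have e1 : h z ∘ e = f z := funext (he z)
    simp only [map_add, map_mul, aeval_X, aeval_rename, e1, he]
    rw [fderiv_fun_mul (an_aeval h1 p).differentiableAt (h1 j).differentiableAt]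
    simp only [add_apply, smul_apply, smul_eq_mul,
      hD z h1 h2, h2 j]

end DerAux

open DerAux in
theorem der : DerStmt := by
  intro g N Θ Λ hA
  obtain ⟨c, hc⟩ := hA.add
  obtain ⟨A, u, hh, hu, hlaw⟩ := hc 0 0
  have hfn : ∀ z, Θ 0 z ≠ 0 → (fun i => Θ i z) = fun i => Θ 0 z * fn Θ z i := fun z hz => by
    funext i; unfold fn; field_simp
  have hbi : ∀ z w i, Θ 0 z ≠ 0 → Θ 0 w ≠ 0 →
      Θ 0 z ^ c * Θ 0 w ^ c * bi (A i) (fn Θ z) (fn Θ w) = u z w * Θ i (z + w) :=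
    fun z w i hz hw => by
      rw [← bi_smul (hh i).1 (hh i).2, ← hfn z hz, ← hfn w hw]
      exact hlaw z w i
  have hrel : ∀ z w i, Θ 0 z ≠ 0 → Θ 0 w ≠ 0 → Θ 0 (z + w) ≠ 0 →
      bi (A i) (fn Θ z) (fn Θ w) = bi (A 0) (fn Θ z) (fn Θ w) * fn Θ (z + w) i :=
    fun z w i hz hw hzw => by
      have h1 := hbi z w i hz hw
      have h2 := hbi z w 0 hz hw
      have h3 : Θ 0 z ^ c * Θ 0 w ^ c ≠ 0 := mul_ne_zero (pow_ne_zero _ hz) (pow_ne_zero _ hw)
      refine mul_left_cancel₀ h3 ?_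
      rw [h1, ← mul_assoc, h2]
      unfold fn
      field_simp
  have hf : ∀ j, Pv (σ := Fin (N + 1)) fun _ w => fn Θ w j := fun j =>
    Pv.of_alg (hA.analyticAt_fn hA.ne0 j).differentiableAt (hA.rat0 j) (hA.rat1 j)
  choose B B' hB using fun i => pv_bi hf (A i)
  set a0 : (Fin g → ℂ) → ℂ := fun z => aeval (fn Θ z) (B 0) with ha0
  have ha00 : a0 0 ≠ 0 := by
    intro h0
    have h1 := hbi 0 0 0 hA.ne0 hA.ne0
    have h2 := (hB 0 (fn Θ 0)).2.1
    simp only at h2
    rw [h2, add_zero] at h1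
    simp only [ha0] at h0
    rw [h0, mul_zero] at h1
    exact mul_ne_zero hu hA.ne0 h1.symm
  have han : AnalyticAt ℂ a0 0 := an_aeval (hA.analyticAt_fn hA.ne0) _
  have hev : ∀ᶠ z in 𝓝 (0 : Fin g → ℂ), Θ 0 z ≠ 0 ∧ a0 z ≠ 0 :=
    hA.eventually_ne.and (han.continuousAt.eventually_ne ha00)
  let h : (Fin g → ℂ) → Fin (N + 2) → ℂ := fun z => Fin.cons (a0 z)⁻¹ (fn Θ z)
  have he : ∀ z j, h z (Fin.succ j) = fn Θ z j := fun z j => rfl
  have he' : ∀ z, h z ∘ Fin.succ = fn Θ z := fun z => funext (he z)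
  let G : Fin g → Fin (N + 1) → MvPolynomial (Fin (N + 2)) Qb := fun k i =>
    (rename Fin.succ (B' i k) - X (Fin.succ i) * rename Fin.succ (B' 0 k)) * X 0
  have hG : ∀ z, Θ 0 z ≠ 0 → a0 z ≠ 0 → ∀ k i,
      fderiv ℂ (fun z => fn Θ z i) z (Pi.single k 1) = aeval (h z) (G k i) := by
    intro z hz haz k i
    have hd : DifferentiableAt ℂ (fun z => fn Θ z i) (z + 0) := by
      rw [add_zero]; exact (hA.analyticAt_fn hz i).differentiableAt
    have hd' : DifferentiableAt ℂ (fun w => fn Θ (z + w) i) 0 :=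
      hd.comp (f := fun w => z + w) 0 (differentiableAt_id.const_add z)
    have hfd : fderiv ℂ (fun w => fn Θ (z + w) i) 0 = fderiv ℂ (fun z => fn Θ z i) z := by
      simpa using fderiv_comp_add_left (𝕜 := ℂ) (f := fun z => fn Θ z i) (x := 0) z
    have hc0 : ∀ᶠ w in 𝓝 (0 : Fin g → ℂ), Θ 0 (z + w) ≠ 0 := by
      have : ContinuousAt (fun w => Θ 0 (z + w)) 0 :=
        ContinuousAt.comp (f := fun w => z + w) (hA.hol 0 _).continuousAt (by fun_prop)
      exact this.eventually_ne (by simpa using hz)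
    have heq : (fun w => bi (A i) (fn Θ z) (fn Θ w)) =ᶠ[𝓝 0]
        fun w => bi (A 0) (fn Θ z) (fn Θ w) * fn Θ (z + w) i := by
      filter_upwards [hA.eventually_ne, hc0] with w h1 h2 using hrel z w i hz h1 h2
    have h1 := (hB i (fn Θ z)).2.2 k
    have h2 := (hB 0 (fn Θ z)).2.2 k
    have h3 := (hB 0 (fn Θ z)).2.1
    simp only at h1 h2 h3
    rw [heq.fderiv_eq, fderiv_fun_mul (hB 0 (fn Θ z)).1 hd', hfd] at h1
    simp only [add_apply, smul_apply, smul_eq_mul,
      h2, h3, add_zero] at h1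
    have h4 : h z 0 = (a0 z)⁻¹ := rfl
    simp only [G, map_mul, map_sub, aeval_rename, aeval_X, he', he, h4]
    rw [← h1, eq_mul_inv_iff_mul_eq₀ haz]
    simp only [ha0]
    ring
  choose D hD using fun k => chain (f := fn Θ) (h := h) Fin.succ he (Pi.single k 1) (G k) (B 0)
  refine ⟨N + 2, h, Fin.succ, ⟨fun i => ?_, fun i => ?_,
    fun i k => Fin.cases (-(X 0 * X 0 * D k)) (G k) i, fun i k => ?_⟩, he⟩
  · refine Fin.cases ?_ (fun j => ?_) i
    · exact han.inv ha00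
    · exact hA.analyticAt_fn hA.ne0 j
  · refine Fin.cases ?_ (fun j => ?_) i
    · exact (alg_aeval hA.rat0 (B 0)).inv
    · exact hA.rat0 j
  · refine Fin.cases ?_ (fun j => ?_) i
    · filter_upwards [hev] with z hz
      have h1 := hD k z (hA.analyticAt_fn hz.1) (hG z hz.1 hz.2 k)
      have h2 : DifferentiableAt ℂ a0 z := (an_aeval (hA.analyticAt_fn hz.1) _).differentiableAt
      have h3 := ((hasDerivAt_inv hz.2).comp_hasFDerivAt z h2.hasFDerivAt).fderiv
      have h4 : h z 0 = (a0 z)⁻¹ := rfl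
      have h5 : (fun z => h z 0) = (fun y => y⁻¹) ∘ a0 := rfl
      rw [h5, h3]
      simp only [Fin.cases_zero, map_neg, map_mul, aeval_X, h4, smul_apply,
        smul_eq_mul, ← h1]
      rw [sq, mul_inv]
      simp only [ha0]
      ring
    · filter_upwards [hev] with z hz
      exact hG z hz.1 hz.2 k j

end

end Pool.Agent.CMP
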