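import Mathlib
import Pool.Agent.MP_cbf1af_ag.cmp.Spec

/-! PROJECT CMP, row HILB: upper bound for the affine Hilbert function. -/

namespace Pool.Agent.CMP

open MvPolynomial Filter Topology

noncomputable section

namespace HilbAux

variable {g N : ℕ} {Θ : Fin (N + 1) → (Fin g → ℂ) → ℂ} {u : (Fin g → ℂ) → ℝ}

/-- entire, of weight `n`, with bounded weighted norm -/
def Gd (Θ : Fin (N + 1) → (Fin g → ℂ) → ℂ) (u : (Fin g → ℂ) → ℝ) (n : ℕ)
    (F : (Fin g → ℂ) → ℂ) : Prop :=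
  (∀ z, AnalyticAt ℂ F z) ∧
    (∀ z z' a, (∀ i, Θ i z' = a * Θ i z) → F z' = a ^ n * F z) ∧
    ∃ B : ℝ, ∀ z, ‖F z‖ * Real.exp (-(n * u z)) ≤ B

theorem Gd.const (n : ℕ) : Gd Θ u n (fun _ => 0) :=
  ⟨fun _ => analyticAt_const, fun _ _ _ _ => by simp, 0, fun z => by simp⟩

theorem Gd.one : Gd Θ u 0 (fun _ => 1) :=
  ⟨fun _ => analyticAt_const, fun _ _ _ _ => by simp, 1, fun z => by simp⟩

theorem Gd.add {n : ℕ} {F G : (Fin g → ℂ) → ℂ} (hF : Gd Θ u n F) (hG : Gd Θ u n G) :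
    Gd Θ u n (fun z => F z + G z) := by
  obtain ⟨a1, a2, B, a3⟩ := hF
  obtain ⟨b1, b2, B', b3⟩ := hG
  refine ⟨fun z => (a1 z).add (b1 z), fun z z' a h => ?_, B + B', fun z => ?_⟩
  · simp only [a2 z z' a h, b2 z z' a h]; ring
  · have h1 := mul_le_mul_of_nonneg_right (norm_add_le (F z) (G z))
      (Real.exp_pos (-(n * u z))).le
    have h2 := a3 z
    have h3 := b3 z
    simp only
    nlinarith

theorem Gd.smul {n : ℕ} {F : (Fin g → ℂ) → ℂ} (hF : Gd Θ u n F) (c : ℂ) :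
    Gd Θ u n (fun z => c * F z) := by
  obtain ⟨a1, a2, B, a3⟩ := hF
  refine ⟨fun z => analyticAt_const.mul (a1 z), fun z z' a h => ?_, ‖c‖ * B, fun z => ?_⟩
  · simp only [a2 z z' a h]; ring
  · simp only [norm_mul, mul_assoc]
    exact mul_le_mul_of_nonneg_left (a3 z) (norm_nonneg _)

theorem Gd.sum {n : ℕ} {ι : Type} (s : Finset ι) {F : ι → (Fin g → ℂ) → ℂ}
    (h : ∀ i ∈ s, Gd Θ u n (F i)) : Gd Θ u n (fun z => ∑ i ∈ s, F i z) := by
  classical
  induction s using Finset.induction_on with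
  | empty => simpa using Gd.const n
  | insert i s hi ih =>
    simp only [Finset.sum_insert hi]
    exact (h i (Finset.mem_insert_self _ _)).add
      (ih fun j hj => h j (Finset.mem_insert_of_mem hj))

theorem Gd.mul {m n : ℕ} {F G : (Fin g → ℂ) → ℂ} (hF : Gd Θ u m F) (hG : Gd Θ u n G) :
    Gd Θ u (m + n) (fun z => F z * G z) := by
  obtain ⟨a1, a2, B, a3⟩ := hF
  obtain ⟨b1, b2, B', b3⟩ := hG
  refine ⟨fun z => (a1 z).mul (b1 z), fun z z' a h => ?_, B * B', fun z => ?_⟩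
  · simp only [a2 z z' a h, b2 z z' a h]; ring
  · have e : Real.exp (-(((m + n : ℕ) : ℝ) * u z)) =
        Real.exp (-(m * u z)) * Real.exp (-(n * u z)) := by
      rw [← Real.exp_add]; congr 1; push_cast; ring
    have h0 : 0 ≤ ‖G z‖ * Real.exp (-(n * u z)) := by positivity
    have h1 : 0 ≤ B := le_trans (by positivity) (a3 z)
    calc ‖F z * G z‖ * Real.exp (-(((m + n : ℕ) : ℝ) * u z))
        = (‖F z‖ * Real.exp (-(m * u z))) * (‖G z‖ * Real.exp (-(n * u z))) := by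
          rw [e, norm_mul]; ring
      _ ≤ B * B' := mul_le_mul (a3 z) (b3 z) h0 h1

theorem Gd.pow {F : (Fin g → ℂ) → ℂ} (hF : Gd Θ u 1 F) (k : ℕ) :
    Gd Θ u k (fun z => F z ^ k) := by
  induction k with
  | zero => simpa using Gd.one
  | succ k ih => simpa only [pow_succ] using ih.mul hF

theorem Gd.prod {ι : Type} (s : Finset ι) {F : ι → (Fin g → ℂ) → ℂ} {m : ι → ℕ}
    (h : ∀ i ∈ s, Gd Θ u (m i) (F i)) :
    Gd Θ u (∑ i ∈ s, m i) (fun z => ∏ i ∈ s, F i z) := by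
  classical
  induction s using Finset.induction_on with
  | empty => simpa using Gd.one
  | insert i s hi ih =>
    simp only [Finset.sum_insert hi, Finset.prod_insert hi]
    exact (h i (Finset.mem_insert_self _ _)).mul
      (ih fun j hj => h j (Finset.mem_insert_of_mem hj))

/-- the homogenisation of degree `n`, evaluated -/
def hom (n : ℕ) (P : MvPolynomial (Fin (N + 1)) ℂ) (x : Fin (N + 1) → ℂ) : ℂ :=
  ∑ m ∈ P.support, P.coeff m * (x 0 ^ (n - ∑ i, m i) * ∏ i, x i ^ m i)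

theorem deg_le {n : ℕ} {P : MvPolynomial (Fin (N + 1)) ℂ} (hP : P.totalDegree ≤ n)
    {m : Fin (N + 1) →₀ ℕ} (hm : m ∈ P.support) : ∑ i, m i ≤ n := by
  have := (le_totalDegree hm).trans hP
  rwa [Finsupp.sum_fintype _ _ (fun _ => rfl)] at this

theorem hom_gd (hT : ∀ i, Gd Θ u 1 (Θ i)) {n : ℕ} {P : MvPolynomial (Fin (N + 1)) ℂ}
    (hP : P.totalDegree ≤ n) : Gd Θ u n (fun z => hom n P fun i => Θ i z) := by
  refine Gd.sum _ fun m hm => Gd.smul ?_ _
  have h := ((hT 0).pow (n - ∑ i, m i)).mul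
    (Gd.prod Finset.univ (m := fun i => m i) fun i _ => (hT i).pow (m i))
  rwa [Nat.sub_add_cancel (deg_le hP hm)] at h

theorem hom_eq {n : ℕ} {P : MvPolynomial (Fin (N + 1)) ℂ} (hP : P.totalDegree ≤ n)
    (x : Fin (N + 1) → ℂ) (hx : x 0 ≠ 0) :
    hom n P x = x 0 ^ n * eval (fun i => x i / x 0) P := by
  rw [eval_eq', Finset.mul_sum]
  refine Finset.sum_congr rfl fun m hm => ?_
  have h := deg_le hP hm
  have e : x 0 ^ n = x 0 ^ (n - ∑ i, m i) * ∏ i, x 0 ^ m i := by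
    rw [Finset.prod_pow_eq_pow_sum, ← pow_add, Nat.sub_add_cancel h]
  have e2 : ∏ i, x i ^ m i = (∏ i, x 0 ^ m i) * ∏ i, (x i / x 0) ^ m i := by
    rw [← Finset.prod_mul_distrib]
    refine Finset.prod_congr rfl fun i _ => ?_
    rw [← mul_pow, mul_div_cancel₀ _ hx]
  rw [e, e2]; ring

theorem span_top (b : Module.Basis (Fin (2 * g)) ℝ (Fin g → ℂ)) :
    Submodule.span ℂ (Set.range b) = ⊤ := by
  refine top_unique fun x _ => ?_
  have hx : x ∈ Submodule.span ℝ (Set.range b) := by rw [b.span_eq]; trivial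
  exact Submodule.span_subset_span ℝ ℂ _ hx

theorem small (C : ℕ) : (C : ℝ) * Real.exp (-((C + 1 : ℕ) : ℝ) ^ 2) ≤ 1 / 2 := by
  have h0 : (0 : ℝ) ≤ C := Nat.cast_nonneg C
  have h1 : 2 * (C : ℝ) ≤ Real.exp (((C + 1 : ℕ) : ℝ) ^ 2) := by
    have := Real.add_one_le_exp (((C + 1 : ℕ) : ℝ) ^ 2)
    push_cast at this ⊢
    nlinarith
  rw [Real.exp_neg, ← div_eq_mul_inv, div_le_iff₀ (Real.exp_pos _)]
  linarith

end HilbAux

open HilbAux in
theorem hilb (hW : WtStmt) (hS : SampStmt) : HilbStmt := by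
  classical
  intro g N Θ Λ hA
  obtain ⟨u, hq, hper, C1, hC1⟩ := hW g N Θ Λ hA
  obtain ⟨b, hb⟩ := hA.lat
  obtain ⟨C, hC, hs⟩ := hS g (2 * g) 0 u b hq b.linearIndependent (by
    rw [span_top b]; simp)
  have hT : ∀ i, Gd Θ u 1 (Θ i) := fun i =>
    ⟨hA.hol i, fun z z' a h => by simpa using h i, C1, fun z => by simpa using hC1 i z⟩
  refine ⟨C * 4 ^ g, fun n ι _ P hP hcard => ?_⟩
  obtain ⟨G, hG, hs⟩ := hs (Nat.sqrt n + 1) (C + 1) (by omega) (by omega)
  have hlt : Fintype.card G < Fintype.card ι := by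
    refine lt_of_le_of_lt ?_ hcard
    rw [Fintype.card_coe]
    refine hG.trans ?_
    rw [pow_zero, mul_one, pow_mul, mul_assoc, ← mul_pow]
    refine Nat.mul_le_mul_left _ (Nat.pow_le_pow_left ?_ _)
    have h1 := Nat.sqrt_le' n
    have h2 := Nat.sqrt_le_self n
    nlinarith
  let T : (ι → ℂ) →ₗ[ℂ] (G → ℂ) :=
    Matrix.mulVecLin (Matrix.of fun (p : G) i => hom n (P i) fun j => Θ j p)
  have hker : LinearMap.ker T ≠ ⊥ := LinearMap.ker_ne_bot_of_finrank_lt (by simpa using hlt)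
  obtain ⟨c, hc, hc0⟩ := Submodule.exists_mem_ne_zero_of_ne_bot hker
  set F : (Fin g → ℂ) → ℂ := fun z => ∑ i, c i * hom n (P i) fun j => Θ j z with hF
  have hgd : Gd Θ u n F := Gd.sum _ fun i _ => (hom_gd hT (hP i)).smul _
  have hFG : ∀ p ∈ G, F p = 0 := fun p hp => by
    have := congrFun (LinearMap.mem_ker.1 hc) ⟨p, hp⟩
    simpa [T, Matrix.mulVec, dotProduct, hF, mul_comm] using this
  have hF0 : ∀ z, F z = 0 := by
    intro z0
    by_contra hz0
    obtain ⟨-, -, B, hB⟩ := id hgd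
    set φ : (Fin g → ℂ) → ℝ := fun z => ‖F z‖ * Real.exp (-(n * u z)) with hφ
    have hbd : BddAbove (Set.range φ) := ⟨B, by rintro _ ⟨z, rfl⟩; exact hB z⟩
    set μ := sSup (Set.range φ) with hμ
    have hle : ∀ z, φ z ≤ μ := fun z => le_csSup hbd ⟨z, rfl⟩
    have hpos : 0 < μ := lt_of_lt_of_le
      (mul_pos (norm_pos_iff.2 hz0) (Real.exp_pos _)) (hle z0)
    have hn : ∀ z, ‖((μ⁻¹ : ℝ) : ℂ) * F z‖ * Real.exp (-(n * u z)) = μ⁻¹ * φ z := fun z => by
      rw [norm_mul, Complex.norm_real, Real.norm_of_nonneg (inv_pos.2 hpos).le, mul_assoc]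
    have key := (hs n (Real.exp (-((C + 1 : ℕ) : ℝ) ^ 2)) (fun z => ((μ⁻¹ : ℝ) : ℂ) * F z)
      (Nat.cast_nonneg n) (by exact_mod_cast (Nat.lt_succ_sqrt' n).le) le_rfl
      (hgd.smul _).1 (fun i z => ?_) (fun z => ?_) (fun p hp => ?_)).1
    · have h2 : μ ≤ μ / 2 := by
        refine csSup_le (Set.range_nonempty _) ?_
        rintro _ ⟨z, rfl⟩
        have h3 := key z (by rw [b.span_eq]; trivial)
        rw [hn] at h3
        have h4 := h3.trans (small C)
        rw [inv_mul_le_iff₀ hpos] at h4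
        linarith
      linarith
    · rw [hn, hn]
      congr 1
      obtain ⟨a, ha, ha'⟩ := hper (b i)
        (by rw [hb]; exact AddSubgroup.subset_closure ⟨i, rfl⟩) z
      have e : ∀ t : ℝ, Real.exp (-(n * t)) = Real.exp (-t) ^ n := fun t => by
        rw [← Real.exp_nat_mul]; congr 1; ring
      simp only [hφ]
      rw [hgd.2.1 z (z + b i) a ha', norm_mul, norm_pow, e, e, ← ha, mul_pow]
      ring
    · rw [hn]
      refine le_trans ?_ (Real.one_le_exp (by positivity))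
      rw [inv_mul_le_iff₀ hpos, mul_one]
      exact hle z
    · rw [hFG p hp]
      simpa using (Real.exp_pos _).le
  refine ⟨c, hc0, fun z hz => ?_⟩
  have h1 := hF0 z
  simp only [hF, hom_eq (hP _) (fun j => Θ j z) hz] at h1
  have h2 : Θ 0 z ^ n * ∑ i, c i * eval (fn Θ z) (P i) = 0 := by
    rw [← h1, Finset.mul_sum]
    refine Finset.sum_congr rfl fun i _ => ?_
    unfold fn
    ring
  exact (mul_eq_zero.1 h2).resolve_left (pow_ne_zero _ hz)

end

end Pool.Agent.CMP
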