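import Mathlib
import Pool.Agent.MP_cbf1af_ag.cmp.Basic

/-! PROJECT CMP, row JET: forms cutting out the translated order conditions. -/

namespace Pool.Agent.CMP

open MvPolynomial Filter Topology

namespace Jet

variable {g N : ℕ} {Θ : Fin (N + 1) → (Fin g → ℂ) → ℂ} {Λ : AddSubgroup (Fin g → ℂ)}

/-- an addition law with complex coefficients -/
def Law (Θ : Fin (N + 1) → (Fin g → ℂ) → ℂ) (c : ℕ)
    (u : (Fin g → ℂ) → (Fin g → ℂ) → ℂ) : Prop :=
  ∃ A : Fin (N + 1) → MvPolynomial (Fin (N + 1)) (MvPolynomial (Fin (N + 1)) ℂ),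
    (∀ i, (A i).IsHomogeneous c) ∧
    ∀ z w i, eval (fun j => Θ j z) (map (eval fun j => Θ j w) (A i)) = u z w * Θ i (z + w)

theorem exists_law (h : IsAbelian Θ Λ) : ∃ c, ∀ z₀ w₀, ∃ u, Law Θ c u ∧ u z₀ w₀ ≠ 0 := by
  obtain ⟨c, hc⟩ := h.add
  refine ⟨c, fun z₀ w₀ => ?_⟩
  obtain ⟨A, u, hA, hu, hid⟩ := hc z₀ w₀
  refine ⟨u, ⟨fun i => map (map (algebraMap Qb ℂ)) (A i), fun i => (hA i).1.map _, ?_⟩, hu⟩
  intro z w i
  have e : (eval fun j => Θ j w).comp (map (algebraMap Qb ℂ)) =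
      (aeval (fun j => Θ j w) : MvPolynomial (Fin (N + 1)) Qb →ₐ[Qb] ℂ).toRingHom := by
    ext a <;> simp
  rw [← hid z w i, MvPolynomial.map_map, e]

theorem expand (B : MvPolynomial (Fin (N + 1)) (MvPolynomial (Fin (N + 1)) ℂ))
    (z w : Fin g → ℂ) :
    eval (fun j => Θ j z) (map (eval fun j => Θ j w) B) =
      ∑ m ∈ B.support, (∏ i, Θ i z ^ m i) * ev Θ (B.coeff m) w := by
  rw [eval_map, eval₂_eq']
  exact Finset.sum_congr rfl fun m _ => mul_comm _ _

theorem Law.cont (h : IsAbelian Θ Λ) {c : ℕ} {u : (Fin g → ℂ) → (Fin g → ℂ) → ℂ}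
    (hu : Law Θ c u) (p : (Fin g → ℂ) × (Fin g → ℂ)) :
    ContinuousAt (fun q : (Fin g → ℂ) × (Fin g → ℂ) => u q.1 q.2) p := by
  obtain ⟨A, -, hid⟩ := hu
  obtain ⟨i, hi⟩ := h.ne (p.1 + p.2)
  have hΘ : ∀ i, Continuous (Θ i) := fun i =>
    continuous_iff_continuousAt.2 fun z => (h.hol i z).continuousAt
  have hev : ∀ Q, Continuous (ev Θ Q) := fun Q =>
    continuous_iff_continuousAt.2 fun z => (h.analyticAt_ev Q z).continuousAt
  have h1 : Continuous fun q : (Fin g → ℂ) × (Fin g → ℂ) => Θ i (q.1 + q.2) :=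
    (hΘ i).comp (continuous_fst.add continuous_snd)
  have h2 : Continuous fun q : (Fin g → ℂ) × (Fin g → ℂ) =>
      ∑ m ∈ (A i).support, (∏ j, Θ j q.1 ^ m j) * ev Θ ((A i).coeff m) q.2 :=
    continuous_finsetSum _ fun m _ =>
      (continuous_finsetProd _ fun j _ => ((hΘ j).comp continuous_fst).pow _).mul
        ((hev _).comp continuous_snd)
  refine (h2.continuousAt.div h1.continuousAt hi).congr ?_
  filter_upwards [h1.continuousAt.eventually_ne hi] with q hq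
  rw [Pi.div_apply, ← expand, hid, mul_div_cancel_right₀ _ hq]

/-- the translated form -/
theorem Law.form (h : IsAbelian Θ Λ) {c : ℕ} {u : (Fin g → ℂ) → (Fin g → ℂ) → ℂ}
    (hu : Law Θ c u) {D : ℕ} {P : MvPolynomial (Fin (N + 1)) ℂ} (hP : P.IsHomogeneous D) :
    (∀ z y, AnalyticAt ℂ (fun y => u z y ^ D * ev Θ P (z + y)) y) ∧
    ∀ {r : ℕ} (w : Fin r → Fin g → ℂ) (l : List (Fin r)) (v : Fin g → ℂ),
      ∃ Q : MvPolynomial (Fin (N + 1)) ℂ, Q.IsHomogeneous (c * D) ∧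
        ∀ z, ev Θ Q z = wd w l (fun y => u z y ^ D * ev Θ P (z + y)) v := by
  obtain ⟨A, hA, hid⟩ := hu
  set B : MvPolynomial (Fin (N + 1)) (MvPolynomial (Fin (N + 1)) ℂ) :=
    eval₂ (C.comp C) A P with hB
  have hBh : B.IsHomogeneous (c * D) :=
    hP.eval₂ _ _ (fun a => isHomogeneous_C _ _) hA
  have key : ∀ z, (fun y => u z y ^ D * ev Θ P (z + y)) =
      fun y => ∑ m ∈ B.support, (∏ i, Θ i z ^ m i) * ev Θ (B.coeff m) y := by
    intro z
    funext y
    rw [← expand, ev, ← eval_smul_homog hP, hB]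
    have := eval₂_comp_left ((eval fun j => Θ j z).comp (map (eval fun j => Θ j y)))
      (C.comp C) A P
    rw [RingHom.comp_apply] at this
    rw [this]
    change eval₂ (RingHom.id ℂ) _ P = _
    congr 1
    · ext a; simp
    · funext i
      simp only [Function.comp_apply, RingHom.comp_apply]
      exact (hid z y i).symm
  refine ⟨fun z y => ?_, fun w l v => ?_⟩
  · rw [key]
    exact Finset.analyticAt_fun_sum _ fun m _ => analyticAt_const.fun_mul (h.analyticAt_ev _ y)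
  · refine ⟨∑ m ∈ B.support, monomial m (wd w l (ev Θ (B.coeff m)) v),
      IsHomogeneous.sum _ _ _ fun m hm => isHomogeneous_monomial _ ?_, fun z => ?_⟩
    · rw [Finsupp.degree_eq_weight_one]
      exact hBh (mem_support_iff.1 hm)
    · rw [key, wd_sum w l _ _ fun m _ => h.analyticAt_ev _ v, ev, map_sum]
      refine Finset.sum_congr rfl fun m _ => ?_
      rw [eval_monomial, Finsupp.prod_fintype _ _ fun i => pow_zero _, mul_comm]

variable {r : ℕ} (w : Fin r → Fin g → ℂ)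

theorem cont_lin : Continuous fun x : Fin r → ℂ => ∑ j, x j • w j :=
  continuous_finsetSum _ fun j _ => (continuous_apply j).smul continuous_const

theorem tend_u (h : IsAbelian Θ Λ) {c : ℕ} {u : (Fin g → ℂ) → (Fin g → ℂ) → ℂ}
    (hu : Law Θ c u) (y v : Fin g → ℂ) :
    Tendsto (fun x : Fin r → ℂ => u y (v + ∑ j, x j • w j)) (𝓝 0) (𝓝 (u y v)) := by
  have h1 : Tendsto (fun x : Fin r → ℂ => (y, v + ∑ j, x j • w j)) (𝓝 0) (𝓝 (y, v)) := by
    have : Continuous fun x : Fin r → ℂ => (y, v + ∑ j, x j • w j) :=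
      continuous_const.prodMk (continuous_const.add (cont_lin w))
    simpa using this.tendsto 0
  exact (hu.cont h (y, v)).tendsto.comp h1

theorem ord_to (h : IsAbelian Θ Λ) {c : ℕ} {u : (Fin g → ℂ) → (Fin g → ℂ) → ℂ}
    (hu : Law Θ c u) (D : ℕ) {k : ℕ} {F : (Fin g → ℂ) → ℂ} {y v : Fin g → ℂ}
    (hF : Ord w k F (y + v)) : Ord w k (fun y' => u y y' ^ D * F (y + y')) v := by
  have h1 := ((tend_u w h hu y v).pow D).isBigO_one ℝ
  have h2 := h1.mul hF
  simpa only [Ord, one_mul, add_assoc] using h2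

theorem ord_of (h : IsAbelian Θ Λ) {c : ℕ} {u : (Fin g → ℂ) → (Fin g → ℂ) → ℂ}
    (hu : Law Θ c u) (D : ℕ) {k : ℕ} {F : (Fin g → ℂ) → ℂ} {y v : Fin g → ℂ}
    (h0 : u y v ≠ 0) (hF : Ord w k (fun y' => u y y' ^ D * F (y + y')) v) :
    Ord w k F (y + v) := by
  have h1 := (((tend_u w h hu y v).pow D).inv₀ (pow_ne_zero D h0)).isBigO_one ℝ
  have h2 := h1.mul hF
  simp only [one_mul] at h2
  refine h2.congr' ?_ EventuallyEq.rfl
  filter_upwards [(tend_u w h hu y v).eventually_ne h0] with x hx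
  rw [inv_mul_cancel_left₀ (pow_ne_zero D hx), add_assoc]

theorem ord_form (hC : CauchyStmt) (hO : OrdStmt) (h : IsAbelian Θ Λ) {c : ℕ}
    {u : (Fin g → ℂ) → (Fin g → ℂ) → ℂ} (hu : Law Θ c u) (D : ℕ) {k T : ℕ}
    {F : (Fin g → ℂ) → ℂ} {v : Fin g → ℂ}
    (han : ∀ z y, AnalyticAt ℂ (fun y => u z y ^ D * F (z + y)) y)
    (hF : Ord w (k + T) F v) {l : List (Fin r)} (hl : l.length < k) :
    Ord w T (fun z => wd w l (fun y => u z y ^ D * F (z + y)) v) 0 := by
  obtain ⟨C, hC0, hb⟩ := hF.exists_nonneg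
  have hb' := hb.bound
  have t1 : Tendsto (fun p : (Fin r → ℂ) × (Fin r → ℂ) => p.1 + p.2) (𝓝 0) (𝓝 0) := by
    have : Continuous fun p : (Fin r → ℂ) × (Fin r → ℂ) => p.1 + p.2 := continuous_add
    simpa using this.tendsto 0
  have t2 : Tendsto (fun p : (Fin r → ℂ) × (Fin r → ℂ) =>
      ((0 + ∑ j, p.1 j • w j : Fin g → ℂ), v + ∑ j, p.2 j • w j)) (𝓝 0) (𝓝 (0, v)) := by
    have : Continuous fun p : (Fin r → ℂ) × (Fin r → ℂ) =>
        ((0 + ∑ j, p.1 j • w j : Fin g → ℂ), v + ∑ j, p.2 j • w j) :=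
      (continuous_const.add ((cont_lin w).comp continuous_fst)).prodMk
        (continuous_const.add ((cont_lin w).comp continuous_snd))
    simpa using this.tendsto 0
  have t3 := ((hu.cont h (0, v)).tendsto.comp t2).norm.eventually
    (gt_mem_nhds (lt_add_one ‖u 0 v‖))
  obtain ⟨δ, hδ, H⟩ := Metric.eventually_nhds_iff.1 (t3.and (t1.eventually hb'))
  set U := ‖u 0 v‖ + 1 with hU
  have hU0 : 0 ≤ U := by positivity
  refine Asymptotics.IsBigO.of_bound
    (U ^ D * C * 2 ^ (k + T) * (l.length : ℝ) ^ l.length) ?_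
  filter_upwards [Metric.ball_mem_nhds (0 : Fin r → ℂ) hδ,
    Metric.closedBall_mem_nhds (0 : Fin r → ℂ) one_pos] with x hx hx1
  rw [mem_ball_zero_iff] at hx
  rw [mem_closedBall_zero_iff] at hx1
  rcases (norm_nonneg x).eq_or_lt with h0 | h0
  · have hx0 : x = 0 := norm_eq_zero.1 h0.symm
    subst hx0
    have h1 : Ord w (k + T) F (0 + v) := by rwa [zero_add]
    have h2 := (hO g r w _ v _ (han 0 v)).1 (ord_to w h hu D h1) l (by omega)
    simp only [Pi.zero_apply, zero_smul, Finset.sum_const_zero, add_zero]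
    rw [h2, norm_zero]
    positivity
  · have h1 := hC g r w (fun y => u (0 + ∑ j, x j • w j) y ^ D * F (0 + ∑ j, x j • w j + y)) v
      ‖x‖ (U ^ D * (C * (2 * ‖x‖) ^ (k + T))) l h0 fun x' hx' => ⟨han _ _, by
        have hd : dist (x, x') (0 : (Fin r → ℂ) × (Fin r → ℂ)) < δ := by
          rw [dist_zero_right, Prod.norm_def]
          exact max_lt hx (hx'.trans_lt hx)
        obtain ⟨a1, a2⟩ := H hd
        simp only [Function.comp_apply] at a1 a2
        rw [norm_mul, norm_pow]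
        refine mul_le_mul (pow_le_pow_left₀ (norm_nonneg _) a1.le D) ?_ (norm_nonneg _)
          (by positivity)
        have e : 0 + ∑ j, x j • w j + (v + ∑ j, x' j • w j) = v + ∑ j, (x + x') j • w j := by
          simp only [Pi.add_apply, add_smul, Finset.sum_add_distrib]
          abel
        rw [e]
        refine a2.trans (mul_le_mul_of_nonneg_left ?_ hC0)
        rw [norm_pow, norm_norm]
        refine pow_le_pow_left₀ (norm_nonneg _) ((norm_add_le _ _).trans ?_) _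
        linarith⟩
    refine h1.trans ?_
    obtain ⟨d, hd⟩ : ∃ d, k = l.length + d := ⟨k - l.length, by omega⟩
    have h2 : ‖x‖ ^ d ≤ 1 := pow_le_one₀ h0.le hx1
    have h3 : U ^ D * (C * (2 * ‖x‖) ^ (k + T)) * ((l.length : ℝ) / ‖x‖) ^ l.length =
        U ^ D * C * 2 ^ (k + T) * (l.length : ℝ) ^ l.length * ‖x‖ ^ T * ‖x‖ ^ d := by
      rw [mul_pow, div_pow, hd]
      field_simp
      ring
    rw [h3, norm_pow, norm_norm]
    exact mul_le_of_le_one_right (by positivity) h2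

end Jet

open Jet in
theorem jet (hC : CauchyStmt) (hO : OrdStmt) : JetStmt := by
  intro g N Θ Λ h
  obtain ⟨c, hc⟩ := exists_law h
  refine ⟨c, fun r w D P hP => ⟨fun k => ?_, fun k T Z hZ => ?_⟩⟩
  · refine ⟨{Q | Q.IsHomogeneous (c * D) ∧ ∃ u, Law Θ c u ∧ ∃ l : List (Fin r), l.length < k ∧
      ∀ z, ev Θ Q z = wd w l (fun y => u z y ^ D * ev Θ P (z + y)) 0},
      fun Q hQ => ⟨_, hQ.1⟩, fun z => ⟨fun hz Q hQ => ?_, fun hz => ?_⟩⟩
    · obtain ⟨-, u, hu, l, hl, hQ⟩ := hQ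
      have h1 : Ord w k (ev Θ P) (z + 0) := by rwa [add_zero]
      exact (hQ z).trans
        ((hO g r w _ 0 _ ((hu.form h hP).1 z 0)).1 (ord_to w h hu D h1) l hl)
    · obtain ⟨u, hu, h0⟩ := hc z 0
      have h1 : Ord w k (ev Θ P) (z + 0) := by
        refine ord_of w h hu D h0 ((hO g r w _ 0 _ ((hu.form h hP).1 z 0)).2 fun l hl => ?_)
        obtain ⟨Q, hQ, hQ'⟩ := (hu.form h hP).2 w l 0
        exact (hQ' z).symm.trans (hz Q ⟨hQ, u, hu, l, hl, hQ'⟩)
      rwa [add_zero] at h1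
  · refine ⟨{Q | Q.IsHomogeneous (c * D) ∧ ∃ u, Law Θ c u ∧ ∃ v ∈ Z, ∃ l : List (Fin r),
      l.length < k ∧ ∀ z, ev Θ Q z = wd w l (fun y => u z y ^ D * ev Θ P (z + y)) v},
      fun Q hQ => ⟨hQ.1, ?_⟩, fun y hy v hv => ?_⟩
    · obtain ⟨-, u, hu, v, hv, l, hl, hQ⟩ := hQ
      rw [funext hQ]
      exact ord_form w hC hO h hu D (hu.form h hP).1 (hZ v hv) hl
    · obtain ⟨u, hu, h0⟩ := hc y v
      refine ord_of w h hu D h0 ((hO g r w _ v _ ((hu.form h hP).1 y v)).2 fun l hl => ?_)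
      obtain ⟨Q, hQ, hQ'⟩ := (hu.form h hP).2 w l v
      exact (hQ' y).symm.trans (hy Q ⟨hQ, u, hu, v, hv, l, hl, hQ'⟩)

end Pool.Agent.CMP
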