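import Mathlib
import Pool.Agent.MP_cbf1af_ag.cmp.Basic

/-! PROJECT CMP, row MAIN: from a basis of the span to a field of definition. -/

namespace Pool.Agent.CMP

open Module

theorem main (hc : CoreStmt) : MainStmt := by
  intro g N Θ Λ hA s lam hl hi W hW K hK t ht
  have hR := hA.real_indep hl hi
  have hs : s ≤ 2 * finrank ℂ W := by
    have hm : ∀ i, lam i ∈ W := fun i => hW ▸ Submodule.subset_span ⟨i, rfl⟩
    have h1 : LinearIndependent ℝ fun i => (⟨lam i, hm i⟩ : W) :=
      LinearIndependent.of_comp (W.subtype.restrictScalars ℝ) hR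
    have h2 := h1.fintype_card_le_finrank
    rw [Fintype.card_fin, ← finrank_mul_finrank ℝ ℂ W, Complex.finrank_real_complex] at h2
    exact h2
  have hsp : Submodule.span ℂ {x | x ∈ W ∧ ∀ k, x k ∈ K} = W :=
    le_antisymm (Submodule.span_le.2 fun x hx => hx.1) hK
  obtain ⟨w, hw, hsw, hiw⟩ :=
    Submodule.exists_fun_fin_finrank_span_eq ℂ {x : Fin g → ℂ | x ∈ W ∧ ∀ k, x k ∈ K}
  have hr : finrank ℂ (Submodule.span ℂ {x : Fin g → ℂ | x ∈ W ∧ ∀ k, x k ∈ K}) = finrank ℂ W := by
    rw [hsp]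
  generalize finrank ℂ (Submodule.span ℂ {x : Fin g → ℂ | x ∈ W ∧ ∀ k, x k ∈ K}) = r at w hw hsw hiw hr
  rw [← hr] at hs ⊢
  obtain ⟨c, hcs⟩ := Nat.exists_eq_add_of_le' hs
  rcases Nat.eq_zero_or_pos r with h0 | h0
  · have h1 : s = 0 := by omega
    subst h1 h0
    simp only [Nat.cast_zero, zero_mul, mul_zero, sub_zero, zero_add]
    positivity
  have hle : IntermediateField.adjoin ℚ (Set.range fun p : Fin r × Fin g => w p.1 p.2) ≤ K := by
    rw [IntermediateField.adjoin_le_iff]
    rintro _ ⟨p, rfl⟩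
    exact (hw p.1).2 p.2
  have htr := (trdeg_le_of_injective (IntermediateField.inclusion hle)
    (IntermediateField.inclusion_injective hle)).trans ht
  have key := hc g N Θ Λ s c r t lam w hA hl hR hiw (by rw [hsw, hsp, hW]) hcs.symm h0 htr
  have e : (2 * r : ℤ) = c + s := by exact_mod_cast hcs
  have k2 : (2 * g * r + 2 * g : ℤ) ≤ (c + 2) * (t + 1) * g + r * s := by exact_mod_cast key
  have e2 : (c : ℤ) = 2 * r - s := by linarith
  rw [e2] at k2
  linarith

end Pool.Agent.CMP
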