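import Mathlib.Tactic.Monotonicity.Lemmas
import Mathlib.RingTheory.Flat.TorsionFree
import Mathlib.Data.Int.Star
import Mathlib.Algebra.Order.Ring.Star
import Mathlib.Algebra.MvPolynomial.Derivation
import Mathlib.RingTheory.PicardGroup
import Mathlib.Analysis.Complex.Polynomial.Basic
import Mathlib.RingTheory.SimpleRing.Principal
import Mathlib.RingTheory.Henselian
import Mathlib.RingTheory.MvPolynomial.IrreducibleQuadratic
import Mathlib.RingTheory.RegularLocalRing.Defs
import Pool.Agent.MP_cbf1af_ag.cmp.Apx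

/-! PROJECT CMP, row TAY: sizes of the Taylor coefficients and the unit ideal. -/

namespace Pool.Agent.CMP

open MvPolynomial Filter Topology

noncomputable section

namespace Tay

section Size

variable {ι B : Type} [CommRing B] {θ : ι → B}

theorem len_mono {M : Type} [AddCommMonoid M] {A A' : Set M} {L L' : ℕ} {x : M}
    (h : Len A L x) (hA : A ⊆ A') (hL : L ≤ L') : Len A' L' x := by
  obtain ⟨l, h1, h2, h3⟩ := h
  exact ⟨l, h1.trans hL, fun y hy => hA (h2 y hy), h3⟩

theorem len_add {M : Type} [AddCommMonoid M] {A : Set M} {L L' : ℕ} {x y : M}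
    (h : Len A L x) (h' : Len A L' y) : Len A (L + L') (x + y) := by
  obtain ⟨l, h1, h2, h3⟩ := h
  obtain ⟨l', h1', h2', h3'⟩ := h'
  refine ⟨l ++ l', by simp; omega, fun z hz => ?_, by simp [h3, h3']⟩
  rcases List.mem_append.1 hz with hz | hz
  · exact h2 z hz
  · exact h2' z hz

theorem len_zero {M : Type} [AddCommMonoid M] (A : Set M) (L : ℕ) : Len A L 0 :=
  ⟨[], by simp, by simp, rfl⟩

theorem len_one {M : Type} [AddCommMonoid M] {A : Set M} {x : M} (h : x ∈ A) : Len A 1 x :=
  ⟨[x], by simp, by simpa using h, by simp⟩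

theorem len_map {M M' : Type} [AddCommMonoid M] [AddCommMonoid M'] {A : Set M} {A' : Set M'}
    {L K : ℕ} {x : M} (f : M →+ M') (h : Len A L x) (hf : ∀ a ∈ A, Len A' K (f a)) :
    Len A' (L * K) (f x) := by
  obtain ⟨l, h1, h2, rfl⟩ := h
  refine len_mono (A := A') (L := l.length * K) ?_ le_rfl (Nat.mul_le_mul_right _ h1)
  clear h1
  induction l with
  | nil => simpa using len_zero A' 0
  | cons a l ih =>
    have h3 := len_add (hf a (h2 a (by simp))) (ih fun y hy => h2 y (by simp [hy]))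
    rw [List.sum_cons, map_add, List.length_cons, Nat.add_mul, one_mul, add_comm (l.length * K)]
    exact h3

theorem mon_mono {n n' : ℕ} (h : n ≤ n') : Mon θ n ⊆ Mon θ n' := by
  rintro x ⟨l, h1, h2⟩
  exact ⟨l, h1.trans h, h2⟩

theorem mon_neg {n : ℕ} {x : B} (h : x ∈ Mon θ n) : -x ∈ Mon θ n := by
  obtain ⟨l, h1, h2 | h2⟩ := h
  · exact ⟨l, h1, Or.inr (by rw [h2])⟩
  · exact ⟨l, h1, Or.inl (by rw [h2, neg_neg])⟩

theorem mon_mul {n n' : ℕ} {x y : B} (h : x ∈ Mon θ n) (h' : y ∈ Mon θ n') :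
    x * y ∈ Mon θ (n + n') := by
  obtain ⟨l, h1, h2⟩ := h
  obtain ⟨l', h1', h2'⟩ := h'
  refine ⟨l ++ l', by simp; omega, ?_⟩
  rcases h2 with rfl | rfl <;> rcases h2' with rfl | rfl <;> simp

theorem mon_gen (i : ι) : θ i ∈ Mon θ 1 := ⟨[i], by simp, Or.inl (by simp)⟩

theorem sz_mono {n n' L L' : ℕ} {x : B} (h : Sz θ n L x) (hn : n ≤ n') (hL : L ≤ L') :
    Sz θ n' L' x := len_mono h (mon_mono hn) hL

theorem sz_neg {n L : ℕ} {x : B} (h : Sz θ n L x) : Sz θ n L (-x) := by
  have := len_map (A' := Mon θ n) (K := 1) (negAddMonoidHom : B →+ B) h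
    fun a ha => len_one (mon_neg ha)
  simpa [Sz] using this

theorem sz_mul {n n' L L' : ℕ} {x y : B} (h : Sz θ n L x) (h' : Sz θ n' L' y) :
    Sz θ (n + n') (L * L') (x * y) := by
  refine len_map (A' := Mon θ (n + n')) (AddMonoidHom.mulRight y) h fun a ha => ?_
  have := len_map (A' := Mon θ (n + n')) (K := 1) (AddMonoidHom.mulLeft a) h'
    fun b hb => len_one (mon_mul ha hb)
  simpa using this

theorem exists_sz {x : B} (hx : x ∈ Subring.closure (Set.range θ)) : ∃ c, Sz θ c c x := by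
  induction hx using Subring.closure_induction with
  | mem x hx =>
    obtain ⟨i, rfl⟩ := hx
    exact ⟨1, len_one (mon_gen i)⟩
  | zero => exact ⟨0, len_zero _ _⟩
  | one => exact ⟨1, len_one ⟨[], by simp, Or.inl (by simp)⟩⟩
  | add x y _ _ hx hy =>
    obtain ⟨c, hc⟩ := hx
    obtain ⟨d, hd⟩ := hy
    exact ⟨c + d, len_add (sz_mono hc (by omega) le_rfl) (sz_mono hd (by omega) le_rfl)⟩
  | neg x _ hx =>
    obtain ⟨c, hc⟩ := hx
    exact ⟨c, sz_neg hc⟩
  | mul x y _ _ hx hy =>
    obtain ⟨c, hc⟩ := hx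
    obtain ⟨d, hd⟩ := hy
    exact ⟨c + d + c * d, sz_mono (sz_mul hc hd) (by omega) (by omega)⟩

theorem sz_map {ι' B' : Type} [CommRing B'] {θ' : ι' → B'} (φ : B →+* B')
    (hφ : ∀ i, φ (θ i) ∈ Set.range θ') {n L : ℕ} {x : B} (h : Sz θ n L x) :
    Sz θ' n L (φ x) := by
  choose σ hσ using hφ
  have := len_map (A' := Mon θ' n) (K := 1) φ.toAddMonoidHom h fun a ha => len_one (by
    obtain ⟨l, h1, h2⟩ := ha
    have h3 : φ (l.map θ).prod = ((l.map σ).map θ').prod := by
      rw [map_list_prod, List.map_map, List.map_map]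
      congr 1
      exact List.map_congr_left fun i _ => (hσ i).symm
    refine ⟨l.map σ, by simpa using h1, ?_⟩
    rcases h2 with rfl | rfl
    · exact Or.inl h3
    · exact Or.inr (by rw [← h3]; exact map_neg φ _))
  simpa [Sz] using this

theorem sz_der {A : Type} [CommRing A] [Algebra A B] (d : Derivation A B B) {c : ℕ}
    (hd : ∀ i, Sz θ c c (d (θ i))) {n L : ℕ} {x : B} (h : Sz θ n L x) :
    Sz θ (n + c) (L * (n * c)) (d x) := by
  have key : ∀ l : List ι, Sz θ (l.length + c) (l.length * c) (d (l.map θ).prod) := by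
    intro l
    induction l with
    | nil => simpa [Sz] using len_zero _ 0
    | cons a l ih =>
      have h1 := sz_mul (len_one (mon_gen (θ := θ) a) : Sz θ 1 1 (θ a)) ih
      have h2 := sz_mul (len_one (⟨l, le_rfl, Or.inl rfl⟩ : (l.map θ).prod ∈ Mon θ l.length) :
        Sz θ l.length 1 (l.map θ).prod) (hd a)
      rw [List.map_cons, List.prod_cons, Derivation.leibniz, smul_eq_mul, smul_eq_mul,
        List.length_cons]
      have h3 := len_add (sz_mono h1 (n' := l.length + 1 + c) (by omega) le_rfl)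
        (sz_mono h2 (n' := l.length + 1 + c) (by omega) le_rfl)
      exact len_mono h3 le_rfl (by ring_nf; omega)
  refine len_map (A' := Mon θ (n + c)) d.toLinearMap.toAddMonoidHom h fun a ha => ?_
  obtain ⟨l, h1, h2⟩ := ha
  have h3 := sz_mono (key l) (Nat.add_le_add_right h1 c) (Nat.mul_le_mul_right c h1)
  rcases h2 with rfl | rfl
  · exact h3
  · have := sz_neg h3
    rw [← map_neg] at this
    exact this

/-- iterated derivation along a word -/
def dl {r : ℕ} (d : Fin r → B → B) : List (Fin r) → B → B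
  | [], p => p
  | j :: l, p => dl d l (d j p)

theorem sz_dl {A : Type} [CommRing A] [Algebra A B] {r : ℕ} (d : Fin r → Derivation A B B)
    {c : ℕ} (hd : ∀ j i, Sz θ c c (d j (θ i))) (l : List (Fin r)) :
    ∀ {n L : ℕ} {x : B}, Sz θ n L x →
      Sz θ (n + c * l.length) (L * ((n + c * l.length) * c) ^ l.length)
        (dl (fun j => d j) l x) := by
  induction l with
  | nil => intro n L x h; simpa [dl] using h
  | cons j l ih =>
    intro n L x h
    have h1 := ih (sz_der (d j) (hd j) h)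
    refine sz_mono h1 (by rw [List.length_cons]; ring_nf; omega) ?_
    rw [List.length_cons, pow_succ', mul_assoc]
    have e : n + c + c * l.length = n + c * (l.length + 1) := by ring
    rw [e]
    gcongr
    omega

end Size

theorem wd_congr {g r : ℕ} (w : Fin r → Fin g → ℂ) (l : List (Fin r)) :
    ∀ {f f' : (Fin g → ℂ) → ℂ}, f =ᶠ[𝓝 0] f' → wd w l f =ᶠ[𝓝 0] wd w l f' := by
  induction l with
  | nil => intro f f' h; exact h
  | cons j l ih =>
    intro f f' h
    refine ih ?_
    filter_upwards [h.fderiv (𝕜 := ℂ)] with z hz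
    rw [hz]

theorem chain {g n : ℕ} {B : Type} [CommRing B] (τ : B →+* ℂ) (h : (Fin g → ℂ) → Fin n → ℂ)
    (v z : Fin g → ℂ) (a : Fin n → MvPolynomial (Fin n) B)
    (hd : ∀ i, DifferentiableAt ℂ (fun z => h z i) z)
    (ha : ∀ i, fderiv ℂ (fun z => h z i) z v = eval₂ τ (h z) (a i))
    (p : MvPolynomial (Fin n) B) :
    ∃ f' : (Fin g → ℂ) →L[ℂ] ℂ, HasFDerivAt (fun z => eval₂ τ (h z) p) f' z ∧
      f' v = eval₂ τ (h z) (mkDerivation B a p) := by
  induction p using MvPolynomial.induction_on with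
  | C b =>
    refine ⟨0, ?_, ?_⟩
    · simpa using hasFDerivAt_const (τ b) z
    · simp
  | add p q hp hq =>
    obtain ⟨f1, h1, e1⟩ := hp
    obtain ⟨f2, h2, e2⟩ := hq
    refine ⟨f1 + f2, ?_, ?_⟩
    · simp only [eval₂_add]
      exact h1.add h2
    · simp [eval₂_add, e1, e2]
  | mul_X p i hp =>
    obtain ⟨f1, h1, e1⟩ := hp
    refine ⟨_, by simp only [eval₂_mul, eval₂_X]; exact h1.mul (hd i).hasFDerivAt, ?_⟩
    simp [eval₂_add, eval₂_mul, e1, ha]

theorem wd_eval {g n r : ℕ} {B : Type} [CommRing B] (τ : B →+* ℂ)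
    (h : (Fin g → ℂ) → Fin n → ℂ) (w : Fin r → Fin g → ℂ)
    (a : Fin r → Fin n → MvPolynomial (Fin n) B)
    (hh : ∀ᶠ z in 𝓝 (0 : Fin g → ℂ), (∀ i, DifferentiableAt ℂ (fun z => h z i) z) ∧
      ∀ j i, fderiv ℂ (fun z => h z i) z (w j) = eval₂ τ (h z) (a j i))
    (l : List (Fin r)) : ∀ p : MvPolynomial (Fin n) B,
      wd w l (fun z => eval₂ τ (h z) p) =ᶠ[𝓝 0]
        fun z => eval₂ τ (h z) (dl (fun j => mkDerivation B (a j)) l p) := by
  induction l with
  | nil => intro p; exact EventuallyEq.rfl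
  | cons j l ih =>
    intro p
    refine EventuallyEq.trans (wd_congr w l ?_) (ih _)
    filter_upwards [hh] with z hz
    obtain ⟨f', h1, h2⟩ := chain τ h (w j) z (a j) hz.1 (hz.2 j) p
    rw [h1.fderiv, h2]

theorem left_inv {g r : ℕ} (w : Fin r → Fin g → ℂ) (hw : LinearIndependent ℂ w)
    (K : IntermediateField ℚ ℂ) (hK : ∀ j k, w j k ∈ K) :
    ∃ M : Fin g → Fin r → ℂ, (∀ k j, M k j ∈ K) ∧
      ∀ j j', ∑ k, w j k * M k j' = if j = j' then 1 else 0 := by
  let wK : Fin r → Fin g → K := fun j k => ⟨w j k, hK j k⟩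
  have hker : LinearMap.ker (Fintype.linearCombination K wK) = ⊥ := by
    rw [LinearMap.ker_eq_bot']
    intro c hc
    have h1 := Fintype.linearIndependent_iff.1 hw (fun j => (c j : ℂ)) (by
      funext k
      have := congrArg (fun x : Fin g → K => (x k : ℂ)) hc
      simpa [Fintype.linearCombination_apply, wK] using this)
    funext j
    exact Subtype.ext (h1 j)
  obtain ⟨gl, hgl⟩ := LinearMap.exists_leftInverse_of_injective _ hker
  refine ⟨fun k j => (gl (Pi.single k 1) j : ℂ), fun k j => (gl (Pi.single k 1) j).2,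
    fun j j' => ?_⟩
  have h1 : gl (wK j) = Pi.single j 1 := by
    have := LinearMap.congr_fun hgl (Pi.single j 1)
    simpa [Fintype.linearCombination_apply, Pi.single_apply] using this
  have h2 : wK j = ∑ k, wK j k • (Pi.single k 1 : Fin g → K) := by
    funext k
    simp [Finset.sum_apply, Pi.single_apply]
  rw [h2, map_sum] at h1
  have h3 := congrArg (fun x : Fin r → K => (x j' : ℂ)) h1
  simp only [map_smul, Finset.sum_apply, Pi.smul_apply, smul_eq_mul, Pi.single_apply] at h3
  push_cast at h3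
  rw [show (∑ k, w j k * (gl (Pi.single k 1) j' : ℂ)) = _ from h3]
  by_cases hj : j = j'
  · simp [hj]
  · simp [hj, Ne.symm hj]

end Tay

open Tay in
theorem tay : TayStmt := by
  classical
  intro g n r h w hs hw
  obtain ⟨han, halg, G, hG⟩ := hs
  obtain ⟨M, hM, hwM⟩ := left_inv w hw
    (IntermediateField.adjoin ℚ (Set.range fun p : Fin r × Fin g => w p.1 p.2))
    (fun j k => IntermediateField.subset_adjoin _ _ ⟨(j, k), rfl⟩)
  let S : Finset ℂ :=
    ((Finset.univ.biUnion fun p : Fin n × Fin g =>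
        (G p.1 p.2).coeffs.image fun x : Qb => (x : ℂ)) ∪ Finset.univ.image (h 0)) ∪
      (Finset.univ.image (fun p : Fin r × Fin g => w p.1 p.2) ∪
        Finset.univ.image fun p : Fin g × Fin r => M p.1 p.2)
  let θ : Fin S.card → ℂ := fun i => (S.equivFin.symm i : ℂ)
  have hθ : ∀ x ∈ S, x ∈ Set.range θ := fun x hx => ⟨S.equivFin ⟨x, hx⟩, by simp [θ]⟩
  have hθ1 : ∀ i k, ∀ x ∈ (G i k).coeffs, (x : ℂ) ∈ Set.range θ := fun i k x hx => hθ _ (by
    simp only [S, Finset.mem_union, Finset.mem_biUnion, Finset.mem_image]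
    exact Or.inl (Or.inl ⟨(i, k), Finset.mem_univ _, x, hx, rfl⟩))
  have hθ2 : ∀ i, h 0 i ∈ Set.range θ := fun i => hθ _ (by
    simp only [S, Finset.mem_union, Finset.mem_image]
    exact Or.inl (Or.inr ⟨i, Finset.mem_univ _, rfl⟩))
  have hθ3 : ∀ j k, w j k ∈ Set.range θ := fun j k => hθ _ (by
    simp only [S, Finset.mem_union, Finset.mem_image]
    exact Or.inr (Or.inl ⟨(j, k), Finset.mem_univ _, rfl⟩))
  have hθ4 : ∀ k j, M k j ∈ Set.range θ := fun k j => hθ _ (by
    simp only [S, Finset.mem_union, Finset.mem_image]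
    exact Or.inr (Or.inr ⟨(k, j), Finset.mem_univ _, rfl⟩))
  have hθ5 : ∀ i, IsAlgebraic ℚ (θ i) ∨
      θ i ∈ IntermediateField.adjoin ℚ (Set.range fun p : Fin r × Fin g => w p.1 p.2) := by
    intro i
    have hi : θ i ∈ S := (S.equivFin.symm i).2
    simp only [S, Finset.mem_union, Finset.mem_biUnion, Finset.mem_image] at hi
    rcases hi with (⟨p, -, x, -, hx⟩ | ⟨i', -, hx⟩) | (⟨p, -, hx⟩ | ⟨p, -, hx⟩)
    · exact Or.inl (hx ▸ (mem_algebraicClosure_iff.1 x.2))
    · exact Or.inl (hx ▸ halg i')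
    · exact Or.inr (hx ▸ IntermediateField.subset_adjoin _ _ ⟨p, rfl⟩)
    · exact Or.inr (hx ▸ hM p.1 p.2)
  clear_value θ
  generalize S.card = m at θ hθ1 hθ2 hθ3 hθ4 hθ5
  clear hθ S
  let B := Algebra.adjoin Qb (Set.range θ)
  let θB : Fin m → B := fun i => ⟨θ i, Algebra.subset_adjoin ⟨i, rfl⟩⟩
  let wB : Fin r → Fin g → B := fun j k => ⟨w j k, Algebra.subset_adjoin (hθ3 j k)⟩
  let MB : Fin g → Fin r → B := fun k j => ⟨M k j, Algebra.subset_adjoin (hθ4 k j)⟩
  let h0 : Fin n → B := fun i => algebraMap Qb B ⟨h 0 i, mem_algebraicClosure_iff.2 (halg i)⟩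
  let a : Fin r → Fin n → MvPolynomial (Fin n) B := fun j i =>
    ∑ k, C (wB j k) * map (algebraMap Qb B) (G i k)
  let γ : Fin m ⊕ Fin n → MvPolynomial (Fin n) B := Sum.elim (fun i => C (θB i)) X
  -- the derivative formula for every specialisation
  have hev : ∀ τ : B →ₐ[Qb] ℂ, ∀ (l : List (Fin r)) (P : MvPolynomial (Fin n) ℤ),
      wd (fun j k => τ (wB j k)) l (fun z => eval₂ (Int.castRingHom ℂ) (h z) P) 0 =
        τ (eval h0 (dl (fun j => mkDerivation B (a j)) l (map (Int.castRingHom B) P))) := by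
    intro τ l P
    have h1 := wd_eval (τ : B →+* ℂ) h (fun j k => τ (wB j k)) a (by
      have e1 : ∀ᶠ z in 𝓝 (0 : Fin g → ℂ), ∀ i, DifferentiableAt ℂ (fun z => h z i) z :=
        eventually_all.2 fun i => (han i).eventually_analyticAt.mono fun z hz =>
          hz.differentiableAt
      have e2 := eventually_all.2 fun i => eventually_all.2 fun k => hG i k
      filter_upwards [e1, e2] with z hz1 hz2
      refine ⟨hz1, fun j i => ?_⟩
      have e3 : (fun k => τ (wB j k)) = ∑ k, τ (wB j k) • (Pi.single k 1 : Fin g → ℂ) := by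
        funext k
        simp [Finset.sum_apply, Pi.single_apply]
      rw [e3, map_sum]
      simp only [a, eval₂_sum, eval₂_mul, eval₂_C, map_smul, hz2, smul_eq_mul, eval₂_map]
      refine Finset.sum_congr rfl fun k _ => ?_
      rw [aeval_def, show (τ : B →+* ℂ).comp (algebraMap Qb B) = algebraMap Qb ℂ from
        τ.comp_algebraMap]
      rfl) l (map (Int.castRingHom B) P)
    have h2 : (fun z => eval₂ (τ : B →+* ℂ) (h z) (map (Int.castRingHom B) P)) =
        fun z => eval₂ (Int.castRingHom ℂ) (h z) P := by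
      funext z
      rw [eval₂_map, RingHom.ext_int ((τ : B →+* ℂ).comp _) (Int.castRingHom ℂ)]
    rw [h2] at h1
    rw [h1.self_of_nhds]
    have h3 : h 0 = fun i => (τ : B →+* ℂ) (h0 i) := by
      funext i
      exact (τ.commutes ⟨h 0 i, mem_algebraicClosure_iff.2 (halg i)⟩).symm
    show eval₂ (τ : B →+* ℂ) (h 0) _ = (τ : B →+* ℂ) _
    rw [h3, ← coe_eval₂Hom, ← eval₂_id, ← coe_eval₂Hom, map_eval₂Hom]
    rfl
  -- sizes of the derivatives of the generators
  have hC : ∀ x : B, (x : ℂ) ∈ Set.range θ → (C x : MvPolynomial (Fin n) B) ∈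
      Subring.closure (Set.range γ) := by
    rintro x ⟨i, hi⟩
    exact Subring.subset_closure ⟨Sum.inl i, congrArg C (Subtype.ext hi)⟩
  have hsz : ∀ p : Fin r × (Fin m ⊕ Fin n), ∃ c, Sz γ c c (mkDerivation B (a p.1) (γ p.2)) := by
    rintro ⟨j, i | i⟩
    · exact ⟨0, by simpa [γ, Sz] using len_zero _ 0⟩
    · refine exists_sz ?_
      simp only [γ, Sum.elim_inr, mkDerivation_X, a]
      refine Subring.sum_mem _ fun k _ => Subring.mul_mem _ (hC _ (hθ3 j k)) ?_
      rw [(G i k).as_sum, map_sum]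
      refine Subring.sum_mem _ fun μ hμ => ?_
      rw [map_monomial, monomial_eq]
      refine Subring.mul_mem _ (hC _ (hθ1 i k _ (coeff_mem_coeffs μ (mem_support_iff.1 hμ)))) ?_
      exact Subring.prod_mem _ fun s _ => Subring.pow_mem _
        (Subring.subset_closure (s := Set.range γ) ⟨Sum.inr s, rfl⟩) _
  choose c hc using hsz
  obtain ⟨c0, hc0⟩ : ∃ c0, ∀ p, c p ≤ c0 := (Set.finite_range c).bddAbove.imp fun c0 h p =>
    h ⟨p, rfl⟩
  refine ⟨m, θ, (c0 + 1) ^ 2, Nat.one_le_pow _ _ (by omega), hθ5, fun D L T P hP => ⟨?_, ?_⟩⟩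
  · intro l hl
    have h1 : Sz γ D L (map (Int.castRingHom B) P) :=
      sz_map (θ' := γ) (MvPolynomial.map (Int.castRingHom B))
        (fun i => ⟨Sum.inr i, by simp [γ]⟩) hP
    have h2 := sz_dl (fun j => mkDerivation B (a j))
      (fun j i => sz_mono (hc (j, i)) (hc0 _) (hc0 _)) l h1
    have h3 := sz_map (θ' := θ) ((B.val : B →+* ℂ).comp (eval h0)) (by
      rintro (i | i)
      · exact ⟨i, by simp [γ, θB]⟩
      · obtain ⟨i', hi'⟩ := hθ2 i
        exact ⟨i', by simp only [γ, Sum.elim_inr, RingHom.comp_apply, eval_X]; exact hi'⟩) h2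
    have h4 := hev B.val l P
    have h5 : c0 * l.length ≤ (c0 + 1) * T := Nat.mul_le_mul (by omega) hl
    have h6 : (c0 + 1) * T ≤ (c0 + 1) ^ 2 * T := Nat.mul_le_mul_right _ (by nlinarith)
    refine sz_mono (h4 ▸ h3 :) (by omega) (Nat.mul_le_mul_left _ ?_)
    have h7 : (D + c0 * l.length) * c0 ≤ (c0 + 1) ^ 2 * (D + T) := by
      have : D + c0 * l.length ≤ (c0 + 1) * (D + T) := by nlinarith
      calc _ ≤ (c0 + 1) * (D + T) * (c0 + 1) := Nat.mul_le_mul this (by omega)
        _ = _ := by ring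
    refine (Nat.pow_le_pow_left h7 _).trans ?_
    rcases Nat.eq_zero_or_pos T with hT | hT
    · rw [show l.length = T by omega]
    · exact Nat.pow_le_pow_right (by positivity) hl
  · intro hne
    let q : List (Fin r) → B := fun l =>
      eval h0 (dl (fun j => mkDerivation B (a j)) l (map (Int.castRingHom B) P))
    by_cases hI : Ideal.span (q '' {l | l.length ≤ T}) = ⊤
    · have h1 : (1 : B) ∈ Submodule.span B (q '' {l | l.length ≤ T}) := by
        rw [Ideal.submodule_span_eq, hI]; trivial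
      have h2 := Submodule.mem_map_of_mem (f := Algebra.linearMap B ℂ) h1
      rw [Submodule.map_span] at h2
      refine Submodule.span_mono ?_ h2
      rintro _ ⟨_, ⟨l, hl, rfl⟩, rfl⟩
      exact ⟨l, hl, (hev B.val l P).symm⟩
    · exfalso
      obtain ⟨𝔪, h𝔪, hle⟩ := Ideal.exists_le_maximal _ hI
      have : Algebra.FiniteType Qb B :=
        Algebra.FiniteType.adjoin_of_finite (Set.finite_range θ)
      let _ := Ideal.Quotient.field 𝔪
      have : Module.Finite Qb (B ⧸ 𝔪) := finite_of_finite_type_of_isJacobsonRing _ _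
      let τ : B →ₐ[Qb] ℂ := (IsAlgClosed.lift : (B ⧸ 𝔪) →ₐ[Qb] ℂ).comp (Ideal.Quotient.mkₐ Qb 𝔪)
      have hτ : ∀ j j', ∑ k, τ (wB j k) * τ (MB k j') = if j = j' then 1 else 0 := by
        intro j j'
        have e : ∑ k, wB j k * MB k j' = if j = j' then 1 else 0 := by
          apply Subtype.ext
          have := hwM j j'
          split_ifs at this ⊢ <;> simpa [wB, MB] using this
        have := congrArg τ e
        split_ifs at this ⊢ <;> simpa using this
      obtain ⟨l, hl, hl'⟩ := hne (fun j k => τ (wB j k)) (Fintype.linearIndependent_iff.2 (by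
        intro x hx j'
        have e : ∑ k, (∑ j, x j • fun k => τ (wB j k)) k * τ (MB k j') = x j' := by
          simp only [Finset.sum_apply, Pi.smul_apply, smul_eq_mul, Finset.sum_mul, mul_assoc]
          rw [Finset.sum_comm]
          simp [← Finset.mul_sum, hτ]
        rw [← e, hx]
        simp))
      apply hl'
      rw [hev τ l P]
      have : q l ∈ 𝔪 := hle (Ideal.subset_span ⟨l, hl, rfl⟩)
      show IsAlgClosed.lift (Ideal.Quotient.mk 𝔪 (q l)) = 0
      rw [Ideal.Quotient.eq_zero_iff_mem.2 this, map_zero]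

end

end Pool.Agent.CMP
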