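import Mathlib
import Pool.Agent.MP_cbf1af_ag.cmp.Spec

/-! Row WT: a quadratic weight for the theta functions. -/

namespace Pool.Agent.CMP

theorem wt : WtStmt := by
  intro g N Θ Λ hA
  obtain ⟨b, hb⟩ := hA.lat
  have hbm : ∀ k, b k ∈ Λ := fun k => hb ▸ AddSubgroup.subset_closure ⟨k, rfl⟩
  choose L c hL using fun k => hA.theta (b k) (hbm k)
  let β : (Fin g → ℂ) →ₗ[ℝ] (Fin g → ℂ) →ₗ[ℝ] ℝ :=
    b.constr ℝ (fun k => Complex.reLm ∘ₗ (L k).restrictScalars ℝ)
  have hβ : ∀ k z, β (b k) z = (L k z).re := fun k z => by simp [β]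
  have hs0 : ∀ j k, β (b k) (b j) = β (b j) (b k) := by
    intro j k
    have h1 := hL k 0 (b j)
    have h2 := hL j 0 (b k)
    have h3 := hL j 0 0
    have h4 := hL k 0 0
    rw [zero_add, map_zero, zero_add] at h3 h4
    rw [add_comm (b j), h2, h3, h4, ← mul_assoc, ← mul_assoc] at h1
    have h5 := congrArg (fun x => ‖x‖) (mul_right_cancel₀ hA.ne0 h1)
    simp only [norm_mul, Complex.norm_exp, ← Real.exp_add, Real.exp_eq_exp, Complex.add_re] at h5
    rw [hβ, hβ]; linarith
  have hs : ∀ x y, β x y = β y x := by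
    have : β = β.flip := b.ext fun k => b.ext fun j => by simpa using hs0 j k
    intro x y
    conv_lhs => rw [this]
    rfl
  let γ : (Fin g → ℂ) →ₗ[ℝ] ℝ := b.constr ℝ (fun k => (c k).re - β (b k) (b k) / 2)
  have hγ : ∀ k, γ (b k) = (c k).re - β (b k) (b k) / 2 := fun k => by simp [γ]
  let B := β.toContinuousBilinearMap
  have hu : ∀ p ζ, (β (p + ζ) (p + ζ) / 2 + γ (p + ζ)) - (β p p / 2 + γ p) =
      (β p ζ + γ ζ) + β ζ ζ / 2 := by
    intro p ζ
    simp only [map_add, LinearMap.add_apply, hs ζ p]; ring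
  have per : ∀ l ∈ Λ, ∀ z, ∃ a : ℂ,
      ‖a‖ * Real.exp (-(β (z + l) (z + l) / 2 + γ (z + l))) = Real.exp (-(β z z / 2 + γ z)) ∧
      ∀ i, Θ i (z + l) = a * Θ i z := by
    intro l hl
    rw [hb] at hl
    induction hl using AddSubgroup.closure_induction with
    | mem x hx =>
      obtain ⟨k, rfl⟩ := hx
      intro z
      refine ⟨_, ?_, fun i => hL k i z⟩
      rw [Complex.norm_exp, ← Real.exp_add, Complex.add_re, ← hβ]
      congr 1
      have := hu z (b k)
      rw [hγ, hs z (b k)] at this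
      linarith
    | zero => intro z; exact ⟨1, by simp, by simp⟩
    | add x y _ _ hx hy =>
      intro z
      obtain ⟨a, ha, ha'⟩ := hx z
      obtain ⟨a', hb, hb'⟩ := hy (z + x)
      refine ⟨a * a', ?_, fun i => ?_⟩
      · rw [← add_assoc, norm_mul, mul_assoc, hb, ha]
      · rw [← add_assoc, hb', ha']; ring
    | neg x _ hx =>
      intro z
      obtain ⟨a, ha, ha'⟩ := hx (z + -x)
      rw [neg_add_cancel_right] at ha ha'
      have h0 : a ≠ 0 := by
        rintro rfl
        rw [norm_zero, zero_mul] at ha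
        exact (Real.exp_pos _).ne ha
      refine ⟨a⁻¹, ?_, fun i => ?_⟩
      · rw [← ha, norm_inv, inv_mul_cancel_left₀ (norm_ne_zero_iff.2 h0)]
      · rw [ha', inv_mul_cancel_left₀ h0]
  refine ⟨fun z => β z z / 2 + γ z, ⟨‖B‖ / 2, fun p => ?_⟩, per, ?_⟩
  · refine ⟨StrongDual.extendRCLike (LinearMap.toContinuousLinearMap (β p + γ)), fun ζ => ?_⟩
    have h1 : ((StrongDual.extendRCLike (𝕜 := ℂ)
        (LinearMap.toContinuousLinearMap (β p + γ))) ζ).re = β p ζ + γ ζ :=
      StrongDual.re_extendRCLike_apply (𝕜 := ℂ) _ ζ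
    rw [h1, hu, add_sub_cancel_left, abs_div, abs_two]
    have := B.le_opNorm₂ ζ ζ
    rw [Real.norm_eq_abs] at this
    change |β ζ ζ| ≤ _ at this
    nlinarith
  · have hc : Continuous fun z => ∑ i, ‖Θ i z‖ * Real.exp (-(β z z / 2 + γ z)) := by
      have h0 : Continuous fun z => B z z := B.continuous.clm_apply continuous_id
      have h1 : Continuous fun z => β z z := h0
      have h2 : Continuous γ := γ.continuous_of_finiteDimensional
      have h3 : ∀ i, Continuous (Θ i) := fun i =>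
        continuous_iff_continuousAt.2 fun z => (hA.hol i z).continuousAt
      exact continuous_finsetSum _ fun i _ => (h3 i).norm.mul
        (Real.continuous_exp.comp ((h1.div_const 2).add h2).neg)
    obtain ⟨C, hC⟩ := (isCompact_closedBall (0 : Fin g → ℂ) (∑ i, ‖b i‖)).bddAbove_image
      hc.continuousOn
    refine ⟨C, fun i z => ?_⟩
    have hm : (ZSpan.floor b z : Fin g → ℂ) ∈ Λ := by
      rw [hb, ← Submodule.span_int_eq_addSubgroupClosure]
      exact (ZSpan.floor b z).2
    obtain ⟨a, ha, ha'⟩ := per _ hm (ZSpan.fract b z)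
    rw [ZSpan.fract_apply, sub_add_cancel, ← ZSpan.fract_apply] at ha ha'
    have h4 := hC ⟨ZSpan.fract b z, by simpa using ZSpan.norm_fract_le b z, rfl⟩
    refine le_trans ?_ h4
    refine le_trans (le_of_eq ?_) (Finset.single_le_sum (f := fun i => ‖Θ i (ZSpan.fract b z)‖ *
      Real.exp (-(β (ZSpan.fract b z) (ZSpan.fract b z) / 2 + γ (ZSpan.fract b z))))
      (fun i _ => by positivity) (Finset.mem_univ i))
    rw [ha', norm_mul, ← ha]; ring

end Pool.Agent.CMP
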