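import Mathlib
import Pool.Agent.MP_cbf1af_ag.cmp.Basic

/-! PROJECT CMP, row ZERO: the multiplicity estimate. -/

namespace Pool.Agent.CMP

theorem zero (hH : HilbStmt) (hC : CompStmt) (hJ : JetStmt) (hL : LocStmt) : ZeroStmt := by
  intro g N Θ Λ hA
  obtain ⟨c, hc⟩ := hJ g N Θ Λ hA
  obtain ⟨C, hl⟩ := hL g N Θ Λ hA (hH g N Θ Λ hA)
  refine ⟨C * (c + 1) ^ g, fun r w D T P hw hP hne hT hO => ?_⟩
  obtain ⟨hcl, hjet⟩ := hc r w D P hP
  obtain ⟨j, -, Z, hZ, b, n, hb, hb0, hy⟩ := hC g N Θ Λ hA (hH g N Θ Λ hA)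
    (fun j => {z | Ord w (j * T + 1) (ev Θ P) z}) (fun j => hcl _)
    (fun i j hij z hz => Ord.mono w hz (Nat.succ_le_succ (Nat.mul_le_mul_right T hij)))
    (fun h => hne (funext fun z => by
      have h1 : z ∈ {z | Ord w (0 * T + 1) (ev Θ P) z} := by rw [h]; trivial
      exact Ord.eq_zero w h1)) hO
  obtain ⟨J, hJ1, hJ2⟩ := hjet (j * T + 1) T Z fun v hv =>
    Ord.mono w (hZ hv) (le_of_eq (by ring))
  refine (hl r w T (c * D) n J b hw hT hJ1 hb hb0 fun y h => hy y (hJ2 y h)).trans ?_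
  rw [mul_assoc, ← mul_pow]
  refine Nat.mul_le_mul_left _ (Nat.pow_le_pow_left ?_ g)
  have e : (c + 1) * (D + 1) = c * D + 1 + (c + D) := by ring
  omega

end Pool.Agent.CMP
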