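import Mathlib
import Pool.Agent.MP_cbf1af_ag.cmp.Apx
import Pool.Agent.MP_cbf1af_ag.cmp.AuxF
import Pool.Agent.MP_cbf1af_ag.cmp.Comp
import Pool.Agent.MP_cbf1af_ag.cmp.Cor
import Pool.Agent.MP_cbf1af_ag.cmp.Core
import Pool.Agent.MP_cbf1af_ag.cmp.Der
import Pool.Agent.MP_cbf1af_ag.cmp.Hilb
import Pool.Agent.MP_cbf1af_ag.cmp.Jet
import Pool.Agent.MP_cbf1af_ag.cmp.Liou
import Pool.Agent.MP_cbf1af_ag.cmp.Loc
import Pool.Agent.MP_cbf1af_ag.cmp.Main
import Pool.Agent.MP_cbf1af_ag.cmp.Samp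
import Pool.Agent.MP_cbf1af_ag.cmp.Tay
import Pool.Agent.MP_cbf1af_ag.cmp.Wd
import Pool.Agent.MP_cbf1af_ag.cmp.Wt
import Pool.Agent.MP_cbf1af_ag.cmp.Zero

/-! PROJECT CMP: assembly. -/

namespace Pool.Agent.CMP

theorem zero_final : ZeroStmt := zero (hilb wt samp) comp (jet cauchy ordIff) (loc apx)

theorem main_final : MainStmt :=
  main (core cauchy ordIff (aux wt samp) zero_final der tay liou')

theorem cor_final : CorStmt := cor main_final

end Pool.Agent.CMP
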