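import Mathlib
import Pool.Agent.MP_cbf1af_ag.cmp.Spec

/-! PROJECT CMP, row REL: a small integer relation by the pigeonhole principle. -/

namespace Pool.Agent.CMP

open MvPolynomial

noncomputable section

namespace RelH

section LenApi

variable {B : Type}

theorem len_mono [AddCommMonoid B] {A A' : Set B} {L L' : ℕ} {x : B} (h : Len A L x)
    (hA : A ⊆ A') (hL : L ≤ L') : Len A' L' x := by
  obtain ⟨l, h1, h2, h3⟩ := h
  exact ⟨l, h1.trans hL, fun y hy => hA (h2 y hy), h3⟩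

theorem len_zero [AddCommMonoid B] (A : Set B) (L : ℕ) : Len A L 0 :=
  ⟨[], Nat.zero_le _, by simp, rfl⟩

theorem len_single [AddCommMonoid B] {A : Set B} {x : B} (h : x ∈ A) : Len A 1 x :=
  ⟨[x], le_rfl, by simpa using h, by simp⟩

theorem len_add [AddCommMonoid B] {A : Set B} {L L' : ℕ} {x y : B} (h : Len A L x)
    (h' : Len A L' y) : Len A (L + L') (x + y) := by
  obtain ⟨l, h1, h2, h3⟩ := h
  obtain ⟨l', h1', h2', h3'⟩ := h'
  refine ⟨l ++ l', by simpa using Nat.add_le_add h1 h1', ?_, by simp [h3, h3']⟩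
  intro z hz
  rcases List.mem_append.1 hz with hz | hz
  · exact h2 z hz
  · exact h2' z hz

theorem len_sum [AddCommMonoid B] {A : Set B} {ι : Type} (s : Finset ι) (L : ℕ) (f : ι → B)
    (h : ∀ i ∈ s, Len A L (f i)) : Len A (s.card * L) (∑ i ∈ s, f i) := by
  classical
  induction s using Finset.induction_on with
  | empty => simpa using len_zero A 0
  | insert a s ha ih =>
    rw [Finset.sum_insert ha, Finset.card_insert_of_notMem ha]
    refine len_mono (len_add (h a (Finset.mem_insert_self _ _))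
      (ih fun i hi => h i (Finset.mem_insert_of_mem hi))) subset_rfl (le_of_eq (by ring))

theorem len_nsmul [AddCommMonoid B] {A : Set B} {L : ℕ} {x : B} (h : Len A L x) (c : ℕ) :
    Len A (c * L) (c • x) := by
  have := len_sum (A := A) (Finset.range c) L (fun _ => x) (fun _ _ => h)
  simpa using this

theorem len_map [AddCommMonoid B] {B' : Type} [AddCommMonoid B'] {A : Set B} {A' : Set B'}
    (φ : B →+ B') (hφ : ∀ y ∈ A, φ y ∈ A') {L : ℕ} {x : B} (h : Len A L x) :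
    Len A' L (φ x) := by
  obtain ⟨l, h1, h2, h3⟩ := h
  refine ⟨l.map φ, by simpa using h1, ?_, by rw [← h3, map_list_sum]⟩
  intro y hy
  obtain ⟨z, hz, rfl⟩ := List.mem_map.1 hy
  exact hφ z (h2 z hz)

theorem len_mul [CommRing B] {A A' A'' : Set B} (hA : ∀ y ∈ A, ∀ z ∈ A', y * z ∈ A'')
    {L L' : ℕ} {x y : B} (h : Len A L x) (h' : Len A' L' y) : Len A'' (L * L') (x * y) := by
  obtain ⟨l, h1, h2, h3⟩ := h
  subst h3
  have key : ∀ l : List B, (∀ z ∈ l, z ∈ A) → Len A'' (l.length * L') (l.sum * y) := by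
    intro l
    induction l with
    | nil => intro _; simpa using len_zero A'' 0
    | cons a l ih =>
      intro hl
      rw [List.sum_cons, add_mul]
      have h1 : Len A'' L' (a * y) :=
        len_map (AddMonoidHom.mulLeft a) (fun z hz => hA a (hl a (by simp)) z hz) h'
      refine len_mono (len_add h1 (ih fun z hz => hl z (by simp [hz]))) subset_rfl
        (le_of_eq (by simp; ring))
  exact len_mono (key l h2) subset_rfl (Nat.mul_le_mul_right _ h1)

theorem mon_mono {ι : Type} [CommRing B] (θ : ι → B) {n n' : ℕ} (h : n ≤ n') :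
    Mon θ n ⊆ Mon θ n' := by
  rintro x ⟨l, h1, h2⟩
  exact ⟨l, h1.trans h, h2⟩

theorem mon_one {ι : Type} [CommRing B] (θ : ι → B) (n : ℕ) : (1 : B) ∈ Mon θ n :=
  ⟨[], Nat.zero_le _, Or.inl (by simp)⟩

theorem mon_gen {ι : Type} [CommRing B] (θ : ι → B) {n : ℕ} (hn : 1 ≤ n) (i : ι) :
    θ i ∈ Mon θ n :=
  ⟨[i], hn, Or.inl (by simp)⟩

theorem mon_mul {ι : Type} [CommRing B] (θ : ι → B) {n n' : ℕ} {x y : B} (hx : x ∈ Mon θ n)
    (hy : y ∈ Mon θ n') : x * y ∈ Mon θ (n + n') := by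
  obtain ⟨l, h1, h2⟩ := hx
  obtain ⟨l', h1', h2'⟩ := hy
  refine ⟨l ++ l', by simpa using Nat.add_le_add h1 h1', ?_⟩
  rcases h2 with rfl | rfl <;> rcases h2' with rfl | rfl <;> simp

end LenApi

/-- functions of `(lam, z)` -/
abbrev Fn (t : ℕ) : Type := (Fin (t + 1) → ℂ) × ℂ → ℂ

/-- the monomial `lam ^ α * z ^ ε` -/
def mo {t : ℕ} (α : Fin (t + 1) → ℕ) (ε : ℕ) : Fn t := fun p => (∏ j, p.1 j ^ α j) * p.2 ^ ε

theorem mo_add {t : ℕ} (α α' : Fin (t + 1) → ℕ) (ε ε' : ℕ) :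
    mo (α + α') (ε + ε') = mo α ε * mo α' ε' := by
  funext p
  simp only [mo, Pi.add_apply, Pi.mul_apply, pow_add, Finset.prod_mul_distrib]
  ring

/-- monomials in `(lam, z)` times a signed monomial in `θ` -/
def Tm {m : ℕ} (θ : Fin m → ℂ) (t a e n : ℕ) : Set (Fn t) :=
  {f | ∃ (α : Fin (t + 1) → ℕ) (ε : ℕ) (x : ℂ), (∀ j, α j ≤ a) ∧ ε ≤ e ∧ x ∈ Mon θ n ∧
    f = x • mo α ε}

variable {m : ℕ} (θ : Fin m → ℂ) (t : ℕ)

theorem tm_mono {a e n a' e' n' : ℕ} (ha : a ≤ a') (he : e ≤ e') (hn : n ≤ n') :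
    Tm θ t a e n ⊆ Tm θ t a' e' n' := by
  rintro f ⟨α, ε, x, h1, h2, h3, h4⟩
  exact ⟨α, ε, x, fun j => (h1 j).trans ha, h2.trans he, mon_mono θ hn h3, h4⟩

theorem tm_mul {a e n a' e' n' : ℕ} : ∀ f ∈ Tm θ t a e n, ∀ g ∈ Tm θ t a' e' n',
    f * g ∈ Tm θ t (a + a') (e + e') (n + n') := by
  rintro f ⟨α, ε, x, h1, h2, h3, rfl⟩ g ⟨α', ε', x', h1', h2', h3', rfl⟩
  refine ⟨α + α', ε + ε', x * x', fun j => Nat.add_le_add (h1 j) (h1' j), Nat.add_le_add h2 h2',
    mon_mul θ h3 h3', ?_⟩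
  rw [mo_add, smul_mul_smul_comm]

theorem tm_mo {a e : ℕ} (α : Fin (t + 1) → ℕ) (ε : ℕ) (h1 : ∀ j, α j ≤ a) (h2 : ε ≤ e) :
    mo α ε ∈ Tm θ t a e 0 :=
  ⟨α, ε, 1, h1, h2, mon_one θ 0, by simp⟩

/-- coefficients with respect to the monomials of a box -/
theorem exists_coef {a e n L : ℕ} {f : Fn t} (h : Len (Tm θ t a e n) L f) :
    ∃ coef : (Fin (t + 1) → Fin (a + 1)) × Fin (e + 1) → ℂ, (∀ κ, Sz θ n L (coef κ)) ∧
      f = ∑ κ, coef κ • mo (fun j => κ.1 j) κ.2 := by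
  classical
  obtain ⟨l, h1, h2, rfl⟩ := h
  have key : ∀ l : List (Fn t), (∀ y ∈ l, y ∈ Tm θ t a e n) →
      ∃ coef : (Fin (t + 1) → Fin (a + 1)) × Fin (e + 1) → ℂ,
        (∀ κ, Sz θ n l.length (coef κ)) ∧ l.sum = ∑ κ, coef κ • mo (fun j => κ.1 j) κ.2 := by
    intro l
    induction l with
    | nil => intro _; exact ⟨0, fun _ => len_zero _ _, by simp⟩
    | cons y l ih =>
      intro hl
      obtain ⟨c, hc1, hc2⟩ := ih fun z hz => hl z (by simp [hz])
      obtain ⟨α, ε, x, g1, g2, g3, g4⟩ := hl y (by simp)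
      let κ0 : (Fin (t + 1) → Fin (a + 1)) × Fin (e + 1) :=
        (fun j => ⟨α j, Nat.lt_succ_of_le (g1 j)⟩, ⟨ε, Nat.lt_succ_of_le g2⟩)
      refine ⟨Pi.single κ0 x + c, fun κ => ?_, ?_⟩
      · have h0 : Len (Mon θ n) 1 ((Pi.single κ0 x :
            (Fin (t + 1) → Fin (a + 1)) × Fin (e + 1) → ℂ) κ) := by
          by_cases hk : κ = κ0
          · subst hk; simpa using len_single g3
          · rw [Pi.single_eq_of_ne hk]; exact len_zero _ _
        exact len_mono (len_add h0 (hc1 κ)) subset_rfl (le_of_eq (by simp; ring))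
      · rw [List.sum_cons, hc2, g4]
        simp only [Pi.add_apply, add_smul, Finset.sum_add_distrib]
        congr 1
        rw [Finset.sum_eq_single κ0]
        · simp [κ0]
        · intro b _ hb; simp [Pi.single_eq_of_ne hb]
        · simp
  obtain ⟨c, hc1, hc2⟩ := key l h2
  exact ⟨c, fun κ => len_mono (hc1 κ) subset_rfl h1, hc2⟩

variable {n : ℕ} (q : Fin n → ℂ)

/-- the linear forms as functions of `(lam, z)` -/
def ps (j : Fin (t + 1)) : Fn t := fun p => psi θ q (p.1 j) p.2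

theorem mo_single (j : Fin (t + 1)) (i ε : ℕ) (p : (Fin (t + 1) → ℂ) × ℂ) :
    mo (Pi.single j i) ε p = p.1 j ^ i * p.2 ^ ε := by
  classical
  simp only [mo]
  congr 1
  rw [Finset.prod_eq_single j]
  · simp
  · intro b _ hb; simp [Pi.single_eq_of_ne hb]
  · simp

theorem single_le (j : Fin (t + 1)) {i a : ℕ} (h : i ≤ a) (k : Fin (t + 1)) :
    (Pi.single j i : Fin (t + 1) → ℕ) k ≤ a := by
  classical
  by_cases hk : k = j
  · subst hk; simpa using h
  · simp [Pi.single_eq_of_ne hk]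

theorem len_ps {δ S : ℕ} (hδ : 1 ≤ δ) (hq : ∀ i, Sz θ δ (2 ^ S) (q i)) (j : Fin (t + 1)) :
    Len (Tm θ t (m + n) 1 δ) ((m + n + 1) * 2 ^ S) (ps θ t q j) := by
  have e : ps θ t q j = ∑ i : Fin m, θ i • mo (Pi.single j (i : ℕ)) 0 +
      ∑ i : Fin n, q i • mo (Pi.single j (m + (i : ℕ))) 1 := by
    funext p
    simp only [ps, psi, Pi.add_apply, Finset.sum_apply, Pi.smul_apply, mo_single, smul_eq_mul,
      Finset.mul_sum]
    congr 1
    · exact Finset.sum_congr rfl fun i _ => by ring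
    · exact Finset.sum_congr rfl fun i _ => by ring
  rw [e]
  have h1 : Len (Tm θ t (m + n) 1 δ) ((Finset.univ : Finset (Fin m)).card * 1)
      (∑ i : Fin m, θ i • mo (Pi.single j (i : ℕ)) 0) :=
    len_sum _ _ _ fun i _ => len_single ⟨_, 0, θ i,
      single_le t j (by have := i.2; omega), Nat.zero_le _, mon_gen θ hδ i, rfl⟩
  have h2 : Len (Tm θ t (m + n) 1 δ) ((Finset.univ : Finset (Fin n)).card * 2 ^ S)
      (∑ i : Fin n, q i • mo (Pi.single j (m + (i : ℕ))) 1) := by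
    refine len_sum _ _ _ fun i _ => ?_
    exact len_map ((LinearMap.toSpanSingleton ℂ (Fn t)
      (mo (Pi.single j (m + (i : ℕ))) 1)).toAddMonoidHom)
      (A := Mon θ δ) (A' := Tm θ t (m + n) 1 δ)
      (fun y hy => ⟨_, 1, y, single_le t j (by have := i.2; omega), le_rfl, hy, rfl⟩) (hq i)
  refine len_mono (len_add h1 h2) subset_rfl ?_
  have : 1 ≤ 2 ^ S := Nat.one_le_two_pow
  simp only [Finset.card_univ, Fintype.card_fin]
  nlinarith

/-- products of at most `k` linear forms -/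
def Pk (a δ W k : ℕ) (f : Fn t) : Prop := Len (Tm θ t (k * a) k (k * δ)) (W ^ k) f

theorem pk_zero (a δ W : ℕ) : Pk θ t a δ W 0 1 := by
  have h : (1 : Fn t) ∈ Tm θ t (0 * a) 0 (0 * δ) := by
    refine ⟨0, 0, 1, fun _ => Nat.zero_le _, le_rfl, mon_one θ _, ?_⟩
    funext p; simp [mo]
  exact len_mono (len_single h) subset_rfl (by simp)

theorem pk_mul {a δ W k k' : ℕ} {f g : Fn t} (hf : Pk θ t a δ W k f) (hg : Pk θ t a δ W k' g) :
    Pk θ t a δ W (k + k') (f * g) := by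
  refine len_mono (len_mul (tm_mul θ t) hf hg) (tm_mono θ t ?_ le_rfl ?_) ?_
  · exact le_of_eq (by ring)
  · exact le_of_eq (by ring)
  · exact le_of_eq (by ring)

theorem pk_mono {a δ W k k' : ℕ} (hW : 1 ≤ W) (hk : k ≤ k') {f : Fn t}
    (hf : Pk θ t a δ W k f) : Pk θ t a δ W k' f :=
  len_mono hf (tm_mono θ t (Nat.mul_le_mul_right _ hk) hk (Nat.mul_le_mul_right _ hk))
    (Nat.pow_le_pow_right hW hk)

theorem pk_pow {a δ W : ℕ} {f : Fn t} (hf : Pk θ t a δ W 1 f) (k : ℕ) :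
    Pk θ t a δ W k (f ^ k) := by
  induction k with
  | zero => simpa using pk_zero θ t a δ W
  | succ k ih => rw [pow_succ]; exact pk_mul θ t ih hf

theorem pk_prod {a δ W N : ℕ} {ι : Type} (s : Finset ι) (f : ι → Fn t)
    (hf : ∀ i ∈ s, Pk θ t a δ W N (f i)) : Pk θ t a δ W (s.card * N) (∏ i ∈ s, f i) := by
  classical
  induction s using Finset.induction_on with
  | empty => simpa using pk_zero θ t a δ W
  | insert b s hb ih =>
    rw [Finset.prod_insert hb, Finset.card_insert_of_notMem hb]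
    have := pk_mul θ t (hf b (Finset.mem_insert_self _ _))
      (ih fun i hi => hf i (Finset.mem_insert_of_mem hi))
    rwa [show N + s.card * N = (s.card + 1) * N by ring] at this

/-- index set of the unknown coefficients -/
abbrev Idx (t N a : ℕ) : Type :=
  (Fin (t + 1) → Fin (N * a + 1)) × (Fin (t + 1) → Fin (N + 1)) × Fin (N + 1)

/-- the function attached to an index -/
def gi {N a : ℕ} (i : Idx t N a) : Fn t :=
  mo (fun j => i.1 j) i.2.2 * ∏ j, ps θ t q j ^ (i.2.1 j : ℕ)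

theorem len_gi {δ S N : ℕ} (hδ : 1 ≤ δ) (hq : ∀ i, Sz θ δ (2 ^ S) (q i))
    (i : Idx t N (m + n)) :
    Len (Tm θ t ((t + 2) * N * (m + n)) ((t + 2) * N) ((t + 1) * N * δ))
      (((m + n + 1) * 2 ^ S) ^ ((t + 1) * N)) (gi θ t q i) := by
  have hW : 1 ≤ (m + n + 1) * 2 ^ S := Nat.mul_pos (Nat.succ_pos _) Nat.one_le_two_pow
  have h1 : ∀ j, Pk θ t (m + n) δ ((m + n + 1) * 2 ^ S) 1 (ps θ t q j) := fun j => by
    simpa [Pk] using len_ps θ t q hδ hq j
  have h2 := pk_prod θ t (a := m + n) (δ := δ) (W := (m + n + 1) * 2 ^ S) (N := N) Finset.univ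
    (fun j => ps θ t q j ^ (i.2.1 j : ℕ))
    (fun j _ => pk_mono θ t hW (Nat.lt_succ_iff.1 (i.2.1 j).2) (pk_pow θ t (h1 j) _))
  simp only [Finset.card_univ, Fintype.card_fin] at h2
  have h3 := len_single (tm_mo θ t (a := N * (m + n)) (e := N) (fun j => i.1 j) i.2.2
    (fun j => Nat.lt_succ_iff.1 (i.1 j).2) (Nat.lt_succ_iff.1 i.2.2.2))
  refine len_mono (len_mul (tm_mul θ t) h3 h2) (tm_mono θ t ?_ ?_ ?_) ?_
  · exact le_of_eq (by ring)
  · exact le_of_eq (by ring)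
  · exact le_of_eq (by ring)
  · exact le_of_eq (by ring)

/-- exponent vector of an index -/
def ex {N a : ℕ} (i : Idx t N a) : (Fin (t + 1) ⊕ Fin (t + 1)) →₀ ℕ :=
  Finsupp.equivFunOnFinite.symm (Sum.elim (fun j => (i.1 j : ℕ)) fun j => (i.2.1 j : ℕ))

/-- the polynomial with given coefficients -/
def pol {N a : ℕ} (d : Idx t N a → ℤ) :
    Polynomial (MvPolynomial (Fin (t + 1) ⊕ Fin (t + 1)) ℤ) :=
  ∑ i, Polynomial.monomial (i.2.2 : ℕ) (monomial (ex t i) (d i))

theorem pol_coeff {N a : ℕ} (d : Idx t N a → ℤ) (e : ℕ) :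
    (pol t d).coeff e = ∑ i, if (i.2.2 : ℕ) = e then monomial (ex t i) (d i) else 0 := by
  simp only [pol, Polynomial.finsetSum_coeff, Polynomial.coeff_monomial]

theorem pol_ne {N a : ℕ} (d : Idx t N a → ℤ) (hd : d ≠ 0) : pol t d ≠ 0 := by
  classical
  intro h
  apply hd
  funext i
  have h1 : ((pol t d).coeff i.2.2).coeff (ex t i) = d i := by
    rw [pol_coeff, coeff_sum, Finset.sum_eq_single i]
    · simp
    · intro b _ hb
      split_ifs with h2
      · rw [coeff_monomial, if_neg]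
        intro h3
        apply hb
        have h4 := Finsupp.equivFunOnFinite.symm.injective h3
        refine Prod.ext (funext fun j => Fin.ext ?_) (Prod.ext (funext fun j => Fin.ext ?_)
          (Fin.ext h2))
        · exact congrFun h4 (Sum.inl j)
        · exact congrFun h4 (Sum.inr j)
      · simp
    · simp
  rw [h] at h1
  simpa using h1.symm

theorem pol_natDegree {N a : ℕ} (d : Idx t N a → ℤ) : (pol t d).natDegree ≤ N :=
  Polynomial.natDegree_sum_le_of_forall_le _ _ fun i _ =>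
    (Polynomial.natDegree_monomial_le _).trans (Nat.lt_succ_iff.1 i.2.2.2)

theorem pol_support {N a : ℕ} (d : Idx t N a → ℤ) (e : ℕ) :
    ∀ μ ∈ ((pol t d).coeff e).support, ∑ j, μ (Sum.inr j) ≤ (t + 1) * N := by
  classical
  intro μ hμ
  rw [pol_coeff] at hμ
  obtain ⟨i, -, hi⟩ := Finset.mem_biUnion.1 (support_sum hμ)
  split_ifs at hi with h
  · have := Finset.mem_singleton.1 (support_monomial_subset hi)
    subst this
    have h2 : ∑ j : Fin (t + 1), ex t i (Sum.inr j) ≤ ∑ _j : Fin (t + 1), N :=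
      Finset.sum_le_sum fun j _ => by
        simpa [ex] using Nat.lt_succ_iff.1 (i.2.1 j).2
    simpa using h2
  · simp at hi

theorem l1_add {τ : Type} (p p' : MvPolynomial τ ℤ) : l1 (p + p') ≤ l1 p + l1 p' := by
  classical
  have key : ∀ (r : MvPolynomial τ ℤ) (s : Finset (τ →₀ ℕ)), r.support ⊆ s →
      l1 r = ∑ μ ∈ s, (r.coeff μ).natAbs := fun r s hs =>
    Finset.sum_subset hs fun μ _ hμ => by simp [notMem_support_iff.1 hμ]
  rw [key (p + p') (p.support ∪ p'.support) support_add,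
    key p (p.support ∪ p'.support) Finset.subset_union_left,
    key p' (p.support ∪ p'.support) Finset.subset_union_right, ← Finset.sum_add_distrib]
  exact Finset.sum_le_sum fun μ _ => by rw [coeff_add]; exact Int.natAbs_add_le _ _

theorem l1_monomial {τ : Type} (μ : τ →₀ ℕ) (c : ℤ) : l1 (monomial μ c) ≤ c.natAbs := by
  classical
  calc l1 (monomial μ c) ≤ ∑ ν ∈ {μ}, ((monomial μ c).coeff ν).natAbs :=
        Finset.sum_le_sum_of_subset support_monomial_subset
    _ = c.natAbs := by simp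

theorem l1_sum {τ ι : Type} (s : Finset ι) (f : ι → MvPolynomial τ ℤ) (H : ℕ)
    (h : ∀ i ∈ s, l1 (f i) ≤ H) : l1 (∑ i ∈ s, f i) ≤ s.card * H := by
  classical
  induction s using Finset.induction_on with
  | empty => simp [l1]
  | insert b s hb ih =>
    rw [Finset.sum_insert hb, Finset.card_insert_of_notMem hb]
    have h1 := h b (Finset.mem_insert_self _ _)
    have h2 := ih fun i hi => h i (Finset.mem_insert_of_mem hi)
    have h3 := l1_add (f b) (∑ i ∈ s, f i)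
    nlinarith

theorem pol_l1 {N a : ℕ} (d : Idx t N a → ℤ) (H : ℕ) (hd : ∀ i, (d i).natAbs ≤ H) (e : ℕ) :
    l1 ((pol t d).coeff e) ≤ Fintype.card (Idx t N a) * H := by
  rw [pol_coeff]
  refine l1_sum _ _ H fun i _ => ?_
  split_ifs
  · exact (l1_monomial _ _).trans (hd i)
  · simp [l1]

theorem pol_eval {N a : ℕ} (d : Idx t N a → ℤ) (lam : Fin (t + 1) → ℂ) (z : ℂ) :
    (pol t d).eval₂ (eval₂Hom (Int.castRingHom ℂ)
      (Sum.elim lam fun j => psi θ q (lam j) z)) z = ∑ i, (d i : ℂ) * gi θ t q i (lam, z) := by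
  rw [pol, Polynomial.eval₂_finsetSum]
  refine Finset.sum_congr rfl fun i _ => ?_
  rw [Polynomial.eval₂_monomial, eval₂Hom_monomial, Finsupp.prod_fintype _ _ (by simp)]
  simp only [ex, Finsupp.equivFunOnFinite_symm_apply_apply, Fintype.prod_sum_type, Sum.elim_inl,
    Sum.elim_inr, gi, mo, ps, Pi.mul_apply, Finset.prod_apply, Pi.pow_apply, eq_intCast]
  ring

/-- the counting inequality -/
theorem count_lt (C0 δ N a : ℕ) (hδ : 1 ≤ δ)
    (hN : N = 2 * C0 * (t + 1) ^ t * (t + 2) ^ (t + 2) * δ ^ t) :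
    2 * (C0 * ((t + 1) * N * δ + 1) ^ t *
      (((t + 2) * N * a + 1) ^ (t + 1) * ((t + 2) * N + 1))) <
      (N * a + 1) ^ (t + 1) * ((N + 1) ^ (t + 1) * (N + 1)) := by
  have h1 : (t + 1) * N * δ + 1 ≤ (t + 1) * δ * (N + 1) := by
    have : 1 ≤ (t + 1) * δ := Nat.mul_pos (Nat.succ_pos _) hδ
    nlinarith
  have h2 : (t + 2) * N * a + 1 ≤ (t + 2) * (N * a + 1) := by nlinarith
  have h3 : (t + 2) * N + 1 ≤ (t + 2) * (N + 1) := by nlinarith
  calc 2 * (C0 * ((t + 1) * N * δ + 1) ^ t *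
      (((t + 2) * N * a + 1) ^ (t + 1) * ((t + 2) * N + 1)))
      ≤ 2 * (C0 * ((t + 1) * δ * (N + 1)) ^ t *
        (((t + 2) * (N * a + 1)) ^ (t + 1) * ((t + 2) * (N + 1)))) := by gcongr
    _ = (N * a + 1) ^ (t + 1) * ((N + 1) ^ (t + 1) *
        (2 * C0 * (t + 1) ^ t * (t + 2) ^ (t + 2) * δ ^ t)) := by
        simp only [mul_pow]; ring
    _ < (N * a + 1) ^ (t + 1) * ((N + 1) ^ (t + 1) * (N + 1)) := by
        rw [← hN]; gcongr; exact Nat.lt_succ_self _

/-- the size inequality -/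
theorem size_le (C0 δ S N U W : ℕ) (hδ : 1 ≤ δ) (hN : 1 ≤ N) (hn : n ≤ 2 ^ S)
    (hU : U = (N * (m + n) + 1) ^ (t + 1) * ((N + 1) ^ (t + 1) * (N + 1)))
    (hW : W = ((m + n + 1) * 2 ^ S) ^ ((t + 1) * N)) :
    U * (2 * C0 ^ ((t + 1) * N * δ + 1) * U * W) ≤
      2 ^ ((1 + C0 * (t + 2) + 2 * ((t + 1) * (m + 3) + (t + 2)) + (m + 3) * (t + 1)) *
        (N * (S + δ))) := by
  have a1 : m + n + 1 ≤ 2 ^ (m + 1 + S) := by
    have h1 : m + 1 < 2 ^ (m + 1) := Nat.lt_two_pow_self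
    have h2 : 1 ≤ 2 ^ S := Nat.one_le_two_pow
    rw [pow_add]
    nlinarith
  have a2 : N + 1 ≤ 2 ^ N := Nat.lt_two_pow_self
  have a3 : N * (m + n) + 1 ≤ 2 ^ (N + (m + 1 + S)) := by
    rw [pow_add]
    calc N * (m + n) + 1 ≤ (N + 1) * (m + n + 1) := by nlinarith
      _ ≤ _ := Nat.mul_le_mul a2 a1
  have a4 : C0 ≤ 2 ^ C0 := Nat.lt_two_pow_self.le
  have b1 : U ≤ 2 ^ ((N + (m + 1 + S)) * (t + 1) + (N * (t + 1) + N)) := by
    rw [hU, pow_add 2, pow_add 2 (N * (t + 1)), pow_mul 2, pow_mul 2]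
    gcongr
  have b2 : W ≤ 2 ^ ((m + 1 + S + S) * ((t + 1) * N)) := by
    rw [hW, pow_mul 2 (m + 1 + S + S), pow_add 2 (m + 1 + S)]
    gcongr
  have b3 : C0 ^ ((t + 1) * N * δ + 1) ≤ 2 ^ (C0 * ((t + 1) * N * δ + 1)) := by
    rw [pow_mul 2 C0]
    gcongr
  set D := N * (S + δ) with hD
  have d1 : N * δ ≤ D := by rw [hD]; nlinarith [Nat.zero_le (N * S)]
  have d2 : N * S ≤ D := by rw [hD]; nlinarith [Nat.zero_le (N * δ)]
  have d3 : N ≤ D := le_trans (by nlinarith) d1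
  have d4 : S ≤ D := le_trans (by nlinarith) d2
  have d5 : 1 ≤ D := hN.trans d3
  have e1 : C0 * ((t + 1) * N * δ + 1) ≤ C0 * (t + 2) * D := by
    rw [mul_assoc C0]
    refine Nat.mul_le_mul_left _ ?_
    have := Nat.mul_le_mul_left (t + 1) d1
    nlinarith
  have e2 : (N + (m + 1 + S)) * (t + 1) + (N * (t + 1) + N) ≤
      ((t + 1) * (m + 3) + (t + 2)) * D := by
    have h1 : N + (m + 1 + S) ≤ (m + 3) * D := by nlinarith
    have h2 := Nat.mul_le_mul_right (t + 1) h1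
    have h3 := Nat.mul_le_mul_right (t + 2) d3
    nlinarith
  have e3 : (m + 1 + S + S) * ((t + 1) * N) ≤ (m + 3) * (t + 1) * D := by
    have h1 : (m + 1 + S + S) * N ≤ (m + 3) * D := by
      have := Nat.mul_le_mul_left (m + 1) d3
      nlinarith
    have h2 := Nat.mul_le_mul_right (t + 1) h1
    nlinarith
  calc U * (2 * C0 ^ ((t + 1) * N * δ + 1) * U * W)
      ≤ 2 ^ ((N + (m + 1 + S)) * (t + 1) + (N * (t + 1) + N)) *
        (2 * 2 ^ (C0 * ((t + 1) * N * δ + 1)) *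
          2 ^ ((N + (m + 1 + S)) * (t + 1) + (N * (t + 1) + N)) *
          2 ^ ((m + 1 + S + S) * ((t + 1) * N))) := by gcongr
    _ = 2 ^ (1 + C0 * ((t + 1) * N * δ + 1) +
          2 * ((N + (m + 1 + S)) * (t + 1) + (N * (t + 1) + N)) +
          (m + 1 + S + S) * ((t + 1) * N)) := by
        generalize (N + (m + 1 + S)) * (t + 1) + (N * (t + 1) + N) = u
        generalize C0 * ((t + 1) * N * δ + 1) = v
        generalize (m + 1 + S + S) * ((t + 1) * N) = w
        ring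
    _ ≤ _ := by
        refine Nat.pow_le_pow_right (by norm_num) ?_
        nlinarith

end RelH

open RelH in
theorem rel : RelStmt := by
  classical
  intro m t θ hC
  obtain ⟨C', hC'⟩ := hC
  set C0 := C' + 1 with hC0
  set C1 := 2 * C0 * (t + 1) ^ t * (t + 2) ^ (t + 2) with hC1
  set K := 1 + C0 * (t + 2) + 2 * ((t + 1) * (m + 3) + (t + 2)) + (m + 3) * (t + 1) with hK
  refine ⟨K * C1, fun n δ S q hδ hn hq => ?_⟩
  obtain ⟨N, hN⟩ : ∃ N, N = C1 * δ ^ t := ⟨_, rfl⟩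
  have hN1 : 1 ≤ N := by
    rw [hN, hC1]
    exact Nat.succ_le_of_lt (by positivity)
  have hK1 : t + 1 ≤ K := by rw [hK]; nlinarith [Nat.zero_le (C0 * (t + 2))]
  obtain ⟨U, hU⟩ : ∃ U, U = (N * (m + n) + 1) ^ (t + 1) * ((N + 1) ^ (t + 1) * (N + 1)) :=
    ⟨_, rfl⟩
  obtain ⟨W, hW⟩ : ∃ W, W = ((m + n + 1) * 2 ^ S) ^ ((t + 1) * N) := ⟨_, rfl⟩
  obtain ⟨H, hH⟩ : ∃ H, H = 2 * C0 ^ ((t + 1) * N * δ + 1) * U * W := ⟨_, rfl⟩
  have hcard : Fintype.card (Idx t N (m + n)) = U := by simp [hU]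
  have hH1 : 1 ≤ H := by
    rw [hH, hU, hW]
    exact Nat.succ_le_of_lt (by positivity)
  obtain ⟨Sf, hS1, hS2⟩ := hC' ((t + 1) * N * δ) (U * (H * W))
  have hlen : ∀ c : Idx t N (m + n) → Fin (H + 1),
      Len (Tm θ t ((t + 2) * N * (m + n)) ((t + 2) * N) ((t + 1) * N * δ)) (U * (H * W))
        (∑ i, (c i : ℕ) • gi θ t q i) := fun c => by
    have := len_sum (A := Tm θ t ((t + 2) * N * (m + n)) ((t + 2) * N) ((t + 1) * N * δ))
      Finset.univ (H * W) (fun i => (c i : ℕ) • gi θ t q i) fun i _ =>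
        len_mono (len_nsmul (len_gi θ t q hδ hq i) (c i)) subset_rfl
          (by rw [hW]; exact Nat.mul_le_mul_right _ (Nat.lt_succ_iff.1 (c i).2))
    rwa [Finset.card_univ, hcard] at this
  choose coef hcoef1 hcoef2 using fun c => exists_coef θ t (hlen c)
  have hlt : (Fintype.piFinset fun _ : (Fin (t + 1) → Fin ((t + 2) * N * (m + n) + 1)) ×
      Fin ((t + 2) * N + 1) => Sf).card <
      (Finset.univ : Finset (Idx t N (m + n) → Fin (H + 1))).card := by
    rw [Fintype.card_piFinset, Finset.prod_const, Finset.card_univ, Finset.card_univ,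
      Fintype.card_fun, hcard]
    simp only [Fintype.card_prod, Fintype.card_fun, Fintype.card_fin]
    have h1 : Sf.card ≤ ((H + 1) ^ 2) ^ (C0 * ((t + 1) * N * δ + 1) ^ t) := by
      refine hS1.trans ?_
      have h2 : 2 * C' ^ ((t + 1) * N * δ + 1) * (U * (H * W)) + 1 ≤ (H + 1) ^ 2 := by
        have h3 : 2 * C' ^ ((t + 1) * N * δ + 1) * (U * (H * W)) ≤
            2 * C0 ^ ((t + 1) * N * δ + 1) * (U * (H * W)) := by
          gcongr; exact Nat.le_succ _
        have h4 : 2 * C0 ^ ((t + 1) * N * δ + 1) * (U * (H * W)) = H * H := by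
          conv_rhs => rw [hH]
          rw [← hH]
          nth_rewrite 2 [hH]
          ring
        nlinarith
      calc _ ≤ ((H + 1) ^ 2) ^ (C' * ((t + 1) * N * δ + 1) ^ t) := Nat.pow_le_pow_left h2 _
        _ ≤ _ := Nat.pow_le_pow_right (by positivity)
            (Nat.mul_le_mul_right _ (Nat.le_succ _))
    refine lt_of_le_of_lt (Nat.pow_le_pow_left h1 _) ?_
    rw [← pow_mul, ← pow_mul]
    refine Nat.pow_lt_pow_right (by omega) ?_
    rw [hU]
    exact count_lt t C0 δ N (m + n) hδ (by rw [hN, hC1])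
  obtain ⟨c, -, c', -, hne, heq⟩ := Finset.exists_ne_map_eq_of_card_lt_of_maps_to hlt
    (f := coef) fun c _ => by
      simpa [Fintype.mem_piFinset] using fun a b => hS2 _ (hcoef1 c (a, b))
  refine ⟨pol t fun i => ((c i : ℕ) : ℤ) - ((c' i : ℕ) : ℤ), pol_ne t _ ?_, ?_, ?_, ?_, ?_⟩
  · intro h
    apply hne
    funext i
    have := congrFun h i
    simp only [Pi.zero_apply, sub_eq_zero, Nat.cast_inj] at this
    exact Fin.ext this
  · refine (pol_natDegree t _).trans ?_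
    rw [mul_assoc, ← hN]
    nlinarith
  · intro e μ hμ
    refine (pol_support t _ e μ hμ).trans ?_
    rw [mul_assoc, ← hN]
    exact Nat.mul_le_mul_right _ hK1
  · intro e
    refine (pol_l1 t _ H (fun i => ?_) e).trans ?_
    · have h1 := (c i).2
      have h2 := (c' i).2
      omega
    · rw [hcard, hH]
      refine (size_le (m := m) t C0 δ S N U W hδ hN1 hn hU hW).trans (le_of_eq ?_)
      rw [hN]
      congr 1
      ring
  · intro lam z
    rw [pol_eval]
    have h1 := congrFun ((hcoef2 c).trans (heq ▸ (hcoef2 c').symm)) (lam, z)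
    simp only [Finset.sum_apply, nsmul_eq_mul, Pi.mul_apply, Pi.natCast_apply] at h1
    simp only [Int.cast_sub, Int.cast_natCast, sub_mul, Finset.sum_sub_distrib]
    exact sub_eq_zero.2 h1

end

end Pool.Agent.CMP
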