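import Mathlib
import Pool.Agent.MP_cbf1af_ag.cmp.Spec

/-! PROJECT CMP, row TORUS. -/

namespace Pool.Agent.CMP

open MvPolynomial Filter Topology

noncomputable section

namespace Tor

/-- maximum modulus for the leading coefficient -/
theorem circle {R : Type} [CommRing R] (φ : R →+* ℂ) (q : Polynomial R) (c : ℝ)
    (h : c < ‖φ q.leadingCoeff‖) : ∃ s : ℂ, ‖s‖ = 1 ∧ c < ‖q.eval₂ φ s‖ := by
  by_contra hc
  push Not at hc
  have hd : Differentiable ℂ fun z : ℂ => (q.reverse.map φ).eval z := Polynomial.differentiable _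
  have key : ‖(q.reverse.map φ).eval 0‖ ≤ c := by
    refine Complex.norm_le_of_forall_mem_frontier_norm_le (U := Metric.ball (0 : ℂ) 1)
      Metric.isBounded_ball hd.diffContOnCl (fun z hz => ?_)
      (subset_closure (Metric.mem_ball_self one_pos))
    rw [frontier_ball _ one_ne_zero, mem_sphere_zero_iff_norm] at hz
    have hz0 : z ≠ 0 := by
      rintro rfl
      simp at hz
    let _ : Invertible z⁻¹ := invertibleOfNonzero (inv_ne_zero hz0)
    have h1 := Polynomial.eval₂_reverse_mul_pow φ z⁻¹ q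
    have h2 := hc z⁻¹ (by rw [norm_inv, hz, inv_one])
    rw [← h1, invOf_eq_inv, inv_inv, norm_mul, norm_pow, norm_inv, hz, inv_one, one_pow,
      mul_one] at h2
    rwa [Polynomial.eval_map]
  rw [← Polynomial.coeff_zero_eq_eval_zero, Polynomial.coeff_map,
    Polynomial.coeff_zero_reverse] at key
  linarith

/-- an open arc is not contained in a countable set -/
theorem arc (f : ℂ → ℂ) (hf : Continuous f) (c : ℝ) (s : ℂ) (hs : ‖s‖ = 1) (h : c < ‖f s‖)
    (A : Set ℂ) (hA : A.Countable) : ∃ y : ℂ, ‖y‖ = 1 ∧ c < ‖f y‖ ∧ y ∉ A := by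
  have hs0 : s ≠ 0 := by
    rintro rfl
    simp at hs
  let γ : ℝ → ℂ := fun t => s * Complex.exp (t * Complex.I)
  have hγ : Continuous γ := by fun_prop
  have hU : IsOpen {t : ℝ | c < ‖f (γ t)‖} := isOpen_lt continuous_const (by fun_prop)
  have h0 : (0 : ℝ) ∈ {t : ℝ | c < ‖f (γ t)‖} := by simpa [γ] using h
  have hB : (γ ⁻¹' A).Countable := by
    have e : γ = circleMap 0 1 ∘ fun t => t + Complex.arg s := by
      funext t
      have := Complex.norm_mul_exp_arg_mul_I s
      rw [hs] at this
      simp only [γ, Function.comp, circleMap, zero_add, Complex.ofReal_add, add_mul,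
        Complex.exp_add]
      rw [mul_comm (Complex.exp _), ← mul_assoc, this]
    rw [e, Set.preimage_comp]
    exact (hA.preimage_circleMap 0 one_ne_zero).preimage (add_left_injective _)
  obtain ⟨t, ht, ht'⟩ := (hB.dense_compl ℝ).inter_open_nonempty _ hU ⟨0, h0⟩
  refine ⟨γ t, ?_, ht, ht'⟩
  simp [γ, hs]

theorem main (K : Type) [Field K] [Algebra K ℂ] [Countable K] (τ : Type) [Finite τ] :
    ∀ p : MvPolynomial τ ℤ, p ≠ 0 → ∃ x : τ → ℂ, (∀ j, ‖x j‖ = 1) ∧
      AlgebraicIndependent K x ∧ 1 / 2 < ‖eval₂ (Int.castRingHom ℂ) x p‖ := by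
  induction τ using Finite.induction_empty_option with
  | of_equiv e ih =>
    intro p hp
    obtain ⟨x, h1, h2, h3⟩ := ih (rename e.symm p)
      (fun h => hp (rename_injective _ e.symm.injective (by rw [h, map_zero])))
    refine ⟨x ∘ e.symm, fun j => h1 _, h2.comp _ e.symm.injective, ?_⟩
    rwa [eval₂_rename] at h3
  | h_empty =>
    intro p hp
    refine ⟨fun j => j.elim, fun j => j.elim, ?_, ?_⟩
    · exact algebraicIndependent_empty_type
    · rw [eq_C_of_isEmpty p] at hp ⊢
      have hc : p.coeff 0 ≠ 0 := fun h => hp (by rw [h, map_zero])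
      rw [eval₂_C, eq_intCast, Complex.norm_intCast]
      have : (1 : ℝ) ≤ |((p.coeff 0 : ℤ) : ℝ)| := by exact_mod_cast Int.one_le_abs hc
      linarith
  | @h_option α _ ih =>
    intro p hp
    set q := optionEquivLeft ℤ α p with hq
    have hq0 : q ≠ 0 := fun h => hp ((optionEquivLeft ℤ α).injective (by rw [← hq, h, map_zero]))
    obtain ⟨x, h1, h2, h3⟩ := ih q.leadingCoeff (Polynomial.leadingCoeff_ne_zero.2 hq0)
    obtain ⟨s, hs, hs'⟩ := circle (eval₂Hom (Int.castRingHom ℂ) x) q (1 / 2) h3
    have : Countable (Algebra.adjoin K (Set.range x)) := by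
      rw [← Cardinal.mk_le_aleph0_iff]
      refine (Algebra.cardinalMk_adjoin_le K (Set.range x)).trans (max_le (max_le ?_ ?_) le_rfl)
      · exact Cardinal.mk_le_aleph0
      · exact Cardinal.le_aleph0_iff_set_countable.2 (Set.finite_range x).countable
    obtain ⟨y, hy, hy', hyA⟩ := arc (fun z => q.eval₂ (eval₂Hom (Int.castRingHom ℂ) x) z)
      (Polynomial.continuous_eval₂ _ _) (1 / 2) s hs hs' _
      (Algebraic.countable (Algebra.adjoin K (Set.range x)) ℂ)
    refine ⟨fun o => o.elim y x, fun o => by cases o <;> simp [hy, h1],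
      AlgebraicIndependent.option_iff.2 ⟨h2, hyA⟩, ?_⟩
    have e : ∀ r : MvPolynomial (Option α) ℤ,
        eval₂ (Int.castRingHom ℂ) (fun o => o.elim y x) r =
          (optionEquivLeft ℤ α r).eval₂ (eval₂Hom (Int.castRingHom ℂ) x) y := by
      intro r
      induction r using MvPolynomial.induction_on with
      | C a => rw [optionEquivLeft_C, Polynomial.eval₂_C, eval₂_C, eval₂Hom_C]
      | add a b ha hb => rw [eval₂_add, map_add, Polynomial.eval₂_add, ha, hb]
      | mul_X a i ha =>
        rw [eval₂_mul, map_mul, Polynomial.eval₂_mul, ha]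
        cases i <;> simp
    rw [e]
    exact hy'

end Tor

theorem torus : TorusStmt := by
  intro m θ τ _ p hp
  have : Countable (IntermediateField.adjoin ℚ (Set.range θ)) := by
    rw [← Cardinal.mk_le_aleph0_iff]
    refine (IntermediateField.cardinalMk_adjoin_le ℚ (Set.range θ)).trans
      (max_le (max_le ?_ ?_) le_rfl)
    · exact Cardinal.mk_le_aleph0
    · exact Cardinal.le_aleph0_iff_set_countable.2 (Set.finite_range θ).countable
  exact Tor.main _ τ p hp

end

end Pool.Agent.CMP
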